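import Pool.Agent.MP_9b2bac_nt.B.Basic

/-!
The descent from a configuration to the configuration of its square roots.
-/

open NumberField Module Finset Polynomial

namespace Pool.Agent.MP_9b2bac_nt.B

theorem two_Hlf (K : Type) [Field K] [NumberField K] : ¬ IsUnit (2 : 𝓞 K) := by
  intro h
  have h1 := prod_unit h.unit
  simp only [IsUnit.unit_spec, map_ofNat, Complex.norm_ofNat, prod_const, card_univ] at h1
  exact absurd h1 (one_lt_pow₀ one_lt_two Fintype.card_ne_zero).ne'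

theorem root_Hlf {K : Type} [Field K] [NumberField K] (h2 : Red2 K) (η : (𝓞 K)ˣ) (j : ℕ) :
    ∀ w : 𝓞 K, w ^ 2 = η * 2 ^ j →
      ∃ (η' : (𝓞 K)ˣ) (j' : ℕ), w = η' * 2 ^ j' ∧ η' ^ 2 = η := by
  induction j using Nat.twoStepInduction with
  | zero =>
    intro w hw
    rw [pow_zero, mul_one] at hw
    have hu : IsUnit w := (isUnit_pow_iff two_ne_zero).1 (hw ▸ η.isUnit)
    exact ⟨hu.unit, 0, by simp, Units.ext (by simpa using hw)⟩
  | one =>
    intro w hw
    obtain ⟨u, rfl⟩ := h2 w ⟨η, by rw [hw]; ring⟩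
    have : (η : 𝓞 K) = 2 * u ^ 2 := mul_left_cancel₀ two_ne_zero (by linear_combination -hw)
    exact absurd (isUnit_of_mul_isUnit_left (this ▸ η.isUnit)) (two_Hlf K)
  | more j ih _ =>
    intro w hw
    obtain ⟨u, rfl⟩ := h2 w ⟨η * 2 ^ (j + 1), by rw [hw]; ring⟩
    obtain ⟨η', j', h, h'⟩ := ih u
      (mul_left_cancel₀ (show (4 : 𝓞 K) ≠ 0 by norm_num) (by linear_combination hw))
    exact ⟨η', j' + 1, by rw [h]; ring, h'⟩

theorem trace_Hlf {K F : Type} [Field K] [Field F] [Algebra K F] [FiniteDimensional K F] {x : F}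
    {c : K} (h : x ^ 2 = algebraMap K F c) (hx : ∀ b, x ≠ algebraMap K F b) :
    Algebra.trace K F x = 0 := by
  have hi : Irreducible (X ^ 2 - C c) := X_pow_sub_C_irreducible_of_prime Nat.prime_two fun b hb => by
    rw [← hb, map_pow] at h
    rcases sq_eq_sq_iff_eq_or_eq_neg.1 h with h1 | h1
    · exact hx b h1
    · exact hx (-b) (by rw [map_neg, h1])
  have hm : X ^ 2 - C c = minpoly K x :=
    minpoly.eq_of_irreducible_of_monic hi (by simp [h]) (monic_X_pow_sub_C c two_ne_zero)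
  rw [trace_eq_finrank_mul_minpoly_nextCoeff, ← hm, nextCoeff, natDegree_X_pow_sub_C]
  simp [coeff_X_pow]

theorem hlf_st : HLF_st := by
  classical
  intro q _ K F _ _ _ _ _ ι I d v A y r h h2 ⟨i₁, hi₁⟩ cfg hr
  obtain ⟨η, j, hy, haff⟩ := cfg.dec
  have inj : Function.Injective (algebraMap K F) := (algebraMap K F).injective
  have hsq : ∀ i ∈ A, (r i : F) ^ 2 = algebraMap K F (y i : K) := fun i hi =>
    congrArg (fun z : 𝓞 F => (z : F)) (hr i hi).1
  have hn : ∀ i ∈ A, ‖ι (r i : F)‖ = 1 := fun i hi => norm_eq_one_of_near (hr i hi).2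
  have hr0 : ∀ i ∈ A, (r i : F) ≠ 0 := fun i hi h0 => by simpa [h0] using hn i hi
  obtain ⟨A', hA'⟩ : ∃ A' : Finset I, ∀ i, i ∈ A' ↔
      i ∈ A ∧ ∃ b : K, (r i : F) = algebraMap K F b * r i₁ :=
    ⟨A.filter fun i => ∃ b : K, (r i : F) = algebraMap K F b * r i₁, fun i => mem_filter⟩
  have hsub : A' ⊆ A := fun i hi => ((hA' i).1 hi).1
  have hne : A'.Nonempty := ⟨i₁, (hA' _).2 ⟨hi₁, 1, by simp⟩⟩
  obtain ⟨e, he, hmin⟩ := exists_min_image A' j hne
  have heA := hsub he
  obtain ⟨be, hbe⟩ := ((hA' e).1 he).2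
  have hbe0 : algebraMap K F be ≠ 0 := fun h0 => hr0 e heA (by rw [hbe, h0, zero_mul])
  have hye : y e ≠ 0 := by
    intro h0
    exact hr0 e heA (pow_eq_zero_iff two_ne_zero |>.1 (by rw [hsq e heA, h0]; simp))
  have hye' : (y e : K) ≠ 0 := by simpa using hye
  have hw : ∀ i, ∃ (w : 𝓞 K) (η' : (𝓞 K)ˣ) (j' : ℕ), i ∈ A' →
      algebraMap K F (w : K) * r e = r i ∧ (w : K) ^ 2 * (y e : K) = y i ∧ w = η' * 2 ^ j' ∧
        η' ^ 2 = η i * (η e)⁻¹ := by
    intro i
    by_cases hi : i ∈ A'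
    · obtain ⟨b, hb⟩ := ((hA' i).1 hi).2
      have e1 : algebraMap K F (b / be) * r e = r i := by
        rw [hb, hbe, map_div₀, ← mul_assoc, div_mul_cancel₀ _ hbe0]
      have e2 : (b / be) ^ 2 * (y e : K) = y i := inj (by
        rw [map_mul, map_pow, ← hsq e heA, ← hsq i (hsub hi), ← mul_pow, e1])
      have e3 : ((η i * (η e)⁻¹ : (𝓞 K)ˣ) * 2 ^ (j i - j e) : 𝓞 K) * y e = y i := by
        rw [hy e heA, hy i (hsub hi), Units.val_mul,
          ← pow_sub_mul_pow (2 : 𝓞 K) (hmin i hi)]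
        linear_combination (η i * 2 ^ (j i - j e) * 2 ^ j e : 𝓞 K) * (η e).inv_mul
      have e4 : (b / be) ^ 2 =
          (((η i * (η e)⁻¹ : (𝓞 K)ˣ) * 2 ^ (j i - j e) : 𝓞 K) : K) :=
        mul_right_cancel₀ hye' (by rw [e2, ← e3]; exact map_mul (algebraMap (𝓞 K) K) _ _)
      have e5 : IsIntegral ℤ (b / be) := by
        refine IsIntegral.of_pow two_pos ?_
        rw [e4]
        exact RingOfIntegers.isIntegral_coe _
      obtain ⟨η', j', h3, h4⟩ := root_Hlf h2 (η i * (η e)⁻¹) (j i - j e) ⟨_, e5⟩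
        (RingOfIntegers.ext e4)
      exact ⟨⟨_, e5⟩, η', j', fun _ => ⟨e1, e2, h3, h4⟩⟩
    · exact ⟨0, 1, 0, fun h => absurd h hi⟩
  choose w η' j' hw using hw
  refine ⟨A', w, hsub, hne, ⟨?_, ?_, ?_, η', j', fun i hi => (hw i hi).2.2.1, ?_⟩, ?_⟩
  · intro i hi i' hi' hh
    refine cfg.inj (hsub hi) (hsub hi') (RingOfIntegers.ext ?_)
    rw [← (hw i hi).2.1, ← (hw i' hi').2.1, hh]
  · intro i hi
    have e1 : (ι (algebraMap K F (w i : K)) - 1) * ι (r e : F) =
        (ι (r i : F) - 1) + -(ι (r e : F) - 1) := by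
      rw [← (hw i hi).1, map_mul]
      ring
    have e2 := congrArg norm e1
    rw [norm_mul, hn e heA, mul_one] at e2
    refine e2.trans_lt ((IsUltrametricDist.norm_add_le_max _ _).trans_lt ?_)
    rw [norm_neg]
    exact max_lt (hr i (hsub hi)).2 (hr e heA).2
  · obtain ⟨t, ht, ht'⟩ := cfg.ht
    refine ⟨fun σ => (t σ - Real.log ‖σ (y e : K)‖) / 2, ?_, fun σ i hi => ?_⟩
    · rw [← sum_div, sum_sub_distrib]
      linarith [sum_log_nonneg hye]
    · have p0 : 0 < ‖σ (y e : K)‖ := by simpa using hye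
      refine le_of_sq_le_sq ?_ (Real.exp_pos _).le
      rw [← Real.exp_nat_mul, Nat.cast_ofNat, mul_div_cancel₀ _ two_ne_zero, Real.exp_sub,
        Real.exp_log p0, le_div_iff₀ p0, ← norm_pow, ← norm_mul, ← map_pow, ← map_mul,
        (hw i hi).2.1]
      exact ht' σ i (hsub hi)
  · intro φ b
    obtain ⟨a, ha⟩ := haff φ (2 * b - φ (Additive.ofMul (η e)))
    refine ⟨fun l => a l / 2, fun i hi => ?_⟩
    have e1 : 2 * φ (Additive.ofMul (η' i)) =
        φ (Additive.ofMul (η i)) - φ (Additive.ofMul (η e)) := by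
      have := congrArg (fun u => φ (Additive.ofMul u)) (hw i hi).2.2.2
      simpa [sub_eq_add_neg] using this
    have e2 := ha i (hsub hi)
    have e3 : ((2 * φ (Additive.ofMul (η' i)) : ℤ) : ℚ) = _ := congrArg _ e1
    simp only [div_mul_eq_mul_div, ← sum_div]
    push_cast at e2 e3 ⊢
    linarith
  · intro a s hs
    have : FiniteDimensional K F := Module.Finite.of_restrictScalars_finite ℚ K F
    have e1 : ∑ i ∈ A, (a i : F) * ((r i : F) / r e) ^ (2 * s + 1) = 0 := by
      have := congrArg (fun z : 𝓞 F => (z : F)) hs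
      simp only [map_sum, map_mul, map_pow, map_intCast, map_zero] at this
      simp only [div_pow, ← mul_div_assoc, ← sum_div, this, zero_div]
    have e2 := congrArg (Algebra.trace K F) e1
    rw [map_sum, map_zero, ← sum_subset hsub] at e2
    · have e3 : ∀ i ∈ A', Algebra.trace K F ((a i : F) * ((r i : F) / r e) ^ (2 * s + 1)) =
          finrank K F • ((a i : K) * (w i : K) ^ (2 * s + 1)) := by
        intro i hi
        rw [← (hw i hi).1, mul_div_cancel_right₀ _ (hr0 e heA), ← Algebra.trace_algebraMap,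
          map_mul (algebraMap K F), map_pow (algebraMap K F), map_intCast (algebraMap K F)]
      rw [sum_congr rfl e3, ← smul_sum, nsmul_eq_mul,
        mul_eq_zero_iff_left (Nat.cast_ne_zero.2 finrank_pos.ne')] at e2
      refine RingOfIntegers.ext ?_
      simpa using e2
    · intro i hi hi'
      have e3 : ((r i : F) / r e) ^ 2 = algebraMap K F ((y i : K) / y e) := by
        rw [div_pow, hsq i hi, hsq e heA, map_div₀]
      have e4 := trace_Hlf e3 fun b hb => hi' ((hA' i).2 ⟨hi, b * be, by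
        rw [map_mul, mul_assoc, ← hbe, ← hb, div_mul_cancel₀ _ (hr0 e heA)]⟩)
      have e5 : (a i : F) * ((r i : F) / r e) ^ (2 * s + 1) =
          ((a i : K) * ((y i : K) / y e) ^ s) • ((r i : F) / r e) := by
        rw [pow_succ, pow_mul, e3, Algebra.smul_def, map_mul, map_pow, map_intCast, mul_assoc]
      rw [e5, map_smul, e4, smul_zero]

end Pool.Agent.MP_9b2bac_nt.B
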