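import Pool.Agent.MP_9b2bac_nt.B.Basic

/-!
The field generated by the square roots of units times powers of two has small degree.
-/

open NumberField Module Finset

namespace Pool.Agent.MP_9b2bac_nt.B

theorem zpow_Kum {G : Type} [CommGroup G] (u : G) (z : ℤ) :
    ∃ (b : Bool) (w : G), u ^ z = (if b then u else 1) * w ^ 2 := by
  obtain ⟨k, rfl | rfl⟩ := Int.even_or_odd' z
  · exact ⟨false, u ^ k, by simp [mul_comm (2 : ℤ), zpow_mul]⟩
  · exact ⟨true, u ^ k, by simp [mul_comm (2 : ℤ), zpow_mul, zpow_add_one, mul_comm]⟩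

theorem cls_Kum (K : Type) [Field K] [NumberField K] [IsTotallyReal K] :
    ∃ g : Bool × Bool × (Fin (Units.rank K) → Bool) → K, ∀ (η : (𝓞 K)ˣ) (j : ℕ),
      ∃ t, ∃ b : K, b ≠ 0 ∧ ((η * 2 ^ j : 𝓞 K) : K) = g t * b ^ 2 := by
  classical
  refine ⟨fun t => (if t.1 then 2 else 1) * ((((if t.2.1 then -1 else 1) *
    ∏ i, (if t.2.2 i then Units.fundSystem K i else 1) : (𝓞 K)ˣ) : 𝓞 K) : K), fun η j => ?_⟩
  obtain ⟨⟨ζ, f⟩, h, -⟩ := Units.exist_unique_eq_mul_prod K η
  choose b w hw using fun i => zpow_Kum (Units.fundSystem K i) (f i)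
  obtain ⟨s, hs⟩ : ∃ s : Bool, (ζ : (𝓞 K)ˣ) = if s then -1 else 1 := by
    rcases tors ζ.2 with h | h
    · exact ⟨false, h⟩
    · exact ⟨true, h⟩
  have hη : η = ((if s then -1 else 1) * ∏ i, (if b i then Units.fundSystem K i else 1)) *
      (∏ i, w i) ^ 2 := by
    rw [h, hs, mul_assoc, ← prod_pow, ← prod_mul_distrib]
    simp only [hw]
  have h0 : (((∏ i, w i : (𝓞 K)ˣ) : 𝓞 K) : K) ≠ 0 := Units.coe_ne_zero _
  obtain ⟨k, rfl | rfl⟩ := Nat.even_or_odd' j
  · refine ⟨(false, s, b), (((∏ i, w i : (𝓞 K)ˣ) : 𝓞 K) : K) * 2 ^ k,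
      mul_ne_zero h0 (pow_ne_zero _ two_ne_zero), ?_⟩
    conv_lhs => rw [hη, Units.val_mul, Units.val_pow_eq_pow_val]
    simp only [map_mul, map_pow, map_ofNat, Bool.false_eq_true, if_false]
    ring
  · refine ⟨(true, s, b), (((∏ i, w i : (𝓞 K)ˣ) : 𝓞 K) : K) * 2 ^ k,
      mul_ne_zero h0 (pow_ne_zero _ two_ne_zero), ?_⟩
    conv_lhs => rw [hη, Units.val_mul, Units.val_pow_eq_pow_val]
    simp only [map_mul, map_pow, map_ofNat, if_true]
    ring

theorem rank_Kum (K : Type) [Field K] [NumberField K] : Units.rank K + 1 ≤ finrank ℚ K := by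
  have h1 := InfinitePlace.card_add_two_mul_card_eq_rank K
  have h2 := InfinitePlace.card_eq_nrRealPlaces_add_nrComplexPlaces K
  have h3 : 0 < Fintype.card (InfinitePlace K) := Fintype.card_pos
  rw [Units.rank]
  omega

theorem span_Kum {K Ω T : Type} [Field K] [Field Ω] [Algebra K Ω] [Fintype T] (g : T → K)
    (M : Set Ω) (hM : ∀ x ∈ M, ∃ t, ∃ b : K, b ≠ 0 ∧ x ^ 2 = algebraMap K Ω (g t * b ^ 2)) :
    ∃ e : T → Ω, Submodule.span K M ≤ Submodule.span K (Set.range e) := by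
  classical
  have h : ∀ t, ∃ e : Ω, (∃ x : Ω, x ^ 2 = algebraMap K Ω (g t)) → e ^ 2 = algebraMap K Ω (g t) := by
    intro t
    by_cases h : ∃ x : Ω, x ^ 2 = algebraMap K Ω (g t)
    · exact ⟨h.choose, fun _ => h.choose_spec⟩
    · exact ⟨0, fun h' => absurd h' h⟩
  choose e he using h
  refine ⟨e, Submodule.span_le.2 fun x hx => ?_⟩
  obtain ⟨t, b, hb, h⟩ := hM x hx
  have hb' : algebraMap K Ω b ≠ 0 := by simpa using hb
  have h1 := he t ⟨x / algebraMap K Ω b, by
    rw [div_pow, h, map_mul, map_pow, mul_div_cancel_right₀ _ (pow_ne_zero 2 hb')]⟩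
  have h2 : x ^ 2 = (b • e t) ^ 2 := by
    rw [h, Algebra.smul_def, mul_pow, h1, map_mul, map_pow, mul_comm]
  have h3 : b • e t ∈ Submodule.span K (Set.range e) :=
    Submodule.smul_mem _ _ (Submodule.subset_span ⟨t, rfl⟩)
  rcases sq_eq_sq_iff_eq_or_eq_neg.1 h2 with h4 | h4
  · exact h4 ▸ h3
  · exact h4 ▸ Submodule.neg_mem _ h3

theorem kum_st : KUM_st := by
  classical
  intro q _ K _ _ _ ι I A y hq h1 h2
  let : Algebra K ℚ_[q] := ι.toAlgebra
  have hι : ∀ x, algebraMap K ℚ_[q] x = ι x := fun _ => rfl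
  have hρ : ∀ i, ∃ r : ℚ_[q], i ∈ A → r ^ 2 = ι (y i : K) ∧ ‖r - 1‖ < 1 := by
    intro i
    by_cases hi : i ∈ A
    · obtain ⟨r, hr⟩ := hen hq (h1 i hi)
      exact ⟨r, fun _ => hr⟩
    · exact ⟨0, fun h => absurd h hi⟩
  choose ρ hρ using hρ
  have hint : ∀ x ∈ ρ '' (A : Set I), IsIntegral K x := by
    rintro _ ⟨i, hi, rfl⟩
    refine IsIntegral.of_pow two_pos ?_
    rw [(hρ i hi).1, ← hι]
    exact isIntegral_algebraMap
  obtain ⟨g, hg⟩ := cls_Kum K
  obtain ⟨e, he⟩ := span_Kum g (Submonoid.closure (ρ '' (A : Set I)) : Set ℚ_[q]) (by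
    intro x hx
    have : ∃ (η : (𝓞 K)ˣ) (j : ℕ), x ^ 2 = ι ((η * 2 ^ j : 𝓞 K) : K) := by
      induction hx using Submonoid.closure_induction with
      | mem x hx =>
        obtain ⟨i, hi, rfl⟩ := hx
        obtain ⟨η, j, h⟩ := h2 i hi
        exact ⟨η, j, by rw [(hρ i hi).1, h]⟩
      | one => exact ⟨1, 0, by simp⟩
      | mul x x' _ _ hx hx' =>
        obtain ⟨η, j, h⟩ := hx
        obtain ⟨η', j', h'⟩ := hx'
        refine ⟨η * η', j + j', ?_⟩
        rw [mul_pow, h, h', ← map_mul, ← map_mul, Units.val_mul, pow_add]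
        congr 2
        ring
    obtain ⟨η, j, h⟩ := this
    obtain ⟨t, b, hb, h'⟩ := hg η j
    exact ⟨t, b, hb, by rw [h, h', hι]⟩)
  let F := IntermediateField.adjoin K (ρ '' (A : Set I))
  have : Finite (ρ '' (A : Set I)) := (A.finite_toSet.image ρ).to_subtype
  have : FiniteDimensional K F := IntermediateField.finiteDimensional_adjoin hint
  have : NumberField F := NumberField.of_module_finite K F
  have hF : F.toSubalgebra.toSubmodule ≤ Submodule.span K (Set.range e) := by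
    rw [IntermediateField.adjoin_toSubalgebra_of_isAlgebraic fun x hx => (hint x hx).isAlgebraic,
      Algebra.adjoin_eq_span]
    exact he
  have hr : ∀ i, ∃ r : 𝓞 F, i ∈ A → ((r : F) : ℚ_[q]) = ρ i := by
    intro i
    by_cases hi : i ∈ A
    · have hm : ρ i ∈ F := IntermediateField.subset_adjoin _ _ ⟨i, hi, rfl⟩
      have e1 : (⟨ρ i, hm⟩ : F) ^ 2 = algebraMap K F (y i) := Subtype.ext (hρ i hi).1
      have e2 : IsIntegral ℤ (⟨ρ i, hm⟩ : F) := by
        refine IsIntegral.of_pow two_pos ?_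
        rw [e1]
        exact (y i).isIntegral_coe.map_of_comp_eq (RingHom.id ℤ) (algebraMap K F)
          (RingHom.ext_int _ _)
      exact ⟨⟨_, e2⟩, fun _ => rfl⟩
    · exact ⟨0, fun h => absurd h hi⟩
  choose r hr using hr
  refine ⟨F, inferInstance, inferInstance, inferInstance, F.val.toRingHom, r,
    RingHom.ext fun _ => rfl, ?_, fun i hi => ⟨?_, ?_⟩⟩
  · have : Module.Finite K (Submodule.span K (Set.range e)) :=
      Module.Finite.span_of_finite K (Set.finite_range e)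
    refine ((Submodule.finrank_mono hF).trans (finrank_range_le_card e)).trans ?_
    have := rank_Kum K
    simp only [Fintype.card_prod, Fintype.card_bool, Fintype.card_pi, prod_const, card_univ,
      Fintype.card_fin]
    rw [← pow_succ', ← pow_succ']
    exact Nat.pow_le_pow_right two_pos (by omega)
  · refine RingOfIntegers.ext (Subtype.ext ?_)
    have := (hρ i hi).1
    rw [← hr i hi] at this
    exact this
  · have := (hρ i hi).2
    rw [← hr i hi] at this
    exact this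

end Pool.Agent.MP_9b2bac_nt.B
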