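import Pool.Agent.MP_9b2bac_nt.B.Defs

open Finset

namespace Pool.Agent.MP_9b2bac_nt.B

lemma choose_Par (G T H : ℕ) : ∀ m : ℕ, G * (T + m) ≤ H →
    G ^ m * (T + m).choose T ≤ (H + m).choose H := by
  intro m
  induction m with
  | zero => intro _; simp
  | succ m ih =>
    intro h
    have h0 : G * (T + m) ≤ H := le_trans (Nat.mul_le_mul_left _ (by omega)) h
    have ih' := ih h0
    have e : ∀ a : ℕ, (a + (m + 1)).choose a * (m + 1) = (a + m + 1) * (a + m).choose a := by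
      intro a
      have h1 := Nat.add_one_mul_choose_eq (a + m) m
      rw [Nat.choose_symm_add (a := a) (b := m + 1), Nat.choose_symm_add (a := a) (b := m), h1]
      rfl
    refine Nat.le_of_mul_le_mul_right ?_ (Nat.succ_pos m)
    calc G ^ (m + 1) * (T + (m + 1)).choose T * (m + 1)
        = G ^ (m + 1) * ((T + m + 1) * (T + m).choose T) := by rw [mul_assoc, e]
      _ = (G * (T + (m + 1))) * (G ^ m * (T + m).choose T) := by ring
      _ ≤ (H + m + 1) * (H + m).choose H := Nat.mul_le_mul (by omega) ih'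
      _ = _ := (e H).symm

lemma grow_Par (a k : ℕ) : ∃ d₀ : ℕ, ∀ D : ℕ, d₀ ≤ D → a * D ^ k ≤ 2 ^ D := by
  have h := tendsto_pow_const_div_const_pow_of_one_lt k (r := 2) (by norm_num)
  have h1 : (0 : ℝ) < 1 / (a + 1) := by positivity
  obtain ⟨d₀, hd⟩ := Filter.eventually_atTop.1 (h.eventually_le_const h1)
  refine ⟨d₀, fun D hD => ?_⟩
  have h2 := hd D hD
  rw [div_le_div_iff₀ (by positivity) (by positivity)] at h2
  have h3 : (0 : ℝ) ≤ (D : ℝ) ^ k := by positivity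
  have h4 : (a : ℝ) * (D : ℝ) ^ k ≤ 2 ^ D := by nlinarith
  exact_mod_cast h4

lemma log_Par (D q S M T n h V : ℕ) (hD : 1 ≤ D) (hM : 1 ≤ M) (hq : 3 ≤ q)
    (hS : S = 256 * D ^ 3) (hT : T = 2 * (D + 2) * M) (hn0 : 1 ≤ n) (hn : n ≤ q * 2 ^ (T + D))
    (hV0 : 1 ≤ V) (hV : V ≤ q ^ D) (hh : 8 * (h : ℝ) ≤ M * Real.log q) :
    2 * D * Real.log (3 * n ^ 2 * V ^ (2 * T) * Real.exp (2 * S * h / D)) <
      S * M * Real.log q := by
  have hD' : (1 : ℝ) ≤ D := by exact_mod_cast hD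
  have hM' : (1 : ℝ) ≤ M := by exact_mod_cast hM
  have hn' : (1 : ℝ) ≤ n := by exact_mod_cast hn0
  have hV' : (1 : ℝ) ≤ V := by exact_mod_cast hV0
  have hq' : (3 : ℝ) ≤ q := by exact_mod_cast hq
  have h3 : 1 ≤ Real.log 3 := by
    rw [Real.le_log_iff_exp_le (by norm_num)]
    linarith [Real.exp_one_lt_d9]
  have h3' : Real.log 3 ≤ Real.log q := Real.log_le_log (by norm_num) hq'
  set l := Real.log q with hl
  have hl1 : 1 ≤ l := h3.trans h3'
  have hTD : D ≤ T := by rw [hT]; nlinarith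
  have hTD' : (D : ℝ) ≤ T := by exact_mod_cast hTD
  have hT6 : (T : ℝ) ≤ 6 * D * M := by
    have : T ≤ 6 * D * M := by rw [hT]; exact Nat.mul_le_mul_right _ (by omega)
    exact_mod_cast this
  have hlV : Real.log V ≤ D * l := by
    rw [hl, ← Real.log_pow]
    exact Real.log_le_log (by linarith) (by exact_mod_cast hV)
  have hln : Real.log n ≤ 3 * T * l := by
    have h1 : Real.log n ≤ Real.log (q * 2 ^ (T + D)) :=
      Real.log_le_log (by linarith) (by exact_mod_cast hn)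
    rw [Real.log_mul (by linarith) (by positivity), Real.log_pow] at h1
    push_cast at h1
    have h2 : ((T : ℝ) + D) * Real.log 2 ≤ (T + T) * l :=
      mul_le_mul (by linarith) (by linarith [Real.log_two_lt_d9])
        (Real.log_nonneg (by norm_num)) (by linarith)
    nlinarith
  rw [Real.log_mul (by positivity) (by positivity), Real.log_mul (by positivity) (by positivity),
    Real.log_mul (by positivity) (by positivity), Real.log_pow, Real.log_pow, Real.log_exp]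
  push_cast
  have hTl : 0 ≤ (T : ℝ) * l := by positivity
  have h4 : Real.log 3 + 2 * Real.log n + 2 * T * Real.log V ≤ 10 * D * (T * l) := by
    have h5 : 2 * T * Real.log V ≤ 2 * T * (D * l) := by gcongr
    have h6 : l ≤ T * l := by nlinarith
    have h7 : T * l ≤ D * (T * l) := by nlinarith
    nlinarith
  have h8 : (2 : ℝ) * D * (2 * S * h / D) = 4 * S * h := by field_simp; ring
  have hS' : (S : ℝ) = 256 * D ^ 3 := by rw [hS]; push_cast; ring
  have h9 : 2 * D * (10 * D * (T * l)) ≤ 120 * (D ^ 3 * M * l) := by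
    calc 2 * D * (10 * D * (T * l)) ≤ 2 * D * (10 * D * (6 * D * M * l)) := by gcongr
      _ = _ := by ring
  have h10 : 0 < (D : ℝ) ^ 3 * M * l := by positivity
  have h11 : 4 * (S : ℝ) * h ≤ 128 * (D ^ 3 * M * l) := by
    calc 4 * (S : ℝ) * h = 128 * D ^ 3 * (8 * h) := by rw [hS']; ring
      _ ≤ 128 * D ^ 3 * (M * l) := by gcongr
      _ = _ := by ring
  calc 2 * D * (Real.log 3 + 2 * Real.log n + 2 * T * Real.log V + 2 * S * h / D)
      = 2 * D * (Real.log 3 + 2 * Real.log n + 2 * T * Real.log V) + 4 * S * h := by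
        rw [mul_add, h8]
    _ ≤ 2 * D * (10 * D * (T * l)) + 4 * S * h := by gcongr
    _ < 256 * (D ^ 3 * M * l) := by linarith
    _ = S * M * l := by rw [hS']; ring

theorem par_st : PAR_st := by
  intro C₁ hC
  obtain ⟨G, hG⟩ : ∃ G, G = 64 * C₁ ^ 2 := ⟨_, rfl⟩
  obtain ⟨c, hc⟩ : ∃ c, c = 7 * G + C₁ + 1 := ⟨_, rfl⟩
  have hc1 : 1 ≤ c := by omega
  obtain ⟨d₀, hd₀⟩ := grow_Par (56 * c * 256 ^ 2) 8
  have hA : 8 ≤ 3 ^ (8 * c) :=
    le_trans (by norm_num) (Nat.pow_le_pow_right (by norm_num) (by omega : 2 ≤ 8 * c))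
  refine ⟨3 ^ (8 * c), max d₀ 2, by omega, by omega, fun D q hD hq _ => ?_⟩
  have hD2 : 2 ≤ D := le_trans (le_max_right _ _) hD
  have hgr := hd₀ D (le_trans (le_max_left _ _) hD)
  have h8q : 8 ^ D ≤ q := le_trans (Nat.pow_le_pow_left hA D) hq
  have hq3 : 3 ≤ q := by
    have : 8 ^ 1 ≤ 8 ^ D := Nat.pow_le_pow_right (by norm_num) (by omega)
    omega
  obtain ⟨x, hx⟩ : ∃ x, x = q / 8 ^ D := ⟨_, rfl⟩
  have hx1 : 1 ≤ x := by rw [hx]; exact Nat.div_pos h8q (by positivity)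
  have hxq : 8 ^ D * x ≤ q := by rw [hx]; exact Nat.mul_div_le q _
  have hxq' : q ≤ 8 ^ D * (x + 1) := by
    rw [hx]; exact (Nat.lt_mul_div_succ q (by positivity)).le
  obtain ⟨S, hS⟩ : ∃ S, S = 256 * D ^ 3 := ⟨_, rfl⟩
  have hDS : 256 * D ≤ S := by
    rw [hS]; exact Nat.mul_le_mul_left _ (Nat.le_self_pow (by norm_num) D)
  have hS1 : 1 ≤ S := by omega
  obtain ⟨M, hM⟩ : ∃ M, M = 2 * D * S * (x + 1) := ⟨_, rfl⟩
  have hM1 : 1 ≤ M := by rw [hM]; exact Nat.succ_le_of_lt (by positivity)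
  obtain ⟨T, hT⟩ : ∃ T, T = 2 * (D + 2) * M := ⟨_, rfl⟩
  obtain ⟨H, hH⟩ : ∃ H, H = G * (T + D) := ⟨_, rfl⟩
  obtain ⟨h, hh⟩ : ∃ h, h = H + D * C₁ + D * M := ⟨_, rfl⟩
  have hDM : D ≤ D * M := Nat.le_mul_of_pos_right _ hM1
  have hh1 : 1 ≤ h := by omega
  have hT6 : T ≤ 6 * (D * M) := by
    rw [hT, ← mul_assoc]; exact Nat.mul_le_mul_right _ (by omega)
  have hhc : h ≤ c * (D * M) := by
    have h1 : H ≤ G * (7 * (D * M)) := by rw [hH]; exact Nat.mul_le_mul_left _ (by omega)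
    have h2 : D * C₁ ≤ D * M * C₁ := Nat.mul_le_mul_right _ hDM
    rw [hh, hc]
    nlinarith
  obtain ⟨R, hR⟩ : ∃ R, R = Nat.log 2 (3 * h) + 1 := ⟨_, rfl⟩
  have hR1 : 3 * h < 2 ^ R := by rw [hR]; exact Nat.lt_pow_succ_log_self (by norm_num) _
  have hR2 : 2 ^ R ≤ 6 * h := by
    have := Nat.pow_log_le_self 2 (by omega : 3 * h ≠ 0)
    rw [hR, pow_succ]; omega
  have hlast : 2 ^ (D + 1) * S * (M + 2 ^ R) * 2 ^ D ≤ q := by
    have h1 : M ≤ c * (D * M) :=
      le_trans (Nat.le_mul_of_pos_left _ (by omega)) (Nat.le_mul_of_pos_left _ hc1)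
    have h2 : M + 2 ^ R ≤ 7 * (c * (D * M)) := by omega
    have h3 : M ≤ 2 * D * S * (2 * x) := by rw [hM]; exact Nat.mul_le_mul_left _ (by omega)
    calc 2 ^ (D + 1) * S * (M + 2 ^ R) * 2 ^ D
        ≤ 2 ^ (D + 1) * S * (7 * (c * (D * (2 * D * S * (2 * x))))) * 2 ^ D := by
          gcongr
          exact h2.trans (by gcongr)
      _ = 56 * c * 256 ^ 2 * D ^ 8 * (2 ^ D * 2 ^ D * x) := by rw [hS]; ring
      _ ≤ 2 ^ D * (2 ^ D * 2 ^ D * x) := by gcongr
      _ = 8 ^ D * x := by rw [show (8 : ℕ) = 2 * 2 * 2 by norm_num, mul_pow, mul_pow]; ring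
      _ ≤ q := hxq
  have hlog : 8 * (h : ℝ) ≤ M * Real.log q := by
    have h3 : 1 ≤ Real.log 3 := by
      rw [Real.le_log_iff_exp_le (by norm_num)]
      linarith [Real.exp_one_lt_d9]
    have h1 : Real.log (((3 : ℝ) ^ (8 * c)) ^ D) ≤ Real.log q :=
      Real.log_le_log (by positivity) (by exact_mod_cast hq)
    rw [Real.log_pow, Real.log_pow] at h1
    push_cast at h1
    have h2 : (h : ℝ) ≤ c * (D * M) := by exact_mod_cast hhc
    calc 8 * (h : ℝ) ≤ 8 * (c * (D * M)) := by gcongr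
      _ = M * (D * (8 * c * 1)) := by ring
      _ ≤ M * (D * (8 * c * Real.log 3)) := by gcongr
      _ ≤ M * Real.log q := by gcongr
  have hSq : S * (M + 2 ^ R) ≤ q := by
    refine le_trans ?_ hlast
    calc S * (M + 2 ^ R) = 1 * S * (M + 2 ^ R) * 1 := by ring
      _ ≤ _ := by
        gcongr <;> exact Nat.one_le_two_pow
  have hch : 1 ≤ (T + D - 1).choose T := Nat.choose_pos (by omega)
  refine ⟨H, M, S, M, R, T, _, h, _, hT, rfl, hh, rfl, hS1, ?_, hR1, hlog, ?_, hlast⟩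
  · obtain ⟨m, rfl⟩ : ∃ m, D = m + 1 := ⟨D - 1, by omega⟩
    have h1 := choose_Par G T H m (by rw [hH]; exact Nat.mul_le_mul_left _ (by omega))
    have h2 : 8 ^ (m + 1) * C₁ ^ (m + 1) ≤ G ^ m := by
      rw [← mul_pow, show G = (8 * C₁) ^ 2 by rw [hG]; ring, ← pow_mul]
      exact Nat.pow_le_pow_right (by omega) (by omega)
    simp only [← add_assoc, Nat.add_sub_cancel]
    calc 2 * (m + 1) * S * (T + m).choose T * q * C₁ ^ (m + 1)
        ≤ 2 * (m + 1) * S * (T + m).choose T * (8 ^ (m + 1) * (x + 1)) * C₁ ^ (m + 1) := by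
          gcongr
      _ = M * (8 ^ (m + 1) * C₁ ^ (m + 1) * (T + m).choose T) := by rw [hM]; ring
      _ ≤ M * (G ^ m * (T + m).choose T) := by gcongr
      _ ≤ _ := by gcongr
  · refine log_Par D q S M T _ h _ (by omega) hM1 hq3 hS hT (Nat.succ_le_of_lt (by positivity)) ?_
      (Nat.succ_le_of_lt (by positivity)) ?_ hlog
    · have h1 : 2 * D * S ≤ q := by
        have h2 : 2 * D * S ≤ M := by rw [hM]; exact Nat.le_mul_of_pos_right _ (by omega)
        have h3 : M + 2 ^ R ≤ S * (M + 2 ^ R) := Nat.le_mul_of_pos_left _ hS1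
        omega
      exact Nat.mul_le_mul h1 ((Nat.choose_le_two_pow _ _).trans
        (Nat.pow_le_pow_right (by norm_num) (by omega)))
    · refine Nat.pow_le_pow_left (le_trans ?_ hSq) D
      have h1 : D * (H + D * C₁) ≤ D * h := Nat.mul_le_mul_left _ (by omega)
      have h2 : 1 ≤ D * h := Nat.succ_le_of_lt (by positivity)
      calc 6 * D * (H + D * C₁) + 2 = 6 * (D * (H + D * C₁)) + 2 := by ring
        _ ≤ 256 * (D * h) := by omega
        _ = 256 * D * h := by ring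
        _ ≤ S * (M + 2 ^ R) := Nat.mul_le_mul hDS (by omega)

end Pool.Agent.MP_9b2bac_nt.B
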