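import Pool.Agent.MP_9b2bac_nt.B.Basic

/-!
The first configuration, the bound for the valuation given a field, and the power saving.
-/

open NumberField Module Finset

namespace Pool.Agent.MP_9b2bac_nt.B

section
variable {K : Type} [Field K] [NumberField K]

omit [NumberField K] in
theorem norm_Set (σ : K →+* ℂ) (u : (𝓞 K)ˣ) (a : ℕ) :
    ‖σ (((u : 𝓞 K) * 2 ^ a : 𝓞 K) : K)‖ = ‖σ ((u : 𝓞 K) : K)‖ * 2 ^ a := by
  have h : (((u : 𝓞 K) * 2 ^ a : 𝓞 K) : K) = ((u : 𝓞 K) : K) * 2 ^ a := by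
    rw [RingOfIntegers.coe_eq_algebraMap, RingOfIntegers.coe_eq_algebraMap, map_mul, map_pow,
      map_ofNat]
  rw [h, map_mul, map_pow, map_ofNat, norm_mul, norm_pow, Complex.norm_ofNat]

omit [NumberField K] in
theorem log_div_Set (σ : K →+* ℂ) (u w : (𝓞 K)ˣ) :
    Real.log ‖σ (((u * w⁻¹ : (𝓞 K)ˣ) : 𝓞 K) : K)‖ =
      Real.log ‖σ ((u : 𝓞 K) : K)‖ - Real.log ‖σ ((w : 𝓞 K) : K)‖ := by
  have h : ‖σ (((u * w⁻¹ : (𝓞 K)ˣ) : 𝓞 K) : K)‖ * ‖σ ((w : 𝓞 K) : K)‖ =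
      ‖σ ((u : 𝓞 K) : K)‖ := by
    rw [← norm_mul, ← map_mul, RingOfIntegers.coe_eq_algebraMap, RingOfIntegers.coe_eq_algebraMap,
      ← map_mul, ← Units.val_mul, inv_mul_cancel_right]
  rw [← h, Real.log_mul (emb_unit_pos _ σ).ne' (emb_unit_pos _ σ).ne']
  ring

theorem inj_Set {u w : (𝓞 K)ˣ} {a b : ℕ} (h : (u : 𝓞 K) * 2 ^ a = (w : 𝓞 K) * 2 ^ b) :
    u = w ∧ a = b := by
  have k : ∀ (u : (𝓞 K)ˣ) (a : ℕ), ∏ σ : K →+* ℂ, ‖σ (((u : 𝓞 K) * 2 ^ a : 𝓞 K) : K)‖ =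
      (2 : ℝ) ^ (a * finrank ℚ K) := fun u a => by
    simp only [norm_Set]
    rw [Finset.prod_mul_distrib, prod_unit, one_mul, Finset.prod_const, Finset.card_univ, card_emb,
      pow_mul]
  have h1 := k u a
  rw [h, k] at h1
  have h2 : b * finrank ℚ K = a * finrank ℚ K :=
    pow_right_injective₀ (by norm_num) (by norm_num) h1
  have h3 : b = a := Nat.eq_of_mul_eq_mul_right finrank_pos h2
  subst h3
  exact ⟨Units.ext (mul_right_cancel₀ (pow_ne_zero _ two_ne_zero) h), rfl⟩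

theorem range_Set {Y : Finset (𝓞 K)ˣ} {t : (K →+* ℂ) → ℝ} {H : ℝ} (h1 : ∑ σ, t σ ≤ H)
    (h2 : ∀ σ : K →+* ℂ, ∀ u ∈ Y, ‖σ ((u : 𝓞 K) : K)‖ ≤ Real.exp (t σ)) {u : (𝓞 K)ˣ}
    (hu : u ∈ Y) (σ : K →+* ℂ) : Real.log ‖σ ((u : 𝓞 K) : K)‖ ≤ t σ ∧
      t σ - H ≤ Real.log ‖σ ((u : 𝓞 K) : K)‖ := by
  have k : ∀ τ : K →+* ℂ, Real.log ‖τ ((u : 𝓞 K) : K)‖ ≤ t τ := fun τ =>
    (Real.log_le_iff_le_exp (emb_unit_pos u τ)).2 (h2 τ u hu)
  refine ⟨k σ, ?_⟩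
  have h3 := Finset.single_le_sum (f := fun τ => t τ - Real.log ‖τ ((u : 𝓞 K) : K)‖)
    (fun τ _ => sub_nonneg.2 (k τ)) (Finset.mem_univ σ)
  rw [Finset.sum_sub_distrib, sum_log_unit] at h3
  linarith

end

theorem set_st (h1 : UNI_st) (h2 : COO_st) : SET_st := by
  classical
  intro C
  obtain ⟨C₁, hC, h1⟩ := h1 C
  refine ⟨C₁, hC, fun q _ K _ _ _ ι hq hd H J n hn hle => ?_⟩
  obtain ⟨Y, hY, t, ht1, ht2⟩ := h1 K hd H
  have hc : (univ : Finset (ZMod q)).card * n ≤ (Y ×ˢ range J).card := by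
    rw [Finset.card_univ, ZMod.card, Finset.card_product, Finset.card_range]
    refine Nat.le_of_mul_le_mul_right ?_ (pow_pos hC (finrank ℚ K))
    calc q * n * C₁ ^ finrank ℚ K = n * q * C₁ ^ finrank ℚ K := by ring
      _ ≤ J * (C₁ ^ finrank ℚ K * Y.card) := hle.trans (Nat.mul_le_mul_left _ hY)
      _ = _ := by ring
  obtain ⟨z, -, hz⟩ := Finset.exists_le_card_fiber_of_mul_le_card_of_maps_to
    (f := fun i : (𝓞 K)ˣ × ℕ => red1 ι ((i.1 : 𝓞 K) * 2 ^ i.2)) (fun _ _ => Finset.mem_univ _)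
    Finset.univ_nonempty hc
  obtain ⟨A, hA, hAn⟩ := Finset.exists_subset_card_eq hz
  have hm : ∀ i ∈ A, i.1 ∈ Y ∧ i.2 < J ∧ red1 ι ((i.1 : 𝓞 K) * 2 ^ i.2) = z := fun i hi => by
    have := hA hi
    simp only [Finset.mem_filter, Finset.mem_product, Finset.mem_range] at this
    exact ⟨this.1.1, this.1.2, this.2⟩
  obtain ⟨e, he, hmin⟩ := Finset.exists_min_image A (fun i => i.2)
    (Finset.card_pos.1 (hAn ▸ hn))
  obtain ⟨v, hv, haf⟩ := h2 K (Y.image fun u => u * e.1⁻¹) (H + finrank ℚ K * C₁) (by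
    intro u hu σ
    obtain ⟨w, hw, rfl⟩ := Finset.mem_image.1 hu
    have k1 := range_Set ht1 ht2 hw σ
    have k2 := range_Set ht1 ht2 (hm e he).1 σ
    rw [log_div_Set, abs_le]
    push_cast
    constructor <;> linarith [k1.1, k1.2, k2.1, k2.2])
  have hmem : ∀ i ∈ A, i.1 * e.1⁻¹ ∈ Y.image fun u => u * e.1⁻¹ := fun i hi =>
    Finset.mem_image_of_mem _ (hm i hi).1
  refine ⟨(𝓞 K)ˣ × ℕ, fun i => v (i.1 * e.1⁻¹), A,
    fun i => ((i.1 * e.1⁻¹ : (𝓞 K)ˣ) : 𝓞 K) * 2 ^ (i.2 - e.2), hAn, ⟨?_, ?_, ?_, ?_⟩,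
    fun i hi l => hv _ (hmem i hi) l⟩
  · intro i hi i' hi' hii
    obtain ⟨k1, k2⟩ := inj_Set hii
    have k3 := hmin i hi
    have k4 := hmin i' hi'
    exact Prod.ext (mul_right_cancel k1) (by omega)
  · intro i hi
    have k0 : (2 : ZMod q) ≠ 0 := fun h => hq ((Nat.prime_dvd_prime_iff_eq Fact.out
      Nat.prime_two).1 ((ZMod.natCast_eq_zero_iff 2 q).1 (by exact_mod_cast h)))
    have k1 : red1 ι ((e.1 : 𝓞 K) * 2 ^ e.2) ≠ 0 := by
      rw [map_mul, map_pow, map_ofNat]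
      exact mul_ne_zero (e.1.isUnit.map (red1 ι)).ne_zero (pow_ne_zero _ k0)
    have k2 : ((i.1 * e.1⁻¹ : (𝓞 K)ˣ) : 𝓞 K) * 2 ^ (i.2 - e.2) * ((e.1 : 𝓞 K) * 2 ^ e.2) =
        (i.1 : 𝓞 K) * 2 ^ i.2 := by
      rw [mul_mul_mul_comm, ← pow_add, Nat.sub_add_cancel (hmin i hi), ← Units.val_mul,
        inv_mul_cancel_right]
    have k3 : red1 ι (((i.1 * e.1⁻¹ : (𝓞 K)ˣ) : 𝓞 K) * 2 ^ (i.2 - e.2) - 1) = 0 := by
      rw [map_sub, map_one, sub_eq_zero]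
      refine mul_right_cancel₀ k1 ?_
      rw [← map_mul, k2, one_mul, (hm i hi).2.2, (hm e he).2.2]
    have k4 := (red1_eq_zero ι _).1 k3
    rwa [RingOfIntegers.coe_eq_algebraMap, map_sub, map_one, map_sub, map_one] at k4
  · refine ⟨fun σ => t σ - Real.log ‖σ ((e.1 : 𝓞 K) : K)‖ + J, ?_, fun σ i hi => ?_⟩
    · rw [Finset.sum_add_distrib, Finset.sum_sub_distrib, sum_log_unit, Finset.sum_const,
        Finset.card_univ, card_emb, nsmul_eq_mul]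
      push_cast
      linarith
    · have k1 := (range_Set ht1 ht2 (hm i hi).1 σ).1
      have k2 : (2 : ℝ) ^ (i.2 - e.2) ≤ Real.exp J := by
        have k3 : (2 : ℝ) ≤ Real.exp 1 := by linarith [Real.add_one_le_exp (1 : ℝ)]
        calc (2 : ℝ) ^ (i.2 - e.2) ≤ 2 ^ J :=
              pow_le_pow_right₀ one_le_two (by have := (hm i hi).2.1; omega)
          _ ≤ Real.exp 1 ^ J := pow_le_pow_left₀ two_pos.le k3 J
          _ = _ := by rw [← Real.exp_nat_mul, mul_one]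
      rw [norm_Set, Real.exp_add]
      refine mul_le_mul ?_ k2 (by positivity) (Real.exp_pos _).le
      rw [← Real.log_le_iff_le_exp (emb_unit_pos _ σ), log_div_Set]
      linarith
  · exact ⟨fun i => i.1 * e.1⁻¹, fun i => i.2 - e.2, fun _ _ => rfl, fun φ b =>
      (haf φ b).imp fun a ha i hi => ha _ (hmem i hi)⟩

theorem mon_Set {I : Type} {d : ℕ} {v : I → Fin d → ℤ} {i : I} {V T : ℕ} (hV : 1 ≤ V)
    (h : ∀ l, |v i l| ≤ V) {α : Fin d → ℕ} (hα : ∑ l, α l ≤ T) :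
    |((mon v α i : ℤ) : ℝ)| ≤ (V : ℝ) ^ T := by
  have h1 : |mon v α i| ≤ (V : ℤ) ^ T := by
    rw [mon, Finset.abs_prod]
    calc ∏ l, |v i l ^ α l| ≤ ∏ l, (V : ℤ) ^ α l :=
          Finset.prod_le_prod (fun _ _ => abs_nonneg _) fun l _ => by
            rw [abs_pow]
            exact pow_le_pow_left₀ (abs_nonneg _) (h l) _
      _ = (V : ℤ) ^ ∑ l, α l := Finset.prod_pow_eq_pow_sum _ _ _
      _ ≤ _ := pow_le_pow_right₀ (by exact_mod_cast hV) hα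
  exact_mod_cast h1

theorem bak_st (h1 : SET_st) (h2 : SIE_st) (h3 : DESC_st) (h4 : PAR_st) : BAK_st := by
  classical
  intro C
  obtain ⟨C₁, hC, h1⟩ := h1 C
  obtain ⟨A, d₀, hA, hd₀, h4⟩ := h4 C₁ hC
  refine ⟨A, d₀, hA, fun q _ K _ _ _ ⟨ι⟩ hr hd hD hq1 hq2 k hk => ?_⟩
  by_contra hlt
  rw [not_le] at hlt
  obtain ⟨H, J, S, M, R, T, n, h, V, eT, en, eh, eV, hS, p1, p2, p3, p4, p5⟩ :=
    h4 (finrank ℚ K) q hD hq1 hq2
  have hD1 : 1 ≤ finrank ℚ K := hd₀.trans hD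
  have hq : q ≠ 2 := by
    have : A ^ 1 ≤ A ^ finrank ℚ K := Nat.pow_le_pow_right (by omega) hD1
    rw [pow_one] at this
    omega
  have hn : 1 ≤ n := by
    rw [en]
    exact Nat.mul_pos (Nat.mul_pos (by omega) hS) (Nat.choose_pos (by omega))
  have hV : 1 ≤ V := by
    rw [eV]
    exact Nat.pow_pos (by omega)
  obtain ⟨I, v, X, y, hX, hc, hv⟩ := h1 q K ι hq hd H J n hn p1
  rw [← eh] at hc
  rw [← eV] at hv
  obtain ⟨c, ⟨i₀, hi₀, hc₀⟩, hcb, hvan⟩ := h2 K I _ v X y h V T S hc.ht (Nat.cast_nonneg _) hV hv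
    (Finset.card_pos.1 (hX ▸ hn)) (by rw [hX, en])
  have hk' : 2 ^ (finrank ℚ K + 1) * S * (M + 2 ^ R) ≤ k :=
    Nat.le_of_mul_le_mul_right (p5.trans hlt.le) (Nat.pow_pos two_pos)
  have hn' : (1 : ℝ) ≤ n := by exact_mod_cast hn
  have hV' : (1 : ℝ) ≤ V := by exact_mod_cast hV
  refine h3 q K ι I _ c v (X.filter fun i => c i ≠ 0) y h
    (3 * n ^ 2 * V ^ (2 * T) * Real.exp (2 * S * h / finrank ℚ K)) _ S M R hq hr
    ⟨i₀, Finset.mem_filter.2 ⟨hi₀, hc₀⟩⟩ (fun i hi => (Finset.mem_filter.1 hi).2)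
    (hc.mono (Finset.filter_subset _ _) le_rfl) ?_ ?_ ?_ hS (Nat.cast_nonneg _)
    (by exact_mod_cast p2) p3 p4 le_rfl
    ((Nat.le_mul_of_pos_right _ (Nat.pow_pos two_pos)).trans p5)
    ((pow_dvd_pow _ hk').trans hk)
  · rw [← eT]
    refine Bd.mono (A := X) (T := T) (fun α hα => ?_) (Finset.filter_subset _ _) le_rfl
    refine (Finset.sum_le_card_nsmul _ _
      (3 * n * V ^ T * Real.exp (2 * S * h / finrank ℚ K) * V ^ T) fun i hi => ?_).trans_eq ?_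
    · rw [Int.cast_mul, abs_mul]
      refine mul_le_mul ?_ (mon_Set hV (hv i hi) hα) (abs_nonneg _) (by positivity)
      have := hcb i hi
      rwa [hX] at this
    · rw [hX, nsmul_eq_mul]
      ring
  · rw [← eT]
    intro α hα s hs
    rw [← hvan α hα s hs]
    refine Finset.sum_filter_of_ne fun i _ hi e => hi ?_
    rw [e, zero_mul, Int.cast_zero, zero_mul]
  · have k1 : (1 : ℝ) ≤ n ^ 2 := one_le_pow₀ hn'
    have k2 : (1 : ℝ) ≤ V ^ (2 * T) := one_le_pow₀ hV'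
    have k3 : (1 : ℝ) ≤ Real.exp (2 * S * h / finrank ℚ K) := Real.one_le_exp (by positivity)
    exact one_le_mul_of_one_le_of_one_le (one_le_mul_of_one_le_of_one_le (by linarith) k2) k3

theorem val_st (h1 : BAK_st) (h2 : TOW_st) : VAL_st := by
  classical
  obtain ⟨C, q₀, h2⟩ := h2
  obtain ⟨A, d₀, hA, h1⟩ := h1 C
  have hA' : (1 : ℝ) < A := by exact_mod_cast (by omega : 1 < A)
  have hl := Real.log_pos hA'
  refine ⟨Real.log 2 / (2 * Real.log A), div_pos (Real.log_pos one_lt_two) (by positivity),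
    max q₀ (A ^ 2 ^ (d₀ + 1)), fun q hq hq0 k hk => ?_⟩
  have := Fact.mk hq
  have ex : ∃ N, q < A ^ 2 ^ N := ⟨q, Nat.lt_two_pow_self.trans_le
    ((Nat.lt_pow_self (by omega)).le)⟩
  have hN := Nat.find_spec ex
  have hN2 : d₀ + 1 < Nat.find ex := by
    by_contra hh
    have k1 : A ^ 2 ^ Nat.find ex ≤ A ^ 2 ^ (d₀ + 1) :=
      Nat.pow_le_pow_right (by omega) (Nat.pow_le_pow_right two_pos (not_lt.1 hh))
    have k2 := (le_max_right _ _).trans hq0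
    omega
  obtain ⟨m, hm⟩ : ∃ m, Nat.find ex = m + 2 := ⟨Nat.find ex - 2, by omega⟩
  have hN3 := Nat.find_min ex (m := m + 1) (by omega)
  rw [hm] at hN
  obtain ⟨K, _, _, _, hD, hι, hr, hd⟩ := h2 q ((le_max_left _ _).trans hq0) m
  have e2 : q ≤ A ^ (2 * finrank ℚ K) := by
    rw [hD, ← pow_succ']
    exact hN.le
  have hb := h1 q K hι hr hd (by
    have : m + 1 < 2 ^ (m + 1) := Nat.lt_two_pow_self
    omega) (by
    rw [hD]
    exact not_lt.1 hN3) e2 k hk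
  have hq' : (0 : ℝ) < q := by exact_mod_cast hq.pos
  have k1 : (q : ℝ) ^ (Real.log 2 / (2 * Real.log A)) ≤ 2 ^ finrank ℚ K := by
    have k2 : Real.log q ≤ 2 * finrank ℚ K * Real.log A := by
      have k3 : (q : ℝ) ≤ (A : ℝ) ^ (2 * finrank ℚ K) := by exact_mod_cast e2
      have k4 := Real.log_le_log hq' k3
      rwa [Real.log_pow, Nat.cast_mul, Nat.cast_ofNat] at k4
    rw [← Real.log_le_log_iff (Real.rpow_pos_of_pos hq' _) (by positivity), Real.log_rpow hq',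
      Real.log_pow, div_mul_eq_mul_div, div_le_iff₀ (by positivity)]
    nlinarith [Real.log_pos one_lt_two]
  rw [Real.rpow_sub hq', Real.rpow_one, le_div_iff₀ (Real.rpow_pos_of_pos hq' _)]
  have k5 : (k : ℝ) * 2 ^ finrank ℚ K ≤ q := by exact_mod_cast hb
  exact (mul_le_mul_of_nonneg_left k1 (Nat.cast_nonneg _)).trans k5

end Pool.Agent.MP_9b2bac_nt.B
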