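import Pool.Agent.MP_9b2bac_nt.B.Basic

/-!
The extrapolation step.
-/

open NumberField Module Finset

namespace Pool.Agent.MP_9b2bac_nt.B

theorem pow_Xtr {R : Type} [CommRing R] {L : Rˣ → R} (h1 : ∀ u w, L (u * w) = L u + L w)
    (u : Rˣ) (n : ℕ) : L (u ^ n) = n * L u := by
  induction n with
  | zero => simpa using h1 1 1
  | succ n ih => rw [pow_succ, h1, ih, Nat.cast_succ, add_mul, one_mul]

theorem node_Xtr {q e S s s' : ℕ} (hq : q.Prime) (h2 : q ≠ 2) (he : e = 1 ∨ e = 2) (hS : S ≤ q)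
    (hs : s < S) (hs' : s' < S) (h : e * (2 * s + 1) ≡ e * (2 * s' + 1) [MOD q]) : s = s' := by
  have c2 : Nat.gcd q 2 = 1 := (Nat.coprime_primes hq Nat.prime_two).2 h2
  have ce : Nat.gcd q e = 1 := by
    rcases he with rfl | rfl
    · simp
    · exact c2
  exact Nat.ModEq.eq_of_lt_of_lt (Nat.ModEq.cancel_left_of_coprime c2
    (Nat.ModEq.add_right_cancel' 1 (Nat.ModEq.cancel_left_of_coprime ce h))) (by omega) (by omega)

theorem size_Xtr {K F : Type} [Field K] [NumberField K] [Field F] [NumberField F] [Algebra K F]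
    {I : Type} {A : Finset I} {y : I → 𝓞 K} {r : I → 𝓞 F} {a : I → ℤ} {h Q : ℝ} {e : ℕ} (z : ℕ)
    (he : 0 < e) (ht : Ht A y h) (hr : ∀ i ∈ A, r i ^ e = algebraMap (𝓞 K) (𝓞 F) (y i))
    (hQ : ∑ i ∈ A, |(a i : ℝ)| ≤ Q) :
    |((Algebra.norm ℚ ((∑ i ∈ A, (a i : 𝓞 F) * r i ^ z : 𝓞 F) : F) : ℚ) : ℝ)| ≤
      (Q ^ finrank ℚ K * Real.exp (z * h / e)) ^ finrank K F := by
  obtain ⟨t, h1, h2⟩ := ht
  have hQ0 : 0 ≤ Q := (Finset.sum_nonneg fun _ _ => abs_nonneg _).trans hQ
  have he' : (0 : ℝ) < e := by exact_mod_cast he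
  refine (norm_le_rel (K := K) _ (fun σ => Q * Real.exp (z * t σ / e)) fun τ => ?_).trans ?_
  · have h3 : ∀ i ∈ A, ‖τ (r i : F)‖ ^ z ≤ Real.exp (z * t (τ.comp (algebraMap K F)) / e) := by
      intro i hi
      rw [mul_div_assoc, Real.exp_nat_mul]
      refine pow_le_pow_left₀ (norm_nonneg _) ?_ z
      refine le_of_pow_le_pow_left₀ he.ne' (Real.exp_pos _).le ?_
      rw [← Real.exp_nat_mul, mul_div_cancel₀ _ he'.ne', ← norm_pow, ← map_pow]
      have h4 : (r i : F) ^ e = algebraMap K F (y i : K) := by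
        have h5 := congrArg (algebraMap (𝓞 F) F) (hr i hi)
        rw [map_pow, ← IsScalarTower.algebraMap_apply,
          IsScalarTower.algebraMap_apply (𝓞 K) K F] at h5
        exact h5
      rw [h4]
      exact h2 (τ.comp (algebraMap K F)) i hi
    have h4 : τ ((∑ i ∈ A, (a i : 𝓞 F) * r i ^ z : 𝓞 F) : F) =
        ∑ i ∈ A, (a i : ℂ) * τ (r i : F) ^ z := by
      change (τ.comp (algebraMap (𝓞 F) F)) _ = _
      simp only [map_sum, map_mul, map_pow, map_intCast]
      rfl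
    rw [h4]
    refine (norm_sum_le _ _).trans (le_trans (Finset.sum_le_sum fun i hi => ?_)
      ((Finset.sum_mul A (fun i => |(a i : ℝ)|) _).symm.trans_le
        (mul_le_mul_of_nonneg_right hQ (Real.exp_pos _).le)))
    rw [norm_mul, norm_pow, Complex.norm_intCast]
    exact mul_le_mul_of_nonneg_left (h3 i hi) (abs_nonneg _)
  · refine pow_le_pow_left₀ (Finset.prod_nonneg fun σ _ => by positivity) ?_ _
    rw [Finset.prod_mul_distrib, Finset.prod_const, Finset.card_univ, card_emb, ← Real.exp_sum,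
      ← Finset.sum_div, ← Finset.mul_sum]
    gcongr

theorem xtr_st (h1 : SCH_st) (h2 : DER_st) : XTR_st := by
  intro q hq K F _ _ _ _ _ _ ι I d c v A y r h Q T S M e z α q2 he hc hr hb hv hM hS hd hα hlt
  obtain ⟨L, l1, l2, l3⟩ := h1 q (S * M) hq.out hS
  obtain ⟨η, j, hy, ha⟩ := hc.dec
  have q3 : 1 ≤ q - 1 := by have := hq.out.two_le; omega
  have qe : Even (q - 1) := (hq.out.even_sub_one q2)
  have e0 : 0 < e := by omega
  set f := red ι (S * M) with hf
  set g := f.comp (algebraMap (𝓞 K) (𝓞 F)) with hg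
  have n0 : IsNilpotent (q : ZMod (q ^ (S * M))) :=
    ⟨S * M, by rw [← Nat.cast_pow, ZMod.natCast_self]⟩
  have u1 : ∀ i ∈ A, IsUnit (f (r i)) := fun i hi => by
    obtain ⟨w, hw⟩ := red_one ι (S * M) (hr i hi).2
    rw [sub_eq_iff_eq_add'.1 hw]
    exact ((Commute.all _ _).isNilpotent_mul_right n0).isUnit_one_add
  have t1 : (2 : ZMod (q ^ (S * M))) ^ (q - 1) = 1 := by
    have h3 := (ZMod.natCast_eq_zero_iff _ _).2 hd
    rw [Nat.cast_sub (Nat.one_le_two_pow), sub_eq_zero] at h3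
    exact_mod_cast h3
  obtain ⟨u2, hu2⟩ : IsUnit (2 : ZMod (q ^ (S * M))) := IsUnit.of_pow_eq_one t1 (by omega)
  have t2 : L u2 = 0 := l2 _ (Units.ext (by rw [Units.val_pow_eq_pow_val, hu2, t1, Units.val_one]))
  obtain ⟨e', he'⟩ : ∃ e' : ZMod (q ^ (S * M)), e' * e = 1 := by
    rcases he with rfl | rfl
    · exact ⟨1, by simp⟩
    · exact ⟨(u2⁻¹ : (ZMod (q ^ (S * M)))ˣ), by rw [Nat.cast_ofNat, ← hu2, Units.inv_mul]⟩
  classical
  let ρ : I → (ZMod (q ^ (S * M)))ˣ := fun i => if hi : IsUnit (f (r i)) then hi.unit else 1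
  have r1 : ∀ i ∈ A, (ρ i : ZMod (q ^ (S * M))) = f (r i) := fun i hi => by
    simp only [ρ, dif_pos (u1 i hi), IsUnit.unit_spec]
  have r2 : ∀ i ∈ A, (ρ i : ZMod (q ^ (S * M))) ^ e = g (y i) := fun i hi => by
    rw [r1 i hi, ← map_pow, (hr i hi).1]
    rfl
  have r3 : ∀ i ∈ A, L (ρ i) = e' * L (Units.map g.toMonoidHom (η i)) := fun i hi => by
    have h3 : ρ i ^ e = Units.map g.toMonoidHom (η i) * u2 ^ j i := Units.ext (by
      rw [Units.val_pow_eq_pow_val, r2 i hi, hy i hi, map_mul, map_pow, map_ofNat,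
        Units.val_mul, Units.val_pow_eq_pow_val, hu2]
      rfl)
    have h4 := congrArg L h3
    rw [l1, pow_Xtr l1, pow_Xtr l1, t2, mul_zero, add_zero] at h4
    rw [← h4, ← mul_assoc, he', one_mul]
  have key := l3 I A (fun i => ((c i * mon v α i : ℤ) : ZMod (q ^ (S * M)))) ρ S M
    (fun s => e * (2 * s + 1))
    (fun i hi => by rw [r1 i hi]; exact red_one ι (S * M) (hr i hi).2) rfl
    (fun s hs s' hs' => node_Xtr hq.out q2 he ((Nat.le_mul_of_pos_right S hM).trans hS) hs hs')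
    (fun s hs m hm => by
      rw [← h2 K I d c v A y η T S _ g (fun u => e' * L (Units.map g.toMonoidHom u))
        (fun u w => by rw [map_mul, l1, mul_add]) (fun u hu => by
          rw [l2, mul_zero]
          rw [← map_pow]
          rcases tors hu with rfl | rfl
          · rw [one_pow, map_one]
          · rw [qe.neg_one_pow, map_one]) ha hv α m (by omega) s hs]
      refine Finset.sum_congr rfl fun i hi => ?_
      rw [r3 i hi, pow_mul (ρ i : ZMod (q ^ (S * M))) e, r2 i hi]) z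
  by_contra h0
  refine ((lio ι (S * M) h0 ?_).trans (size_Xtr z e0 hc.ht (fun i hi => (hr i hi).1)
    (hb α (by omega)))).not_gt hlt
  rw [← hf, ← key, map_sum]
  refine Finset.sum_congr rfl fun i hi => ?_
  rw [map_mul, map_pow, map_intCast, r1 i hi]

end Pool.Agent.MP_9b2bac_nt.B
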