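import Pool.Agent.MP_9b2bac_nt.B.Basic

/-!
Small integral coordinates for a finite set of units.
-/

open NumberField Module Finset Matrix

namespace Pool.Agent.MP_9b2bac_nt.B

/-- the determinant of short vectors of a discrete lattice is small -/
theorem det_Coo {n : ℕ} {E : Type} [Fintype E] (A : Matrix (Fin n) (Fin n) ℤ)
    (L : (Fin n → ℤ) →ₗ[ℤ] (E → ℝ)) (hL : ∀ m, (∀ σ, |L m σ| ≤ 1 / 3) → m = 0) (H : ℕ)
    (hA : ∀ l σ, |L (A.col l) σ| ≤ H) :
    |A.det| ≤ ((6 * n * H + 1) ^ Fintype.card E : ℕ) := by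
  classical
  by_cases h0 : A.det = 0
  · rw [h0, abs_zero]
    exact Int.natCast_nonneg _
  have hi : Function.Injective A.toLin' := fun x y h => sub_eq_zero.1
    (Matrix.eq_zero_of_mulVec_eq_zero h0 (by
      rw [Matrix.mulVec_sub, sub_eq_zero]; exact h))
  have hc := Submodule.natAbs_det_equiv (LinearMap.range A.toLin')
    (LinearEquiv.ofInjective A.toLin' hi)
  have he : (LinearMap.range A.toLin').subtype ∘ₗ AddMonoidHom.toIntLinearMap
      (LinearEquiv.ofInjective A.toLin' hi : (Fin n → ℤ) →+ LinearMap.range A.toLin') =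
      A.toLin' := LinearMap.ext fun _ => rfl
  rw [he, LinearMap.det_toLin'] at hc
  have hz : ∀ q : (Fin n → ℤ) ⧸ LinearMap.range A.toLin', ∃ z : Fin n → ℤ,
      Submodule.Quotient.mk z = q ∧ ∀ σ, |L z σ| ≤ n * H := fun q => by
    obtain ⟨m, rfl⟩ := Submodule.Quotient.mk_surjective _ q
    refine ⟨m - A *ᵥ fun l => A.cramer m l / A.det, (Submodule.Quotient.eq _).2
      ⟨-fun l => A.cramer m l / A.det, by simp [Matrix.mulVec_neg]⟩, fun σ => ?_⟩
    have h1 : A.det • (m - A *ᵥ fun l => A.cramer m l / A.det) =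
        ∑ l, (A.cramer m l % A.det) • A.col l := by
      rw [smul_sub, ← Matrix.mulVec_cramer, ← Matrix.mulVec_smul, ← Matrix.mulVec_sub,
        Matrix.mulVec_eq_sum]
      refine Finset.sum_congr rfl fun l _ => ?_
      rw [Int.emod_def, op_smul_eq_smul]
      rfl
    have h2 := congrFun (congrArg L h1) σ
    simp only [map_zsmul, map_sum, Pi.smul_apply, Finset.sum_apply] at h2
    simp only [zsmul_eq_mul] at h2
    have h3 : (0 : ℝ) < |(A.det : ℝ)| := abs_pos.2 (Int.cast_ne_zero.2 h0)
    refine le_of_mul_le_mul_left ?_ h3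
    rw [← abs_mul, h2]
    refine (Finset.abs_sum_le_sum_abs _ _).trans ((Finset.sum_le_card_nsmul _ _
      (|(A.det : ℝ)| * H) fun l _ => ?_).trans_eq ?_)
    · rw [abs_mul]
      refine mul_le_mul ?_ (hA l σ) (abs_nonneg _) h3.le
      rw [← Int.cast_abs, ← Int.cast_abs, Int.cast_le, abs_of_nonneg (Int.emod_nonneg _ h0)]
      exact (Int.emod_lt_abs _ h0).le
    · rw [Finset.card_univ, Fintype.card_fin, nsmul_eq_mul]
      ring
  choose z hz1 hz2 using hz
  let F : ((Fin n → ℤ) ⧸ LinearMap.range A.toLin') → E → Icc (-(3 * n * H : ℤ)) (3 * n * H) :=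
    fun q σ => ⟨⌊3 * L (z q) σ⌋, by
      have := abs_le.1 (hz2 q σ)
      rw [Finset.mem_Icc, Int.le_floor, Int.floor_le_iff]
      push_cast
      constructor <;> linarith⟩
  have hF : Function.Injective F := fun q q' h => by
    rw [← hz1 q, ← hz1 q', sub_eq_zero.1 (hL (z q - z q') fun σ => ?_)]
    have h1 := Int.abs_sub_lt_one_of_floor_eq_floor (congrArg Subtype.val (congrFun h σ))
    rw [← mul_sub, abs_mul, abs_of_pos three_pos] at h1
    rw [map_sub, Pi.sub_apply]
    linarith
  have h1 := Nat.card_le_card_of_injective F hF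
  rw [← hc, Nat.card_fun, Nat.card_eq_fintype_card, Nat.card_eq_fintype_card, Fintype.card_coe,
    Int.card_Icc] at h1
  have h2 : (3 * n * H + 1 - -(3 * n * H) : ℤ).toNat = 6 * n * H + 1 := by
    rw [show (3 * n * H + 1 - -(3 * n * H) : ℤ) = (6 * n * H + 1 : ℕ) by push_cast; ring,
      Int.toNat_natCast]
  rw [h2] at h1
  rw [← Int.natCast_natAbs]
  exact Int.ofNat_le.2 h1

/-- the logarithms of the conjugates of a unit -/
noncomputable def lg_Coo (K : Type) [Field K] : Additive (𝓞 K)ˣ →ₗ[ℤ] ((K →+* ℂ) → ℝ) :=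
  (AddMonoidHom.mk' (fun (u : Additive (𝓞 K)ˣ) (σ : K →+* ℂ) =>
    Real.log ‖σ (((Additive.toMul u : (𝓞 K)ˣ) : 𝓞 K) : K)‖) fun u w => funext fun σ => by
      rw [Pi.add_apply, ← Real.log_mul (emb_unit_pos _ σ).ne' (emb_unit_pos _ σ).ne', ← norm_mul,
        ← map_mul]
      rfl).toIntLinearMap

theorem two_Coo {K : Type} [Field K] [NumberField K] [IsTotallyReal K] {u : Additive (𝓞 K)ˣ}
    (h : ∀ σ, |lg_Coo K u σ| ≤ 1 / 3) : 2 • u = 0 := by
  rcases house (Additive.toMul u) fun σ => (Real.log_le_iff_le_exp (emb_unit_pos _ σ)).1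
    (abs_le.1 (h σ)).2 with e | e
  · exact Additive.toMul.injective (by rw [toMul_nsmul, e, one_pow]; rfl)
  · exact Additive.toMul.injective (by rw [toMul_nsmul, e, neg_one_sq]; rfl)

theorem coo_st : COO_st := by
  intro K _ _ _ Y H hY
  classical
  let s : Set ((K →+* ℂ) → ℝ) := Set.range fun u : Y => lg_Coo K (Additive.ofMul u.1)
  let M := Submodule.span ℤ s
  have : Module.Finite ℤ M := Module.Finite.span_of_finite ℤ (Set.finite_range _)
  have hM : M ≤ LinearMap.range (lg_Coo K) := Submodule.span_le.2 (by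
    rintro _ ⟨u, rfl⟩
    exact ⟨_, rfl⟩)
  have hn : finrank ℤ M + 1 ≤ finrank ℚ K := by
    have h1 := (Submodule.finrank_mono hM).trans (LinearMap.finrank_range_le (lg_Coo K))
    have h2 : 0 < Fintype.card (InfinitePlace K) := Fintype.card_pos
    have h3 := InfinitePlace.card_eq_nrRealPlaces_add_nrComplexPlaces K
    have h4 := InfinitePlace.card_add_two_mul_card_eq_rank K
    rw [Units.finrank_eq, Units.rank] at h1
    omega
  obtain ⟨n, hn', ⟨b⟩⟩ : ∃ n, n + 1 ≤ finrank ℚ K ∧ Nonempty (Basis (Fin n) ℤ M) :=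
    ⟨_, hn, ⟨Module.finBasis ℤ M⟩⟩
  let g : Y → M := fun u => ⟨_, Submodule.subset_span ⟨u, rfl⟩⟩
  have hg : Submodule.span ℤ (Set.range g) = ⊤ := by
    rw [← Submodule.span_span_coe_preimage (R := ℤ) (s := s)]
    refine congrArg _ (Set.ext fun x => ⟨?_, ?_⟩)
    · rintro ⟨u, rfl⟩
      exact ⟨u, rfl⟩
    · rintro ⟨u, h⟩
      exact ⟨u, Subtype.ext h⟩
  have hb : ∀ e : Fin n → Y, |b.det fun l => g (e l)| ≤
      ((6 * finrank ℚ K * H + 2) ^ finrank ℚ K : ℕ) := fun e => by
    have h1 := det_Coo (b.toMatrix fun l => g (e l)) (M.subtype ∘ₗ b.equivFun.symm.toLinearMap)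
      (fun m hm => by
        obtain ⟨u, hu⟩ := hM (b.equivFun.symm m).2
        have h2 := congrArg (lg_Coo K) (two_Coo (u := u) fun σ => by rw [hu]; exact hm σ)
        rw [map_nsmul, map_zero, hu, smul_eq_zero_iff_right two_ne_zero] at h2
        exact b.equivFun.symm.map_eq_zero_iff.1 (Subtype.ext h2)) H fun l σ => by
        have h2 : b.equivFun.symm ((b.toMatrix fun l => g (e l)).col l) = g (e l) :=
          b.equivFun.symm_apply_eq.2 rfl
        rw [LinearMap.comp_apply, LinearEquiv.coe_coe, h2]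
        exact hY _ (e l).2 σ
    rw [card_emb] at h1
    refine h1.trans (Int.ofNat_le.2 (Nat.pow_le_pow_left ?_ _))
    have : n * H ≤ finrank ℚ K * H := Nat.mul_le_mul_right H (by omega)
    rw [mul_assoc, mul_assoc]
    omega
  obtain ⟨e, he⟩ : ∃ e : Fin n → Y, b.det (fun l => g (e l)) ≠ 0 := by
    by_contra h
    push Not at h
    exact b.det_ne_zero (AlternatingMap.coe_multilinearMap_injective
      (MultilinearMap.ext_of_span_eq_top (fun _ => hg) h))
  obtain ⟨ι⟩ : Nonempty (Option (Fin n) ↪ Fin (finrank ℚ K)) :=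
    Function.Embedding.nonempty_of_card_le (by simpa using hn')
  let w : Y → Option (Fin n) → ℤ := fun u o =>
    o.elim 1 fun l => b.det fun j => g (Function.update e l u j)
  have hw : ∀ u : Y, b.det (fun l => g (e l)) • g u = ∑ l, w u (some l) • g (e l) := fun u => by
    apply b.equivFun.injective
    rw [map_zsmul, b.det_apply, ← Matrix.mulVec_cramer, Matrix.mulVec_eq_sum, map_sum]
    refine Finset.sum_congr rfl fun l _ => ?_
    rw [op_smul_eq_smul, map_zsmul, Matrix.cramer_apply]
    refine congrArg₂ _ ?_ rfl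
    change _ = b.det (g ∘ Function.update e l u)
    rw [Function.comp_update, b.det_apply, b.toMatrix_update]
    rfl
  refine ⟨fun u => if h : u ∈ Y then Function.extend ι (w ⟨u, h⟩) 0 else 0, fun u hu l => ?_,
    fun φ c => ⟨Function.extend ι (fun o => o.elim (c : ℚ) fun l =>
      (φ (Additive.ofMul (e l).1) : ℚ) / (b.det fun l => g (e l) : ℤ)) 0, fun u hu => ?_⟩⟩
  · beta_reduce
    rw [dif_pos hu]
    by_cases h : ∃ o, ι o = l
    · obtain ⟨o, rfl⟩ := h
      rw [ι.injective.extend_apply]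
      cases o with
      | none => exact Int.ofNat_le.2 (Nat.one_le_pow _ _ (by omega))
      | some l => exact hb _
    · rw [Function.extend_apply' _ _ _ h]
      exact Int.natCast_nonneg _
  · beta_reduce
    rw [dif_pos hu, ← Fintype.sum_of_injective ι ι.injective (fun o => o.elim (c : ℚ) fun l =>
      (φ (Additive.ofMul (e l).1) : ℚ) / (b.det fun l => g (e l) : ℤ) * w ⟨u, hu⟩ (some l)) _
      (fun l h => by rw [Function.extend_apply' _ _ _ h]; exact zero_mul _) fun o => by
        rw [ι.injective.extend_apply, ι.injective.extend_apply]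
        cases o with
        | none => exact (mul_one _).symm
        | some l => rfl]
    have h1 := congrArg φ (two_Coo (u := b.det (fun l => g (e l)) • Additive.ofMul u -
      ∑ l, w ⟨u, hu⟩ (some l) • Additive.ofMul (e l).1) fun σ => by
        have h2 := congrArg M.subtype (hw ⟨u, hu⟩)
        simp only [map_sub, map_zsmul, map_sum] at h2 ⊢
        refine (congrArg abs (congrFun (sub_eq_zero.2 h2) σ)).trans_le ?_
        norm_num)
    rw [map_nsmul, map_zero, smul_eq_zero_iff_right two_ne_zero, map_sub, sub_eq_zero] at h1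
    simp only [map_zsmul, map_sum, smul_eq_mul] at h1
    have h2 : ((b.det fun l => g (e l) : ℤ) : ℚ) ≠ 0 := Int.cast_ne_zero.2 he
    rw [Fintype.sum_option, Int.cast_add, add_comm]
    refine congrArg₂ _ (mul_left_cancel₀ h2 ?_) rfl
    rw [← Int.cast_mul, id, h1, Finset.mul_sum, Int.cast_sum]
    refine Finset.sum_congr rfl fun l _ => ?_
    rw [Option.elim_some, Int.cast_mul]
    field_simp

end Pool.Agent.MP_9b2bac_nt.B
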