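import Pool.Agent.MP_9b2bac_nt.B.Defs

/-!
Vanishing of the derivatives of the auxiliary function.
-/

open NumberField Module Finset

namespace Pool.Agent.MP_9b2bac_nt.B

theorem mon_add_Der {I : Type} {d : ℕ} (v : I → Fin d → ℤ) (α : Fin d → ℕ) (l : Fin d) (i : I) :
    mon v (α + Pi.single l 1) i = mon v α i * v i l := by
  simp only [mon, Pi.add_apply, pow_add, Finset.prod_mul_distrib]
  congr 1
  rw [Finset.prod_eq_single l (fun b _ hb => by simp [hb]) (by simp)]
  simp

theorem step_Der {K : Type} [Field K] [NumberField K] {I : Type} {d : ℕ} {c : I → ℤ}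
    {v : I → Fin d → ℤ} {A : Finset I} {y : I → 𝓞 K} {η : I → (𝓞 K)ˣ} {n S : ℕ}
    (ha : Aff v A η) (hv : Van c v A y (n + 1) S) (φ : Additive (𝓞 K)ˣ →+ ℤ) (b : ℤ) :
    Van (fun i => c i * (φ (Additive.ofMul (η i)) + b)) v A y n S := by
  intro α hα s hs
  obtain ⟨a, ha⟩ := ha φ b
  apply RingOfIntegers.coe_injective
  have h1 : ∀ l, ∑ i ∈ A, ((c i * mon v α i * v i l : ℤ) : K) * (y i : K) ^ (2 * s + 1) = 0 := by
    intro l
    have h2 := congrArg (algebraMap (𝓞 K) K) (hv (α + Pi.single l 1)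
      (by simp [Finset.sum_add_distrib, hα]) s hs)
    simp only [map_sum, map_mul, map_pow, map_intCast, map_zero, mon_add_Der] at h2
    simpa only [mul_assoc] using h2
  have h3 : ∑ l, (a l : K) *
      ∑ i ∈ A, ((c i * mon v α i * v i l : ℤ) : K) * (y i : K) ^ (2 * s + 1) = 0 := by
    simp only [h1, mul_zero, Finset.sum_const_zero]
  simp only [map_sum, map_mul, map_pow, map_intCast, map_zero]
  rw [← h3]
  simp only [Finset.mul_sum]
  rw [Finset.sum_comm]
  refine Finset.sum_congr rfl fun i hi => ?_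
  have h4 := congrArg (fun x : ℚ => (x : K)) (ha i hi)
  simp only [Rat.cast_sum, Rat.cast_mul, Rat.cast_intCast] at h4
  rw [Int.cast_mul, Int.cast_mul, ← h4, Finset.mul_sum, Finset.sum_mul, Finset.sum_mul]
  refine Finset.sum_congr rfl fun l _ => ?_
  push_cast
  ring

theorem low_Der {K : Type} [Field K] [NumberField K] {I : Type} {d : ℕ} {c : I → ℤ}
    {v : I → Fin d → ℤ} {A : Finset I} {y : I → 𝓞 K} {η : I → (𝓞 K)ˣ} {S : ℕ}
    (ha : Aff v A η) (n k : ℕ) (hv : Van c v A y (n + k) S) : Van c v A y n S := by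
  induction k with
  | zero => exact hv
  | succ k ih => exact ih (by simpa using step_Der ha (n := n + k) hv 0 1)

theorem coord_Der {K : Type} [Field K] [NumberField K] {R : Type} [CommRing R]
    (Λ : (𝓞 K)ˣ → R) (h1 : ∀ u w, Λ (u * w) = Λ u + Λ w)
    (h2 : ∀ u ∈ Units.torsion K, Λ u = 0) :
    ∃ (φ : Fin (Units.rank K) → Additive (𝓞 K)ˣ →+ ℤ) (ρ : Fin (Units.rank K) → R),
      ∀ u, Λ u = ∑ l, (φ l (Additive.ofMul u) : R) * ρ l := by
  let L : (𝓞 K)ˣ →* Multiplicative R :=
    MonoidHom.mk' (fun u => Multiplicative.ofAdd (Λ u)) fun u w => by rw [h1, ofAdd_add]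
  choose e he hu using Units.exist_unique_eq_mul_prod K
  have h3 : ∀ u w, (e (u * w)).2 = (e u).2 + (e w).2 := fun u w => by
    refine (congrArg Prod.snd (hu (u * w) ((e u).1 * (e w).1, (e u).2 + (e w).2) ?_)).symm
    simp only [Pi.add_apply, zpow_add, Finset.prod_mul_distrib, Subgroup.coe_mul]
    exact (congrArg₂ (· * ·) (he u) (he w)).trans (mul_mul_mul_comm _ _ _ _)
  refine ⟨fun l => AddMonoidHom.mk' (fun u => (e u.toMul).2 l) fun u w => by
    rw [toMul_add, h3, Pi.add_apply], fun l => Λ (Units.fundSystem K l), fun u => ?_⟩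
  have h4 : L u = L _ := congrArg L (he u)
  rw [map_mul, map_prod] at h4
  have h5 := congrArg Multiplicative.toAdd h4
  rw [toAdd_mul, toAdd_prod] at h5
  refine h5.trans ?_
  rw [show Multiplicative.toAdd (L (e u).1) = 0 from h2 _ (e u).1.2, zero_add]
  refine Finset.sum_congr rfl fun l _ => ?_
  rw [map_zpow, toAdd_zpow, zsmul_eq_mul]
  rfl

theorem der_st : DER_st := by
  intro K _ _ I d c v A y η T S R _ f Λ h1 h2 ha hv α m hm s hs
  obtain ⟨φ, ρ, h3⟩ := coord_Der Λ h1 h2
  induction m generalizing c T with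
  | zero =>
    obtain ⟨k, rfl⟩ := Nat.exists_eq_add_of_le hm
    have h4 := congrArg f (low_Der ha (∑ l, α l) k (by simpa using hv) α rfl s hs)
    simpa only [map_sum, map_mul, map_pow, map_intCast, map_zero, pow_zero, mul_one] using h4
  | succ m ih =>
    obtain ⟨n, rfl⟩ : ∃ n, T = n + 1 := ⟨T - 1, by omega⟩
    have h4 : ∑ l, ρ l * ∑ i ∈ A, ((c i * (φ l (Additive.ofMul (η i)) + 0) * mon v α i : ℤ) : R) *
        Λ (η i) ^ m * f (y i) ^ (2 * s + 1) = 0 :=
      Finset.sum_eq_zero fun l _ => by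
        rw [ih _ n (step_Der ha hv (φ l) 0) (by omega), mul_zero]
    rw [← h4]
    simp only [Finset.mul_sum]
    rw [Finset.sum_comm]
    refine Finset.sum_congr rfl fun i _ => ?_
    rw [pow_succ (Λ (η i)), ← mul_assoc]
    nth_rw 2 [h3 (η i)]
    rw [Finset.mul_sum, Finset.sum_mul]
    refine Finset.sum_congr rfl fun l _ => ?_
    push_cast
    ring

end Pool.Agent.MP_9b2bac_nt.B
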