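import Pool.Agent.MP_9b2bac_nt.B.Defs

/-!
The logarithm modulo `q ^ N` and the Schwarz lemma.
-/

open Finset Polynomial

namespace Pool.Agent.MP_9b2bac_nt.B

section
variable {R : Type} [CommRing R] {B : Type} [CommRing B] [Algebra R B]

/-- the truncated exponential series -/
def Ex_Sch (c : ℕ → R) (N : ℕ) (x : B) : B := ∑ j ∈ range N, c j • x ^ j

theorem map_Sch {B' : Type} [CommRing B'] [Algebra R B'] (φ : B →ₐ[R] B') (c : ℕ → R) (N : ℕ)
    (x : B) : φ (Ex_Sch c N x) = Ex_Sch c N (φ x) := by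
  simp [Ex_Sch]

variable {c : ℕ → R} {N q : ℕ}

theorem add_Sch (hc : ∀ j < N, c j * j.factorial = 1) (hq : (q : R) ^ N = 0) {x y : B}
    (hx : (q : B) ∣ x) (hy : (q : B) ∣ y) :
    Ex_Sch c N (x + y) = Ex_Sch c N x * Ex_Sch c N y := by
  have hB : (q : B) ^ N = 0 := by simpa using congrArg (algebraMap R B) hq
  unfold Ex_Sch
  rw [sum_mul_sum, ← sum_product',
    ← sum_filter_add_sum_filter_not (range N ×ˢ range N) fun p => p.1 + p.2 < N,
    sum_eq_zero (s := filter (fun p : ℕ × ℕ => ¬ p.1 + p.2 < N) _), add_zero,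
    ← sum_fiberwise_of_maps_to (s := filter (fun p : ℕ × ℕ => p.1 + p.2 < N) _) (t := range N)
      (g := fun p => p.1 + p.2) fun p hp => mem_range.2 (mem_filter.1 hp).2]
  · refine sum_congr rfl fun k hk => ?_
    have hk' := mem_range.1 hk
    rw [(Commute.all x y).add_pow', smul_sum]
    refine sum_congr (by ext p; simp; omega) fun p hp => ?_
    have h1 : p.1 + p.2 = k := (mem_filter.1 hp).2
    have h2 : c k * k.choose p.1 = c p.1 * c p.2 := by
      have h3 : (k.factorial : R) = k.choose p.1 * p.1.factorial * p.2.factorial := by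
        rw [← Nat.choose_mul_factorial_mul_factorial (show p.1 ≤ k by omega),
          show k - p.1 = p.2 by omega]
        push_cast
        rfl
      have h4 := hc k hk'
      rw [h3] at h4
      linear_combination (c p.1 * c p.2) * h4 -
        (c k * k.choose p.1 * c p.2 * p.2.factorial) * hc p.1 (by omega) -
        (c k * k.choose p.1) * hc p.2 (by omega)
    rw [smul_mul_smul_comm, ← h2, mul_smul, Nat.cast_smul_eq_nsmul]
  · intro p hp
    obtain ⟨x, rfl⟩ := hx
    obtain ⟨y, rfl⟩ := hy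
    rw [smul_mul_smul_comm, mul_pow, mul_pow, mul_mul_mul_comm, ← pow_add,
      pow_eq_zero_of_le (not_lt.1 (mem_filter.1 hp).2) hB, zero_mul, smul_zero]

theorem shape_Sch (hc : ∀ j < N, c j * j.factorial = 1) (hq : (q : R) ^ N = 0) (hN : N ≠ 0)
    {x : R} (hx : (q : R) ∣ x) : ∃ w, Ex_Sch c N x = 1 + x * (1 + x * w) := by
  have h0 : c 0 = 1 := by simpa using hc 0 (by omega)
  obtain ⟨n, rfl⟩ := Nat.exists_eq_succ_of_ne_zero hN
  cases n with
  | zero =>
    obtain ⟨y, rfl⟩ := hx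
    have : (q : R) = 0 := by simpa using hq
    exact ⟨0, by simp [Ex_Sch, h0, this]⟩
  | succ n =>
    have h1 : c 1 = 1 := by simpa using hc 1 (by omega)
    refine ⟨∑ j ∈ range n, c (j + 2) * x ^ j, ?_⟩
    rw [Ex_Sch, sum_range_succ', sum_range_succ', mul_add, mul_sum, mul_sum]
    simp only [smul_eq_mul, zero_add, h0, h1]
    rw [sum_congr rfl fun j _ => (show c (j + 1 + 1) * x ^ (j + 1 + 1) =
      x * (x * (c (j + 2) * x ^ j)) by ring)]
    ring

theorem mul_Sch (hc : ∀ j < N, c j * j.factorial = 1) (hq : (q : R) ^ N = 0) (hN : N ≠ 0)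
    {x : R} (hx : (q : R) ∣ x) (n : ℕ) : Ex_Sch c N (n * x) = Ex_Sch c N x ^ n := by
  induction n with
  | zero => simpa using shape_Sch hc hq hN (dvd_zero _)
  | succ n ih =>
    rw [Nat.cast_succ, add_mul, one_mul, add_Sch hc hq (hx.mul_left _) hx, ih, pow_succ]

theorem inj_Sch (hc : ∀ j < N, c j * j.factorial = 1) (hq : (q : R) ^ N = 0) (hN : N ≠ 0)
    {x y : R} (hx : (q : R) ∣ x) (hy : (q : R) ∣ y) (h : Ex_Sch c N x = Ex_Sch c N y) :
    x = y := by
  have hz := hx.sub hy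
  have h1 : Ex_Sch c N (x - y) = 1 := by
    rw [sub_eq_add_neg, add_Sch hc hq hx hy.neg_right, h, ← add_Sch hc hq hy hy.neg_right]
    simpa using mul_Sch hc hq hN (dvd_zero _) 0
  obtain ⟨w, hw⟩ := shape_Sch hc hq hN hz
  have h2 : IsNilpotent ((x - y) * w) := by
    obtain ⟨z, hz⟩ := hz
    exact ⟨N, by rw [hz, mul_assoc, mul_pow, hq, zero_mul]⟩
  rw [← sub_eq_zero, ← h2.isUnit_one_add.mul_left_eq_zero]
  linear_combination h1 - hw

theorem log_Sch [Finite R] (hc : ∀ j < N, c j * j.factorial = 1) (hq : (q : R) ^ N = 0)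
    (hN : N ≠ 0) : ∃ lg : R → R, ∀ y, (q : R) ∣ y - 1 →
      (q : R) ∣ lg y ∧ Ex_Sch c N (lg y) = y := by
  let f : {x : R // (q : R) ∣ x} → {x : R // (q : R) ∣ x} := fun x =>
    ⟨Ex_Sch c N x.1 - 1, by
      obtain ⟨w, hw⟩ := shape_Sch hc hq hN x.2
      rw [hw, add_sub_cancel_left]
      exact x.2.mul_right _⟩
  have hf : Function.Surjective f := Finite.surjective_of_injective fun x y h =>
    Subtype.ext (inj_Sch hc hq hN x.2 y.2 (sub_left_injective (congrArg Subtype.val h)))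
  have : ∀ y : R, ∃ x, (q : R) ∣ y - 1 → (q : R) ∣ x ∧ Ex_Sch c N x = y := fun y => by
    by_cases h : (q : R) ∣ y - 1
    · obtain ⟨x, hx⟩ := hf ⟨_, h⟩
      exact ⟨x, fun _ => ⟨x.2, sub_left_injective (congrArg Subtype.val hx)⟩⟩
    · exact ⟨0, fun h' => absurd h' h⟩
  choose lg h using this
  exact ⟨lg, h⟩

theorem poly_Sch [Nontrivial R] (hc : ∀ j < N, c j * j.factorial = 1) (hq : (q : R) ^ N = 0)
    (hN : N ≠ 0) {I : Type} (A : Finset I) (a l : I → R) (hl : ∀ i ∈ A, (q : R) ∣ l i)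
    {S M : ℕ} (n : ℕ → ℕ) (hSM : N = S * M)
    (hn : ∀ s < S, ∀ s' < S, s ≠ s' → IsUnit ((n s : R) - n s'))
    (h : ∀ s < S, ∀ m < M, ∑ i ∈ A, a i * l i ^ m * Ex_Sch c N (l i) ^ n s = 0) (z : ℕ) :
    ∑ i ∈ A, a i * Ex_Sch c N (l i) ^ z = 0 := by
  have hco : ∀ (x : R) m, (Ex_Sch c N (C x * X)).coeff m = if m < N then c m * x ^ m else 0 :=
    fun x m => by
      simp only [Ex_Sch, mul_pow, ← C_pow, finsetSum_coeff, coeff_smul, coeff_C_mul, coeff_X_pow]
      simp
  have hF : ∑ i ∈ A, C (a i) * Ex_Sch c N (C (l i) * X) = 0 := by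
    by_contra h0
    have hm : (∏ s ∈ range S, (X - C (n s : R)) ^ M).Monic :=
      monic_prod_of_monic _ _ fun s _ => (monic_X_sub_C _).pow M
    refine hm.not_dvd_of_degree_lt h0 ?_ (prod_dvd_of_coprime (fun s hs s' hs' hne =>
      (isCoprime_X_sub_C_of_isUnit_sub
        (hn s (by simpa using hs) s' (by simpa using hs') hne)).pow) fun s hs => ?_)
    · rw [degree_eq_natDegree hm.ne_zero,
        natDegree_prod_of_monic _ _ fun s _ => (monic_X_sub_C _).pow M, degree_lt_iff_coeff_zero]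
      intro m hm
      simp only [(monic_X_sub_C _).natDegree_pow, natDegree_X_sub_C, mul_one, sum_const,
        card_range, smul_eq_mul, ← hSM] at hm
      simp [hco, not_lt.2 hm]
    · rw [X_sub_C_pow_dvd_iff, X_pow_dvd_iff]
      intro m hm
      have h1 : ∀ i ∈ A, (C (a i) * Ex_Sch c N (C (l i) * X)).comp (X + C (n s : R)) =
          C (a i * Ex_Sch c N (l i) ^ n s) * Ex_Sch c N (C (l i) * X) := fun i hi => by
        have h2 : (q : R[X]) ∣ C (l i) := by simpa using map_dvd C (hl i hi)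
        have h3 := map_Sch (Algebra.ofId R R[X]) c N (n s * l i)
        rw [mul_Sch hc hq hN (hl i hi)] at h3
        rw [mul_comp, C_comp, comp_eq_aeval, map_Sch, map_mul, aeval_C, aeval_X, mul_add,
          algebraMap_eq, add_Sch hc hq (h2.mul_right _) (h2.mul_right _), ← C_mul,
          mul_comm (l i), C_mul (a := a i), mul_assoc, mul_comm (C _) (Ex_Sch _ _ _)]
        exact congrArg (fun t => C (a i) * (Ex_Sch c N (C (l i) * X) * t)) h3.symm
      have h4 : m < N := lt_of_lt_of_le hm (hSM ▸ Nat.le_mul_of_pos_left _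
        (Nat.zero_lt_of_lt (mem_range.1 hs)))
      rw [Polynomial.sum_comp, sum_congr rfl h1, finsetSum_coeff]
      simp only [coeff_C_mul, hco, if_pos h4]
      rw [← mul_zero (c m), ← h s (mem_range.1 hs) m hm, mul_sum]
      exact sum_congr rfl fun i _ => by ring
  have h5 := congrArg (aeval (z : R)) hF
  rw [map_sum, map_zero] at h5
  rw [← h5]
  refine sum_congr rfl fun i hi => ?_
  rw [map_mul, map_Sch, ← mul_Sch hc hq hN (hl i hi), map_mul, aeval_C, aeval_C, aeval_X,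
    mul_comm (z : R)]
  rfl

end

theorem sch_st : SCH_st := by
  intro q N hq hN
  rcases eq_or_ne N 0 with rfl | h0
  · have : Subsingleton (ZMod (q ^ 0)) := by rw [pow_zero]; infer_instance
    exact ⟨0, fun _ _ => Subsingleton.elim _ _, fun _ _ => rfl,
      fun _ _ _ _ _ _ _ _ _ _ _ _ => Subsingleton.elim _ _⟩
  have := Fact.mk hq
  have : Fact (1 < q ^ N) := ⟨Nat.one_lt_pow h0 hq.one_lt⟩
  have hz : (q : ZMod (q ^ N)) ^ N = 0 := by rw [← Nat.cast_pow, ZMod.natCast_self]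
  let f := ZMod.castHom (dvd_pow_self q h0) (ZMod q)
  have hf : ∀ x, f x = 0 → (q : ZMod (q ^ N)) ∣ x := fun x hx => by
    obtain ⟨m, rfl⟩ := ZMod.natCast_zmod_surjective x
    rw [map_natCast, ZMod.natCast_eq_zero_iff] at hx
    exact Nat.cast_dvd_cast hx
  have hu : ∀ x, f x ≠ 0 → IsUnit x := fun x hx => by
    obtain ⟨m, rfl⟩ := ZMod.natCast_zmod_surjective x
    rw [map_natCast, Ne, ZMod.natCast_eq_zero_iff] at hx
    exact (ZMod.isUnit_iff_coprime _ _).2 ((hq.coprime_iff_not_dvd.2 hx).symm.pow_right _)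
  have hc : ∀ j < N, Ring.inverse (j.factorial : ZMod (q ^ N)) * j.factorial = 1 := fun j hj =>
    Ring.inverse_mul_cancel _ (hu _ (by
      rw [map_natCast, Ne, ZMod.natCast_eq_zero_iff, hq.dvd_factorial]
      omega))
  obtain ⟨lg, hlg⟩ := log_Sch hc hz h0
  have hF : ∀ u : (ZMod (q ^ N))ˣ, (q : ZMod (q ^ N)) ∣ (u : ZMod (q ^ N)) ^ (q - 1) - 1 :=
    fun u => hf _ (by
      rw [map_sub, map_pow, map_one, ZMod.pow_card_sub_one_eq_one (u.isUnit.map f).ne_zero,
        sub_self])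
  obtain ⟨e, he⟩ := (hu ((q - 1 : ℕ) : ZMod (q ^ N)) (by
    rw [map_natCast, Ne, ZMod.natCast_eq_zero_iff]
    exact Nat.not_dvd_of_pos_of_lt (by have := hq.two_le; omega)
      (by have := hq.two_le; omega))).exists_left_inv
  have hL : ∀ r : ZMod (q ^ N), (q : ZMod (q ^ N)) ∣ r - 1 → (q : ZMod (q ^ N)) ∣ r ^ (q - 1) - 1 →
      e * lg (r ^ (q - 1)) = lg r := fun r hr hr' => by
    rw [inj_Sch hc hz h0 (hlg _ hr').1 ((hlg _ hr).1.mul_left ((q - 1 : ℕ) : ZMod (q ^ N)))
      (by rw [(hlg _ hr').2, mul_Sch hc hz h0 (hlg _ hr).1, (hlg _ hr).2]), ← mul_assoc, he,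
      one_mul]
  refine ⟨fun u => e * lg ((u : ZMod (q ^ N)) ^ (q - 1)), fun u w => ?_, fun u hu => ?_,
    fun I A a r S M n hr hSM hn h z => ?_⟩
  · beta_reduce
    rw [← mul_add]
    congr 1
    refine inj_Sch hc hz h0 (hlg _ (hF _)).1 ((hlg _ (hF _)).1.add (hlg _ (hF _)).1) ?_
    rw [add_Sch hc hz (hlg _ (hF _)).1 (hlg _ (hF _)).1, (hlg _ (hF _)).2, (hlg _ (hF _)).2,
      (hlg _ (hF _)).2, Units.val_mul, mul_pow]
  · have h1 : lg 1 = 0 := inj_Sch hc hz h0 (hlg 1 (by simp)).1 (dvd_zero _) (by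
      rw [(hlg 1 (by simp)).2]
      simpa using (mul_Sch hc hz h0 (dvd_zero _) 0).symm)
    simp only [← Units.val_pow_eq_pow_val, hu, Units.val_one, h1, mul_zero]
  · have h1 := poly_Sch hc hz h0 A a (fun i => lg (r i)) (fun i hi => (hlg _ (hr i hi)).1) n hSM
      (fun s hs s' hs' hne => hu _ fun h2 => hne (hn s hs s' hs' (by
        rwa [map_sub, map_natCast, map_natCast, sub_eq_zero, ZMod.natCast_eq_natCast_iff] at h2)))
      (fun s hs m hm => (sum_congr rfl fun i hi => by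
        beta_reduce
        rw [(hlg _ (hr i hi)).2, hL _ (hr i hi) (hF _)]).trans (h s hs m hm)) z
    exact (sum_congr rfl fun i hi => by rw [(hlg _ (hr i hi)).2]).trans h1

end Pool.Agent.MP_9b2bac_nt.B
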