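import Pool.Agent.MP_9b2bac_nt.B.Basic

/-! The lemma of Siegel by the box principle. -/

open NumberField Module Finset

namespace Pool.Agent.MP_9b2bac_nt.B

theorem box_Sie {J A : Type} [Fintype J] [Fintype A] (a : J → A → ℝ) (b : J → ℝ) (B m : ℕ)
    (hm : 0 < m) (hb : ∀ j, 0 < b j) (hab : ∀ j, B * ∑ i, |a j i| ≤ b j)
    (hc : (m + 1) ^ Fintype.card J < (B + 1) ^ Fintype.card A) :
    ∃ c : A → ℤ, (∃ i, c i ≠ 0) ∧ (∀ i, |c i| ≤ B) ∧
      ∀ j, |∑ i, (c i : ℝ) * a j i| < 2 * b j / m := by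
  classical
  have hmR : (0 : ℝ) < m := by exact_mod_cast hm
  let w : (A → Fin (B + 1)) → J → ℝ := fun x j => ∑ i, ((x i : ℕ) : ℝ) * a j i
  have hw : ∀ x j, |w x j| ≤ b j := by
    intro x j
    refine (abs_sum_le_sum_abs _ _).trans (le_trans ?_ (hab j))
    rw [mul_sum]
    refine sum_le_sum fun i _ => ?_
    rw [abs_mul, Nat.abs_cast]
    refine mul_le_mul_of_nonneg_right ?_ (abs_nonneg _)
    exact_mod_cast Nat.lt_succ_iff.1 (x i).2
  let u : (A → Fin (B + 1)) → J → ℝ := fun x j => (w x j + b j) * (m / (2 * b j))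
  have hu0 : ∀ x j, 0 ≤ u x j := fun x j =>
    mul_nonneg (by linarith [(abs_le.1 (hw x j)).1]) (by have := hb j; positivity)
  have hu1 : ∀ x j, u x j ≤ m := by
    intro x j
    have h1 := hb j
    calc u x j ≤ (2 * b j) * (m / (2 * b j)) :=
          mul_le_mul_of_nonneg_right (by linarith [(abs_le.1 (hw x j)).2]) (by positivity)
      _ = m := by field_simp
  let f : (A → Fin (B + 1)) → J → Fin (m + 1) := fun x j =>
    ⟨⌊u x j⌋₊, Nat.lt_succ_of_le (Nat.floor_le_of_le (hu1 x j))⟩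
  obtain ⟨x, x', hne, he⟩ := Fintype.exists_ne_map_eq_of_card_lt f (by simpa using hc)
  refine ⟨fun i => ((x i : ℕ) : ℤ) - ((x' i : ℕ) : ℤ), ?_, fun i => ?_, fun j => ?_⟩
  · by_contra h
    push Not at h
    apply hne
    funext i
    have := h i
    exact Fin.ext (by omega)
  · have h1 := (x i).2
    have h2 := (x' i).2
    show |((x i : ℕ) : ℤ) - ((x' i : ℕ) : ℤ)| ≤ B
    rw [abs_le]
    constructor <;> omega
  · have h1 : ⌊u x j⌋₊ = ⌊u x' j⌋₊ := congrArg Fin.val (congrFun he j)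
    have h2 := Nat.floor_le (hu0 x j)
    have h3 := Nat.floor_le (hu0 x' j)
    have h4 := Nat.lt_floor_add_one (u x j)
    have h5 := Nat.lt_floor_add_one (u x' j)
    rw [h1] at h2 h4
    have h6 : |u x j - u x' j| < 1 := by
      rw [abs_lt]
      constructor <;> linarith
    have h7 : ∑ i, ((((x i : ℕ) : ℤ) - ((x' i : ℕ) : ℤ) : ℤ) : ℝ) * a j i
        = (u x j - u x' j) * (2 * b j / m) := by
      have h8 := (hb j).ne'
      have h9 : (u x j - u x' j) * (2 * b j / m) = w x j - w x' j := by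
        simp only [u]
        field_simp
        ring
      rw [h9]
      simp only [w]
      rw [← sum_sub_distrib]
      refine sum_congr rfl fun i _ => ?_
      push_cast
      ring
    have h10 : 0 < 2 * b j / m := by have := hb j; positivity
    rw [h7, abs_mul, abs_of_pos h10]
    exact mul_lt_of_lt_one_left h10 h6

theorem mon_le_Sie {I : Type} {d : ℕ} (v : I → Fin d → ℤ) (α : Fin d → ℕ) (i : I) (V : ℕ)
    (h : ∀ l, |v i l| ≤ V) : |(mon v α i : ℝ)| ≤ (V : ℝ) ^ ∑ l, α l := by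
  rw [mon, ← Finset.prod_pow_eq_pow_sum]
  push_cast
  rw [Finset.abs_prod]
  refine Finset.prod_le_prod (fun _ _ => abs_nonneg _) fun l _ => ?_
  rw [abs_pow]
  refine pow_le_pow_left₀ (abs_nonneg _) ?_ _
  exact_mod_cast h l

theorem sie_st : SIE_st := by
  classical
  intro K _ _ _ I d v A y h V T S hH h0 hV hv hA hn
  obtain ⟨t, ht, hy⟩ := hH
  set D := finrank ℚ K with hD
  have hD0 : 0 < D := finrank_pos
  have hDR : (0 : ℝ) < D := by exact_mod_cast hD0
  have hn0 : 0 < A.card := hA.card_pos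
  have hnR : (1 : ℝ) ≤ A.card := by exact_mod_cast hn0
  have hVR : (1 : ℝ) ≤ (V : ℝ) ^ T := one_le_pow₀ (by exact_mod_cast hV)
  have hE : (1 : ℝ) ≤ Real.exp (2 * S * h / D) := Real.one_le_exp (by positivity)
  set Q : ℝ := A.card * V ^ T * Real.exp (2 * S * h / D) with hQ
  have hQ1 : 1 ≤ Q := one_le_mul_of_one_le_of_one_le (one_le_mul_of_one_le_of_one_le hnR hVR) hE
  set B := ⌈2 * Q⌉₊ with hB
  have hB1 : 2 * Q ≤ B := Nat.le_ceil _
  have hB2 : (B : ℝ) ≤ 3 * Q := by
    have := Nat.ceil_lt_add_one (by linarith : 0 ≤ 2 * Q)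
    linarith
  have hBR : (0 : ℝ) < B := by linarith
  have hB0 : 0 < B := by exact_mod_cast hBR
  set m := ⌈2 * B * Q⌉₊ with hm
  have hm1 : 2 * B * Q ≤ m := Nat.le_ceil _
  have hmR : (0 : ℝ) < m := lt_of_lt_of_le (by positivity) hm1
  have hm0 : 0 < m := by exact_mod_cast hmR
  have hm2 : m ≤ B ^ 2 := by
    apply Nat.ceil_le.2
    push_cast
    nlinarith
  let P := (univ : Finset (Fin d)).finsuppAntidiag T
  have hre : ∀ (σ : K →+* ℂ) (x : K), ((σ x).re : ℂ) = σ x := by
    intro σ x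
    obtain ⟨z, hz⟩ : ∃ z : ℝ, (z : ℂ) = σ x :=
      ⟨_, (IsTotallyReal.complexEmbedding_isReal σ).coe_embedding_apply _⟩
    rw [← hz, Complex.ofReal_re]
  obtain ⟨c, ⟨i0, hi0⟩, hc1, hc2⟩ := box_Sie (J := (P × Fin S) × (K →+* ℂ)) (A := A)
    (fun j i => (mon v j.1.1.1 i : ℝ) * (j.2 (y i : K)).re ^ (2 * (j.1.2 : ℕ) + 1))
    (fun j => B * (A.card * (V ^ T * Real.exp ((2 * (j.1.2 : ℕ) + 1 : ℕ) * t j.2)))) B m hm0
    (fun j => by positivity) (by
      intro j
      refine mul_le_mul_of_nonneg_left ?_ hBR.le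
      have hT : ∑ l, j.1.1.1 l = T := (mem_finsuppAntidiag.1 j.1.1.2).1
      calc _ ≤ ∑ _i : A, (V : ℝ) ^ T * Real.exp ((2 * (j.1.2 : ℕ) + 1 : ℕ) * t j.2) := by
            refine sum_le_sum fun i _ => ?_
            rw [abs_mul, abs_pow, Real.exp_nat_mul]
            refine mul_le_mul (hT ▸ mon_le_Sie v _ _ V (hv i i.2))
              (pow_le_pow_left₀ (abs_nonneg _)
                ((Complex.abs_re_le_norm _).trans (hy j.2 i i.2)) _) (by positivity)
              (by positivity)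
        _ = _ := by simp) (by
      have e1 : Fintype.card ((P × Fin S) × (K →+* ℂ)) = (T + d - 1).choose T * S * D := by
        rw [Fintype.card_prod, Fintype.card_prod, card_emb, Fintype.card_fin, Fintype.card_coe,
          card_finsuppAntidiag_nat_eq_choose, card_univ, Fintype.card_fin, add_comm d T]
      rw [e1, Fintype.card_coe]
      set E := (T + d - 1).choose T * S * D with hE
      have hE2 : 2 * E ≤ A.card := le_trans (le_of_eq (by rw [hE]; ring)) hn
      rcases Nat.eq_zero_or_pos E with h | h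
      · rw [h, pow_zero]
        exact Nat.one_lt_pow hn0.ne' (by omega)
      · calc (m + 1) ^ E < ((B + 1) ^ 2) ^ E := Nat.pow_lt_pow_left (by nlinarith) h.ne'
          _ = (B + 1) ^ (2 * E) := by rw [← pow_mul]
          _ ≤ (B + 1) ^ A.card := Nat.pow_le_pow_right (by omega) hE2)
  refine ⟨fun i => if h : i ∈ A then c ⟨i, h⟩ else 0, ⟨i0, i0.2, by simpa using hi0⟩,
    fun i hi => ?_, fun α hα s hs => ?_⟩
  · simp only [hi, dite_true]
    have h1 : |(c ⟨i, hi⟩ : ℝ)| ≤ B := by exact_mod_cast hc1 ⟨i, hi⟩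
    calc _ ≤ 3 * Q := h1.trans hB2
      _ = _ := by rw [hQ]; ring
  · let α' : P := ⟨Finsupp.equivFunOnFinite.symm α, mem_finsuppAntidiag.2
      ⟨by simpa using hα, subset_univ _⟩⟩
    refine eq_zero_of_lt (b := fun σ => 2 * (B * (A.card * (V ^ T *
      Real.exp ((2 * s + 1 : ℕ) * t σ)))) / m) (fun σ => ?_) ?_
    · have h1 := hc2 ((α', ⟨s, hs⟩), σ)
      refine lt_of_eq_of_lt ?_ h1
      rw [← Real.norm_eq_abs, ← Complex.norm_real, ← Finset.sum_coe_sort A]
      congr 1
      push_cast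
      rw [map_sum]
      refine sum_congr rfl fun i _ => ?_
      simp [α', hre, mul_assoc]
    · have e1 : ∀ σ, 2 * (B * (A.card * ((V : ℝ) ^ T * Real.exp ((2 * s + 1 : ℕ) * t σ)))) / m
          = (2 * B * (A.card * V ^ T) / m) * Real.exp ((2 * s + 1 : ℕ) * t σ) := by
        intro σ
        ring
      simp only [e1]
      rw [prod_mul_distrib, prod_const, card_univ, card_emb, ← Real.exp_sum, ← mul_sum, ← hD]
      have h2 : Real.exp ((2 * s + 1 : ℕ) * ∑ σ, t σ) ≤ Real.exp (2 * S * h / D) ^ D := by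
        rw [← Real.exp_nat_mul]
        apply Real.exp_le_exp.2
        have h3 : ((2 * s + 1 : ℕ) : ℝ) ≤ 2 * S := by exact_mod_cast (by omega : 2 * s + 1 ≤ 2 * S)
        calc ((2 * s + 1 : ℕ) : ℝ) * ∑ σ, t σ ≤ (2 * s + 1 : ℕ) * h :=
              mul_le_mul_of_nonneg_left ht (by positivity)
          _ ≤ 2 * S * h := mul_le_mul_of_nonneg_right h3 h0
          _ = _ := by field_simp
      calc _ ≤ (2 * B * (A.card * V ^ T) / m : ℝ) ^ D * Real.exp (2 * S * h / D) ^ D :=
            mul_le_mul_of_nonneg_left h2 (by positivity)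
        _ = (2 * B * Q / m) ^ D := by
            rw [← mul_pow, hQ]
            congr 1
            ring
        _ ≤ 1 := pow_le_one₀ (by positivity) ((div_le_one hmR).2 hm1)

end Pool.Agent.MP_9b2bac_nt.B
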