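import Pool.Agent.MP_9b2bac_nt.B.Tow

/-!
The tower with one more prescribed unramified prime and the same bound for the root discriminant.
-/

open NumberField Module
open Pool.Agent.MP_14ad9d_nt.Full Pool.Agent.MP_14ad9d_nt.Full.FIAux

namespace Pool.Agent.MP_9b2bac_nt.B

theorem base_TowL (S : Finset ℕ) (hP : ∀ p ∈ S, p.Prime) (hM : ∀ p ∈ S, p ≡ 1 [MOD 4])
    (hc : S.card = 23) (q : ℕ) [Fact q.Prime] (hq : ∏ p ∈ S, p + 3 ≤ q) :
    ∃ (k : Type) (_ : Field k) (_ : NumberField k) (c : Fin 1024 → ℕ), Bas q k c ∧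
      (discr k).natAbs ∣ ∏ p ∈ S, p ∧ Nonempty (k →+* ℚ_[q]) := by
  classical
  have hpos : 0 < ∏ p ∈ S, p := Finset.prod_pos fun p hp => (hP p hp).pos
  have q2 : q ≠ 2 := by omega
  have hz : ∀ p ∈ S, (p : ZMod q) ≠ 0 := fun p hp e => by
    have h1 := Nat.le_of_dvd (hP p hp).pos ((ZMod.natCast_eq_zero_iff _ _).1 e)
    have h2 := Nat.le_of_dvd hpos (Finset.dvd_prod_of_mem (fun p => p) hp)
    omega
  obtain ⟨ε, hε, h12⟩ := Finset.exists_lt_card_fiber_of_mul_lt_card_of_maps_to (s := S)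
    (t := ({1, -1} : Finset ℤ)) (f := fun p => quadraticChar (ZMod q) p) (n := 11)
    (fun p hp => by simpa using quadraticChar_dichotomy (hz p hp)) (by rw [hc]; decide)
  obtain ⟨T, hT, hTc⟩ := Finset.exists_subset_card_eq (n := 12) h12
  have hTS : T ⊆ S := hT.trans (Finset.filter_subset _ _)
  have hχ : ∀ p ∈ T, quadraticChar (ZMod q) p = ε := fun p hp => (Finset.mem_filter.1 (hT hp)).2
  have hε2 : ε * ε = 1 := by
    simp only [Finset.mem_insert, Finset.mem_singleton] at hε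
    rcases hε with rfl | rfl <;> norm_num
  obtain ⟨p0, h0⟩ : T.Nonempty := Finset.card_pos.1 (by omega)
  obtain ⟨p1, h1⟩ : (T.erase p0).Nonempty :=
    Finset.card_pos.1 (by rw [Finset.card_erase_of_mem h0]; omega)
  have h1T := Finset.mem_of_mem_erase h1
  have hU : ((T.erase p0).erase p1).powerset.card = 1024 := by
    rw [Finset.card_powerset, Finset.card_erase_of_mem h1, Finset.card_erase_of_mem h0, hTc]
    norm_num
  let e := (Finset.equivFinOfCardEq hU).symm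
  have he : ∀ j, (e j).1 ⊆ (T.erase p0).erase p1 := fun j => Finset.mem_powerset.1 (e j).2
  have heT : ∀ j, (e j).1 ⊆ T := fun j =>
    (he j).trans ((Finset.erase_subset _ _).trans (Finset.erase_subset _ _))
  have hD : (∏ p ∈ T, p) ≡ 1 [MOD 4] := Finset.prod_induction _ (· ≡ 1 [MOD 4])
    (fun a b ha hb => ha.mul hb) rfl fun p hp => hM p (hTS hp)
  obtain ⟨n, hn⟩ : ∃ n, ∏ p ∈ T, p = 4 * n + 1 := ⟨(∏ p ∈ T, p) / 4, by
    unfold Nat.ModEq at hD; omega⟩
  have hd : ∀ p ∈ T, p * ∏ i ∈ T.erase p, i = 4 * n + 1 ∧ ¬ p ∣ ∏ i ∈ T.erase p, i := by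
    intro p hp
    refine ⟨(Finset.mul_prod_erase T (fun i => i) hp).trans hn, ?_⟩
    rw [(hP p (hTS hp)).prime.dvd_finsetProd_iff]
    rintro ⟨i, hi, h⟩
    exact Finset.ne_of_mem_erase hi ((Nat.prime_dvd_prime_iff_eq (hP p (hTS hp))
      (hP i (hTS (Finset.mem_of_mem_erase hi)))).1 h).symm
  obtain ⟨k, _, _, θ, k1, k2, k3, k4⟩ := ex_Base n
    ((hd p0 h0).1 ▸ nsq_Base (hP p0 (hTS h0)) (hd p0 h0).2)
  have := nf_Base k2
  obtain ⟨b, b0, b1⟩ := basis_Base k2 k3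
  have hdis := discr_Base k1 b b0 b1
  have hev : ∀ p ∈ T, Evn (p : k) ∧ (p : k) ≠ 0 := fun p hp =>
    ⟨evn_Base k1 (hd p hp).1 ((Nat.Prime.coprime_iff_not_dvd (hP p (hTS hp))).2 (hd p hp).2),
      Nat.cast_ne_zero.2 (hP p (hTS hp)).ne_zero⟩
  have key : ∀ j j', IsSquare ((∏ i ∈ (e j).1, p0 * i) * ∏ i ∈ (e j').1, p0 * i) →
      (e j).1 ⊆ (e j').1 := by
    intro j j' h p hp
    by_contra hp'
    have pp := hP p (hTS (heT j hp))
    have hne : p ≠ p0 := Finset.ne_of_mem_erase (Finset.mem_of_mem_erase (he j hp))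
    rw [← Finset.mul_prod_erase _ _ hp, mul_comm p0 p, mul_assoc, mul_assoc] at h
    refine nsq_Base pp (fun h' => ?_) h
    rcases pp.dvd_mul.1 h' with h' | h'
    · exact hne ((Nat.prime_dvd_prime_iff_eq pp (hP p0 (hTS h0))).1 h')
    rcases pp.dvd_mul.1 h' with h' | h'
    · exact ndvd_Base (fun i hi => hP i (hTS (heT j (Finset.mem_of_mem_erase hi)))) pp
        (hP p0 (hTS h0)) hne (Finset.notMem_erase _ _) h'
    · exact ndvd_Base (fun i hi => hP i (hTS (heT j' hi))) pp (hP p0 (hTS h0)) hne hp' h'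
  refine ⟨k, inferInstance, inferInstance, fun j => ∏ i ∈ (e j).1, p0 * i,
    ⟨by simpa using finrank_eq_card_basis b, real_Base k1 k2, fun h => ?_, fun j => ?_,
      fun j => pad_Base q2 ?_, fun j => ?_, fun j j' h => ?_⟩, ?_, ?_⟩
  · have := h.trans hdis
    omega
  · exact Finset.prod_induction _ (· ≡ 1 [MOD 4]) (fun a b ha hb => ha.mul hb) rfl
      fun p hp => (hM p0 (hTS h0)).mul (hM p (hTS (heT j hp)))
  · rw [Nat.cast_prod, map_prod]
    exact Finset.prod_eq_one fun p hp => by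
      rw [Nat.cast_mul, map_mul, hχ p0 h0, hχ p (heT j hp), hε2]
  · rw [Nat.cast_prod]
    refine (Finset.prod_induction _ (fun x : k => Evn x ∧ x ≠ 0)
      (fun a b ha hb => ⟨ha.1.mul hb.1 ha.2 hb.2, mul_ne_zero ha.2 hb.2⟩)
      ⟨fun w => by rw [ord_one]; exact Even.zero, one_ne_zero⟩ fun p hp => ?_).1
    have a := hev p0 h0
    have b := hev p (heT j hp)
    rw [Nat.cast_mul]
    exact ⟨a.1.mul b.1 a.2 b.2, mul_ne_zero a.2 b.2⟩
  · rw [← Nat.cast_mul] at h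
    rcases sq_Base k1 k2 k3 h with h | h
    · exact e.injective (Subtype.ext ((key j j' h).antisymm (key j' j (by rwa [mul_comm]))))
    · have pp := hP p1 (hTS h1T)
      have hn1 : ∀ j, ¬ p1 ∣ ∏ i ∈ (e j).1, p0 * i := fun j =>
        ndvd_Base (fun i hi => hP i (hTS (heT j hi))) pp (hP p0 (hTS h0))
          (Finset.ne_of_mem_erase h1) fun hi => Finset.notMem_erase _ _ (he j hi)
      rw [← (hd p1 h1T).1, mul_left_comm] at h
      refine (nsq_Base pp (fun h' => ?_) h).elim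
      rcases pp.dvd_mul.1 h' with h' | h'
      · exact (pp.dvd_mul.1 h').elim (hn1 j) (hn1 j')
      · exact (hd p1 h1T).2 h'
  · have h2 : (discr k).natAbs ∣ 4 * n + 1 := Int.natAbs_dvd_natAbs.2 hdis
    exact (hn ▸ h2).trans (Finset.prod_dvd_prod_of_subset _ _ _ hTS)
  · obtain ⟨s, hs⟩ := pad_Base q2 (N := 4 * n + 1) (by
      rw [← hn, Nat.cast_prod, map_prod, Finset.prod_congr rfl hχ, Finset.prod_const, hTc,
        show 12 = 2 * 6 from rfl, pow_mul, sq, hε2, one_pow])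
    refine k4 _ ((1 + s) / 2) ?_
    push_cast at hs
    linear_combination (-1 / 4) * hs

theorem red_TowL (K : Type) [Field K] [NumberField K] {l : ℕ} (hl : l.Prime)
    (h : ¬ (l : ℤ) ∣ discr K) (x : 𝓞 K) (hx : (l : 𝓞 K) ∣ x ^ 2) : (l : 𝓞 K) ∣ x := by
  have hp : Prime (l : ℤ) := Nat.prime_iff_prime_int.1 hl
  have h' := (not_dvd_discr_iff_forall_liesOver K (𝓞 K) hp).mp h
  have h2 : (Ideal.span {(l : ℤ)}).map (algebraMap ℤ (𝓞 K)) = Ideal.span {(l : 𝓞 K)} := by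
    simp [Ideal.map_span]
  have h0 : (Ideal.span {(l : 𝓞 K)}) ≠ ⊥ := by simp [hl.ne_zero]
  have hsq : Squarefree (Ideal.span {(l : 𝓞 K)}) := by
    rw [UniqueFactorizationMonoid.squarefree_iff_nodup_normalizedFactors h0,
      Multiset.nodup_iff_count_le_one]
    intro P
    by_cases hP : P ∈ UniqueFactorizationMonoid.normalizedFactors (Ideal.span {(l : 𝓞 K)})
    · obtain ⟨hPp, hle⟩ := (Ideal.mem_normalizedFactors_iff h0).mp hP
      have hP0 : P ≠ ⊥ := fun e => h0 (le_bot_iff.mp (e ▸ hle))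
      have hm : P.IsMaximal := hPp.isMaximal hP0
      have hl : P.LiesOver (Ideal.span {(l : ℤ)}) :=
        (Ideal.liesOver_span_iff hPp.ne_top hp).mpr
          (by simpa using hle (Ideal.mem_span_singleton_self _))
      have := h' P hm hl
      rw [← h2, ← Ideal.IsDedekindDomain.ramificationIdx_eq_normalizedFactors_count _ _ (h2 ▸ h0),
        Ideal.ramificationIdx_eq_one_of_isUnramifiedAt]
    · rw [Multiset.count_eq_zero_of_notMem hP]
      exact zero_le_one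
  have hr := hsq.isRadical 2 (Ideal.span {x}) (by
    rw [Ideal.span_singleton_pow, Ideal.dvd_iff_le, Ideal.span_singleton_le_span_singleton]
    exact hx)
  rwa [Ideal.dvd_iff_le, Ideal.span_singleton_le_span_singleton] at hr

theorem towl : ∃ C q₀ : ℕ, ∀ l : ℕ, l.Prime → ∀ (q : ℕ) [Fact q.Prime], q₀ ≤ q → ∀ m : ℕ,
    ∃ (K : Type) (_ : Field K) (_ : NumberField K), IsTotallyReal K ∧ finrank ℚ K = 2 ^ (m + 1) ∧
      Nonempty (K →+* ℚ_[q]) ∧ (∀ x : 𝓞 K, (l : 𝓞 K) ∣ x ^ 2 → (l : 𝓞 K) ∣ x) ∧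
      (discr K).natAbs ≤ C ^ finrank ℚ K := by
  classical
  obtain ⟨S₀, hS, hc⟩ := (Nat.infinite_setOfPred_prime_modEq_one (k := 4)
    (by norm_num)).exists_subset_card_eq 24
  have hpos : 0 < ∏ p ∈ S₀, p := Finset.prod_pos fun p hp => (hS hp).1.pos
  refine ⟨∏ p ∈ S₀, p, ∏ p ∈ S₀, p + 3, fun l hl q _ hq m => ?_⟩
  obtain ⟨S, hSS, hc'⟩ := Finset.exists_subset_card_eq (s := S₀.erase l) (n := 23) (by
    have := Finset.pred_card_le_card_erase (s := S₀) (a := l)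
    omega)
  have hS0 : S ⊆ S₀ := hSS.trans (Finset.erase_subset _ _)
  have hle : ∏ p ∈ S, p ≤ ∏ p ∈ S₀, p :=
    Nat.le_of_dvd hpos (Finset.prod_dvd_prod_of_subset _ _ _ hS0)
  obtain ⟨k, _, _, c, hb, hd, hι⟩ := base_TowL S (fun p hp => (hS (hS0 hp)).1)
    (fun p hp => (hS (hS0 hp)).2) hc' q (by omega)
  have h : ∃ (L : Type) (_ : Field L) (_ : NumberField L) (_ : Algebra k L),
      Tw k L m ∧ Nonempty (L →+* ℚ_[q]) := by
    induction m with
    | zero =>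
      exact ⟨k, _, ‹_›, Algebra.id k, ⟨inferInstance, by simp, hb.real, unr_st.2.2.1 k⟩, hι⟩
    | succ m ih =>
      obtain ⟨L, _, _, _, h1, h2⟩ := ih
      exact step q k L m c (by omega) hb h1 h2
  obtain ⟨L, _, _, _, hT, h2⟩ := h
  have e := (unr_st.2.1 k L hT.unr).2.1
  have hf : finrank ℚ L = 2 ^ (m + 1) := by
    rw [← finrank_mul_finrank ℚ k L, hb.deg, hT.deg, pow_succ']
  refine ⟨L, _, ‹_›, hT.real, hf, h2, red_TowL L hl fun h => ?_, ?_⟩
  · have h1 : l ∣ (discr L).natAbs := Int.natCast_dvd.1 h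
    rw [e] at h1
    obtain ⟨p, hp, h3⟩ := (hl.prime.dvd_finsetProd_iff _).1 ((hl.dvd_of_dvd_pow h1).trans hd)
    exact Finset.ne_of_mem_erase (hSS hp)
      ((Nat.prime_dvd_prime_iff_eq hl (hS (hS0 hp)).1).1 h3).symm
  · rw [e, hf, hT.deg]
    exact (Nat.pow_le_pow_left ((Nat.le_of_dvd (Finset.prod_pos fun p hp =>
      (hS (hS0 hp)).1.pos) hd).trans hle) _).trans
      (Nat.pow_le_pow_right hpos (Nat.pow_le_pow_right two_pos (Nat.le_succ m)))

end Pool.Agent.MP_9b2bac_nt.B
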