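import Pool.Agent.MP_9b2bac_nt.B.Basic

/-!
The end of the descent and the whole descent.
-/

open NumberField Module Finset

namespace Pool.Agent.MP_9b2bac_nt.B

theorem end_st : END_st := by
  intro q _ K _ _ _ ι I d v A y h hq hC h3
  obtain ⟨t, ht, hy⟩ := hC.ht
  obtain ⟨η, j, hη, -⟩ := hC.dec
  have hD : 0 < finrank ℚ K := finrank_pos
  have hl2 := Real.log_two_gt_d9
  have hu : ∀ i ∈ A, y i = η i := by
    intro i hi
    have h1 : ∀ σ : K →+* ℂ, Real.log ‖σ ((η i : 𝓞 K) : K)‖ + j i * Real.log 2 ≤ t σ := by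
      intro σ
      have h2 := hy σ i hi
      have h4 : ‖σ (y i : K)‖ = ‖σ ((η i : 𝓞 K) : K)‖ * 2 ^ j i := by
        have e : (y i : K) = ((η i : 𝓞 K) : K) * 2 ^ j i := by
          rw [hη i hi]
          simp only [RingOfIntegers.coe_eq_algebraMap, map_mul, map_pow, map_ofNat]
        rw [e, map_mul, map_pow, norm_mul, norm_pow, map_ofNat]
        simp
      have h5 := emb_unit_pos (η i) σ
      rw [h4, ← Real.log_le_iff_le_exp (by positivity), Real.log_mul h5.ne' (by positivity),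
        Real.log_pow] at h2
      exact h2
    have h2 := Finset.sum_le_sum fun σ (_ : σ ∈ Finset.univ) => h1 σ
    rw [Finset.sum_add_distrib, sum_log_unit, zero_add, Finset.sum_const, Finset.card_univ,
      card_emb, nsmul_eq_mul] at h2
    have h4 : j i = 0 := by
      by_contra h0
      have h5 : (1 : ℝ) ≤ j i := by exact_mod_cast Nat.one_le_iff_ne_zero.2 h0
      have h6 : (1 : ℝ) ≤ finrank ℚ K := by exact_mod_cast hD
      have h7 : (1 : ℝ) * (1 * Real.log 2) ≤ finrank ℚ K * (j i * Real.log 2) := by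
        gcongr
      linarith
    rw [hη i hi, h4, pow_zero, mul_one]
  have hup : ∀ i ∈ A, ∀ σ : K →+* ℂ, Real.log ‖σ ((η i : 𝓞 K) : K)‖ ≤ t σ := by
    intro i hi σ
    rw [Real.log_le_iff_le_exp (emb_unit_pos _ σ), ← hu i hi]
    exact hy σ i hi
  have hlo : ∀ i ∈ A, ∀ σ : K →+* ℂ, t σ - h ≤ Real.log ‖σ ((η i : 𝓞 K) : K)‖ := by
    classical
    intro i hi σ
    have h1 := sum_log_unit (η i)
    rw [← Finset.add_sum_erase _ _ (Finset.mem_univ σ)] at h1 ht
    have h2 := Finset.sum_le_sum fun τ (_ : τ ∈ Finset.univ.erase σ) => hup i hi τ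
    linarith
  rw [Finset.card_le_one]
  intro i hi i' hi'
  have h1 : ∀ σ : K →+* ℂ, ‖σ (((η i * (η i')⁻¹ : (𝓞 K)ˣ) : 𝓞 K) : K)‖ ≤ Real.exp (1 / 3) := by
    intro σ
    have h2 := hup i hi σ
    have h4 := hlo i' hi' σ
    have h5 : ‖σ (((η i * (η i')⁻¹ : (𝓞 K)ˣ) : 𝓞 K) : K)‖ * ‖σ ((η i' : 𝓞 K) : K)‖ =
        ‖σ ((η i : 𝓞 K) : K)‖ := by
      rw [← norm_mul, ← map_mul]
      congr 2
      simp only [RingOfIntegers.coe_eq_algebraMap]
      rw [← map_mul, ← Units.val_mul, inv_mul_cancel_right]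
    have h6 := congrArg Real.log h5
    rw [Real.log_mul (emb_unit_pos _ σ).ne' (emb_unit_pos _ σ).ne'] at h6
    rw [← Real.log_le_iff_le_exp (emb_unit_pos _ σ)]
    linarith
  rcases house _ h1 with h2 | h2
  · rw [mul_inv_eq_one] at h2
    exact hC.inj hi hi' (by rw [hu i hi, hu i' hi', h2])
  · exfalso
    rw [mul_inv_eq_iff_eq_mul, neg_one_mul] at h2
    have h4 := hC.one i hi
    have h5 := hC.one i' hi'
    have h6 : (y i : K) = -(y i' : K) := by
      rw [hu i hi, hu i' hi', h2]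
      simp
    rw [h6, map_neg] at h4
    have h7 : (2 : ℚ_[q]) = -((-ι (y i' : K) - 1) + (ι (y i' : K) - 1)) := by ring
    have h8 := norm_two hq
    rw [h7, norm_neg] at h8
    have h9 := Padic.nonarchimedean (-ι (y i' : K) - 1) (ι (y i' : K) - 1)
    rw [h8] at h9
    exact absurd (max_lt h4 h5) (not_lt.2 h9)

section low
variable {K : Type} [Field K] [NumberField K] {I : Type} {d : ℕ} {c : I → ℤ}
  {v : I → Fin d → ℤ} {A : Finset I} {y : I → 𝓞 K}

theorem low_Desc (h1 : DER_st) {η : I → (𝓞 K)ˣ} (hA : Aff v A η) {T T' S : ℕ}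
    (hV : Van c v A y T S) (hT : T' ≤ T) : Van c v A y T' S := by
  intro α hα s hs
  have := h1 K I d c v A y η T S (𝓞 K) (RingHom.id _) (fun _ => 0) (fun _ _ => by simp)
    (fun _ _ => rfl) hA hV α 0 (by omega) s hs
  simpa using this

end low

theorem ineq_Desc {Q h L : ℝ} {D S S' M z : ℕ} (e : ℕ) (he : 1 ≤ e) (hQ : 1 ≤ Q) (h0 : 0 ≤ h)
    (hL : 0 < L) (h8 : 8 * h ≤ (M + 1 : ℕ) * Real.log L)
    (h9 : 2 * D * Real.log Q < S * (M + 1 : ℕ) * Real.log L) (hS : S ≤ S') (hz : z ≤ 4 * S') :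
    Q ^ D * Real.exp (z * h / e) < L ^ (S' * (M + 1)) := by
  have hQ0 : 0 < Q := by linarith
  rw [← Real.exp_log (pow_pos hQ0 D), ← Real.exp_log (pow_pos hL _), ← Real.exp_add,
    Real.exp_lt_exp, Real.log_pow, Real.log_pow]
  have h1 : (z : ℝ) * h / e ≤ z * h :=
    div_le_self (by positivity) (by exact_mod_cast he)
  have h2 : (z : ℝ) ≤ 4 * S' := by exact_mod_cast hz
  have h3 : (S : ℝ) ≤ S' := by exact_mod_cast hS
  have h4 : 0 ≤ ((M + 1 : ℕ) : ℝ) * Real.log L := by linarith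
  have h5 : (z : ℝ) * h ≤ 4 * S' * h := by gcongr
  have h6 : (S' : ℝ) * (8 * h) ≤ S' * ((M + 1 : ℕ) * Real.log L) := by gcongr
  have h7 : (S : ℝ) * ((M + 1 : ℕ) * Real.log L) ≤ S' * ((M + 1 : ℕ) * Real.log L) := by gcongr
  rw [Nat.cast_mul]
  nlinarith

theorem desc_st (h1 : DER_st) (h2 : XTR_st) (h3 : KUM_st) (h4 : HLF_st) (h5 : END_st) :
    DESC_st := by
  intro q _ K _ _ _ ι I d c v A y h Q k S M R hq hR hA hc hC hB hV hQ hS h0 h3h h8 h9 hk hkq hdv
  have hq1 : (1 : ℝ) < q := by exact_mod_cast (Fact.out : q.Prime).one_lt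
  have hL : 0 < Real.log q := Real.log_pos hq1
  replace h8 : 8 * h ≤ (M + 1 : ℕ) * Real.log q := by
    push_cast
    linarith
  replace h9 : 2 * finrank ℚ K * Real.log Q < S * (M + 1 : ℕ) * Real.log q := by
    refine h9.trans_le ?_
    gcongr
    omega
  induction R generalizing A y h S M with
  | zero =>
    obtain ⟨η, j, hη, hf⟩ := hC.dec
    have h6 := h5 q K ι I d v A y h hq hC (by simpa using h3h)
    obtain ⟨i, rfl⟩ := Finset.card_eq_one.1 (le_antisymm h6 hA.card_pos)
    have h7 := low_Desc h1 hf hV (Nat.zero_le _) 0 (by simp) 0 hS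
    have h10 := hC.one i (Finset.mem_singleton_self i)
    simp only [Finset.sum_singleton, mon, Pi.zero_apply, pow_zero, Finset.prod_const_one, mul_one,
      mul_zero, zero_add, pow_one, mul_eq_zero, Int.cast_eq_zero] at h7
    rcases h7 with h7 | h7
    · exact hc i (Finset.mem_singleton_self i) h7
    · rw [h7] at h10
      simp at h10
  | succ R ih =>
    obtain ⟨η, j, hη, hf⟩ := hC.dec
    set D := finrank ℚ K with hD
    have hN : ∀ i ≤ D + 1, 2 ^ i * S * (M + 1) ≤ k := by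
      intro i hi
      refine le_trans ?_ hk
      have : 1 ≤ 2 ^ (R + 1) := Nat.one_le_two_pow
      gcongr
      norm_num
    have hdb : ∀ i n, i + n = D + 1 → Van c v A y ((D + 3) * M + n * M) (2 ^ i * S) := by
      intro i
      induction i with
      | zero =>
        intro n hn
        rw [pow_zero, one_mul]
        refine low_Desc h1 hf hV (le_of_eq ?_)
        rw [zero_add] at hn
        rw [hn]
        ring
      | succ i ih2 =>
        intro n hn α hα s hs
        have h6 := ih2 (n + 1) (by omega)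
        have h7 : ι.comp (algebraMap K K) = ι := RingHom.ext fun _ => rfl
        refine h2 q K K ι I d c v A y y h Q ((D + 3) * M + (n + 1) * M) (2 ^ i * S) (M + 1) 1
          (2 * s + 1) α hq (Or.inl rfl) (by rw [h7]; exact hC)
          (fun i hi => ⟨pow_one _, hC.one i hi⟩) (hB.mono subset_rfl ?_) h6 (by omega)
          ((hN i (by omega)).trans hkq) ((pow_dvd_pow _ (hN i (by omega))).trans hdv) ?_ ?_
        · have : n + 1 ≤ D + 1 := by omega
          calc (D + 3) * M + (n + 1) * M ≤ (D + 3) * M + (D + 1) * M := by gcongr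
            _ = 2 * (D + 2) * M := by ring
        · rw [hα]
          exact le_of_eq (by ring)
        · rw [finrank_self, pow_one]
          refine ineq_Desc 1 le_rfl hQ h0 (by linarith) h8 h9
            (Nat.le_mul_of_pos_left _ (by positivity)) ?_
          rw [pow_succ, mul_right_comm] at hs
          omega
    have h6 := hdb (D + 1) 0 rfl
    rw [zero_mul, add_zero] at h6
    obtain ⟨F, _, _, _, ι', r, hι, hF, hr⟩ := h3 q K ι I A y hq hC.one
      fun i hi => ⟨η i, j i, hη i hi⟩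
    have hC' : Cfg (ι'.comp (algebraMap K F)) v A y h := by rw [hι]; exact hC
    obtain ⟨A', y', hA', hne, hC2, hred⟩ := h4 q K F ι' I d v A y r h hR hA hC' hr
    rw [hι] at hC2
    have h7 : Van c v A' y' ((D + 2) * M) (2 * S) := by
      intro α hα s hs
      refine hred (fun i => c i * mon v α i) s ?_
      refine h2 q K F ι' I d c v A y r h Q ((D + 3) * M) (2 ^ (D + 1) * S) (M + 1) 2
        (2 * s + 1) α hq (Or.inr rfl) hC' hr (hB.mono subset_rfl ?_) h6 (by omega)
        ((hN _ le_rfl).trans hkq) ((pow_dvd_pow _ (hN _ le_rfl)).trans hdv) ?_ ?_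
      · exact Nat.mul_le_mul_right _ (by omega)
      · rw [hα]
        exact le_of_eq (by ring)
      · have h10 := ineq_Desc (z := 2 * s + 1) 2 (by norm_num) hQ h0 (by linarith) h8 h9 le_rfl
          (by omega)
        have h11 : 1 ≤ Q ^ D * Real.exp (((2 * s + 1 : ℕ) : ℝ) * h / (2 : ℕ)) :=
          one_le_mul_of_one_le_of_one_le (one_le_pow₀ hQ) (Real.one_le_exp (by positivity))
        calc _ ≤ (Q ^ D * Real.exp (((2 * s + 1 : ℕ) : ℝ) * h / (2 : ℕ))) ^ 2 ^ (D + 1) :=
              pow_le_pow_right₀ h11 hF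
          _ < ((q : ℝ) ^ (S * (M + 1))) ^ 2 ^ (D + 1) :=
              pow_lt_pow_left₀ h10 (by linarith) (by positivity)
          _ = _ := by rw [← pow_mul]; congr 1; ring
    obtain ⟨η', j', -, hf'⟩ := hC2.dec
    have hM : 2 * (M / 2) ≤ M := Nat.mul_div_le M 2
    have hM2 : ((M + 1 : ℕ) : ℝ) ≤ 2 * (M / 2 + 1 : ℕ) := by
      exact_mod_cast (by omega : M + 1 ≤ 2 * (M / 2 + 1))
    refine ih A' y' (h / 2) (2 * S) (M / 2) hne (fun i hi => hc i (hA' hi)) hC2
      (hB.mono hA' (Nat.mul_le_mul_left _ (Nat.div_le_self M 2))) (low_Desc h1 hf' h7 ?_)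
      (by omega) (by linarith) ?_ ?_ ?_ ?_
    · calc 2 * (D + 2) * (M / 2) = (D + 2) * (2 * (M / 2)) := by ring
        _ ≤ (D + 2) * M := by gcongr
    · rw [pow_succ] at h3h
      linarith
    · refine le_trans ?_ hk
      calc 2 ^ (D + 1) * (2 * S) * (M / 2 + 2 ^ R)
          = 2 ^ (D + 1) * S * (2 * (M / 2) + 2 ^ (R + 1)) := by ring
        _ ≤ _ := by gcongr
    · nlinarith
    · refine h9.trans_le ?_
      have : (S : ℝ) * (M + 1 : ℕ) ≤ S * (2 * (M / 2 + 1 : ℕ)) := by gcongr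
      rw [Nat.cast_mul, Nat.cast_ofNat]
      nlinarith

end Pool.Agent.MP_9b2bac_nt.B
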