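import Pool.Agent.MP_9b2bac_nt.B.Omega
import Pool.Agent.MP_384f6f_nt.V.All

/-! The power saving bounds for every base. -/

namespace Pool.Agent.MP_9b2bac_nt.B

theorem val_all : ∃ c : ℝ, 0 < c ∧ c ≤ 1 / 2 ∧ ∀ a : ℕ, 2 ≤ a → ∃ p₀ : ℕ, ∀ p : ℕ, p.Prime →
    p₀ ≤ p → (padicValNat p (a ^ (p - 1) - 1) : ℝ) ≤ (p : ℝ) ^ (1 - c) := by
  obtain ⟨c, hc, q₀, h⟩ := Pool.Agent.MP_384f6f_nt.V.val
  refine ⟨min c (1 / 2), lt_min hc (by norm_num), min_le_right _ _, fun a ha => ?_⟩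
  obtain ⟨n₁, h₁⟩ := Filter.eventually_atTop.1 (((tendsto_rpow_atTop hc).comp
    tendsto_natCast_atTop_atTop).eventually_ge_atTop (Real.log a))
  exact ⟨max q₀ n₁, fun p hp hp0 => (h p hp ((le_max_left _ _).trans hp0) a ha
    (h₁ p ((le_max_right _ _).trans hp0)) _ pow_padicValNat_dvd).trans
      (Real.rpow_le_rpow_of_exponent_le (by exact_mod_cast hp.one_le)
        (by linarith [min_le_left c (1 / 2)]))⟩

theorem prim_all : ∃ c : ℝ, 0 < c ∧ ∀ a : ℕ, 2 ≤ a → ∃ n₀ : ℕ, ∀ n : ℕ, n₀ ≤ n →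
    ∃ q : ℕ, q.Prime ∧ q ∣ a ^ n - 1 ∧ (∀ m : ℕ, 0 < m → m < n → ¬ q ∣ a ^ m - 1) ∧
      (n : ℝ) ^ (1 + c) < q := by
  obtain ⟨c, hc, h1, h⟩ := val_all
  refine ⟨c / 2, by positivity, fun a ha => ?_⟩
  obtain ⟨n₀, hn⟩ := Fin.big_prime a ha c hc (by linarith) (h a ha) (1 + c / 2) (by nlinarith)
  refine ⟨n₀, fun n hn0 => ?_⟩
  obtain ⟨q, hq, ho, hl⟩ := hn n hn0
  refine ⟨q, hq, Fin.dvd_of_order a n q ha ho, fun m hm hmn hd => ?_, hl⟩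
  have := Nat.le_of_dvd hm (orderOf_dvd_of_pow_eq_one ((Fin.dvd_iff_pow a m q ha).1 hd))
  omega

theorem omega_all : ∃ c : ℝ, 0 < c ∧ ∀ a : ℕ, 2 ≤ a → ∃ n₀ : ℕ, ∀ n : ℕ, n₀ ≤ n →
    (ArithmeticFunction.cardFactors (a ^ n - 1) : ℝ) ≤ (1 - c) * (n * Real.log a / Real.log n) := by
  obtain ⟨c, hc, h1, h⟩ := val_all
  refine ⟨c / 8, by positivity, fun a ha => ?_⟩
  obtain ⟨p₀, h₀⟩ := h a ha
  exact omega_Om a ha c hc (by linarith) p₀ h₀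

end Pool.Agent.MP_9b2bac_nt.B
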