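import Pool.Agent.MP_9b2bac_nt.B.BasicG
import Pool.Agent.MP_14ad9d_nt.Full.ED2
import Pool.Agent.MP_14ad9d_nt.Full.DL1

/-!
Real class characters at primes of degree one.
-/

open NumberField Module Filter Topology
open Pool.Agent.MP_14ad9d_nt.Full Pool.Agent.MP_14ad9d_nt.Full.FIAux
open Pool.Agent.MP_14ad9d_nt.Full.DLAux Pool.Agent.MP_d64882_nt

namespace Pool.Agent.MP_9b2bac_nt.B

/-- the sign -/
def sg_An (a : ZMod 2) : ℝ := if a = 0 then 1 else -1

theorem sg_add_An (a b : ZMod 2) : sg_An (a + b) = sg_An a * sg_An b := by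
  have h : ∀ a : ZMod 2, a = 0 ∨ a = 1 := by decide
  have h2 : (1 : ZMod 2) + 1 = 0 := by decide
  rcases h a with rfl | rfl <;> rcases h b with rfl | rfl <;> simp [sg_An, h2]

theorem sg_abs_An (a : ZMod 2) : |sg_An a| = 1 := by
  unfold sg_An
  split_ifs <;> simp

variable {E : Type} [Field E] [NumberField E]

open Classical in
/-- the ideal character -/
noncomputable def X_An (χ : Pr E → ZMod 2) : Ideal (𝓞 E) →* ℂ where
  toFun I := if I = ⊥ then 0 else (sg_An (deg χ I) : ℝ)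
  map_one' := by
    rw [Ideal.one_eq_top, if_neg top_ne_bot, deg_top]
    simp [sg_An]
  map_mul' I J := by
    by_cases hI : I = ⊥
    · simp [hI]
    · by_cases hJ : J = ⊥
      · simp [hJ]
      · rw [if_neg hI, if_neg hJ, if_neg (show ¬I * J = ⊥ from mul_ne_zero hI hJ),
          deg_mul χ hI hJ, sg_add_An,
          Complex.ofReal_mul]

theorem X_ne_An (χ : Pr E → ZMod 2) {I : Ideal (𝓞 E)} (h : I ≠ ⊥) :
    X_An χ I = (sg_An (deg χ I) : ℝ) := if_neg h

theorem X_bot_An (χ : Pr E → ZMod 2) : X_An χ ⊥ = 0 := if_pos rfl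

theorem X_norm_An (χ : Pr E → ZMod 2) {I : Ideal (𝓞 E)} (h : I ≠ ⊥) : ‖X_An χ I‖ = 1 := by
  rw [X_ne_An χ h, Complex.norm_real, Real.norm_eq_abs, sg_abs_An]

theorem X_le_An (χ : Pr E → ZMod 2) (I : Ideal (𝓞 E)) : ‖X_An χ I‖ ≤ 1 := by
  by_cases h : I = ⊥
  · simp [h, X_bot_An]
  · exact (X_norm_An χ h).le

/-- the Hecke character -/
noncomputable def hk_An (χ : Pr E → ZMod 2) (hχ : Cls2 χ) : Hecke E where
  X := X_An χ
  m := 1
  hm := one_ne_zero
  X_bot := X_bot_An χ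
  norm_le := X_le_An χ
  unit I h _ := by
    rw [← norm_ne_zero_iff, X_norm_An χ h]
    exact one_ne_zero
  c _ := 1
  c_congr _ _ _ := rfl
  Ψ _ := 1
  Ψ_lip := (LipschitzWith.const 1).locallyLipschitz.locallyLipschitzOn
  Ψ_smul _ _ _ _ := rfl
  eq a ha := by
    have h := hχ (a : E) (by simpa using ha)
    rw [X_ne_An χ (span_ne ha), deg_span χ ha]
    simp only [zsmul_eq_mul, h]
    simp [sg_An]

theorem sumw_An {s : ℝ} (hs : 1 < s) : Summable fun v : Pr E => w E s v.asIdeal :=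
  (hasSum_w E s hs).summable.comp_injective EulerAux.inj

theorem sumf_An {s : ℝ} (hs : 1 < s) (f : Pr E → ℝ) (hf : ∀ v, |f v| ≤ 1) :
    Summable fun v : Pr E => f v * w E s v.asIdeal := by
  refine Summable.of_norm_bounded (sumw_An hs) fun v => ?_
  rw [norm_mul, Real.norm_eq_abs, Real.norm_of_nonneg (w_nonneg E s _)]
  exact mul_le_of_le_one_left (w_nonneg E s _) (hf v)

theorem key_An (χ : Pr E → ZMod 2) (hχ : Cls2 χ) (hn : ∃ v, χ v ≠ 0) :
    ∃ C : ℝ, ∀ᶠ s : ℝ in 𝓝[>] 1, ∑' v : Pr E, sg_An (χ v) * w E s v.asIdeal ≤ C := by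
  obtain ⟨v₀, hv₀⟩ := hn
  obtain ⟨L, hL, hL'⟩ := EDAux.lfun' (hk_An χ hχ) (Or.inr ⟨fun _ _ => rfl, v₀.asIdeal, v₀.ne_bot,
    by simp [hk_An, ← Ideal.one_eq_top, isCoprime_one_right], by
      change X_An χ v₀.asIdeal ≠ 1
      rw [X_ne_An χ v₀.ne_bot, deg_prime, sg_An, if_neg hv₀]
      norm_num⟩)
  have hpos : (0 : ℝ) < finrank ℚ E := by exact_mod_cast finrank_pos
  have hc : ContinuousAt L 1 := (hL.differentiableAt ((isOpen_lt continuous_const
    Complex.continuous_re).mem_nhds (by simp [hpos]))).continuousAt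
  have ht : Tendsto (fun s : ℝ => ‖L s‖) (𝓝[>] 1) (𝓝 ‖L 1‖) :=
    ((hc.tendsto.comp (by simpa using Complex.continuous_ofReal.tendsto 1)).mono_left
      nhdsWithin_le_nhds).norm
  refine ⟨‖L 1‖ + 1, ?_⟩
  filter_upwards [ht.eventually (gt_mem_nhds (lt_add_one ‖L 1‖)), self_mem_nhdsWithin] with s h1 hs
  have hs' : 1 < s := hs
  obtain ⟨-, a2, a3⟩ := euler (X_An χ) (X_le_An χ) (X_bot_An χ) (s : ℂ) (by simpa using hs')
  have a4 := Complex.hasSum_re a2.of_norm.neg.hasSum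
  have a5 : L s = _ := (hL' s (by simpa using hs')).trans a3.symm
  rw [a5, Complex.norm_exp] at h1
  have a6 := hasSum_le (fun v => ?_) (sumf_An hs' (fun v => sg_An (χ v))
    fun v => (sg_abs_An _).le).hasSum a4
  · linarith [Real.add_one_le_exp (∑' v : Pr E, -Complex.log (1 - X_An χ v.asIdeal *
      (Ideal.absNorm v.asIdeal : ℂ) ^ (-(s : ℂ)))).re]
  · have e1 : 1 - X_An χ v.asIdeal * (Ideal.absNorm v.asIdeal : ℂ) ^ (-(s : ℂ)) =
        ((1 - sg_An (χ v) * w E s v.asIdeal : ℝ) : ℂ) := by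
      rw [X_ne_An χ v.ne_bot, deg_prime, w, Complex.ofReal_sub, Complex.ofReal_mul,
        Complex.ofReal_cpow (Nat.cast_nonneg _)]
      simp
    have e2 := w_le_half E v.prime hs'
    have e3 := w_nonneg E s v.asIdeal
    have e4 : sg_An (χ v) ≤ 1 := (le_abs_self _).trans (sg_abs_An _).le
    have e5 : 0 < 1 - sg_An (χ v) * w E s v.asIdeal := by nlinarith
    rw [e1, Complex.neg_re, Complex.log_ofReal_re]
    linarith [Real.log_le_sub_one_of_pos e5]

open Classical in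
theorem high_An : ∃ C : ℝ, ∀ s : ℝ, 1 < s →
    ∑' v : Pr E, (if Deg1 v then 0 else 1) * w E s v.asIdeal ≤ C := by
  refine ⟨finrank ℤ (𝓞 E) * ∑' n : ℕ, 1 / (n : ℝ) ^ 2, fun s hs => ?_⟩
  refine (sumf_An hs _ fun v => by split_ifs <;> simp).tsum_le_of_sum_le fun T => ?_
  refine le_trans (le_of_eq ?_) (sum_nonprime_le E s hs
    ((T.filter fun v => ¬Deg1 v).image fun v => v.asIdeal) fun P hP => ?_)
  · rw [Finset.sum_image fun _ _ _ _ h => EulerAux.inj h, Finset.sum_filter]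
    refine Finset.sum_congr rfl fun v _ => ?_
    split_ifs <;> simp_all
  · obtain ⟨v, hv, rfl⟩ := Finset.mem_image.1 hP
    exact ⟨v.prime, (Finset.mem_filter.1 hv).2⟩

theorem D_bd_An (E : Type) [Field E] [NumberField E] :
    ∃ C : ℝ, ∀ᶠ s : ℝ in 𝓝[>] 1, |D E s + Real.log (s - 1)| ≤ C := by
  obtain ⟨C, hC⟩ := (D_asymp E).bound
  exact ⟨C, by simpa using hC⟩

theorem log_An (C : ℝ) : ∀ᶠ s : ℝ in 𝓝[>] 1, Real.log (s - 1) < C := by
  have h1 : Tendsto (fun s : ℝ => s - 1) (𝓝[>] 1) (𝓝[>] 0) := by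
    refine tendsto_nhdsWithin_iff.2 ⟨?_, ?_⟩
    · have : Tendsto (fun s : ℝ => s - 1) (𝓝 1) (𝓝 (1 - 1)) :=
        (continuous_id.sub continuous_const).tendsto 1
      rw [sub_self] at this
      exact this.mono_left nhdsWithin_le_nhds
    · filter_upwards [self_mem_nhdsWithin] with s hs
      exact sub_pos.2 (show 1 < s from hs)
  exact (Real.tendsto_log_nhdsGT_zero.comp h1).eventually (eventually_lt_atBot C)

theorem an1_st : AN1_st := by
  classical
  intro E _ _ χ hχ hn hfin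
  obtain ⟨C₁, h1⟩ := key_An χ hχ hn
  obtain ⟨C₂, h2⟩ := high_An (E := E)
  obtain ⟨C₃, h3⟩ := D_bd_An E
  obtain ⟨s, ⟨⟨a1, a3⟩, a4⟩, hs⟩ := (((h1.and h3).and
    (log_An (-(C₁ + C₂ + C₃ + ∑ v ∈ hfin.toFinset, (1 : ℝ))))).and self_mem_nhdsWithin).exists
  have hs' : 1 < s := hs
  have b1 := (sumf_An hs' (fun v => sg_An (χ v)) fun v => (sg_abs_An _).le).hasSum
  have b2 := (sumf_An (E := E) hs' (fun v => if Deg1 v then 0 else 1)
    fun v => by split_ifs <;> simp).hasSum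
  have b3 : HasSum (fun v : Pr E => if v ∈ hfin.toFinset then (1 : ℝ) else 0)
      (∑ v ∈ hfin.toFinset, (1 : ℝ)) := by
    have : HasSum (fun v : Pr E => if v ∈ hfin.toFinset then (1 : ℝ) else 0)
        (∑ v ∈ hfin.toFinset, if v ∈ hfin.toFinset then (1 : ℝ) else 0) :=
      hasSum_sum_of_ne_finset_zero fun v hv => if_neg hv
    rwa [Finset.sum_congr rfl fun v hv => if_pos hv] at this
  have b4 := hasSum_le (fun v => ?_) (EulerAux.hasSum_deg1 (E := E) s hs') ((b1.add b2).add b3)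
  · linarith [h2 s hs', (abs_le.1 a3).1]
  · have e2 := w_le_half E v.prime hs'
    have e3 := w_nonneg E s v.asIdeal
    simp only [Set.Finite.mem_toFinset, Set.mem_ofPred_eq, sg_An]
    by_cases c1 : Deg1 v <;> by_cases c2 : χ v = 0 <;> simp [c1, c2] <;> linarith

theorem fib_An {K : Type} [Field K] [NumberField K] [Algebra K E] (v : Pr K) (T : Finset (Pr E))
    (hT : ∀ u ∈ T, un K u = v) : T.card ≤ finrank K E := by
  classical
  have := v.isMaximal
  have : NoZeroSMulDivisors (𝓞 K) (𝓞 E) := ⟨fun h => smul_eq_zero.1 h⟩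
  refine le_trans ?_ (Ideal.card_primesOverFinset_le_finrank (𝓞 E) K E v.ne_bot)
  refine Finset.card_le_card_of_injOn (fun u => u.asIdeal) (fun u hu => ?_)
    fun _ _ _ _ h => EulerAux.inj h
  rw [Finset.mem_coe, IsDedekindDomain.mem_primesOverFinset_iff v.ne_bot]
  exact ⟨u.isPrime, hT u hu ▸ over_un (K := K) u⟩

theorem an2_st : AN2_st := by
  classical
  intro K E _ _ _ _ _ hd χ₁ χ₂ h₁ h₂ hw
  by_contra hc
  push Not at hc
  have h₃ : Cls2 (χ₁ + χ₂) := fun α hα => by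
    have f : ∀ χ : Pr K → ZMod 2, (Function.support fun v => (ord v α : ZMod 2) * χ v).Finite :=
      fun χ => (ord_finite α).subset fun v hv h => hv (by simp [h])
    simp only [Pi.add_apply, mul_add]
    rw [finsum_add_distrib (f χ₁) (f χ₂), h₁ α hα, h₂ α hα, add_zero]
  obtain ⟨C₁, k1⟩ := key_An χ₁ h₁ (by simpa using hc 1 0 (Or.inl one_ne_zero))
  obtain ⟨C₂, k2⟩ := key_An χ₂ h₂ (by simpa using hc 0 1 (Or.inr one_ne_zero))
  obtain ⟨C₃, k3⟩ := key_An _ h₃ (by simpa using hc 1 1 (Or.inl one_ne_zero))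
  obtain ⟨C₄, k4⟩ := high_An (E := K)
  obtain ⟨C₅, k5⟩ := D_bd_An K
  obtain ⟨C₆, k6⟩ := D_bd_An E
  obtain ⟨s, ⟨⟨⟨⟨⟨a1, a2⟩, a3⟩, a5⟩, a6⟩, a7⟩, hs⟩ := ((((((k1.and k2).and k3).and k5).and k6).and
    (log_An (-(C₁ + C₂ + C₃ + C₄ + C₅ + 2 * C₆)))).and self_mem_nhdsWithin).exists
  have hs' : 1 < s := hs
  have b1 := (sumf_An hs' (fun v => sg_An (χ₁ v)) fun v => (sg_abs_An _).le).hasSum
  have b2 := (sumf_An hs' (fun v => sg_An (χ₂ v)) fun v => (sg_abs_An _).le).hasSum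
  have b3 := (sumf_An hs' (fun v => sg_An ((χ₁ + χ₂) v)) fun v => (sg_abs_An _).le).hasSum
  have b4 := (sumf_An (E := K) hs' (fun v => if Deg1 v then 0 else 1)
    fun v => by split_ifs <;> simp).hasSum
  set g : Pr K → ℝ := fun v => (if χ₁ v = 0 ∧ χ₂ v = 0 then 1 else 0) * w K s v.asIdeal with hg
  have g0 : ∀ v, 0 ≤ g v := fun v =>
    mul_nonneg (by split_ifs <;> simp) (w_nonneg K s v.asIdeal)
  have b5 : Summable g := sumf_An hs' _ fun v => by split_ifs <;> simp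
  have b6 := hasSum_le (fun v => ?_) (b5.hasSum.mul_left 4)
    ((((b1.add b2).add b3).add b4).add (EulerAux.hasSum_deg1 (E := K) s hs'))
  · have b7 : D E s ≤ 2 * ∑' v, g v := by
      refine hasSum_le_of_sum_le (EulerAux.hasSum_deg1 (E := E) s hs') fun T => ?_
      calc _ ≤ ∑ u ∈ T, g (un K u) := Finset.sum_le_sum fun u _ => ?_
        _ = ∑ v ∈ T.image (un K), ∑ u ∈ T with un K u = v, g (un K u) :=
          (Finset.sum_fiberwise_of_maps_to (fun u hu => Finset.mem_image_of_mem _ hu) _).symm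
        _ ≤ ∑ v ∈ T.image (un K), 2 * g v := Finset.sum_le_sum fun v _ => ?_
        _ ≤ _ := by
          rw [← Finset.mul_sum]
          exact mul_le_mul_of_nonneg_left (b5.sum_le_tsum _ fun v _ => g0 v) zero_le_two
      · split_ifs with c
        · have e := absNorm_over (over_un (K := K) u)
          have e1 : u.asIdeal.inertiaDeg (𝓞 K) = 1 := Nat.Prime.eq_one_of_pow
            (e ▸ (show (Ideal.absNorm u.asIdeal).Prime from c))
          rw [e1, pow_one] at e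
          simp only [hg, hw u _ (over_un (K := K) u) e1, and_self, if_true, one_mul, w, e, le_refl]
        · exact g0 _
      · rw [Finset.sum_congr rfl fun u hu => by rw [(Finset.mem_filter.1 hu).2], Finset.sum_const,
          nsmul_eq_mul]
        refine mul_le_mul_of_nonneg_right ?_ (g0 v)
        have := fib_An v (T.filter fun u => un K u = v) fun u hu => (Finset.mem_filter.1 hu).2
        rw [hd] at this
        exact_mod_cast this
    linarith [k4 s hs', (abs_le.1 a5).2, (abs_le.1 a6).1]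
  · have e3 := w_nonneg K s v.asIdeal
    simp only [hg, Pi.add_apply]
    rw [sg_add_An]
    unfold sg_An
    by_cases c1 : Deg1 v <;> by_cases c2 : χ₁ v = 0 <;> by_cases c3 : χ₂ v = 0 <;>
      simp [c1, c2, c3] <;> linarith

end Pool.Agent.MP_9b2bac_nt.B
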