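import Pool.Agent.MP_9b2bac_nt.B.BasicG

/-!
The bottom of the tower: a real quadratic field with many ramified primes.
-/

open NumberField Module
open Pool.Agent.MP_14ad9d_nt.Full Pool.Agent.MP_14ad9d_nt.Full.FIAux

namespace Pool.Agent.MP_9b2bac_nt.B

/-- the quadratic field -/
theorem ex_Base (n : ℕ) (h : ¬ IsSquare (4 * n + 1)) :
    ∃ (k : Type) (_ : Field k) (_ : CharZero k) (θ : k), θ * θ = n + θ ∧
      (∀ z : k, ∃ x y : ℚ, z = x + y * θ) ∧ (∀ x y : ℚ, (x : k) + y * θ = 0 → x = 0 ∧ y = 0) ∧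
      ∀ (F : Type) [Field F] [CharZero F] (r : F), r * r = n + r → Nonempty (k →+* F) := by
  have : Fact (∀ r : ℚ, r ^ 2 ≠ (n : ℚ) + 1 * r) := ⟨fun r e => h (Rat.isSquare_natCast_iff.1
    ⟨2 * r - 1, by push_cast; linear_combination (-4) * e⟩)⟩
  refine ⟨QuadraticAlgebra ℚ n 1, inferInstance, inferInstance, QuadraticAlgebra.omega, ?_,
    fun z => ⟨z.re, z.im, ?_⟩, fun x y e => ?_, fun F _ _ r e => ?_⟩
  · ext <;> simp
  · ext <;> simp
  · have h1 := congrArg QuadraticAlgebra.re e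
    have h2 := congrArg QuadraticAlgebra.im e
    exact ⟨by simpa using h1, by simpa using h2⟩
  · exact ⟨(QuadraticAlgebra.lift (R := ℚ) (a := (n : ℚ)) (b := 1) (A := F)
      ⟨r, by rw [e, one_smul, Nat.cast_smul_eq_nsmul, nsmul_one]⟩).toRingHom⟩

section

variable {k : Type} [Field k] {n : ℕ} {θ : k}

theorem nf_Base [CharZero k] (h2 : ∀ z : k, ∃ x y : ℚ, z = x + y * θ) : NumberField k := by
  have : FiniteDimensional ℚ k := by
    refine Module.Finite.of_surjective (Fintype.linearCombination ℚ ![(1 : k), θ]) fun z => ?_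
    obtain ⟨x, y, rfl⟩ := h2 z
    exact ⟨![x, y], by simp [Fintype.linearCombination_apply, Rat.smul_def]⟩
  exact ⟨⟩

theorem basis_Base [CharZero k] (h2 : ∀ z : k, ∃ x y : ℚ, z = x + y * θ)
    (h3 : ∀ x y : ℚ, (x : k) + y * θ = 0 → x = 0 ∧ y = 0) :
    ∃ b : Basis (Fin 2) ℚ k, b 0 = 1 ∧ b 1 = θ := by
  refine ⟨Basis.mk (v := ![(1 : k), θ]) (LinearIndependent.pair_iff.2 fun x y e => h3 x y (by
    simpa [Rat.smul_def] using e)) fun z _ => ?_, by simp, by simp⟩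
  obtain ⟨x, y, rfl⟩ := h2 z
  rw [Submodule.mem_span_range_iff_exists_fun]
  exact ⟨![x, y], by simp [Rat.smul_def]⟩

theorem real_Base (h1 : θ * θ = n + θ) (h2 : ∀ z : k, ∃ x y : ℚ, z = x + y * θ) :
    IsTotallyReal k := by
  refine ⟨fun v => ?_⟩
  obtain ⟨φ, rfl⟩ : ∃ φ, InfinitePlace.mk φ = v := ⟨_, v.mk_embedding⟩
  rw [InfinitePlace.isReal_mk_iff, ComplexEmbedding.isReal_iff]
  have e : φ θ * φ θ = n + φ θ := by rw [← map_mul, h1, map_add, map_natCast]
  have e1 := congrArg Complex.re e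
  have e2 := congrArg Complex.im e
  simp only [Complex.mul_re, Complex.mul_im, Complex.add_re, Complex.add_im, Complex.natCast_re,
    Complex.natCast_im] at e1 e2
  have e3 : (φ θ).im = 0 := by
    by_contra e3
    have e4 : (φ θ).re = 1 / 2 := mul_right_cancel₀ e3 (by linarith)
    rw [e4] at e1
    nlinarith [mul_self_nonneg (φ θ).im, (n.cast_nonneg : (0 : ℝ) ≤ n)]
  ext z
  obtain ⟨x, y, rfl⟩ := h2 z
  simp [Complex.conj_eq_iff_im.2 e3]

theorem int_Base (h1 : θ * θ = n + θ) : IsIntegral ℤ θ :=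
  ⟨Polynomial.X ^ 2 - (Polynomial.X + Polynomial.C (n : ℤ)),
    Polynomial.monic_X_pow_sub (by rw [Polynomial.degree_X_add_C]; norm_num), by
      rw [Polynomial.eval₂_sub, Polynomial.eval₂_add, Polynomial.eval₂_X_pow,
        Polynomial.eval₂_X, Polynomial.eval₂_C, map_natCast]
      linear_combination h1⟩

theorem discr_Base [NumberField k] (h1 : θ * θ = n + θ) (b : Basis (Fin 2) ℚ k) (b0 : b 0 = 1)
    (b1 : b 1 = θ) : discr k ∣ ((4 * n + 1 : ℕ) : ℤ) := by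
  have hr : finrank ℚ k = 2 := by simpa using finrank_eq_card_basis b
  have t0 : Algebra.trace ℚ k 1 = 2 := by
    simpa [hr] using Algebra.trace_algebraMap (R := ℚ) (S := k) 1
  have t1 : Algebra.trace ℚ k θ = 1 := by
    have e0 : θ * b 0 = b 1 := by rw [b0, b1, mul_one]
    have e1 : θ * b 1 = (n : ℚ) • b 0 + b 1 := by rw [b0, b1, h1]; simp [Rat.smul_def]
    rw [Algebra.trace_eq_matrix_trace b, Matrix.trace, Fin.sum_univ_two]
    simp [Algebra.leftMulMatrix_eq_repr_mul, e0, e1]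
  have t2 : Algebra.trace ℚ k (θ * θ) = 2 * n + 1 := by
    have : (n : k) = (n : ℚ) • (1 : k) := by simp [Rat.smul_def]
    rw [h1, map_add, t1, this, map_smul, t0, smul_eq_mul, mul_comm]
  let B : Basis (Fin 2) ℤ (𝓞 k) := finBasisOfFinrankEq ℤ (𝓞 k) ((RingOfIntegers.rank k).trans hr)
  let t : 𝓞 k := ⟨θ, int_Base h1⟩
  have e := Algebra.discr_of_matrix_vecMul B (B.toMatrix ![1, t])
  rw [B.toMatrix_map_vecMul, discr_eq_discr] at e
  refine Dvd.intro_left ((B.toMatrix ![1, t]).det ^ 2) (e.symm.trans ?_)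
  have c : ∀ x : 𝓞 k, ((Algebra.trace ℤ (𝓞 k) x : ℤ) : ℚ) = Algebra.trace ℚ k (x : k) :=
    fun x => Algebra.coe_trace_int x
  have ht : (t : k) = θ := rfl
  apply Int.cast_injective (α := ℚ)
  rw [Algebra.discr_def, Matrix.det_fin_two]
  simp only [Algebra.traceMatrix_apply, Algebra.traceForm_apply, Matrix.cons_val_zero,
    Matrix.cons_val_one, Int.cast_sub, Int.cast_mul, c, one_mul, mul_one, map_mul, map_one]
  erw [t0, t1, t2]
  push_cast
  ring

theorem evn_Base [NumberField k] (h1 : θ * θ = n + θ) {a b : ℕ} (h : a * b = 4 * n + 1)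
    (hc : a.Coprime b) : Evn (a : k) := by
  intro w
  have a0 : a ≠ 0 := by rintro rfl; omega
  have b0 : b ≠ 0 := by rintro rfl; omega
  have e : (a : k) * b = (2 * θ - 1) ^ 2 := by
    rw [← Nat.cast_mul, h]
    push_cast
    linear_combination (-4) * h1
  have e1 := congrArg (ord w) e
  rw [ord_mul w (Nat.cast_ne_zero.2 a0) (Nat.cast_ne_zero.2 b0), ord_pow] at e1
  by_cases ha : ord w (a : k) = 0
  · rw [ha]; exact Even.zero
  have hb : ord w (b : k) = 0 := by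
    have ea : ((a : 𝓞 k) : k) = a := by simp
    have eb : ((b : 𝓞 k) : k) = b := by simp
    rw [← ea, ord_eq_zero_iff w (Nat.cast_ne_zero.2 a0), not_not] at ha
    rw [← eb, ord_eq_zero_iff w (Nat.cast_ne_zero.2 b0)]
    intro hb
    obtain ⟨u, v, huv⟩ : IsCoprime (a : 𝓞 k) (b : 𝓞 k) := hc.cast
    exact w.isPrime.ne_top ((Ideal.eq_top_iff_one _).2
      (huv ▸ add_mem (Ideal.mul_mem_left _ u ha) (Ideal.mul_mem_left _ v hb)))
  rw [hb, add_zero] at e1
  exact ⟨ord w (2 * θ - 1), by rw [e1]; push_cast; ring⟩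

theorem sq_Base [CharZero k] (h1 : θ * θ = n + θ) (h2 : ∀ z : k, ∃ x y : ℚ, z = x + y * θ)
    (h3 : ∀ x y : ℚ, (x : k) + y * θ = 0 → x = 0 ∧ y = 0) {N : ℕ} (h : IsSquare (N : k)) :
    IsSquare N ∨ IsSquare (N * (4 * n + 1)) := by
  obtain ⟨z, hz⟩ := h
  obtain ⟨x, y, rfl⟩ := h2 z
  obtain ⟨e1, e2⟩ := h3 (x * x + n * y * y - N) (y * (2 * x + y)) (by
    push_cast
    linear_combination -hz - (y : k) * y * h1)
  rcases mul_eq_zero.1 e2 with e | e
  · exact Or.inl (Rat.isSquare_natCast_iff.1 ⟨x, by rw [e] at e1; linarith⟩)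
  · refine Or.inr (Rat.isSquare_natCast_iff.1 ⟨(4 * n + 1) * x, ?_⟩)
    have : y = -2 * x := by linarith
    rw [this] at e1
    push_cast
    linear_combination (-(4 * n + 1) : ℚ) * e1

end

theorem nsq_Base {p m : ℕ} (hp : p.Prime) (h : ¬ p ∣ m) : ¬ IsSquare (p * m) := by
  rintro ⟨r, hr⟩
  obtain ⟨s, rfl⟩ : p ∣ r := (hp.dvd_mul.1 ⟨m, hr.symm⟩).elim id id
  exact h ⟨s * s, Nat.eq_of_mul_eq_mul_left hp.pos (by rw [hr]; ring)⟩

theorem pad_Base {q : ℕ} [Fact q.Prime] (hq : q ≠ 2) {N : ℕ}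
    (h : quadraticChar (ZMod q) N = 1) : IsSquare (N : ℚ_[q]) := by
  have h0 : (N : ZMod q) ≠ 0 := fun e => by simp [e] at h
  have := hen' hq (u := (N : ℤ_[q])) (by simpa using h0)
    (by simpa using (quadraticChar_one_iff_isSquare h0).1 h)
  simpa using this

theorem ndvd_Base {T : Finset ℕ} (hT : ∀ p ∈ T, p.Prime) {p : ℕ} (hp : p.Prime) {p0 : ℕ}
    (h0 : p0.Prime) (h1 : p ≠ p0) (h2 : p ∉ T) : ¬ p ∣ ∏ i ∈ T, p0 * i := by
  rw [hp.prime.dvd_finsetProd_iff]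
  rintro ⟨i, hi, e⟩
  rcases hp.dvd_mul.1 e with e | e
  · exact h1 ((Nat.prime_dvd_prime_iff_eq hp h0).1 e)
  · exact h2 ((Nat.prime_dvd_prime_iff_eq hp (hT i hi)).1 e ▸ hi)

theorem base_st : BASE_st := by
  classical
  obtain ⟨S, hS, hc⟩ := (Nat.infinite_setOfPred_prime_modEq_one (k := 4)
    (by norm_num)).exists_subset_card_eq 23
  have hP : ∀ p ∈ S, p.Prime := fun p hp => (hS hp).1
  have hM : ∀ p ∈ S, p ≡ 1 [MOD 4] := fun p hp => (hS hp).2
  have hpos : 0 < ∏ p ∈ S, p := Finset.prod_pos fun p hp => (hP p hp).pos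
  refine ⟨∏ p ∈ S, p, ∏ p ∈ S, p + 3, by omega, fun q _ hq => ?_⟩
  have q2 : q ≠ 2 := by omega
  have hz : ∀ p ∈ S, (p : ZMod q) ≠ 0 := fun p hp e => by
    have h1 := Nat.le_of_dvd (hP p hp).pos ((ZMod.natCast_eq_zero_iff _ _).1 e)
    have h2 := Nat.le_of_dvd hpos (Finset.dvd_prod_of_mem (fun p => p) hp)
    omega
  obtain ⟨ε, hε, h12⟩ := Finset.exists_lt_card_fiber_of_mul_lt_card_of_maps_to (s := S)
    (t := ({1, -1} : Finset ℤ)) (f := fun p => quadraticChar (ZMod q) p) (n := 11)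
    (fun p hp => by simpa using quadraticChar_dichotomy (hz p hp)) (by rw [hc]; decide)
  obtain ⟨T, hT, hTc⟩ := Finset.exists_subset_card_eq (n := 12) h12
  have hTS : T ⊆ S := hT.trans (Finset.filter_subset _ _)
  have hχ : ∀ p ∈ T, quadraticChar (ZMod q) p = ε := fun p hp => (Finset.mem_filter.1 (hT hp)).2
  have hε2 : ε * ε = 1 := by
    simp only [Finset.mem_insert, Finset.mem_singleton] at hε
    rcases hε with rfl | rfl <;> norm_num
  obtain ⟨p0, h0⟩ : T.Nonempty := Finset.card_pos.1 (by omega)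
  obtain ⟨p1, h1⟩ : (T.erase p0).Nonempty :=
    Finset.card_pos.1 (by rw [Finset.card_erase_of_mem h0]; omega)
  have h1T := Finset.mem_of_mem_erase h1
  have hU : ((T.erase p0).erase p1).powerset.card = 1024 := by
    rw [Finset.card_powerset, Finset.card_erase_of_mem h1, Finset.card_erase_of_mem h0, hTc]
    norm_num
  let e := (Finset.equivFinOfCardEq hU).symm
  have he : ∀ j, (e j).1 ⊆ (T.erase p0).erase p1 := fun j => Finset.mem_powerset.1 (e j).2
  have heT : ∀ j, (e j).1 ⊆ T := fun j =>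
    (he j).trans ((Finset.erase_subset _ _).trans (Finset.erase_subset _ _))
  have hD : (∏ p ∈ T, p) ≡ 1 [MOD 4] := Finset.prod_induction _ (· ≡ 1 [MOD 4])
    (fun a b ha hb => ha.mul hb) rfl fun p hp => hM p (hTS hp)
  obtain ⟨n, hn⟩ : ∃ n, ∏ p ∈ T, p = 4 * n + 1 := ⟨(∏ p ∈ T, p) / 4, by
    unfold Nat.ModEq at hD; omega⟩
  have hd : ∀ p ∈ T, p * ∏ i ∈ T.erase p, i = 4 * n + 1 ∧ ¬ p ∣ ∏ i ∈ T.erase p, i := by
    intro p hp
    refine ⟨(Finset.mul_prod_erase T (fun i => i) hp).trans hn, ?_⟩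
    rw [(hP p (hTS hp)).prime.dvd_finsetProd_iff]
    rintro ⟨i, hi, h⟩
    exact Finset.ne_of_mem_erase hi ((Nat.prime_dvd_prime_iff_eq (hP p (hTS hp))
      (hP i (hTS (Finset.mem_of_mem_erase hi)))).1 h).symm
  obtain ⟨k, _, _, θ, k1, k2, k3, k4⟩ := ex_Base n
    ((hd p0 h0).1 ▸ nsq_Base (hP p0 (hTS h0)) (hd p0 h0).2)
  have := nf_Base k2
  obtain ⟨b, b0, b1⟩ := basis_Base k2 k3
  have hdis := discr_Base k1 b b0 b1
  have hev : ∀ p ∈ T, Evn (p : k) ∧ (p : k) ≠ 0 := fun p hp =>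
    ⟨evn_Base k1 (hd p hp).1 ((Nat.Prime.coprime_iff_not_dvd (hP p (hTS hp))).2 (hd p hp).2),
      Nat.cast_ne_zero.2 (hP p (hTS hp)).ne_zero⟩
  have key : ∀ j j', IsSquare ((∏ i ∈ (e j).1, p0 * i) * ∏ i ∈ (e j').1, p0 * i) →
      (e j).1 ⊆ (e j').1 := by
    intro j j' h p hp
    by_contra hp'
    have pp := hP p (hTS (heT j hp))
    have hne : p ≠ p0 := Finset.ne_of_mem_erase (Finset.mem_of_mem_erase (he j hp))
    rw [← Finset.mul_prod_erase _ _ hp, mul_comm p0 p, mul_assoc, mul_assoc] at h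
    refine nsq_Base pp (fun h' => ?_) h
    rcases pp.dvd_mul.1 h' with h' | h'
    · exact hne ((Nat.prime_dvd_prime_iff_eq pp (hP p0 (hTS h0))).1 h')
    rcases pp.dvd_mul.1 h' with h' | h'
    · exact ndvd_Base (fun i hi => hP i (hTS (heT j (Finset.mem_of_mem_erase hi)))) pp
        (hP p0 (hTS h0)) hne (Finset.notMem_erase _ _) h'
    · exact ndvd_Base (fun i hi => hP i (hTS (heT j' hi))) pp (hP p0 (hTS h0)) hne hp' h'
  refine ⟨k, inferInstance, inferInstance, fun j => ∏ i ∈ (e j).1, p0 * i,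
    ⟨by simpa using finrank_eq_card_basis b, real_Base k1 k2, fun h => ?_, fun j => ?_,
      fun j => pad_Base q2 ?_, fun j => ?_, fun j j' h => ?_⟩, ?_, ?_⟩
  · have := h.trans hdis
    omega
  · exact Finset.prod_induction _ (· ≡ 1 [MOD 4]) (fun a b ha hb => ha.mul hb) rfl
      fun p hp => (hM p0 (hTS h0)).mul (hM p (hTS (heT j hp)))
  · rw [Nat.cast_prod, map_prod]
    exact Finset.prod_eq_one fun p hp => by
      rw [Nat.cast_mul, map_mul, hχ p0 h0, hχ p (heT j hp), hε2]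
  · rw [Nat.cast_prod]
    refine (Finset.prod_induction _ (fun x : k => Evn x ∧ x ≠ 0)
      (fun a b ha hb => ⟨ha.1.mul hb.1 ha.2 hb.2, mul_ne_zero ha.2 hb.2⟩)
      ⟨fun w => by rw [ord_one]; exact Even.zero, one_ne_zero⟩ fun p hp => ?_).1
    have a := hev p0 h0
    have b := hev p (heT j hp)
    rw [Nat.cast_mul]
    exact ⟨a.1.mul b.1 a.2 b.2, mul_ne_zero a.2 b.2⟩
  · rw [← Nat.cast_mul] at h
    rcases sq_Base k1 k2 k3 h with h | h
    · exact e.injective (Subtype.ext ((key j j' h).antisymm (key j' j (by rwa [mul_comm]))))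
    · have pp := hP p1 (hTS h1T)
      have hn1 : ∀ j, ¬ p1 ∣ ∏ i ∈ (e j).1, p0 * i := fun j =>
        ndvd_Base (fun i hi => hP i (hTS (heT j hi))) pp (hP p0 (hTS h0))
          (Finset.ne_of_mem_erase h1) fun hi => Finset.notMem_erase _ _ (he j hi)
      rw [← (hd p1 h1T).1, mul_left_comm] at h
      refine (nsq_Base pp (fun h' => ?_) h).elim
      rcases pp.dvd_mul.1 h' with h' | h'
      · exact (pp.dvd_mul.1 h').elim (hn1 j) (hn1 j')
      · exact (hd p1 h1T).2 h'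
  · have h2 : (discr k).natAbs ∣ 4 * n + 1 := Int.natAbs_dvd_natAbs.2 hdis
    exact Nat.le_of_dvd hpos ((hn ▸ h2).trans (Finset.prod_dvd_prod_of_subset _ _ _ hTS))
  · obtain ⟨s, hs⟩ := pad_Base q2 (N := 4 * n + 1) (by
      rw [← hn, Nat.cast_prod, map_prod, Finset.prod_congr rfl hχ, Finset.prod_const, hTc,
        show 12 = 2 * 6 from rfl, pow_mul, sq, hε2, one_pow])
    refine k4 _ ((1 + s) / 2) ?_
    push_cast at hs
    linear_combination (-1 / 4) * hs

end Pool.Agent.MP_9b2bac_nt.B
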