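import Pool.Agent.MP_9b2bac_nt.B.Defs

/-!
Basic facts: norms, small units, reduction modulo powers of `q`, square roots.
-/

open NumberField Module Finset Polynomial

namespace Pool.Agent.MP_9b2bac_nt.B

section norm
variable {K : Type} [Field K] [NumberField K]

/-- the norm as a product over the complex embeddings -/
theorem prod_emb (x : K) : ∏ σ : K →+* ℂ, ‖σ x‖ = |((Algebra.norm ℚ x : ℚ) : ℝ)| := by
  have h := congrArg (fun z : ℂ => ‖z‖) (Algebra.norm_eq_prod_embeddings ℚ ℂ x)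
  simp only [norm_prod] at h
  rw [Fintype.prod_equiv (RingHom.equivRatAlgHom K ℂ) (fun σ => ‖σ x‖) (fun σ => ‖σ x‖)
    fun _ => rfl, ← h, eq_ratCast, Complex.norm_ratCast]

theorem card_emb : Fintype.card (K →+* ℂ) = finrank ℚ K := Embeddings.card K ℂ

/-- a nonzero integer has norm at least one -/
theorem one_le_prod {x : 𝓞 K} (hx : x ≠ 0) : 1 ≤ ∏ σ : K →+* ℂ, ‖σ (x : K)‖ := by
  rw [prod_emb, ← Algebra.coe_norm_int, Rat.cast_intCast, ← Int.cast_abs]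
  exact_mod_cast Int.one_le_abs (Algebra.norm_ne_zero_iff.2 hx)

/-- an integer all of whose conjugates are below bounds of product at most one is zero -/
theorem eq_zero_of_lt {x : 𝓞 K} {b : (K →+* ℂ) → ℝ} (h : ∀ σ : K →+* ℂ, ‖σ (x : K)‖ < b σ)
    (hb : ∏ σ, b σ ≤ 1) : x = 0 := by
  by_contra hx
  have h0 : (x : K) ≠ 0 := by simpa using hx
  exact ((one_le_prod hx).trans_lt (Finset.prod_lt_prod_of_nonempty
    (fun σ _ => norm_pos_iff.2 ((map_ne_zero σ).2 h0)) (fun σ _ => h σ)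
    Finset.univ_nonempty)).not_ge hb

theorem prod_unit (u : (𝓞 K)ˣ) : ∏ σ : K →+* ℂ, ‖σ ((u : 𝓞 K) : K)‖ = 1 := by
  rw [prod_emb, ← Rat.cast_abs]
  exact_mod_cast NumberField.Units.norm K u

omit [NumberField K] in
theorem emb_unit_pos (u : (𝓞 K)ˣ) (σ : K →+* ℂ) : 0 < ‖σ ((u : 𝓞 K) : K)‖ :=
  norm_pos_iff.2 ((map_ne_zero σ).2 (Units.coe_ne_zero u))

theorem sum_log_unit (u : (𝓞 K)ˣ) : ∑ σ : K →+* ℂ, Real.log ‖σ ((u : 𝓞 K) : K)‖ = 0 := by
  rw [← Real.log_prod fun σ _ => (emb_unit_pos u σ).ne', prod_unit, Real.log_one]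

theorem sum_log_nonneg {x : 𝓞 K} (hx : x ≠ 0) :
    0 ≤ ∑ σ : K →+* ℂ, Real.log ‖σ (x : K)‖ := by
  have h0 : (x : K) ≠ 0 := by simpa using hx
  rw [← Real.log_prod fun σ _ => norm_ne_zero_iff.2 ((map_ne_zero σ).2 h0)]
  exact Real.log_nonneg (one_le_prod hx)

/-- a unit of a totally real field with small conjugates is one or minus one -/
theorem house [IsTotallyReal K] (u : (𝓞 K)ˣ)
    (h : ∀ σ : K →+* ℂ, ‖σ ((u : 𝓞 K) : K)‖ ≤ Real.exp (1 / 3)) : u = 1 ∨ u = -1 := by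
  have e : Real.exp (1 / 3) ^ 2 < 2 := by
    rw [← Real.exp_nat_mul, ← Real.lt_log_iff_exp_lt two_pos]
    have := Real.log_two_gt_d9
    norm_num
    linarith
  have h1 : (u : 𝓞 K) ^ 2 - 1 = 0 := by
    refine eq_zero_of_lt (b := fun _ => 1) (fun σ => ?_) (by simp)
    obtain ⟨x, hx⟩ : ∃ x : ℝ, (x : ℂ) = σ ((u : 𝓞 K) : K) :=
      ⟨_, (IsTotallyReal.complexEmbedding_isReal σ).coe_embedding_apply _⟩
    have h2 := h σ
    have h3 := emb_unit_pos u σ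
    have h4 : σ (((u : 𝓞 K) ^ 2 - 1 : 𝓞 K) : K) = ((x ^ 2 - 1 : ℝ) : ℂ) := by
      push_cast
      rw [map_sub, map_pow, map_one, hx]
    rw [← hx, Complex.norm_real, Real.norm_eq_abs] at h2 h3
    rw [h4, Complex.norm_real, Real.norm_eq_abs, abs_lt, ← sq_abs]
    constructor <;> nlinarith [abs_nonneg x]
  rcases mul_self_eq_one_iff.1 ((sq _).symm.trans (sub_eq_zero.1 h1)) with h2 | h2
  · exact Or.inl (Units.ext h2)
  · exact Or.inr (Units.ext h2)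

theorem tors [IsTotallyReal K] {u : (𝓞 K)ˣ} (h : u ∈ Units.torsion K) : u = 1 ∨ u = -1 :=
  house u fun σ => by
    have := (Units.mem_torsion K).1 h (InfinitePlace.mk σ)
    rw [InfinitePlace.apply] at this
    exact this.trans_le (Real.one_le_exp (by norm_num))

/-- a bound for the norm from a relative extension -/
theorem norm_le_rel {F : Type} [Field F] [NumberField F] [Algebra K F] (x : F)
    (b : (K →+* ℂ) → ℝ) (h : ∀ τ : F →+* ℂ, ‖τ x‖ ≤ b (τ.comp (algebraMap K F))) :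
    |((Algebra.norm ℚ x : ℚ) : ℝ)| ≤ (∏ σ, b σ) ^ finrank K F := by
  have : FiniteDimensional K F := Module.Finite.of_restrictScalars_finite ℚ K F
  rw [← Algebra.norm_norm (S := K), ← prod_emb, ← Finset.prod_pow]
  refine Finset.prod_le_prod (fun _ _ => norm_nonneg _) fun σ _ => ?_
  let _ : Algebra K ℂ := σ.toAlgebra
  have h1 : σ (Algebra.norm K x) = ∏ τ : F →ₐ[K] ℂ, τ x := Algebra.norm_eq_prod_embeddings K ℂ x
  rw [h1, norm_prod, ← AlgHom.card K F ℂ, ← Finset.card_univ, ← Finset.prod_const]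
  refine Finset.prod_le_prod (fun _ _ => norm_nonneg _) fun τ _ => (h τ.toRingHom).trans_eq ?_
  congr 1
  ext a
  exact τ.commutes a

end norm

section padic
variable {q : ℕ} [Fact q.Prime]

theorem norm_le_one_of_int {x : ℚ_[q]} (h : IsIntegral ℤ x) : ‖x‖ ≤ 1 := by
  obtain ⟨y, rfl⟩ := (IsIntegrallyClosed.isIntegral_iff (R := ℤ_[q]) (K := ℚ_[q])).1 h.tower_top
  exact y.2

variable {F : Type} [Field F]

theorem norm_le_one (ι : F →+* ℚ_[q]) (x : 𝓞 F) : ‖ι (x : F)‖ ≤ 1 :=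
  norm_le_one_of_int (x.isIntegral_coe.map ι.toIntAlgHom)

/-- the map to the `q`-adic integers -/
noncomputable def toZ (ι : F →+* ℚ_[q]) : 𝓞 F →+* ℤ_[q] where
  toFun x := ⟨ι (x : F), norm_le_one ι x⟩
  map_one' := Subtype.ext (by simp)
  map_mul' x y := Subtype.ext (by simp)
  map_zero' := Subtype.ext (by simp)
  map_add' x y := Subtype.ext (by simp)

theorem coe_toZ (ι : F →+* ℚ_[q]) (x : 𝓞 F) : (toZ ι x : ℚ_[q]) = ι (x : F) := rfl

/-- reduction modulo `q ^ N` -/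
noncomputable def red (ι : F →+* ℚ_[q]) (N : ℕ) : 𝓞 F →+* ZMod (q ^ N) :=
  (PadicInt.toZModPow N).comp (toZ ι)

theorem red_eq_zero (ι : F →+* ℚ_[q]) (N : ℕ) (x : 𝓞 F) :
    red ι N x = 0 ↔ ‖ι (x : F)‖ ≤ (q : ℝ) ^ (-(N : ℤ)) := by
  rw [red, RingHom.comp_apply, ← RingHom.mem_ker, PadicInt.ker_toZModPow,
    ← PadicInt.norm_le_pow_iff_mem_span_pow]
  rfl

theorem red_one (ι : F →+* ℚ_[q]) (N : ℕ) {x : 𝓞 F} (h : ‖ι (x : F) - 1‖ < 1) :
    (q : ZMod (q ^ N)) ∣ red ι N x - 1 := by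
  have h1 : (q : ℤ_[q]) ∣ toZ ι x - 1 := (PadicInt.norm_lt_one_iff_dvd _).1 h
  simpa [red] using map_dvd (PadicInt.toZModPow (p := q) N) h1

/-- reduction modulo `q` -/
noncomputable def red1 (ι : F →+* ℚ_[q]) : 𝓞 F →+* ZMod q := PadicInt.toZMod.comp (toZ ι)

theorem red1_eq_zero (ι : F →+* ℚ_[q]) (x : 𝓞 F) : red1 ι x = 0 ↔ ‖ι (x : F)‖ < 1 := by
  rw [red1, RingHom.comp_apply, ← RingHom.mem_ker, PadicInt.ker_toZMod,
    IsLocalRing.mem_maximalIdeal, PadicInt.mem_nonunits]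
  rfl

/-- the inequality of Liouville -/
theorem lio [NumberField F] (ι : F →+* ℚ_[q]) (N : ℕ) {x : 𝓞 F} (hx : x ≠ 0)
    (h : red ι N x = 0) : (q : ℝ) ^ N ≤ |((Algebra.norm ℚ (x : F) : ℚ) : ℝ)| := by
  obtain ⟨y, hy⟩ : x ∣ ((Algebra.norm ℤ x : ℤ) : 𝓞 F) := by
    have h1 := Ideal.absNorm_mem (Ideal.span {x})
    rw [Ideal.absNorm_span_singleton, Ideal.mem_span_singleton, ← Int.cast_natCast] at h1
    exact h1.trans (map_dvd (Int.castRingHom (𝓞 F)) (Int.natAbs_dvd.2 dvd_rfl))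
  have h2 : ((Algebra.norm ℤ x : ℤ) : ZMod (q ^ N)) = 0 := by
    rw [← map_intCast (red ι N), hy, map_mul, h, zero_mul]
  rw [ZMod.intCast_zmod_eq_zero_iff_dvd] at h2
  rw [← Algebra.coe_norm_int, Rat.cast_intCast, ← Int.cast_abs]
  exact_mod_cast Int.le_of_dvd (abs_pos.2 (Algebra.norm_ne_zero_iff.2 hx)) ((dvd_abs _ _).2 h2)

theorem norm_two (hq : q ≠ 2) : ‖(2 : ℚ_[q])‖ = 1 := by
  have := (Padic.norm_natCast_eq_one_iff (p := q) (n := 2)).2
    ((Nat.coprime_primes Fact.out Nat.prime_two).2 hq)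
  simpa using this

theorem norm_eq_one_of_near {x : ℚ_[q]} (h : ‖x - 1‖ < 1) : ‖x‖ = 1 := by
  have := Padic.norm_eq_of_norm_sub_lt_right (z1 := x) (z2 := 1) (by simpa using h)
  simpa using this

/-- square roots of elements close to one -/
theorem hen (hq : q ≠ 2) {x : ℚ_[q]} (h : ‖x - 1‖ < 1) : ∃ r : ℚ_[q], r ^ 2 = x ∧ ‖r - 1‖ < 1 := by
  let z : ℤ_[q] := ⟨x, (norm_eq_one_of_near h).le⟩
  have h2 : ‖(2 : ℤ_[q])‖ = 1 := norm_two hq
  have h3 : (X ^ 2 - C z).derivative.aeval (1 : ℤ_[q]) = 2 := by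
    simp
    norm_num
  obtain ⟨r, h4, h5, -⟩ := hensels_lemma (p := q) (F := X ^ 2 - C z) (a := 1) (by
    rw [h3, h2, one_pow]
    simp only [map_sub, map_pow, aeval_X, aeval_C, one_pow]
    rw [norm_sub_rev]
    exact h)
  rw [h3, h2] at h5
  simp only [map_sub, map_pow, aeval_X, aeval_C] at h4
  have h6 : r ^ 2 = z := sub_eq_zero.1 h4
  exact ⟨r, congrArg Subtype.val h6, h5⟩

/-- a unit whose residue is a square is a square -/
theorem hen' (hq : q ≠ 2) {u : ℤ_[q]} (h0 : PadicInt.toZMod u ≠ 0)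
    (h : IsSquare (PadicInt.toZMod u)) : IsSquare (u : ℚ_[q]) := by
  obtain ⟨a, ha⟩ := h
  obtain ⟨b, rfl⟩ : ∃ b : ℤ_[q], PadicInt.toZMod b = a :=
    ⟨(a.val : ℕ), by rw [map_natCast, ZMod.natCast_zmod_val]⟩
  have k : ∀ w : ℤ_[q], PadicInt.toZMod w = 0 ↔ ‖w‖ < 1 := fun w => by
    rw [← RingHom.mem_ker, PadicInt.ker_toZMod, IsLocalRing.mem_maximalIdeal,
      PadicInt.mem_nonunits]
  have h1 : ‖b‖ = 1 := le_antisymm b.2 (not_lt.1 fun e => h0 (by rw [ha, (k b).2 e, mul_zero]))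
  have h2 : ‖(b : ℚ_[q])‖ = 1 := h1
  have h3 : (b : ℚ_[q]) ≠ 0 := fun e => by simp [e] at h2
  have h4 : ‖u - b * b‖ < 1 := (k _).1 (by rw [map_sub, map_mul, ha, sub_self])
  obtain ⟨r, hr, -⟩ := hen hq (x := (u : ℚ_[q]) / (b * b)) (by
    rw [div_sub_one (mul_ne_zero h3 h3), norm_div, norm_mul, h2, mul_one, div_one]
    exact h4)
  exact ⟨r * b, by rw [mul_mul_mul_comm, ← sq, hr, div_mul_cancel₀ _ (mul_ne_zero h3 h3)]⟩

end padic

section cfg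
variable {K : Type} [Field K] {I : Type} {d : ℕ} {v : I → Fin d → ℤ} {A A' : Finset I}

theorem Aff.mono {η : I → (𝓞 K)ˣ} (h : Aff v A η) (hA : A' ⊆ A) : Aff v A' η := fun φ b =>
  (h φ b).imp fun _ ha i hi => ha i (hA hi)

theorem Bd.mono {c : I → ℤ} {T T' : ℕ} {Q : ℝ} (h : Bd c v A T Q) (hA : A' ⊆ A) (hT : T' ≤ T) :
    Bd c v A' T' Q := fun α hα =>
  (Finset.sum_le_sum_of_subset_of_nonneg hA fun _ _ _ => abs_nonneg _).trans (h α (hα.trans hT))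

variable [NumberField K] {y : I → 𝓞 K} {h h' : ℝ}

theorem Ht.mono (H : Ht A y h) (hA : A' ⊆ A) (hh : h ≤ h') : Ht A' y h' :=
  H.imp fun _ ht => ⟨ht.1.trans hh, fun σ i hi => ht.2 σ i (hA hi)⟩

theorem Cfg.mono {q : ℕ} [Fact q.Prime] {ι : K →+* ℚ_[q]} (H : Cfg ι v A y h) (hA : A' ⊆ A)
    (hh : h ≤ h') : Cfg ι v A' y h' :=
  ⟨H.inj.mono hA, fun i hi => H.one i (hA hi), H.ht.mono hA hh,
    H.dec.imp fun _ => Exists.imp fun _ e => ⟨fun i hi => e.1 i (hA hi), e.2.mono hA⟩⟩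

end cfg

end Pool.Agent.MP_9b2bac_nt.B
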