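import Pool.Agent.MP_9b2bac_nt.B.Basic
import Pool.Agent.MP_14ad9d_nt.Full.FI2

/-!
Basic facts on elements with even valuations.
-/

open NumberField Module
open Pool.Agent.MP_14ad9d_nt.Full Pool.Agent.MP_14ad9d_nt.Full.FIAux

namespace Pool.Agent.MP_9b2bac_nt.B

variable {L : Type} [Field L] [NumberField L]

/-- prescribed valuations at finitely many primes, integral elsewhere -/
theorem ex_ord (T : Finset (Pr L)) (n : Pr L → ℤ) :
    ∃ z : L, z ≠ 0 ∧ (∀ v ∈ T, ord v z = n v) ∧ ∀ v, v ∉ T → 0 ≤ ord v z := by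
  choose ϖ h0 h1 using fun v : Pr L => exists_ord_eq_one v
  obtain ⟨n0, hn⟩ := (T.finite_toSet.image fun v => -n v - 1).bddBelow
  obtain ⟨z, hz, h, h'⟩ := wa T (fun v => (ϖ v : L) ^ n v) n0
  refine ⟨z, hz, fun v hv => ?_, fun v hv => ?_⟩
  · have p0 : (ϖ v : L) ^ n v ≠ 0 := zpow_ne_zero _ (by simpa using h0 v)
    have e : ord v ((ϖ v : L) ^ n v) = n v := by rw [ord_zpow, h1, mul_one]
    have h2 : v.valuation L (z - (ϖ v : L) ^ n v) < v.valuation L ((ϖ v : L) ^ n v) := by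
      refine (h v hv).trans_lt ?_
      rw [val_eq_exp v p0, e, WithZero.exp_lt_exp]
      have := hn ⟨v, hv, rfl⟩
      simp only at this
      omega
    rw [← e, ord, ord, Valuation.map_eq_of_sub_lt _ h2]
  · have h2 := h' v hv
    rwa [val_eq_exp v hz, ← WithZero.exp_zero, WithZero.exp_le_exp, neg_nonpos] at h2

/-- an element with even valuations is, up to a square, integral and prime to given primes -/
theorem ev {γ : L} (h0 : γ ≠ 0) (h : Evn γ) (T : Finset (Pr L)) :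
    ∃ (δ : L) (x : 𝓞 L), δ ≠ 0 ∧ γ * δ ^ 2 = x ∧ ∀ w ∈ T, x ∉ w.asIdeal := by
  classical
  choose n hn using h
  obtain ⟨δ, d0, h1, h2⟩ := ex_ord (T ∪ (ord_finite γ).toFinset) fun v => -n v
  have e : ∀ v, ord v (γ * δ ^ 2) = ord v γ + 2 * ord v δ := fun v => by
    rw [ord_mul v h0 (pow_ne_zero 2 d0), ord_pow]
    rfl
  have h3 : ∀ v ∈ T ∪ (ord_finite γ).toFinset, ord v (γ * δ ^ 2) = 0 := fun v hv => by
    rw [e, h1 v hv, hn]
    ring
  obtain ⟨x, hx⟩ := exists_int (x := γ * δ ^ 2) fun v => by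
    by_cases hv : v ∈ T ∪ (ord_finite γ).toFinset
    · exact (h3 v hv).ge
    · have h4 := h2 v hv
      have h5 : ord v γ = 0 := by
        by_contra h5
        exact hv (Finset.mem_union_right _ ((Set.Finite.mem_toFinset _).2 h5))
      rw [e]
      omega
  have x0 : x ≠ 0 := by
    rintro rfl
    exact mul_ne_zero h0 (pow_ne_zero 2 d0) (hx.symm.trans (by simp))
  exact ⟨δ, x, d0, hx.symm, fun w hw => (ord_eq_zero_iff w x0).1
    (hx ▸ h3 w (Finset.mem_union_left _ hw))⟩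

omit [NumberField L] in
theorem coprime_of_notMem {x y : 𝓞 L} (hy : y ≠ 0)
    (h : ∀ w : Pr L, y ∈ w.asIdeal → x ∉ w.asIdeal) : IsCoprime x y := by
  rw [← Ideal.isCoprime_span_singleton_iff, Ideal.isCoprime_iff_sup_eq]
  by_contra hne
  obtain ⟨P, hP, hle⟩ := Ideal.exists_le_maximal _ hne
  have h1 : y ∈ P := hle (Ideal.mem_sup_right (Ideal.mem_span_singleton_self y))
  exact h ⟨P, hP.isPrime, fun e => hy (by simpa [e] using h1)⟩ h1
    (hle (Ideal.mem_sup_left (Ideal.mem_span_singleton_self x)))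

/-- the same, prime to two -/
theorem ev_two {γ : L} (h0 : γ ≠ 0) (h : Evn γ) :
    ∃ (δ : L) (x : 𝓞 L), δ ≠ 0 ∧ γ * δ ^ 2 = x ∧ IsCoprime x 2 := by
  obtain ⟨δ, x, h1, h2, h3⟩ := ev h0 h (ord_finite ((2 : 𝓞 L) : L)).toFinset
  exact ⟨δ, x, h1, h2, coprime_of_notMem two_ne_zero fun w hw => h3 w
    ((Set.Finite.mem_toFinset _).2 fun e => (ord_eq_zero_iff w two_ne_zero).1 e hw)⟩

theorem Evn.mul {γ γ' : L} (h : Evn γ) (h' : Evn γ') (h0 : γ ≠ 0) (h0' : γ' ≠ 0) :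
    Evn (γ * γ') := fun w => by
  rw [ord_mul w h0 h0']
  exact (h w).add (h' w)

theorem Evn.up {k : Type} [Field k] [NumberField k] [Algebra k L] {c : k} (h : Evn c) :
    Evn (algebraMap k L c) := fun w => by
  obtain ⟨e, -, he⟩ := ord_un (K := k) w c
  rw [he]
  exact (h _).mul_left e

omit [NumberField L] in
theorem Inv.mul {k : Type} [Field k] [Algebra k L] {γ γ' : L} (h : Inv k γ) (h' : Inv k γ') :
    Inv k (γ * γ') := by
  refine ⟨mul_ne_zero h.1 h'.1, fun g => ?_⟩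
  obtain ⟨δ, e⟩ := h.2 g
  obtain ⟨δ', e'⟩ := h'.2 g
  exact ⟨δ * δ', by rw [map_mul, e, e']; ring⟩

omit [NumberField L] in
theorem inv_base {k : Type} [Field k] [Algebra k L] {c : k} (h : c ≠ 0) :
    Inv k (algebraMap k L c) :=
  ⟨(map_ne_zero _).2 h, fun g => ⟨1, by rw [g.commutes, one_pow, mul_one]⟩⟩

end Pool.Agent.MP_9b2bac_nt.B
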