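import Pool.Agent.MP_9b2bac_nt.B.BasicG

/-!
Kummer characters and the ideal class invariant.
-/

open NumberField Module
open Pool.Agent.MP_14ad9d_nt.Full Pool.Agent.MP_14ad9d_nt.Full.FIAux

namespace Pool.Agent.MP_9b2bac_nt.B

theorem chr_Cls {k L : Type} [Field k] [Field L] [CharZero L] [Algebra k L] {δ : L} (h0 : δ ≠ 0)
    {a : k} (h : algebraMap k L a = δ * δ) :
    ∃ χ : (L ≃ₐ[k] L) →* ℤˣ, ∀ g, g δ = ((χ g : ℤ) : L) * δ := by
  have h1 : ∀ g : L ≃ₐ[k] L, ∃ u : ℤˣ, g δ = ((u : ℤ) : L) * δ := fun g => by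
    have e : g δ * g δ = δ * δ := by rw [← map_mul, ← h, g.commutes]
    rcases mul_self_eq_mul_self_iff.1 e with e | e
    · exact ⟨1, by simpa using e⟩
    · exact ⟨-1, by simpa using e⟩
  choose u hu using h1
  refine ⟨MonoidHom.mk' u fun g g' => ?_, hu⟩
  have e : ((u (g * g') : ℤ) : L) * δ = (((u g * u g' : ℤˣ) : ℤ) : L) * δ := by
    rw [← hu, AlgEquiv.mul_apply, hu g', map_mul, map_intCast, hu g]
    push_cast
    ring
  exact Units.ext (Int.cast_injective (mul_right_cancel₀ h0 e))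

theorem ki_st : KI_st := by
  intro k L _ _ _ _ _ _ J s c hc h1 h2
  rcases s.eq_empty_or_nonempty with rfl | ⟨j₀, hj₀⟩
  · simp
  have : Finite ((L ≃ₐ[k] L) →* ℤˣ) := DFunLike.finite _
  have h3 : ∀ j : s, ∃ (δ : L) (χ : (L ≃ₐ[k] L) →* ℤˣ), algebraMap k L (c j * c j₀) = δ * δ ∧
      ∀ g, g δ = ((χ g : ℤ) : L) * δ := fun j => by
    obtain ⟨δ, hδ⟩ := h1 j j.2 j₀ hj₀
    have d0 : δ ≠ 0 := by
      rintro rfl
      exact mul_ne_zero (hc j j.2) (hc j₀ hj₀) ((map_eq_zero _).1 (hδ.trans (mul_zero _)))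
    obtain ⟨χ, hχ⟩ := chr_Cls d0 hδ
    exact ⟨δ, χ, hδ, hχ⟩
  choose δ χ hδ hχ using h3
  have hi : Function.Injective χ := fun j j' e => by
    obtain ⟨z, hz⟩ := (IsGalois.mem_range_algebraMap_iff_fixed (F := k) (δ j * δ j')).2 fun g => by
      have e1 : ((χ j' g : ℤ) : L) * ((χ j' g : ℤ) : L) = 1 := by
        rw [← Int.cast_mul, ← Units.val_mul, Int.units_mul_self]
        simp
      rw [map_mul, hχ, hχ, e, mul_mul_mul_comm, e1, one_mul]
    have e2 : c j * c j₀ * (c j' * c j₀) = z * z := (algebraMap k L).injective (by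
      rw [map_mul, hδ, hδ, map_mul, hz]
      ring)
    refine Subtype.ext (h2 j j.2 j' j'.2 ⟨z / c j₀, ?_⟩)
    have := hc j₀ hj₀
    field_simp
    linear_combination e2
  simpa using Nat.card_le_card_of_injective χ hi

section
variable (k : Type) [Field k] [NumberField k]

/-- principal divisors -/
def prin_Cls : AddSubgroup (Pr k →₀ ℤ) where
  carrier := {d | ∃ y : k, y ≠ 0 ∧ ∀ v, d v = ord v y}
  add_mem' := by
    rintro _ _ ⟨y, y0, hy⟩ ⟨z, z0, hz⟩
    exact ⟨y * z, mul_ne_zero y0 z0, fun v => by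
      rw [Finsupp.add_apply, hy, hz, ord_mul v y0 z0]⟩
  zero_mem' := ⟨1, one_ne_zero, fun v => by rw [ord_one]; rfl⟩
  neg_mem' := by
    rintro _ ⟨y, y0, hy⟩
    exact ⟨y⁻¹, inv_ne_zero y0, fun v => by rw [Finsupp.neg_apply, hy, ord_inv]⟩

theorem fin_Cls : Finite ((Pr k →₀ ℤ) ⧸ prin_Cls k) := by
  obtain ⟨cl, hcl⟩ := cls_fin (E := k)
  exact fin_of_fun _ cl fun x y e => hcl x y e

end

theorem grp_Cls {Q : Type} [AddCommGroup Q] [Finite Q] (m : Q →+ Q) :
    Nat.card (Q ⧸ m.range) = Nat.card m.ker := by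
  have e1 := AddSubgroup.card_eq_card_quotient_mul_card_addSubgroup m.ker
  have e2 := AddSubgroup.card_eq_card_quotient_mul_card_addSubgroup m.range
  rw [Nat.card_congr (QuotientAddGroup.quotientKerEquivRange m).toEquiv, e2, mul_comm] at e1
  exact Nat.eq_of_mul_eq_mul_left Nat.card_pos e1

theorem ker_Cls (hK : KI_st) {k L : Type} [Field k] [NumberField k] [Field L] [NumberField L]
    [Algebra k L] [IsGalois k L] (f : L → Fin 64) (hf : ∀ γ γ' : L, Inv k γ → Evn γ → Inv k γ' →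
      Evn γ' → f γ = f γ' → IsSquare (γ * γ')) :
    Nat.card (nsmulAddMonoidHom (α := (Pr k →₀ ℤ) ⧸ prin_Cls k) 2).ker ≤
      Nat.card ((L ≃ₐ[k] L) →* ℤˣ) * 64 := by
  classical
  have := fin_Cls k
  let J := (nsmulAddMonoidHom (α := (Pr k →₀ ℤ) ⧸ prin_Cls k) 2).ker
  have := Fintype.ofFinite J
  have h1 : ∀ x : J, ∃ (e : Pr k →₀ ℤ) (c : k), (e : (Pr k →₀ ℤ) ⧸ prin_Cls k) = x.1 ∧ c ≠ 0 ∧
      ∀ v, 2 * e v = ord v c := by
    rintro ⟨x, hx⟩
    obtain ⟨e, rfl⟩ := QuotientAddGroup.mk_surjective x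
    obtain ⟨c, c0, hc⟩ := (QuotientAddGroup.eq_zero_iff (N := prin_Cls k) (2 • e)).1 hx
    exact ⟨e, c, rfl, c0, fun v => by rw [← hc]; simp⟩
  choose e c he c0 hc using h1
  have ev : ∀ x, Evn (algebraMap k L (c x)) := fun x =>
    Evn.up fun v => ⟨e x v, by rw [← hc]; ring⟩
  have h2 := Finset.card_le_mul_card_image_of_maps_to (s := (Finset.univ : Finset J))
    (t := (Finset.univ : Finset (Fin 64))) (f := fun x => f (algebraMap k L (c x)))
    (fun _ _ => Finset.mem_univ _) (Nat.card ((L ≃ₐ[k] L) →* ℤˣ)) fun t _ => by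
      refine hK k L J _ c (fun x _ => c0 x) (fun x hx x' hx' => ?_) fun x _ x' _ => ?_
      · rw [map_mul]
        exact hf _ _ (inv_base (c0 x)) (ev x) (inv_base (c0 x')) (ev x')
          ((Finset.mem_filter.1 hx).2.trans (Finset.mem_filter.1 hx').2.symm)
      · rintro ⟨ε, hε⟩
        have e0 : ε ≠ 0 := by
          rintro rfl
          exact mul_ne_zero (c0 x) (c0 x') (hε.trans (mul_zero _))
        have h3 : e x + e x' ∈ prin_Cls k := ⟨ε, e0, fun v => by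
          have h4 := ord_mul v (c0 x) (c0 x')
          rw [hε, ord_mul v e0 e0, ← hc, ← hc] at h4
          rw [Finsupp.add_apply]
          omega⟩
        have h4 : x.1 + x'.1 = 0 := by
          rw [← he, ← he]
          exact (QuotientAddGroup.eq_zero_iff (N := prin_Cls k) _).2 h3
        have h5 : x'.1 + x'.1 = 0 := (two_nsmul _).symm.trans x'.2
        exact Subtype.ext (add_right_cancel (h4.trans h5.symm))
  rw [Nat.card_eq_fintype_card]
  simpa using h2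

theorem div_Cls {k L : Type} [Field k] [NumberField k] [Field L] [NumberField L]
    [Algebra k L] [IsGalois k L] : ∃ b : L → (Pr k →₀ ℤ), ∀ γ, Inv k γ → ∀ w : Pr L,
      Even (ord w γ - b γ (un k w)) := by
  choose ov hov using un_surj (K := k) (L := L)
  have hi : Function.Injective ov := fun v v' e => by rw [← hov v, ← hov v', e]
  refine ⟨fun γ => Finsupp.ofSupportFinite (fun v => ord (ov v) γ)
    ((ord_finite γ).preimage hi.injOn), fun γ h w => ?_⟩
  change Even (ord w γ - ord (ov (un k w)) γ)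
  obtain ⟨g, hg⟩ := ac_trans (K := k) (hov (un k w))
  obtain ⟨δ, hδ⟩ := h.2 g
  have d0 : δ ≠ 0 := by
    rintro rfl
    exact h.1 ((map_eq_zero g).1 (by simpa using hδ))
  have h1 := ord_ac g (ov (un k w)) γ
  rw [hg, hδ, ord_mul w h.1 (pow_ne_zero 2 d0), ord_pow] at h1
  exact ⟨-ord w δ, by push_cast at h1; omega⟩

theorem cls_st (hU : UNR_st) (hK : KI_st) : CLS_st := by
  intro k L _ _ _ _ _ a hT f hf d hd
  classical
  have := hT.gal
  have := fin_Cls k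
  let m := nsmulAddMonoidHom (α := (Pr k →₀ ℤ) ⧸ prin_Cls k) 2
  obtain ⟨b, hb⟩ := div_Cls (k := k) (L := L)
  let κ : L → ((Pr k →₀ ℤ) ⧸ prin_Cls k) ⧸ m.range := fun γ =>
    QuotientAddGroup.mk (QuotientAddGroup.mk (b γ))
  have h1 : ∀ γ γ', Inv k γ → Inv k γ' → κ γ = κ γ' →
      ∃ c : k, c ≠ 0 ∧ Evn (γ * γ' * algebraMap k L c) := fun γ γ' h h' e => by
    obtain ⟨x, hx⟩ := QuotientAddGroup.eq_iff_sub_mem.1 e
    obtain ⟨x, rfl⟩ := QuotientAddGroup.mk_surjective x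
    have h2 : b γ - b γ' - 2 • x ∈ prin_Cls k := QuotientAddGroup.eq_iff_sub_mem.1 hx.symm
    obtain ⟨c, c0, hc⟩ := h2
    refine ⟨c, c0, fun w => ?_⟩
    have h3 := hc (un k w)
    obtain ⟨p, hp⟩ := hb γ h w
    obtain ⟨p', hp'⟩ := hb γ' h' w
    rw [ord_mul w (mul_ne_zero h.1 h'.1) ((map_ne_zero _).2 c0), ord_mul w h.1 h'.1,
      ord_over (over_un (K := k) w), (hU.2.1 k L hT.unr).1 w, ← h3]
    simp only [Finsupp.sub_apply, Finsupp.smul_apply, nsmul_eq_mul]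
    exact ⟨p + p' + b γ (un k w) - x (un k w), by push_cast; omega⟩
  let r : (((Pr k →₀ ℤ) ⧸ prin_Cls k) ⧸ m.range) → L := fun t =>
    Classical.epsilon fun γ => Inv k γ ∧ κ γ = t
  have hr : ∀ γ, Inv k γ → Inv k (r (κ γ)) ∧ κ (r (κ γ)) = κ γ := fun γ h =>
    Classical.epsilon_spec (p := fun γ' => Inv k γ' ∧ κ γ' = κ γ) ⟨γ, h, rfl⟩
  have h2 : ∀ γ, ∃ c : k, Inv k γ → c ≠ 0 ∧ Evn (γ * r (κ γ) * algebraMap k L c) := fun γ => by
    by_cases h : Inv k γ
    · exact (h1 γ _ h (hr γ h).1 (hr γ h).2.symm).imp fun _ hc _ => hc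
    · exact ⟨0, fun h' => absurd h' h⟩
  choose c hc using h2
  have := Fintype.ofFinite (((Pr k →₀ ℤ) ⧸ prin_Cls k) ⧸ m.range)
  obtain ⟨E⟩ := Function.Embedding.nonempty_of_card_le
    (α := (((Pr k →₀ ℤ) ⧸ prin_Cls k) ⧸ m.range) × Fin 64) (β := Fin (2 ^ (d + 12))) (by
      have h3 := ker_Cls hK f hf
      rw [← grp_Cls, hd, Nat.card_eq_fintype_card] at h3
      rw [Fintype.card_prod, Fintype.card_fin, Fintype.card_fin, pow_add]
      exact (Nat.mul_le_mul_right 64 h3).trans_eq (by ring))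
  refine ⟨fun γ => E (κ γ, f (γ * r (κ γ) * algebraMap k L (c γ))), fun γ γ' h h' e => ?_⟩
  have e1 := E.injective e
  have e2 : κ γ = κ γ' := congrArg Prod.fst e1
  obtain ⟨ε, hε⟩ := hf _ _ ((h.mul (hr γ h).1).mul (inv_base (hc γ h).1)) (hc γ h).2
    ((h'.mul (hr γ' h').1).mul (inv_base (hc γ' h').1)) (hc γ' h').2 (congrArg Prod.snd e1)
  refine ⟨c γ * c γ', mul_ne_zero (hc γ h).1 (hc γ' h').1, ε / r (κ γ'), ?_⟩
  have r0 := (hr γ' h').1.1
  rw [e2] at hε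
  rw [map_mul]
  field_simp
  linear_combination hε

end Pool.Agent.MP_9b2bac_nt.B
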