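import Pool.Agent.MP_14ad9d_nt.Full.HDefs

/-!
Statements of the steps of the power saving bound for the largest prime factor of `2 ^ n - 1`.
Part A is the method of Baker with the units of a number field inside the `q`-adic numbers.
Part G builds towers of unramified quadratic extensions inside the `q`-adic numbers.
-/

open NumberField Module Finset
open Pool.Agent.MP_14ad9d_nt.Full (Pr ord Deg1)

namespace Pool.Agent.MP_9b2bac_nt.B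

/-! ### Part A -/

/-- a monomial in the coordinates -/
def mon {I : Type} {d : ℕ} (v : I → Fin d → ℤ) (α : Fin d → ℕ) (i : I) : ℤ := ∏ l, v i l ^ α l

section
variable {K : Type} [Field K] {I : Type} {d : ℕ}

/-- additive characters of the units and constants are linear in the coordinates -/
def Aff (v : I → Fin d → ℤ) (A : Finset I) (η : I → (𝓞 K)ˣ) : Prop :=
  ∀ (φ : Additive (𝓞 K)ˣ →+ ℤ) (b : ℤ), ∃ a : Fin d → ℚ,
    ∀ i ∈ A, ∑ l, a l * (v i l : ℚ) = ((φ (Additive.ofMul (η i)) + b : ℤ) : ℚ)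

/-- the joint height is at most `h` -/
def Ht [NumberField K] (A : Finset I) (y : I → 𝓞 K) (h : ℝ) : Prop :=
  ∃ t : (K →+* ℂ) → ℝ, ∑ σ, t σ ≤ h ∧ ∀ σ : K →+* ℂ, ∀ i ∈ A, ‖σ (y i : K)‖ ≤ Real.exp (t σ)

/-- a configuration of distinct units times powers of two, all close to one -/
structure Cfg {q : ℕ} [Fact q.Prime] [NumberField K] (ι : K →+* ℚ_[q]) (v : I → Fin d → ℤ)
    (A : Finset I) (y : I → 𝓞 K) (h : ℝ) : Prop where
  inj : Set.InjOn y A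
  one : ∀ i ∈ A, ‖ι (y i : K) - 1‖ < 1
  ht : Ht A y h
  dec : ∃ (η : I → (𝓞 K)ˣ) (j : I → ℕ), (∀ i ∈ A, y i = η i * 2 ^ j i) ∧ Aff v A η

/-- vanishing in degree `T` at the first `S` odd exponents -/
def Van (c : I → ℤ) (v : I → Fin d → ℤ) (A : Finset I) (y : I → 𝓞 K) (T S : ℕ) : Prop :=
  ∀ α : Fin d → ℕ, ∑ l, α l = T → ∀ s < S,
    ∑ i ∈ A, ((c i * mon v α i : ℤ) : 𝓞 K) * y i ^ (2 * s + 1) = 0

/-- the size of the coefficients -/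
def Bd (c : I → ℤ) (v : I → Fin d → ℤ) (A : Finset I) (T : ℕ) (Q : ℝ) : Prop :=
  ∀ α : Fin d → ℕ, ∑ l, α l ≤ T → ∑ i ∈ A, |((c i * mon v α i : ℤ) : ℝ)| ≤ Q

end

/-- the ideal generated by two is radical -/
def Red2 (K : Type) [Field K] : Prop := ∀ x : 𝓞 K, 2 ∣ x ^ 2 → 2 ∣ x

/-- the logarithm modulo `q ^ N` and the Schwarz lemma -/
def SCH_st : Prop :=
  ∀ q N : ℕ, q.Prime → N ≤ q → ∃ L : (ZMod (q ^ N))ˣ → ZMod (q ^ N),
    (∀ u w, L (u * w) = L u + L w) ∧ (∀ u, u ^ (q - 1) = 1 → L u = 0) ∧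
    ∀ (I : Type) (A : Finset I) (a : I → ZMod (q ^ N)) (r : I → (ZMod (q ^ N))ˣ) (S M : ℕ)
      (n : ℕ → ℕ), (∀ i ∈ A, (q : ZMod (q ^ N)) ∣ (r i : ZMod (q ^ N)) - 1) → N = S * M →
      (∀ s < S, ∀ s' < S, n s ≡ n s' [MOD q] → s = s') →
      (∀ s < S, ∀ m < M, ∑ i ∈ A, a i * L (r i) ^ m * (r i : ZMod (q ^ N)) ^ n s = 0) →
      ∀ z : ℕ, ∑ i ∈ A, a i * (r i : ZMod (q ^ N)) ^ z = 0

/-- derivatives vanish -/
def DER_st : Prop :=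
  ∀ (K : Type) [Field K] [NumberField K] (I : Type) (d : ℕ) (c : I → ℤ) (v : I → Fin d → ℤ)
    (A : Finset I) (y : I → 𝓞 K) (η : I → (𝓞 K)ˣ) (T S : ℕ) (R : Type) [CommRing R]
    (f : 𝓞 K →+* R) (Λ : (𝓞 K)ˣ → R), (∀ u w, Λ (u * w) = Λ u + Λ w) →
    (∀ u ∈ Units.torsion K, Λ u = 0) → Aff v A η → Van c v A y T S →
    ∀ (α : Fin d → ℕ) (m : ℕ), ∑ l, α l + m ≤ T → ∀ s < S,
      ∑ i ∈ A, ((c i * mon v α i : ℤ) : R) * Λ (η i) ^ m * f (y i) ^ (2 * s + 1) = 0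

/-- extrapolation -/
def XTR_st : Prop :=
  ∀ (q : ℕ) [Fact q.Prime] (K F : Type) [Field K] [NumberField K] [IsTotallyReal K] [Field F]
    [NumberField F] [Algebra K F] (ι : F →+* ℚ_[q]) (I : Type) (d : ℕ) (c : I → ℤ)
    (v : I → Fin d → ℤ) (A : Finset I) (y : I → 𝓞 K) (r : I → 𝓞 F) (h Q : ℝ) (T S M e z : ℕ)
    (α : Fin d → ℕ), q ≠ 2 → (e = 1 ∨ e = 2) → Cfg (ι.comp (algebraMap K F)) v A y h →
    (∀ i ∈ A, r i ^ e = algebraMap (𝓞 K) (𝓞 F) (y i) ∧ ‖ι (r i : F) - 1‖ < 1) → Bd c v A T Q →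
    Van c v A y T S → 1 ≤ M → S * M ≤ q → q ^ (S * M) ∣ 2 ^ (q - 1) - 1 →
    ∑ l, α l + M ≤ T + 1 →
    (Q ^ finrank ℚ K * Real.exp (z * h / e)) ^ finrank K F < (q : ℝ) ^ (S * M) →
    ∑ i ∈ A, ((c i * mon v α i : ℤ) : 𝓞 F) * r i ^ z = 0

/-- the field of the square roots -/
def KUM_st : Prop :=
  ∀ (q : ℕ) [Fact q.Prime] (K : Type) [Field K] [NumberField K] [IsTotallyReal K]
    (ι : K →+* ℚ_[q]) (I : Type) (A : Finset I) (y : I → 𝓞 K), q ≠ 2 →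
    (∀ i ∈ A, ‖ι (y i : K) - 1‖ < 1) →
    (∀ i ∈ A, ∃ (η : (𝓞 K)ˣ) (j : ℕ), y i = η * 2 ^ j) →
    ∃ (F : Type) (_ : Field F) (_ : NumberField F) (_ : Algebra K F) (ι' : F →+* ℚ_[q])
      (r : I → 𝓞 F), ι'.comp (algebraMap K F) = ι ∧ finrank K F ≤ 2 ^ (finrank ℚ K + 1) ∧
      ∀ i ∈ A, r i ^ 2 = algebraMap (𝓞 K) (𝓞 F) (y i) ∧ ‖ι' (r i : F) - 1‖ < 1

/-- the descent to square roots -/
def HLF_st : Prop :=
  ∀ (q : ℕ) [Fact q.Prime] (K F : Type) [Field K] [NumberField K] [Field F] [NumberField F]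
    [Algebra K F] (ι : F →+* ℚ_[q]) (I : Type) (d : ℕ) (v : I → Fin d → ℤ) (A : Finset I)
    (y : I → 𝓞 K) (r : I → 𝓞 F) (h : ℝ), Red2 K → A.Nonempty →
    Cfg (ι.comp (algebraMap K F)) v A y h →
    (∀ i ∈ A, r i ^ 2 = algebraMap (𝓞 K) (𝓞 F) (y i) ∧ ‖ι (r i : F) - 1‖ < 1) →
    ∃ (A' : Finset I) (y' : I → 𝓞 K), A' ⊆ A ∧ A'.Nonempty ∧
      Cfg (ι.comp (algebraMap K F)) v A' y' (h / 2) ∧ ∀ (a : I → ℤ) (s : ℕ),
        ∑ i ∈ A, (a i : 𝓞 F) * r i ^ (2 * s + 1) = 0 →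
        ∑ i ∈ A', (a i : 𝓞 K) * y' i ^ (2 * s + 1) = 0

/-- the end of the descent -/
def END_st : Prop :=
  ∀ (q : ℕ) [Fact q.Prime] (K : Type) [Field K] [NumberField K] [IsTotallyReal K]
    (ι : K →+* ℚ_[q]) (I : Type) (d : ℕ) (v : I → Fin d → ℤ) (A : Finset I) (y : I → 𝓞 K)
    (h : ℝ), q ≠ 2 → Cfg ι v A y h → 3 * h < 1 → A.card ≤ 1

/-- the whole descent -/
def DESC_st : Prop :=
  ∀ (q : ℕ) [Fact q.Prime] (K : Type) [Field K] [NumberField K] [IsTotallyReal K]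
    (ι : K →+* ℚ_[q]) (I : Type) (d : ℕ) (c : I → ℤ) (v : I → Fin d → ℤ) (A : Finset I)
    (y : I → 𝓞 K) (h Q : ℝ) (k S M R : ℕ), q ≠ 2 → Red2 K → A.Nonempty → (∀ i ∈ A, c i ≠ 0) →
    Cfg ι v A y h → Bd c v A (2 * (finrank ℚ K + 2) * M) Q →
    Van c v A y (2 * (finrank ℚ K + 2) * M) S → 1 ≤ Q → 1 ≤ S → 0 ≤ h → 3 * h < 2 ^ R →
    8 * h ≤ M * Real.log q → 2 * finrank ℚ K * Real.log Q < S * M * Real.log q →
    2 ^ (finrank ℚ K + 1) * S * (M + 2 ^ R) ≤ k → k ≤ q → q ^ k ∣ 2 ^ (q - 1) - 1 → False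

/-- the lemma of Siegel -/
def SIE_st : Prop :=
  ∀ (K : Type) [Field K] [NumberField K] [IsTotallyReal K] (I : Type) (d : ℕ)
    (v : I → Fin d → ℤ) (A : Finset I) (y : I → 𝓞 K) (h : ℝ) (V T S : ℕ), Ht A y h → 0 ≤ h →
    1 ≤ V → (∀ i ∈ A, ∀ l, |v i l| ≤ V) → A.Nonempty →
    2 * finrank ℚ K * S * (T + d - 1).choose T ≤ A.card →
    ∃ c : I → ℤ, (∃ i ∈ A, c i ≠ 0) ∧ (∀ i ∈ A, |(c i : ℝ)| ≤
      3 * A.card * V ^ T * Real.exp (2 * S * h / finrank ℚ K)) ∧ Van c v A y T S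

/-- many units of small joint height -/
def UNI_st : Prop :=
  ∀ C : ℕ, ∃ C₁ : ℕ, 1 ≤ C₁ ∧ ∀ (K : Type) [Field K] [NumberField K] [IsTotallyReal K],
    (discr K).natAbs ≤ C ^ finrank ℚ K → ∀ H : ℕ, ∃ Y : Finset (𝓞 K)ˣ,
      (H + finrank ℚ K - 1).choose H ≤ C₁ ^ finrank ℚ K * Y.card ∧
      Ht Y (fun u => (u : 𝓞 K)) (H + finrank ℚ K * C₁)

/-- small integral coordinates -/
def COO_st : Prop :=
  ∀ (K : Type) [Field K] [NumberField K] [IsTotallyReal K] (Y : Finset (𝓞 K)ˣ) (H : ℕ),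
    (∀ u ∈ Y, ∀ σ : K →+* ℂ, |Real.log ‖σ ((u : 𝓞 K) : K)‖| ≤ H) →
    ∃ v : (𝓞 K)ˣ → Fin (finrank ℚ K) → ℤ,
      (∀ u ∈ Y, ∀ l, |v u l| ≤ ((6 * finrank ℚ K * H + 2) ^ finrank ℚ K : ℕ)) ∧ Aff v Y id

/-- the first configuration -/
def SET_st : Prop :=
  ∀ C : ℕ, ∃ C₁ : ℕ, 1 ≤ C₁ ∧ ∀ (q : ℕ) [Fact q.Prime] (K : Type) [Field K] [NumberField K]
    [IsTotallyReal K] (ι : K →+* ℚ_[q]), q ≠ 2 → (discr K).natAbs ≤ C ^ finrank ℚ K →
    ∀ H J n : ℕ, 1 ≤ n → n * q * C₁ ^ finrank ℚ K ≤ J * (H + finrank ℚ K - 1).choose H →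
    ∃ (I : Type) (v : I → Fin (finrank ℚ K) → ℤ) (A : Finset I) (y : I → 𝓞 K), A.card = n ∧
      Cfg ι v A y (H + finrank ℚ K * C₁ + finrank ℚ K * J : ℕ) ∧ ∀ i ∈ A, ∀ l,
        |v i l| ≤ ((6 * finrank ℚ K * (H + finrank ℚ K * C₁) + 2) ^ finrank ℚ K : ℕ)

/-- the choice of the parameters -/
def PAR_st : Prop :=
  ∀ C₁ : ℕ, 1 ≤ C₁ → ∃ A d₀ : ℕ, 3 ≤ A ∧ 1 ≤ d₀ ∧ ∀ D q : ℕ, d₀ ≤ D → A ^ D ≤ q →
    q ≤ A ^ (2 * D) → ∃ H J S M R T n h V : ℕ, T = 2 * (D + 2) * M ∧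
      n = 2 * D * S * (T + D - 1).choose T ∧ h = H + D * C₁ + D * J ∧
      V = (6 * D * (H + D * C₁) + 2) ^ D ∧ 1 ≤ S ∧
      n * q * C₁ ^ D ≤ J * (H + D - 1).choose H ∧ 3 * h < 2 ^ R ∧
      8 * (h : ℝ) ≤ M * Real.log q ∧
      2 * D * Real.log (3 * n ^ 2 * V ^ (2 * T) * Real.exp (2 * S * h / D)) <
        S * M * Real.log q ∧ 2 ^ (D + 1) * S * (M + 2 ^ R) * 2 ^ D ≤ q

/-- the bound for the valuation given a field -/
def BAK_st : Prop :=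
  ∀ C : ℕ, ∃ A d₀ : ℕ, 3 ≤ A ∧ ∀ (q : ℕ) [Fact q.Prime] (K : Type) [Field K] [NumberField K]
    [IsTotallyReal K], Nonempty (K →+* ℚ_[q]) → Red2 K → (discr K).natAbs ≤ C ^ finrank ℚ K →
    d₀ ≤ finrank ℚ K → A ^ finrank ℚ K ≤ q → q ≤ A ^ (2 * finrank ℚ K) →
    ∀ k : ℕ, q ^ k ∣ 2 ^ (q - 1) - 1 → k * 2 ^ finrank ℚ K ≤ q

/-- fields of bounded root discriminant inside the `q`-adic numbers -/
def TOW_st : Prop :=
  ∃ C q₀ : ℕ, ∀ (q : ℕ) [Fact q.Prime], q₀ ≤ q → ∀ m : ℕ,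
    ∃ (K : Type) (_ : Field K) (_ : NumberField K), IsTotallyReal K ∧ finrank ℚ K = 2 ^ (m + 1) ∧
      Nonempty (K →+* ℚ_[q]) ∧ Red2 K ∧ (discr K).natAbs ≤ C ^ finrank ℚ K

/-- the power saving bound for the valuation of the Fermat quotient -/
def VAL_st : Prop :=
  ∃ c : ℝ, 0 < c ∧ ∃ q₀ : ℕ, ∀ q : ℕ, q.Prime → q₀ ≤ q → ∀ k : ℕ, q ^ k ∣ 2 ^ (q - 1) - 1 →
    (k : ℝ) ≤ (q : ℝ) ^ (1 - c)

/-- the power saving bound for the largest prime factor -/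
def MAIN_st : Prop :=
  ∃ c : ℝ, 0 < c ∧ ∃ n₀ : ℕ, ∀ n : ℕ, n₀ ≤ n →
    ∃ q : ℕ, q.Prime ∧ q ∣ 2 ^ n - 1 ∧ (n : ℝ) ^ (1 + c) < q

/-! ### Part G -/

/-- unramified at all finite primes -/
def Unr (k L : Type) [Field k] [NumberField k] [Field L] [NumberField L] [Algebra k L] : Prop :=
  differentIdeal (𝓞 k) (𝓞 L) = ⊤

/-- a layer of the tower -/
structure Tw (k L : Type) [Field k] [NumberField k] [Field L] [NumberField L] [Algebra k L]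
    (a : ℕ) : Prop where
  gal : IsGalois k L
  deg : finrank k L = 2 ^ a
  real : IsTotallyReal L
  unr : Unr k L

/-- nonzero and invariant modulo squares -/
def Inv (k : Type) [Field k] {L : Type} [Field L] [Algebra k L] (γ : L) : Prop :=
  γ ≠ 0 ∧ ∀ g : L ≃ₐ[k] L, ∃ δ : L, g γ = γ * δ ^ 2

/-- all valuations are even -/
def Evn {L : Type} [Field L] [NumberField L] (γ : L) : Prop := ∀ w : Pr L, Even (ord w γ)

/-- the local conditions at infinity, at `q` and at two -/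
def Good {q : ℕ} [Fact q.Prime] {L : Type} [Field L] (ι : L →+* ℚ_[q]) (γ : L) : Prop :=
  (∀ σ : L →+* ℝ, 0 < σ γ) ∧ IsSquare (ι γ) ∧
    ∃ (δ : L) (x a : 𝓞 L), δ ≠ 0 ∧ γ * δ ^ 2 = x ∧ IsCoprime x 2 ∧ 4 ∣ x - a ^ 2

/-- real characters of the class group, as functions on primes -/
def Cls2 {L : Type} [Field L] [NumberField L] (χ : Pr L → ZMod 2) : Prop :=
  ∀ α : L, α ≠ 0 → ∑ᶠ v : Pr L, (ord v α : ZMod 2) * χ v = 0

/-- consequences of being unramified -/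
def UNR_st : Prop :=
  (∀ (k F L : Type) [Field k] [NumberField k] [Field F] [NumberField F] [Field L] [NumberField L]
    [Algebra k F] [Algebra F L] [Algebra k L] [IsScalarTower k F L],
    Unr k L ↔ Unr k F ∧ Unr F L) ∧
  (∀ (k L : Type) [Field k] [NumberField k] [Field L] [NumberField L] [Algebra k L], Unr k L →
    (∀ w : Pr L, w.asIdeal.ramificationIdx (𝓞 k) = 1) ∧
    (discr L).natAbs = (discr k).natAbs ^ finrank k L ∧
    ∃ θ : 𝓞 L, Algebra.trace k L (θ : L) = 1) ∧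
  (∀ (k : Type) [Field k] [NumberField k], Unr k k) ∧
  ∀ (K : Type) [Field K] [NumberField K], ¬ (2 : ℤ) ∣ discr K → Red2 K

/-- a nontrivial real class character is nontrivial at infinitely many primes of degree one -/
def AN1_st : Prop :=
  ∀ (E : Type) [Field E] [NumberField E] (χ : Pr E → ZMod 2), Cls2 χ → (∃ v, χ v ≠ 0) →
    {v : Pr E | Deg1 v ∧ χ v ≠ 0}.Infinite

/-- the second inequality for quadratic extensions -/
def AN2_st : Prop :=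
  ∀ (K E : Type) [Field K] [NumberField K] [Field E] [NumberField E] [Algebra K E],
    finrank K E = 2 → ∀ χ₁ χ₂ : Pr K → ZMod 2, Cls2 χ₁ → Cls2 χ₂ →
    (∀ (w : Pr E) (v : Pr K), w.asIdeal.LiesOver v.asIdeal → w.asIdeal.inertiaDeg (𝓞 K) = 1 →
      χ₁ v = 0 ∧ χ₂ v = 0) →
    ∃ a b : ZMod 2, (a ≠ 0 ∨ b ≠ 0) ∧ ∀ v, a * χ₁ v + b * χ₂ v = 0

/-- the Hasse norm theorem for unramified quadratic extensions of totally real fields -/
def HN2_st : Prop :=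
  ∀ (K E : Type) [Field K] [NumberField K] [Field E] [NumberField E] [IsTotallyReal E]
    [Algebra K E] [IsGalois K E] (s : E ≃ₐ[K] E), finrank K E = 2 → s ≠ 1 → Unr K E →
    ∀ β : K, β ≠ 0 → (∀ w : Pr E, (∀ x ∈ w.asIdeal, s • x ∈ w.asIdeal) →
      Even (ord w (algebraMap K E β))) → ∃ y : E, y * s y = algebraMap K E β

/-- the inequality of Golod and Shafarevich -/
def GS_st : Prop :=
  ∀ (G : Type) [Group G] [Finite G], IsPGroup 2 G → ∃ d r : ℕ, Nat.card (G →* ℤˣ) = 2 ^ d ∧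
    (2 ≤ d → d ^ 2 < 4 * r) ∧ ∃ (E : Type) (_ : Group E) (π : E →* G)
      (χ : (Fin r → ZMod 2) → E → ℤˣ), Function.Surjective π ∧
      (∀ i a b, π a = 1 → π b = 1 → χ i (a * b) = χ i a * χ i b) ∧
      (∀ i a g, π a = 1 → χ i (g * a * g⁻¹) = χ i a) ∧
      ∀ i j (ε : E →* ℤˣ), (∀ a, π a = 1 → ε a = χ i a * χ j a) → i = j

/-- central embedding problems are solvable -/
def EXT_st : Prop :=
  ∀ (k L : Type) [Field k] [NumberField k] [Field L] [NumberField L] [Algebra k L] (a : ℕ),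
    Tw k L a → ∀ (E : Type) [Group E] (π : E →* (L ≃ₐ[k] L)) (χ : E → ℤˣ),
    Function.Surjective π → (∀ x y, π x = 1 → π y = 1 → χ (x * y) = χ x * χ y) →
    (∀ x g, π x = 1 → χ (g * x * g⁻¹) = χ x) →
    ∃ (β : E → L) (γ : L), γ ≠ 0 ∧ (∀ x, β x ≠ 0) ∧ (∀ x y, β (x * y) = β x * π x (β y)) ∧
      (∀ x, π x = 1 → β x = ((χ x : ℤ) : L)) ∧ ∀ x, π x γ = γ * β x ^ 2

/-- Kummer characters -/
def KI_st : Prop :=
  ∀ (k L : Type) [Field k] [NumberField k] [Field L] [NumberField L] [Algebra k L] [IsGalois k L]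
    (J : Type) (s : Finset J) (c : J → k), (∀ j ∈ s, c j ≠ 0) →
    (∀ j ∈ s, ∀ j' ∈ s, IsSquare (algebraMap k L (c j * c j'))) →
    (∀ j ∈ s, ∀ j' ∈ s, IsSquare (c j * c j') → j = j') → s.card ≤ Nat.card ((L ≃ₐ[k] L) →* ℤˣ)

/-- the local invariants -/
def SEL_st : Prop :=
  ∀ (q : ℕ) [Fact q.Prime] (k L : Type) [Field k] [NumberField k] [Field L] [NumberField L]
    [Algebra k L] (a : ℕ) (ι : L →+* ℚ_[q]), q ≠ 2 → finrank ℚ k = 2 → Tw k L a → Red2 L →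
    ∃ f : L → Fin 64, ∀ γ γ' : L, Inv k γ → Evn γ → Inv k γ' → Evn γ' → f γ = f γ' →
      Good ι (γ * γ')

/-- the ideal class invariant -/
def CLS_st : Prop :=
  ∀ (k L : Type) [Field k] [NumberField k] [Field L] [NumberField L] [Algebra k L] (a : ℕ),
    Tw k L a → ∀ f : L → Fin 64, (∀ γ γ' : L, Inv k γ → Evn γ → Inv k γ' → Evn γ' →
      f γ = f γ' → IsSquare (γ * γ')) → ∀ d : ℕ, Nat.card ((L ≃ₐ[k] L) →* ℤˣ) = 2 ^ d →
    ∃ g : L → Fin (2 ^ (d + 12)), ∀ γ γ' : L, Inv k γ → Inv k γ' → g γ = g γ' →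
      ∃ c : k, c ≠ 0 ∧ IsSquare (γ * γ' * algebraMap k L c)

/-- adjoining a good square root -/
def QUAD_st : Prop :=
  ∀ (q : ℕ) [Fact q.Prime] (k L : Type) [Field k] [NumberField k] [Field L] [NumberField L]
    [Algebra k L] (a : ℕ) (ι : L →+* ℚ_[q]) (γ : L), Tw k L a → Inv k γ → Evn γ → Good ι γ →
    ¬ IsSquare γ → ∃ (L' : Type) (_ : Field L') (_ : NumberField L') (_ : Algebra k L'),
      Tw k L' (a + 1) ∧ Nonempty (L' →+* ℚ_[q])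

/-- the data at the bottom of the tower -/
structure Bas (q : ℕ) [Fact q.Prime] (k : Type) [Field k] [NumberField k] (c : Fin 1024 → ℕ) :
    Prop where
  deg : finrank ℚ k = 2
  real : IsTotallyReal k
  odd : ¬ (2 : ℤ) ∣ discr k
  md : ∀ j, c j % 4 = 1
  sq : ∀ j, IsSquare (c j : ℚ_[q])
  evn : ∀ j, Evn (c j : k)
  ind : ∀ j j', IsSquare ((c j : k) * (c j' : k)) → j = j'

/-- the bottom of the tower -/
def BASE_st : Prop :=
  ∃ C q₀ : ℕ, 3 ≤ q₀ ∧ ∀ (q : ℕ) [Fact q.Prime], q₀ ≤ q →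
    ∃ (k : Type) (_ : Field k) (_ : NumberField k) (c : Fin 1024 → ℕ), Bas q k c ∧
      (discr k).natAbs ≤ C ∧ Nonempty (k →+* ℚ_[q])

/-- the tower never stops -/
def STEP_st : Prop :=
  ∀ (q : ℕ) [Fact q.Prime] (k L : Type) [Field k] [NumberField k] [Field L] [NumberField L]
    [Algebra k L] (a : ℕ) (c : Fin 1024 → ℕ), q ≠ 2 → Bas q k c → Tw k L a →
    Nonempty (L →+* ℚ_[q]) → ∃ (L' : Type) (_ : Field L') (_ : NumberField L')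
      (_ : Algebra k L'), Tw k L' (a + 1) ∧ Nonempty (L' →+* ℚ_[q])

end Pool.Agent.MP_9b2bac_nt.B
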