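import Pool.Agent.MP_9b2bac_nt.B.BasicG

/-!
Central embedding problems with kernel of order two are solvable in unramified towers.
-/

open NumberField Module
open Pool.Agent.MP_14ad9d_nt.Full Pool.Agent.MP_14ad9d_nt.Full.FIAux

namespace Pool.Agent.MP_9b2bac_nt.B

section
variable {k L E : Type} [Field k] [Field L] [Algebra k L] [FiniteDimensional k L] [Group E]

/-- the theorem 90 of Hilbert for a subgroup -/
theorem h90_Ext (N : Subgroup (L ≃ₐ[k] L)) (F : (L ≃ₐ[k] L) → L) (h0 : ∀ g, F g ≠ 0)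
    (hF : ∀ g ∈ N, ∀ h ∈ N, F (g * h) = F g * g (F h)) :
    ∃ y : L, y ≠ 0 ∧ ∀ g ∈ N, g y = y * F g := by
  classical
  have li : LinearIndependent L fun g : N => (((g : L ≃ₐ[k] L) : L →* L) : L → L) :=
    (linearIndependent_monoidHom L L).comp (fun g : N => ((g : L ≃ₐ[k] L) : L →* L))
      fun g h e => Subtype.ext (AlgEquiv.ext fun t => DFunLike.congr_fun e t)
  have h1 : ∑ g : N, F g • (((g : L ≃ₐ[k] L) : L →* L) : L → L) ≠ 0 := fun h =>
    h0 _ (Fintype.linearIndependent_iff.1 li _ h 1)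
  obtain ⟨z, hz⟩ := Function.ne_iff.1 h1
  have hz' : ∑ g : N, F g * (g : L ≃ₐ[k] L) z ≠ 0 := by simpa using hz
  refine ⟨_, inv_ne_zero hz', fun h hh => ?_⟩
  have e : F h * h (∑ g : N, F g * (g : L ≃ₐ[k] L) z) = ∑ g : N, F g * (g : L ≃ₐ[k] L) z := by
    rw [map_sum, Finset.mul_sum]
    refine Fintype.sum_equiv (Equiv.mulLeft (⟨h, hh⟩ : N)) _ _ fun g => ?_
    simp only [Equiv.coe_mulLeft, Subgroup.coe_mul, hF h hh g g.2, AlgEquiv.mul_apply, map_mul]
    ring
  have h2 := h0 h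
  rw [map_inv₀]
  conv_rhs => rw [← e]
  rw [mul_inv, mul_comm, ← mul_assoc, mul_inv_cancel₀ h2, one_mul]

theorem h90E_Ext (π : E →* (L ≃ₐ[k] L)) (hπ : Function.Surjective π)
    (N : Subgroup (L ≃ₐ[k] L)) (f : E → L) (f0 : ∀ x, f x ≠ 0)
    (f1 : ∀ x y, π x ∈ N → π y ∈ N → f (x * y) = f x * π x (f y))
    (f2 : ∀ x, π x = 1 → f x = 1) : ∃ y : L, y ≠ 0 ∧ ∀ x, π x ∈ N → π x y = y * f x := by
  choose r hr using hπ
  have e : ∀ x, π x ∈ N → f (r (π x)) = f x := fun x hx => by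
    have h1 : π (r (π x) * x⁻¹) = 1 := by rw [map_mul, hr, map_inv, mul_inv_cancel]
    have := f1 (r (π x) * x⁻¹) x (h1 ▸ N.one_mem) hx
    rwa [inv_mul_cancel_right, f2 _ h1, h1, one_mul, AlgEquiv.one_apply] at this
  obtain ⟨y, y0, hy⟩ := h90_Ext N (fun g => f (r g)) (fun g => f0 _) fun g hg h hh => by
    have h1 : π (r g * r h) = g * h := by rw [map_mul, hr, hr]
    have h2 := f1 (r g) (r h) (by rwa [hr]) (by rwa [hr])
    rw [hr] at h2
    rw [← h2, ← e (r g * r h) (by rw [h1]; exact N.mul_mem hg hh), h1]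
  exact ⟨y, y0, fun x hx => by rw [hy _ hx, e x hx]⟩

omit [FiniteDimensional k L] in
/-- the extension of a crossed homomorphism from a subgroup of index two -/
theorem glue_Ext (π : E →* (L ≃ₐ[k] L)) (N : Subgroup (L ≃ₐ[k] L)) (hN : N.index = 2)
    (β : E → L) (b0 : ∀ x, β x ≠ 0)
    (b1 : ∀ x y, π x ∈ N → π y ∈ N → β (x * y) = β x * π x (β y)) (s : E) (hs : π s ∉ N)
    (w : L) (w0 : w ≠ 0) (k1 : ∀ n, π n ∈ N → β n * π n w = w * π s (β (s⁻¹ * n * s)))
    (k2 : β (s * s) = w * π s w) :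
    ∃ β' : E → L, (∀ x, β' x ≠ 0) ∧ (∀ x y, β' (x * y) = β' x * π x (β' y)) ∧
      ∀ x, π x ∈ N → β' x = β x := by
  classical
  have hi : ∀ a b : E, π (a * b) ∈ N ↔ (π a ∈ N ↔ π b ∈ N) := fun a b => by
    rw [map_mul, Subgroup.mul_mem_iff_of_index_two hN]
  have hs' : π s⁻¹ ∉ N := by rwa [map_inv, inv_mem_iff]
  have hc : ∀ n, π n ∈ N → π (s⁻¹ * n * s) ∈ N := fun n hn => by
    rw [hi, hi]; tauto
  let b : E → L := fun x => if π x ∈ N then β x else w * π s (β (s⁻¹ * x))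
  have e1 : ∀ x, π x ∈ N → b x = β x := fun x hx => if_pos hx
  have e2 : ∀ x, π x ∈ N → b (s * x) = w * π s (β x) := fun x hx => by
    have : π (s * x) ∉ N := by rw [hi]; tauto
    simp only [b, if_neg this, inv_mul_cancel_left]
  have e3 : ∀ x, π x ∈ N ∨ ∃ n, π n ∈ N ∧ x = s * n := fun x => by
    by_cases hx : π x ∈ N
    · exact Or.inl hx
    · exact Or.inr ⟨s⁻¹ * x, by rw [hi]; tauto, (mul_inv_cancel_left s x).symm⟩
  have key : ∀ n t, π s (π (s⁻¹ * n * s) t) = π n (π s t) := fun n t => by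
    rw [← AlgEquiv.mul_apply, ← AlgEquiv.mul_apply, ← map_mul, ← map_mul]
    congr 2
    group
  refine ⟨b, fun x => ?_, fun x y => ?_, e1⟩
  · rcases e3 x with hx | ⟨n, hn, rfl⟩
    · rw [e1 x hx]; exact b0 x
    · rw [e2 n hn]; exact mul_ne_zero w0 ((map_ne_zero _).2 (b0 n))
  · rcases e3 x with hx | ⟨n, hn, rfl⟩ <;> rcases e3 y with hy | ⟨m, hm, rfl⟩
    · rw [e1 x hx, e1 y hy, e1 _ (by rw [hi]; tauto), b1 x y hx hy]
    · rw [show x * (s * m) = s * (s⁻¹ * x * s * m) by group,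
        e2 _ (by rw [hi]; have := hc x hx; tauto), e2 m hm, e1 x hx, b1 _ _ (hc x hx) hm, map_mul,
        key, map_mul, ← mul_assoc, ← mul_assoc, k1 x hx]
    · rw [mul_assoc, e2 _ (by rw [hi]; tauto), e2 n hn, e1 y hy, b1 n y hn hy, map_mul, map_mul,
        AlgEquiv.mul_apply, mul_assoc]
    · have h1 : π (s * s) ∈ N := by rw [hi]
      have h2 : π (s⁻¹ * n * s * m) ∈ N := by rw [hi]; have := hc n hn; tauto
      rw [e2 n hn, e2 m hm, show s * n * (s * m) = s * s * (s⁻¹ * n * s * m) by group,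
        e1 _ (by rw [hi]; tauto), b1 _ _ h1 h2, b1 _ _ (hc n hn) hm, k2, map_mul π s s,
        map_mul π s n, AlgEquiv.mul_apply, AlgEquiv.mul_apply, map_mul (π s) (β _), key,
        map_mul (π n), mul_assoc w, mul_assoc w, ← map_mul (π s), ← map_mul (π s), ← mul_assoc,
        ← mul_assoc, k1 n hn]

/-- the step of the induction, given the norm theorem -/
theorem step_Ext (π : E →* (L ≃ₐ[k] L)) (hπ : Function.Surjective π) (c : E → L)
    (hc1 : ∀ (g : L ≃ₐ[k] L) x, g (c x) = c x) (hc2 : ∀ x, c x ^ 2 = 1)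
    (hc3 : ∀ x g, π x = 1 → c (g * x * g⁻¹) = c x) (N : Subgroup (L ≃ₐ[k] L)) (hN : N.index = 2)
    (β : E → L) (b0 : ∀ x, β x ≠ 0)
    (b1 : ∀ x y, π x ∈ N → π y ∈ N → β (x * y) = β x * π x (β y))
    (b2 : ∀ x, π x = 1 → β x = c x) (s : E) (hs : π s ∉ N)
    (hn : ∀ x : L, x ≠ 0 → (∀ g : L ≃ₐ[k] L, g x = x) →
      (∀ v : L → ℤ, (∀ a b, a ≠ 0 → b ≠ 0 → v (a * b) = v a + v b) →
        (∃ n ∈ N, ∀ t, v (π s t) = v (n t)) → Even (v x)) →
      ∃ z, (∀ n ∈ N, n z = z) ∧ z * π s z = x) :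
    ∃ β' : E → L, (∀ x, β' x ≠ 0) ∧ (∀ x y, β' (x * y) = β' x * π x (β' y)) ∧
      ∀ x, π x = 1 → β' x = c x := by
  have hi : ∀ a b : E, π (a * b) ∈ N ↔ (π a ∈ N ↔ π b ∈ N) := fun a b => by
    rw [map_mul, Subgroup.mul_mem_iff_of_index_two hN]
  have hs' : π s⁻¹ ∉ N := by rwa [map_inv, inv_mem_iff]
  have hc : ∀ n, π n ∈ N → π (s⁻¹ * n * s) ∈ N := fun n hn => by
    rw [hi, hi]; tauto
  have key : ∀ n t, π s (π (s⁻¹ * n * s) t) = π n (π s t) := fun n t => by
    rw [← AlgEquiv.mul_apply, ← AlgEquiv.mul_apply, ← map_mul, ← map_mul]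
    congr 2
    group
  have nz : ∀ (g : L ≃ₐ[k] L) {t : L}, t ≠ 0 → g t ≠ 0 := fun g _ h => (map_ne_zero g).2 h
  obtain ⟨y, y0, hy⟩ := h90E_Ext π hπ N (fun n => π s (β (s⁻¹ * n * s)) / β n)
    (fun n => div_ne_zero (nz _ (b0 _)) (b0 _)) (fun n m hn hm => by
      rw [show s⁻¹ * (n * m) * s = s⁻¹ * n * s * (s⁻¹ * m * s) by group, b1 _ _ (hc n hn) (hc m hm),
        map_mul, key, b1 n m hn hm, map_div₀, div_mul_div_comm]) fun n hn => by
      have h1 : π (s⁻¹ * n * s) = 1 := by simp [hn]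
      have h2 := hc3 n s⁻¹ hn
      rw [inv_inv] at h2
      rw [b2 _ h1, h2, hc1, ← b2 n hn, div_self (b0 n)]
  obtain ⟨γ, g0, hγ⟩ := h90E_Ext π hπ N (fun n => β n ^ 2) (fun n => pow_ne_zero 2 (b0 n))
    (fun n m hn hm => by rw [b1 n m hn hm, mul_pow, map_pow]) fun n hn => by rw [b2 n hn, hc2]
  have hy' : ∀ n, π n ∈ N → β n * π n y = y * π s (β (s⁻¹ * n * s)) := fun n hn => by
    have := b0 n
    rw [hy n hn]
    field_simp
  have hss : π (s * s) ∈ N := by rw [hi]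
  have sy := nz (π s) y0
  have e1 : π s (β (s * s) / (y * π s y)) = β (s * s) / (y * π s y) := by
    have h1 := hy' _ hss
    rw [show s⁻¹ * (s * s) * s = s * s by group, map_mul π, AlgEquiv.mul_apply] at h1
    have h2 := nz (π s) sy
    rw [map_div₀, map_mul, div_eq_div_iff (mul_ne_zero sy h2) (mul_ne_zero y0 sy)]
    linear_combination -(π s y) * h1
  have e2 : ∀ n, π n ∈ N → π n (β (s * s) / (y * π s y)) = β (s * s) / (y * π s y) := by
    intro n hn
    have h1 := b1 n (s * s) hn hss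
    have h2 := b1 (s * s) _ hss (hc _ (hc n hn))
    rw [show s * s * (s⁻¹ * (s⁻¹ * n * s) * s) = n * (s * s) by group, h1, map_mul π,
      AlgEquiv.mul_apply] at h2
    have h3 := congrArg (π s) (hy' _ (hc n hn))
    rw [map_mul (π s), map_mul (π s), key] at h3
    have h4 := hy' n hn
    rw [map_div₀, map_mul, div_eq_div_iff (mul_ne_zero (nz _ y0) (nz _ sy)) (mul_ne_zero y0 sy)]
    refine mul_left_cancel₀ (b0 n) ?_
    linear_combination (y * π s y) * h2 - β (s * s) * y * h3 - β (s * s) * π n (π s y) * h4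
  have x0 : β (s * s) / (y * π s y) ≠ 0 := div_ne_zero (b0 _) (mul_ne_zero y0 sy)
  obtain ⟨z, hz, hz'⟩ := hn _ x0 (fun g => by
    obtain ⟨g, rfl⟩ := hπ g
    by_cases hg : π g ∈ N
    · exact e2 g hg
    · rw [← mul_inv_cancel_left s g, map_mul π, AlgEquiv.mul_apply, e2 _ (by rw [hi]; tauto), e1])
    (by
      rintro v hv ⟨n, hn, h⟩
      obtain ⟨n, rfl⟩ := hπ n
      have v2 : ∀ t, t ≠ 0 → v (t ^ 2) = 2 * v t := fun t ht => by rw [sq, hv t t ht ht, two_mul]
      have sg := nz (π s) g0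
      -- the valuations of `γ`, `s γ`, `s s γ`
      have a1 : v (π s γ) = v γ + 2 * v (β n) := by
        rw [h, hγ n hn, hv _ _ g0 (pow_ne_zero 2 (b0 n)), v2 _ (b0 n)]
      have a2 : v (π s (π s γ)) = v (π s γ) + 2 * v (π s (β (s⁻¹ * n * s))) := by
        rw [h, ← key, hγ _ (hc n hn), map_mul, map_pow,
          hv _ _ sg (pow_ne_zero 2 (nz _ (b0 _))), v2 _ (nz _ (b0 _))]
      have a3 : v (π s (π s γ)) = v γ + 2 * v (β (s * s)) := by
        rw [← AlgEquiv.mul_apply, ← map_mul, hγ _ hss, hv _ _ g0 (pow_ne_zero 2 (b0 _)),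
          v2 _ (b0 _)]
      have a4 := congrArg v (hy' n hn)
      rw [hv _ _ (b0 n) (nz _ y0), hv _ _ y0 (nz _ (b0 _)), ← h] at a4
      have a5 := hv _ _ x0 (mul_ne_zero y0 sy)
      rw [div_mul_cancel₀ _ (mul_ne_zero y0 sy), hv _ _ y0 sy] at a5
      exact ⟨v (β n) - v y, by omega⟩)
  have z0 : z ≠ 0 := by
    rintro rfl
    exact x0 (by rw [← hz', zero_mul])
  obtain ⟨b, h1, h2, h3⟩ := glue_Ext π N hN β b0 b1 s hs (y * z) (mul_ne_zero y0 z0)
    (fun n hn => by rw [map_mul, hz _ hn, ← mul_assoc, hy' n hn]; ring) (by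
      rw [eq_div_iff (mul_ne_zero y0 sy)] at hz'
      rw [← hz', map_mul]; ring)
  exact ⟨b, h1, h2, fun x hx => by rw [h3 x (hx ▸ N.one_mem), b2 x hx]⟩

end

/-- the norm theorem inside a tower -/
theorem nrm_Ext (hU : UNR_st) (hH : HN2_st) {k F L : Type} [Field k] [NumberField k] [Field F]
    [NumberField F] [Field L] [NumberField L] [Algebra k F] [Algebra F L] [Algebra k L]
    [IsScalarTower k F L] [IsGalois k L] [IsGalois k F] [IsTotallyReal L] (hun : Unr k L)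
    (h2 : finrank k F = 2) (σ : L ≃ₐ[k] L)
    (hσ : ¬ ∀ t : F, σ (algebraMap F L t) = algebraMap F L t) (x : L) (x0 : x ≠ 0)
    (hx : ∀ g : L ≃ₐ[k] L, g x = x)
    (hev : ∀ W : Pr L, (∃ n : L ≃ₐ[F] L, ∀ t, ord W (σ t) = ord W (n t)) → Even (ord W x)) :
    ∃ z : F, algebraMap F L z * σ (algebraMap F L z) = x := by
  obtain ⟨u1, u2⟩ := (hU.1 k F L).1 hun
  have := IsTotallyReal.of_algebra F L
  have := IsGalois.tower_top_of_isGalois k F L
  obtain ⟨b, rfl⟩ := (IsGalois.mem_range_algebraMap_iff_fixed (F := k) x).2 hx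
  have hs : ∀ t, algebraMap F L (σ.restrictNormal F t) = σ (algebraMap F L t) :=
    σ.restrictNormal_commutes F
  obtain ⟨z, hz⟩ := hH k F (σ.restrictNormal F) h2 (fun e => hσ fun t => by
    rw [← hs, e, AlgEquiv.one_apply]) u1 b ((map_ne_zero _).1 x0) fun w hw => by
      obtain ⟨W, rfl⟩ := un_surj (L := L) w
      have e := ord_over (over_un (K := F) W) (algebraMap k F b)
      rw [(hU.2.1 F L u2).1 W, Nat.cast_one, one_mul, ← IsScalarTower.algebraMap_apply] at e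
      rw [← e]
      have h1 : un F W = un F (ac σ⁻¹ W) := by
        refine IsDedekindDomain.HeightOneSpectrum.ext
          ((un F W).isMaximal.eq_of_le (un F (ac σ⁻¹ W)).isPrime.ne_top fun a ha => ?_)
        have h3 : algebraMap (𝓞 F) (𝓞 L) (σ.restrictNormal F • a) ∈ W.asIdeal := hw a ha
        change (RingOfIntegers.mapRingEquiv ((σ⁻¹ : L ≃ₐ[k] L) : L ≃+* L)).symm
          (algebraMap (𝓞 F) (𝓞 L) a) ∈ W.asIdeal
        have h4 : (RingOfIntegers.mapRingEquiv ((σ⁻¹ : L ≃ₐ[k] L) : L ≃+* L)).symm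
            (algebraMap (𝓞 F) (𝓞 L) a) = algebraMap (𝓞 F) (𝓞 L) (σ.restrictNormal F • a) := by
          ext
          exact (hs a).symm
        rwa [h4]
      obtain ⟨g, hg⟩ := ac_trans h1.symm
      refine hev W ⟨g, fun t => ?_⟩
      have h5 := ord_ac g (ac σ⁻¹ W) t
      have h6 := ord_ac σ (ac σ⁻¹ W) t
      rw [ac_inv] at h6
      rw [hg] at h5
      rw [h5, h6]
  exact ⟨z, by rw [← hs, ← map_mul, hz, ← IsScalarTower.algebraMap_apply]⟩

theorem ind_Ext (hU : UNR_st) (hH : HN2_st) (L : Type) [Field L] [NumberField L] (a : ℕ) :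
    ∀ (k : Type) [Field k] [NumberField k] [Algebra k L], Tw k L a →
    ∀ (E : Type) [Group E] (π : E →* (L ≃ₐ[k] L)) (χ : E → ℤˣ),
    Function.Surjective π → (∀ x y, π x = 1 → π y = 1 → χ (x * y) = χ x * χ y) →
    (∀ x g, π x = 1 → χ (g * x * g⁻¹) = χ x) →
    ∃ β : E → L, (∀ x, β x ≠ 0) ∧ (∀ x y, β (x * y) = β x * π x (β y)) ∧
      ∀ x, π x = 1 → β x = ((χ x : ℤ) : L) := by
  induction a with
  | zero =>
    intro k _ _ _ hT E _ π χ _ h1 _
    have := hT.gal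
    have h3 : Nat.card (L ≃ₐ[k] L) = 1 := by rw [IsGalois.card_aut_eq_finrank, hT.deg, pow_zero]
    have h4 := (Nat.card_eq_one_iff_unique.1 h3).1
    refine ⟨fun x => ((χ x : ℤ) : L), fun x => Int.cast_ne_zero.2 (χ x).ne_zero, fun x y => ?_,
      fun _ _ => rfl⟩
    beta_reduce
    rw [h1 x y (Subsingleton.elim _ _) (Subsingleton.elim _ _), map_intCast]
    push_cast
    rfl
  | succ a ih =>
    intro k _ _ _ hT E _ π χ hπ h1 h2
    classical
    have := hT.gal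
    have := hT.real
    have h3 : Nat.card (L ≃ₐ[k] L) = 2 ^ (a + 1) := by rw [IsGalois.card_aut_eq_finrank, hT.deg]
    obtain ⟨N, hN⟩ := Sylow.exists_subgroup_card_pow_prime (G := L ≃ₐ[k] L) 2 (n := a)
      (by rw [h3]; exact pow_dvd_pow 2 a.le_succ)
    have hi : N.index = 2 := by
      have := N.card_mul_index
      rw [hN, h3, pow_succ] at this
      exact Nat.eq_of_mul_eq_mul_left (by positivity) this
    have := Subgroup.normal_of_index_eq_two hi
    have d1 : finrank (IntermediateField.fixedField N) L = 2 ^ a := by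
      rw [IntermediateField.finrank_fixedField_eq_card, hN]
    have d2 : finrank k (IntermediateField.fixedField N) = 2 := by
      have := finrank_mul_finrank k (IntermediateField.fixedField N) L
      rw [d1, hT.deg, pow_succ'] at this
      exact Nat.eq_of_mul_eq_mul_right (by positivity) this
    let π' : N.comap π →* (L ≃ₐ[IntermediateField.fixedField N] L) :=
      (IntermediateField.subgroupEquivAlgEquiv N).toMonoidHom.comp (π.subgroupComap N)
    have p1 : ∀ x t, π' x t = π x t := fun _ _ => rfl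
    have p2 : ∀ x, π' x = 1 ↔ π x = 1 := fun x =>
      ⟨fun h => AlgEquiv.ext fun t => by rw [← p1, h]; rfl,
        fun h => AlgEquiv.ext fun t => by rw [p1, h]; rfl⟩
    obtain ⟨β, b0, b1, b2⟩ := ih (IntermediateField.fixedField N)
      ⟨inferInstance, d1, hT.real, ((hU.1 k _ L).1 hT.unr).2⟩ (N.comap π) π' (fun x => χ x)
      ((IntermediateField.subgroupEquivAlgEquiv N).surjective.comp
        (π.subgroupComap_surjective_of_surjective N hπ))
      (fun x y hx hy => h1 x y ((p2 x).1 hx) ((p2 y).1 hy)) fun x g hx => h2 x g ((p2 x).1 hx)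
    obtain ⟨σ, hσ⟩ : ∃ σ, σ ∉ N := by
      by_contra h
      push Not at h
      rw [(Subgroup.eq_top_iff' N).2 h, Subgroup.index_top] at hi
      omega
    obtain ⟨s, rfl⟩ := hπ σ
    have fx : ∀ g : L ≃ₐ[k] L, (∀ t : IntermediateField.fixedField N, g t = t) → g ∈ N :=
      fun g hg => by
      rw [← IntermediateField.fixingSubgroup_fixedField N]
      exact hg
    refine step_Ext π hπ (fun x => ((χ x : ℤ) : L)) (fun g x => map_intCast g _) (fun x => ?_)
      (fun x g hx => by simp only [h2 x g hx]) N hi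
      (fun x => if h : π x ∈ N then β ⟨x, h⟩ else 1) (fun x => ?_) (fun x y hx hy => ?_)
      (fun x hx => ?_) s hσ fun x x0 hx hev => ?_
    · rcases Int.units_eq_one_or (χ x) with h | h <;> simp [h]
    · by_cases h : π x ∈ N
      · simp only [dif_pos h]; exact b0 _
      · simp only [dif_neg h]; exact one_ne_zero
    · have h : π (x * y) ∈ N := by rw [map_mul]; exact N.mul_mem hx hy
      simp only [dif_pos h, dif_pos hx, dif_pos hy]
      exact b1 ⟨x, hx⟩ ⟨y, hy⟩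
    · have h : π x ∈ N := hx ▸ N.one_mem
      simp only [dif_pos h]
      exact b2 ⟨x, h⟩ ((p2 _).2 hx)
    · obtain ⟨z, hz⟩ := nrm_Ext hU hH hT.unr d2 (π s) (fun h => hσ (fx _ h)) x x0 hx
        fun W ⟨n, hn⟩ => hev (ord W) (fun a b => ord_mul W)
          ⟨n.restrictScalars k, fx _ n.commutes, hn⟩
      exact ⟨z, fun n hn => z.2 ⟨n, hn⟩, hz⟩

theorem ext_st (hU : UNR_st) (hH : HN2_st) : EXT_st := by
  intro k L _ _ _ _ _ a hT E _ π χ hπ h1 h2
  obtain ⟨β, b0, b1, b2⟩ := ind_Ext hU hH L a k hT E π χ hπ h1 h2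
  obtain ⟨γ, g0, hγ⟩ := h90E_Ext π hπ ⊤ (fun n => β n ^ 2) (fun n => pow_ne_zero 2 (b0 n))
    (fun n m _ _ => by rw [b1 n m, mul_pow, map_pow]) fun n hn => by
      rw [b2 n hn]
      rcases Int.units_eq_one_or (χ n) with h | h <;> simp [h]
  exact ⟨β, γ, g0, b0, b1, b2, fun x => hγ x trivial⟩

end Pool.Agent.MP_9b2bac_nt.B
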