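import Pool.Agent.MP_9b2bac_nt.B.Defs
import Pool.Agent.MP_9b2bac_nt.Pw.Final

namespace Pool.Agent.MP_9b2bac_nt.B

theorem main_st (h : VAL_st) : MAIN_st := by
  obtain ⟨c, hc, q₀, h⟩ := h
  exact Pw.final 2 le_rfl c hc q₀ fun p hp hp0 => h p hp hp0 _ pow_padicValNat_dvd

end Pool.Agent.MP_9b2bac_nt.B
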