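import Pool.Agent.MP_9b2bac_nt.B.GsA

/-!
The inequality of Golod and Shafarevich.
-/

open Module

namespace Pool.Agent.MP_9b2bac_nt.B

/-- the sign of a residue modulo two -/
def sg (a : F2) : ℤˣ := if a = 0 then 1 else -1

/-- the inverse of the sign -/
def sg' (a : ℤˣ) : F2 := if a = 1 then 0 else 1

theorem sg_add : ∀ a b : F2, sg (a + b) = sg a * sg b := by decide

theorem sg'_mul : ∀ a b : ℤˣ, sg' (a * b) = sg' a + sg' b := by decide

theorem sg'_sg : ∀ a : F2, sg' (sg a) = a := by decide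

theorem sg_sg' : ∀ a : ℤˣ, sg (sg' a) = a := by decide

variable {G : Type} [Group G]

theorem aug_mul_Gs {a : La G →ₗ[F2] F2} {e : G → F2} (ha : ∀ g, a (og g) = e g)
    (he : ∀ g h, e (g * h) = e g + e h) (h : G) (x : La G) :
    a (og h * x) = a x + aug G x * e h := by
  have := lin_ext_Gs (f := a ∘ₗ act_Gs h) (f' := a + (aug G).toLinearMap.smulRight (e h)) fun g => by
    show a (og h * og g) = a (og g) + aug G (og g) • e h
    rw [← og_mul, ha, ha, he, aug_og, one_smul, add_comm]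
  exact LinearMap.congr_fun this x

theorem card_hom_Gs : Nat.card (G →* ℤˣ) = Nat.card (IF G (aI G)) := by
  let f : IF G (aI G) → (G →* ℤˣ) := fun φ => MonoidHom.mk'
    (fun g => sg (φ.1 ⟨og g - 1, og_sub_mem g⟩)) fun g h => by
      rw [← sg_add, ← φ.2 g ⟨og h - 1, og_sub_mem h⟩, ← map_add]
      refine congrArg (fun z => sg (φ.1 z)) (Subtype.ext ?_)
      show og (g * h) - 1 = og g - 1 + og g * (og h - 1)
      rw [og_mul, mul_sub, mul_one]
      abel
  refine (Nat.card_eq_of_bijective f ⟨fun φ ψ e => ?_, fun ε => ?_⟩).symm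
  · obtain ⟨t, ht⟩ := lin_ex_Gs (V := aI G) fun g : G => ⟨og g - 1, og_sub_mem g⟩
    have h1 : φ.1 ∘ₗ t = ψ.1 ∘ₗ t := lin_ext_Gs fun g => by
      have := congrArg sg' (DFunLike.congr_fun e g)
      rw [LinearMap.comp_apply, LinearMap.comp_apply, ht]
      exact (sg'_sg _).symm.trans (this.trans (sg'_sg _))
    have h2 : ((aI G).subtype.restrictScalars F2) ∘ₗ t =
        LinearMap.id - (aug G).toLinearMap.smulRight (1 : La G) := lin_ext_Gs fun g => by
      show ((t (og g) : aI G) : La G) = og g - aug G (og g) • (1 : La G)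
      rw [ht, aug_og, one_smul]
    refine Subtype.ext (LinearMap.ext fun x => ?_)
    have h3 : t x.1 = x := Subtype.ext (by
      have h4 : ((t x.1 : aI G) : La G) = x.1 - aug G x.1 • (1 : La G) :=
        LinearMap.congr_fun h2 x.1
      rw [h4, mem_aI.1 x.2, zero_smul, sub_zero])
    rw [← h3]
    exact LinearMap.congr_fun h1 x.1
  · obtain ⟨a, ha⟩ := lin_ex_Gs fun g : G => sg' (ε g)
    refine ⟨⟨a ∘ₗ (aI G).subtype.restrictScalars F2, fun g x => ?_⟩, MonoidHom.ext fun g => ?_⟩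
    · show a (og g * x.1) = a x.1
      rw [aug_mul_Gs ha fun g h => by rw [map_mul, sg'_mul], mem_aI.1 x.2, zero_mul, add_zero]
    · show sg (a (og g - 1)) = ε g
      rw [map_sub, ← og_one, ha, ha, map_one, show sg' 1 = 0 from rfl, sub_zero, sg_sg']

section
variable {P : Type} [AddCommGroup P] [Module (La G) P]

/-- the universal central extension, before the quotient -/
@[ext] structure Ex (p : P →ₗ[La G] La G) : Type where
  m : P
  g : G
  h : p m = og g - 1

noncomputable instance grpEx (p : P →ₗ[La G] La G) : Group (Ex p) :=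
  let _ : Mul (Ex p) := ⟨fun x y => ⟨x.m + og x.g • y.m, x.g * y.g, by
    rw [map_add, map_smul, x.h, y.h, og_mul, smul_eq_mul, mul_sub, mul_one]
    abel⟩⟩
  let _ : One (Ex p) := ⟨⟨0, 1, by rw [map_zero, og_one, sub_self]⟩⟩
  let _ : _root_.Inv (Ex p) := ⟨fun x => ⟨-(og x.g⁻¹ • x.m), x.g⁻¹, by
    rw [map_neg, map_smul, x.h, smul_eq_mul, mul_sub, ← og_mul, inv_mul_cancel, og_one, mul_one,
      neg_sub]⟩⟩
  Group.ofLeftAxioms
    (fun x y z => Ex.ext (by
      show x.m + og x.g • y.m + og (x.g * y.g) • z.m = x.m + og x.g • (y.m + og y.g • z.m)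
      rw [og_mul, mul_smul, smul_add, add_assoc]) (mul_assoc x.g y.g z.g))
    (fun x => Ex.ext (by
      show 0 + og (1 : G) • x.m = x.m
      rw [og_one, one_smul, zero_add]) (one_mul x.g))
    fun x => Ex.ext (neg_add_cancel (og x.g⁻¹ • x.m)) (inv_mul_cancel x.g)

variable {p : P →ₗ[La G] La G}

theorem Ex.mul_m (x y : Ex p) : (x * y).m = x.m + og x.g • y.m := rfl

theorem Ex.mul_g (x y : Ex p) : (x * y).g = x.g * y.g := rfl

theorem Ex.inv_m (x : Ex p) : x⁻¹.m = -(og x.g⁻¹ • x.m) := rfl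

theorem Ex.ker {x : Ex p} (h : x.g = 1) : p x.m = 0 := by rw [x.h, h, og_one, sub_self]

variable [Module F2 P] [IsScalarTower F2 (La G) P]

/-- a character that extends to the whole group is trivial -/
theorem triv_Gs (hp : LinearMap.range p = aI G) (hk : LinearMap.ker p ≤ aI G • ⊤)
    {φ : P →ₗ[F2] F2} (hφ : ∀ (g : G) m, p m = 0 → φ (og g • m) = φ m) (ε : Ex p →* ℤˣ)
    (hε : ∀ x : Ex p, x.g = 1 → ε x = sg (φ x.m)) {m : P} (hm : p m = 0) : φ m = 0 := by
  choose mm hmm using fun g : G => (show og g - 1 ∈ LinearMap.range p from hp ▸ og_sub_mem g)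
  let x : G → Ex p := fun g => ⟨mm g, g, hmm g⟩
  obtain ⟨t, ht⟩ := lin_ex_Gs mm
  obtain ⟨a, ha⟩ := lin_ex_Gs fun g => sg' (ε (x g))
  let p' : P →ₗ[F2] La G := p.restrictScalars F2
  have h1 : p' ∘ₗ t = LinearMap.id - (aug G).toLinearMap.smulRight (1 : La G) :=
    lin_ext_Gs fun g => by
      show p (t (og g)) = og g - aug G (og g) • (1 : La G)
      rw [ht, aug_og, one_smul, hmm]
  have h0 : ∀ y, aug G (p y) = 0 := fun y => mem_aI.1 (hp ▸ LinearMap.mem_range_self p y)
  have h2 : ∀ y, p (y - t (p y)) = 0 := fun y => by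
    have h3 : p (t (p y)) = p y - aug G (p y) • (1 : La G) := LinearMap.congr_fun h1 (p y)
    rw [map_sub, h3, h0, zero_smul, sub_zero, sub_self]
  have h3 : ∀ (h : G) (l : La G), φ (og h • t l) - φ (t (og h * l)) + aug G l * φ (mm h) =
      aug G l * sg' (ε (x h)) + a l - a (og h * l) := fun h l => by
    have := lin_ext_Gs
      (f := φ ∘ₗ act_Gs h ∘ₗ t - φ ∘ₗ t ∘ₗ act_Gs h + (aug G).toLinearMap.smulRight (φ (mm h)))
      (f' := (aug G).toLinearMap.smulRight (sg' (ε (x h))) + a - a ∘ₗ act_Gs h) fun g => by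
        show φ (og h • t (og g)) - φ (t (og h * og g)) + aug G (og g) • φ (mm h) =
          aug G (og g) • sg' (ε (x h)) + a (og g) - a (og h * og g)
        let ρ : Ex p := ⟨mm h + og h • mm g - mm (h * g), 1, by
          have e0 : p (mm h + og h • mm g) = og (h * g) - 1 := (x h * x g).h
          rw [map_sub, e0, hmm, og_one, sub_self, sub_self]⟩
        have e1 : x h * x g = ρ * x (h * g) := Ex.ext (by
          show mm h + og h • mm g = mm h + og h • mm g - mm (h * g) + og (1 : G) • mm (h * g)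
          rw [og_one, one_smul, sub_add_cancel]) (one_mul _).symm
        have e2 := congrArg (fun z => sg' (ε z)) e1
        simp only [map_mul, sg'_mul] at e2
        rw [hε ρ rfl, sg'_sg] at e2
        have e3 : φ ρ.m = φ (mm h) + φ (og h • mm g) - φ (mm (h * g)) := by
          rw [← map_add, ← map_sub]
        rw [← og_mul, ht, ht, ha, ha, aug_og, one_smul, one_smul]
        linear_combination -e2 - e3
    exact LinearMap.congr_fun this l
  have h4 := inv_kill_Gs (G := G) (φ := φ - φ ∘ₗ t ∘ₗ p' + a ∘ₗ p') (fun h y => by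
    show φ (og h • y) - φ (t (p (og h • y))) + a (p (og h • y)) = φ y - φ (t (p y)) + a (p y)
    have e1 := h3 h (p y)
    have e2 := hφ h _ (h2 y)
    rw [smul_sub, map_sub, map_sub] at e2
    rw [h0] at e1
    rw [p.map_smul, smul_eq_mul]
    linear_combination e1 + e2) (hk hm)
  have h5 : φ m - φ (t (p m)) + a (p m) = 0 := h4
  rwa [hm, map_zero, map_zero, map_zero, sub_zero, add_zero] at h5

end

theorem gs_st : GS_st := by
  intro G _ _ hG
  obtain ⟨d, p₀, p1, p2, p3⟩ := gen_Gs (M := aI G) hG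
  let p : (Fin d → La G) →ₗ[La G] La G := (aI G).subtype ∘ₗ p₀
  have hp : LinearMap.range p = aI G := by
    rw [LinearMap.range_comp, LinearMap.range_eq_top.2 p1, Submodule.map_top,
      Submodule.range_subtype]
  have hk : LinearMap.ker p ≤ aI G • ⊤ := by
    rwa [LinearMap.ker_comp, Submodule.ker_subtype, Submodule.comap_bot]
  obtain ⟨r, u₀, u1, -, u3⟩ := gen_Gs (M := LinearMap.ker p) hG
  have hu : LinearMap.range ((LinearMap.ker p).subtype ∘ₗ u₀) = LinearMap.ker p := by
    rw [LinearMap.range_comp, LinearMap.range_eq_top.2 u1, Submodule.map_top,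
      Submodule.range_subtype]
  have : Finite (IF G (LinearMap.ker p)) := Nat.finite_of_card_ne_zero (by rw [u3]; positivity)
  obtain ⟨e⟩ : Nonempty ((Fin r → ZMod 2) ≃ IF G (LinearMap.ker p)) :=
    Finite.card_eq.1 (by rw [u3, Nat.card_fun, Nat.card_zmod, Nat.card_fin])
  choose Φ hΦ using fun i => LinearMap.exists_extend
    (p := (LinearMap.ker p).restrictScalars F2) (e i).1
  have h1 : ∀ i m (h : p m = 0), Φ i m = (e i).1 ⟨m, h⟩ := fun i m h =>
    LinearMap.congr_fun (hΦ i) ⟨m, h⟩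
  have h2 : ∀ i (g : G) m, p m = 0 → Φ i (og g • m) = Φ i m := fun i g m h => by
    rw [h1 i m h, ← (e i).2 g ⟨m, h⟩]
    exact h1 i _ (og g • (⟨m, h⟩ : LinearMap.ker p)).2
  refine ⟨d, r, card_hom_Gs.trans p3, fun hd => num_Gs hd (ineq_Gs p _ hp hu hk), Ex p,
    inferInstance, MonoidHom.mk' Ex.g Ex.mul_g, fun i x => sg (Φ i x.m), fun g => ?_,
    fun i a b ha _ => ?_, fun i a g ha => ?_, fun i j ε hε => ?_⟩
  · obtain ⟨m, hm⟩ : og g - 1 ∈ LinearMap.range p := hp ▸ og_sub_mem g
    exact ⟨⟨m, g, hm⟩, rfl⟩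
  · have ha' : a.g = 1 := ha
    beta_reduce
    rw [Ex.mul_m, ha', og_one, one_smul, map_add, sg_add]
  · have ha' : a.g = 1 := ha
    beta_reduce
    rw [Ex.mul_m, Ex.mul_m, Ex.mul_g, Ex.inv_m, ha', mul_one, smul_neg, ← mul_smul, ← og_mul,
      mul_inv_cancel, og_one, one_smul, add_neg_cancel_comm, h2 i _ _ (Ex.ker ha')]
  · refine e.injective (Subtype.ext (LinearMap.ext fun m => ?_))
    have h3 := triv_Gs hp hk (φ := Φ i + Φ j)
      (fun g m h => by rw [LinearMap.add_apply, LinearMap.add_apply, h2 i g m h, h2 j g m h]) ε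
      (fun x hx => by rw [hε x hx, LinearMap.add_apply, sg_add]) m.2
    rw [LinearMap.add_apply, h1 i _ m.2, h1 j _ m.2] at h3
    exact CharTwo.add_eq_zero.1 h3

end Pool.Agent.MP_9b2bac_nt.B
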