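import Pool.Agent.MP_9b2bac_nt.B.Defs

/-!
Modules over the group algebra of a finite group of order a power of two.
-/

open Module

namespace Pool.Agent.MP_9b2bac_nt.B

/-- the field with two elements -/
abbrev F2 : Type := ZMod 2

/-- the group algebra -/
abbrev La (G : Type) : Type := MonoidAlgebra F2 G

section
variable {G : Type} [Group G]

/-- group elements in the group algebra -/
noncomputable def og (g : G) : La G := MonoidAlgebra.of F2 G g

theorem og_mul (g h : G) : og (g * h) = og g * og h := map_mul _ g h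

theorem og_one : og (1 : G) = 1 := map_one _

variable (G) in
/-- the augmentation -/
noncomputable def aug : La G →ₐ[F2] F2 := MonoidAlgebra.lift F2 F2 G 1

theorem aug_og (g : G) : aug G (og g) = 1 := MonoidAlgebra.lift_of _ g

variable (G) in
/-- the augmentation ideal -/
noncomputable def aI : Ideal (La G) := RingHom.ker (aug G)

theorem mem_aI {x : La G} : x ∈ aI G ↔ aug G x = 0 := RingHom.mem_ker

theorem og_sub_mem (g : G) : og g - 1 ∈ aI G := by rw [mem_aI, map_sub, aug_og, map_one, sub_self]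

theorem aI_top : aI G • (⊤ : Submodule (La G) (La G)) = aI G := by
  refine le_antisymm (Submodule.smul_le.2 fun r hr n _ => ?_) fun x hx => ?_
  · rw [smul_eq_mul, mem_aI, map_mul, mem_aI.1 hr, zero_mul]
  · simpa using Submodule.smul_mem_smul hx (Submodule.mem_top (x := (1 : La G)))

theorem lin_ext_Gs {V : Type} [AddCommGroup V] [Module F2 V] {f f' : La G →ₗ[F2] V}
    (h : ∀ g, f (og g) = f' (og g)) : f = f' := (MonoidAlgebra.basis G F2).ext h

theorem lin_ex_Gs {V : Type} [AddCommGroup V] [Module F2 V] (t : G → V) :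
    ∃ f : La G →ₗ[F2] V, ∀ g, f (og g) = t g :=
  ⟨(MonoidAlgebra.basis G F2).constr F2 t, fun g => (MonoidAlgebra.basis G F2).constr_basis F2 t g⟩

variable {M : Type} [AddCommGroup M] [Module F2 M] [Module (La G) M] [IsScalarTower F2 (La G) M]

/-- an invariant functional is compatible with the augmentation -/
theorem inv_smul_Gs {φ : M →ₗ[F2] F2} {m : M} (h : ∀ g : G, φ (og g • m) = φ m) (x : La G) :
    φ (x • m) = aug G x * φ m := by
  induction x using MonoidAlgebra.induction_on with
  | of g =>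
    show φ (og g • m) = aug G (og g) * φ m
    rw [h, aug_og, one_mul]
  | add x y hx hy => rw [add_smul, map_add, hx, hy, map_add, add_mul]
  | smul r x hx => rw [smul_assoc, map_smul, hx, map_smul, smul_eq_mul, smul_eq_mul, mul_assoc]

theorem inv_kill_Gs {φ : M →ₗ[F2] F2} (h : ∀ (g : G) m, φ (og g • m) = φ m) {m : M}
    (hm : m ∈ aI G • (⊤ : Submodule (La G) M)) : φ m = 0 :=
  Submodule.smul_induction_on hm
    (fun r hr n _ => by rw [inv_smul_Gs (h · n), mem_aI.1 hr, zero_mul])
    fun x y hx hy => by rw [map_add, hx, hy, add_zero]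

omit [IsScalarTower F2 (La G) M] in
theorem kill_inv_Gs {φ : M →ₗ[F2] F2} (h : ∀ m ∈ aI G • (⊤ : Submodule (La G) M), φ m = 0)
    (g : G) (m : M) : φ (og g • m) = φ m := by
  have := h _ (Submodule.smul_mem_smul (og_sub_mem g) (Submodule.mem_top (x := m)))
  rwa [sub_smul, one_smul, map_sub, sub_eq_zero] at this

theorem og_smul_Gs (g : G) (c : F2) (m : M) : og g • c • m = c • og g • m := by
  rw [← algebraMap_smul (La G) c m, ← mul_smul, ← Algebra.commutes, mul_smul, algebraMap_smul]

/-- the action of a group element as a linear map -/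
noncomputable def act_Gs (g : G) : M →ₗ[F2] M where
  toFun m := og g • m
  map_add' := smul_add _
  map_smul' := og_smul_Gs g

/-- the lemma of Nakayama -/
theorem nak_Gs [Finite M] (hG : IsPGroup 2 G) (h : aI G • (⊤ : Submodule (La G) M) = ⊤) (m : M) :
    m = 0 := by
  by_contra hm
  obtain ⟨φ, hφ⟩ : ∃ φ : M →ₗ[F2] F2, ¬ φ m = 0 :=
    not_forall.1 (mt (Module.forall_dual_apply_eq_zero_iff F2 m).1 hm)
  let _ : MulAction G (M →ₗ[F2] F2) :=
    { smul := fun g ψ => ψ ∘ₗ act_Gs g⁻¹
      one_smul := fun ψ => LinearMap.ext fun x => by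
        show ψ (og (1 : G)⁻¹ • x) = ψ x
        rw [inv_one, og_one, one_smul]
      mul_smul := fun g g' ψ => LinearMap.ext fun x => by
        show ψ (og (g * g')⁻¹ • x) = ψ (og g'⁻¹ • og g⁻¹ • x)
        rw [mul_inv_rev, og_mul, mul_smul] }
  have : Finite (M →ₗ[F2] F2) := Finite.of_injective _ DFunLike.coe_injective
  have h0 : φ ≠ 0 := fun e => hφ (by rw [e]; rfl)
  have h2 : 2 ∣ Nat.card (M →ₗ[F2] F2) := by
    have h3 : addOrderOf φ = 2 := addOrderOf_eq_prime (p := 2)
      (LinearMap.ext fun x => by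
        rw [two_nsmul, LinearMap.add_apply]
        exact CharTwo.add_self_eq_zero _) h0
    exact h3.symm.dvd.trans (addOrderOf_dvd_natCard φ)
  obtain ⟨ψ, hψ, hne⟩ := hG.exists_fixed_point_of_prime_dvd_card_of_fixed_point (M →ₗ[F2] F2) h2
    (a := 0) fun g => LinearMap.ext fun x => rfl
  refine hne (LinearMap.ext fun x => (inv_kill_Gs (G := G) (fun g y => ?_) (h.ge trivial)).symm)
  have := LinearMap.congr_fun (hψ g⁻¹) y
  rw [← this]
  show _ = ψ (og g⁻¹⁻¹ • y)
  rw [inv_inv]

variable (G M) in
/-- invariant functionals -/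
abbrev IF : Type := {φ : M →ₗ[F2] F2 // ∀ (g : G) m, φ (og g • m) = φ m}

/-- minimal systems of generators -/
theorem gen_Gs [Finite M] (hG : IsPGroup 2 G) : ∃ (r : ℕ) (u : (Fin r → La G) →ₗ[La G] M),
    Function.Surjective u ∧ LinearMap.ker u ≤ aI G • ⊤ ∧ Nat.card (IF G M) = 2 ^ r := by
  let W : Submodule F2 M := (aI G • (⊤ : Submodule (La G) M)).restrictScalars F2
  let b := Module.finBasis F2 (M ⧸ W)
  choose x hx using fun l => W.mkQ_surjective (b l)
  let u : (Fin (finrank F2 (M ⧸ W)) → La G) →ₗ[La G] M := Fintype.linearCombination (La G) x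
  have hu : ∀ a, W.mkQ (u a) = ∑ l, aug G (a l) • b l := fun a => by
    have e1 : u a = ∑ l, a l • x l := Fintype.linearCombination_apply (La G) x a
    rw [e1, map_sum]
    refine Finset.sum_congr rfl fun l _ => ?_
    have e2 : a l - algebraMap F2 (La G) (aug G (a l)) ∈ aI G := by
      rw [mem_aI, map_sub, AlgHom.commutes]
      exact sub_self _
    have e3 : a l • x l - aug G (a l) • x l ∈ W := by
      have := Submodule.smul_mem_smul e2 (Submodule.mem_top (x := x l))
      rwa [sub_smul, algebraMap_smul] at this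
    rw [← hx l, ← map_smul]
    exact (Submodule.Quotient.eq W).2 e3
  refine ⟨_, u, ?_, fun a ha => ?_, ?_⟩
  · rw [← LinearMap.range_eq_top, ← Submodule.Quotient.subsingleton_iff]
    have : Finite (M ⧸ LinearMap.range u) := Finite.of_surjective _ (Submodule.mkQ_surjective _)
    refine subsingleton_of_forall_eq 0 (nak_Gs hG (eq_top_iff.2 fun y _ => ?_))
    obtain ⟨y, rfl⟩ := Submodule.mkQ_surjective _ y
    have h1 : y - u (fun l => algebraMap F2 (La G) (b.repr (W.mkQ y) l)) ∈ W := by
      rw [← Submodule.Quotient.mk_eq_zero, ← Submodule.mkQ_apply, map_sub, hu]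
      simp only [AlgHom.commutes, Algebra.algebraMap_self, RingHom.id_apply, b.sum_repr, sub_self]
    have h2 := Submodule.mem_map_of_mem (f := (LinearMap.range u).mkQ) h1
    rw [Submodule.map_smul'', map_sub, Submodule.mkQ_apply _ (u _),
      (Submodule.Quotient.mk_eq_zero _).2 (LinearMap.mem_range_self u _), sub_zero] at h2
    exact Submodule.smul_mono le_rfl le_top h2
  · have h1 := hu a
    rw [LinearMap.mem_ker.1 ha, map_zero] at h1
    have h2 := Fintype.linearIndependent_iff.1 b.linearIndependent _ h1.symm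
    rw [← Finset.univ_sum_single a]
    refine sum_mem fun l _ => ?_
    have h3 : Pi.single l (a l) = a l • (Pi.single l 1 : _ → La G) := by
      rw [← Pi.single_smul, smul_eq_mul, mul_one]
    rw [h3]
    exact Submodule.smul_mem_smul (mem_aI.2 (h2 l)) trivial
  · have e : IF G M ≃ W.dualAnnihilator := Equiv.subtypeEquivRight fun φ => by
      rw [Submodule.mem_dualAnnihilator]
      exact ⟨fun h m hm => inv_kill_Gs h hm, fun h => kill_inv_Gs h⟩
    rw [Nat.card_congr (e.trans W.dualQuotEquivDualAnnihilator.symm.toEquiv),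
      Module.natCard_eq_pow_finrank (K := F2), Nat.card_zmod, Subspace.dual_finrank_eq]

end

section fil
variable {G : Type} [Group G] {M M' : Type} [AddCommGroup M] [Module (La G) M] [AddCommGroup M']
  [Module (La G) M']

/-- the filtration by powers of the augmentation ideal -/
noncomputable def fil (n : ℕ) (N : Submodule (La G) M) : Submodule (La G) M :=
  (fun N => aI G • N)^[n] N

theorem fil_succ (n : ℕ) (N : Submodule (La G) M) : fil (n + 1) N = fil n (aI G • N) := rfl

theorem fil_succ' (n : ℕ) (N : Submodule (La G) M) : fil (n + 1) N = aI G • fil n N :=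
  Function.iterate_succ_apply' _ n N

theorem fil_map (f : M →ₗ[La G] M') (n : ℕ) (N : Submodule (La G) M) :
    (fil n N).map f = fil n (N.map f) := by
  induction n with
  | zero => rfl
  | succ n ih => rw [fil_succ', fil_succ', Submodule.map_smul'', ih]

theorem fil_mono (n : ℕ) {N N' : Submodule (La G) M} (h : N ≤ N') : fil n N ≤ fil n N' := by
  induction n with
  | zero => exact h
  | succ n ih => rw [fil_succ', fil_succ']; exact Submodule.smul_mono le_rfl ih

theorem fil_mem (f : M →ₗ[La G] M') (n : ℕ) {x : M} (h : x ∈ fil n (⊤ : Submodule (La G) M)) :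
    f x ∈ fil n (⊤ : Submodule (La G) M') :=
  fil_mono n le_top (fil_map f n ⊤ ▸ Submodule.mem_map_of_mem h)

variable (G) in
/-- the index of the filtration of the group algebra -/
noncomputable def cN (n : ℕ) : ℕ := (fil n (⊤ : Submodule (La G) (La G))).toAddSubgroup.index

theorem fil_pi (n d : ℕ) :
    (fil n (⊤ : Submodule (La G) (Fin d → La G))).toAddSubgroup.index = cN G n ^ d := by
  have h : (fil n (⊤ : Submodule (La G) (Fin d → La G))).toAddSubgroup =
      AddSubgroup.pi Set.univ fun _ => (fil n (⊤ : Submodule (La G) (La G))).toAddSubgroup := by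
    ext x
    refine ⟨fun h l _ => fil_mem (LinearMap.proj l) n h, fun h => ?_⟩
    rw [← Finset.univ_sum_single x]
    exact sum_mem fun l _ => fil_mem (LinearMap.single (La G) (fun _ => La G) l) n (h l trivial)
  rw [h, AddSubgroup.index_pi, Finset.prod_const, Finset.card_univ, Fintype.card_fin, cN]

instance fin_La [Finite G] : Finite (La G) :=
  Finite.of_equiv (G → F2)
    ((MonoidAlgebra.coeffLinearEquiv F2).toEquiv.trans Finsupp.equivFunOnFinite).symm

theorem cN_zero : cN G 0 = 1 := AddSubgroup.index_top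

theorem idx_aI : (aI G).toAddSubgroup.index = 2 := by
  have h : (aI G).toAddSubgroup = (aug G).toLinearMap.toAddMonoidHom.ker := rfl
  have h2 : (aug G).toLinearMap.toAddMonoidHom.range = ⊤ :=
    AddMonoidHom.range_eq_top.2 fun c => ⟨algebraMap F2 _ c, (aug G).commutes c⟩
  rw [h, AddSubgroup.index_ker, h2, AddSubgroup.card_top, Nat.card_zmod]

theorem cN_one : cN G 1 = 2 := by
  rw [cN, fil_succ, aI_top]
  exact idx_aI

/-- the basic inequality -/
theorem ineq_Gs [Finite G] {d r : ℕ} (p : (Fin d → La G) →ₗ[La G] La G)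
    (u : (Fin r → La G) →ₗ[La G] (Fin d → La G)) (hp : LinearMap.range p = aI G)
    (hu : LinearMap.range u = LinearMap.ker p) (hk : LinearMap.ker p ≤ aI G • ⊤) (n : ℕ) :
    cN G (n + 1) ^ d * 2 ≤ cN G n ^ r * cN G (n + 2) := by
  let A := fil (n + 1) (⊤ : Submodule (La G) (Fin d → La G))
  let B := fil (n + 2) (⊤ : Submodule (La G) (La G))
  have h1 : A.map p = B := by
    rw [fil_map, Submodule.map_top, hp, show B = fil (n + 1) (aI G • ⊤) from rfl, aI_top]
  have h2 : B ≤ aI G := h1 ▸ hp ▸ LinearMap.map_le_range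
  have h3 : B.toAddSubgroup.comap p.toAddMonoidHom =
      A.toAddSubgroup ⊔ (LinearMap.ker p).toAddSubgroup := by
    rw [← Submodule.sup_toAddSubgroup, ← Submodule.comap_map_eq, h1]
    rfl
  have h4 := AddSubgroup.relIndex_mul_index (H := A.toAddSubgroup)
    (K := A.toAddSubgroup ⊔ (LinearMap.ker p).toAddSubgroup) le_sup_left
  have h5 : p.toAddMonoidHom.range = (aI G).toAddSubgroup := by rw [← hp]; rfl
  have h6 : u.toAddMonoidHom.range = (LinearMap.ker p).toAddSubgroup := by rw [← hu]; rfl
  rw [AddSubgroup.relIndex_sup_left, ← h3, AddSubgroup.index_comap, h5, ← h6,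
    ← AddSubgroup.index_comap, fil_pi] at h4
  have h7 := AddSubgroup.relIndex_mul_index (H := B.toAddSubgroup) (K := (aI G).toAddSubgroup) h2
  rw [idx_aI] at h7
  have h8 : (A.toAddSubgroup.comap u.toAddMonoidHom).index ≤ cN G n ^ r := by
    rw [← fil_pi]
    refine Nat.le_of_dvd (Nat.pos_of_ne_zero AddSubgroup.index_ne_zero_of_finite)
      (AddSubgroup.index_dvd_of_le fun x hx => ?_)
    have h9 := Submodule.mem_map_of_mem (f := u) hx
    rw [fil_map, Submodule.map_top, hu] at h9
    exact fil_mono n hk h9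
  rw [← h4, mul_assoc, h7]
  exact Nat.mul_le_mul_right _ h8

theorem num_Gs [Finite G] {d r : ℕ} (hd : 2 ≤ d)
    (h : ∀ n, cN G (n + 1) ^ d * 2 ≤ cN G n ^ r * cN G (n + 2)) : d ^ 2 < 4 * r := by
  by_contra hc
  have hc' : 4 * (r : ℝ) ≤ d ^ 2 := by exact_mod_cast not_lt.1 hc
  have hd' : (2 : ℝ) ≤ d := by exact_mod_cast hd
  have c0 : ∀ n, 0 < cN G n := fun n => Nat.pos_of_ne_zero AddSubgroup.index_ne_zero_of_finite
  let s : ℕ → ℝ := fun n => Real.log (cN G n)
  have s0 : ∀ n, 0 ≤ s n := fun n => Real.log_natCast_nonneg _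
  have l2 : 0 < Real.log 2 := Real.log_pos one_lt_two
  have h1 : ∀ n, d * s (n + 1) + Real.log 2 ≤ r * s n + s (n + 2) := fun n => by
    have a1 : (0 : ℝ) < cN G n := by exact_mod_cast c0 n
    have a2 : (0 : ℝ) < cN G (n + 1) := by exact_mod_cast c0 _
    have a3 : (0 : ℝ) < cN G (n + 2) := by exact_mod_cast c0 _
    have a4 : (cN G (n + 1) : ℝ) ^ d * 2 ≤ (cN G n : ℝ) ^ r * cN G (n + 2) := by exact_mod_cast h n
    have a5 := Real.log_le_log (by positivity) a4
    rwa [Real.log_mul (by positivity) two_ne_zero, Real.log_mul (by positivity) a3.ne',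
      Real.log_pow, Real.log_pow] at a5
  have h2 : ∀ n : ℕ, (n + 1) * Real.log 2 ≤ s (n + 1) - d / 2 * s n := fun n => by
    induction n with
    | zero => simp [s, cN_zero, cN_one]
    | succ n ih =>
      have a1 := h1 n
      have a2 : r * s n ≤ d ^ 2 / 4 * s n := mul_le_mul_of_nonneg_right (by linarith) (s0 n)
      have a3 : 0 ≤ (d / 2 - 1) * (s (n + 1) - d / 2 * s n) :=
        mul_nonneg (by linarith) (le_trans (by positivity) ih)
      push_cast
      nlinarith
  obtain ⟨n, hn⟩ := exists_nat_gt (Real.log (Nat.card (La G)) / Real.log 2)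
  rw [div_lt_iff₀ l2] at hn
  have h3 : s (n + 1) ≤ Real.log (Nat.card (La G)) :=
    Real.log_le_log (by exact_mod_cast c0 _) (by
      exact_mod_cast Nat.le_of_dvd Nat.card_pos (AddSubgroup.index_dvd_card _))
  have h4 := h2 n
  have h5 : 0 ≤ d / 2 * s n := mul_nonneg (by positivity) (s0 n)
  nlinarith

end fil

end Pool.Agent.MP_9b2bac_nt.B
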