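import Pool.Agent.MP_9b2bac_nt.B.Hn2A
import Pool.Agent.MP_14ad9d_nt.Full.FI
import Pool.Agent.MP_14ad9d_nt.Full.R02

/-!
The Hasse norm theorem for unramified quadratic extensions of totally real fields.
-/

open NumberField Module
open Pool.Agent.MP_14ad9d_nt.Full Pool.Agent.MP_14ad9d_nt.Full.FIAux
open Pool.Agent.MP_14ad9d_nt.Full.R0Aux (push_down)
open Pool.Agent.MP_e23604_nt.L (rk_Hnt abs_Hnt)

namespace Pool.Agent.MP_9b2bac_nt.B

/-- a good set of primes -/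
structure TD_Hn2 (K : Type) [Field K] {E : Type} [Field E] [NumberField E] [Algebra K E]
    (T : Set (Pr E)) : Prop where
  fin : T.Finite
  stab : ∀ (g : E ≃ₐ[K] E), ∀ w ∈ T, ac g w ∈ T
  free : ∀ (g : E ≃ₐ[K] E), ∀ w ∈ T, ac g w = w → g = 1
  gen : ∀ χ : Pr E → ZMod 2, Cls2 χ → (∀ w ∈ T, χ w = 0) → ∀ w, χ w = 0

section
variable {K E : Type} [Field K] [NumberField K] [Field E] [NumberField E] [Algebra K E]

theorem td_Hn2 (h1 : AN1_st) : ∃ T : Set (Pr E), TD_Hn2 K T := by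
  obtain ⟨B, hB⟩ := free_of_deg1 (E := K) (E' := E)
  have key : ∀ χ : Pr E → ZMod 2, Cls2 χ → (∃ v, χ v ≠ 0) → ∃ w : Pr E, χ w ≠ 0 ∧
      ∀ g : E ≃ₐ[K] E, ac g w = w → g = 1 := fun χ hχ hv => by
    obtain ⟨w, hw, hw'⟩ := ((h1 E χ hχ hv).sdiff B.finite_toSet).nonempty
    exact ⟨w, hw.2, hB w hw' hw.1⟩
  let S : Set (Pr E → ZMod 2) := {χ | Cls2 χ ∧ ∃ v, χ v ≠ 0}
  have hS : Finite S := chf_Hn2.subset fun χ h => h.1
  choose w hw0 hwf using fun χ : S => key χ χ.2.1 χ.2.2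
  have : Module.Finite K E := Module.Finite.of_restrictScalars_finite ℚ K E
  refine ⟨Set.range fun x : (E ≃ₐ[K] E) × S => ac x.1 (w x.2), Set.finite_range _, ?_, ?_, ?_⟩
  · rintro g _ ⟨⟨h, χ⟩, rfl⟩
    exact ⟨(g * h, χ), ac_mul g h _⟩
  · rintro g _ ⟨⟨h, χ⟩, rfl⟩ hg
    have h2 := hwf χ (h⁻¹ * g * h) (ac_inj h (by rw [ac_mul, ac_mul, ac_inv]; exact hg))
    calc g = h * (h⁻¹ * g * h) * h⁻¹ := by group
      _ = 1 := by rw [h2]; group
  · intro χ hχ h v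
    by_contra hv
    exact hw0 ⟨χ, hχ, v, hv⟩ (h _ ⟨(1, ⟨χ, hχ, v, hv⟩), ac_one _⟩)

variable {T : Set (Pr E)}

omit [NumberField K] in
theorem out_Hn2 (hT : TD_Hn2 K T) (g : E ≃ₐ[K] E) {w : Pr E} (hw : w ∉ T) : ac g w ∉ T :=
  fun h => by
  have h1 := hT.stab g⁻¹ _ h
  rw [← ac_mul, inv_mul_cancel, ac_one] at h1
  exact hw h1

variable [IsGalois K E]

theorem img_Hn2 (hT : TD_Hn2 K T) (w : Pr E) : un K w ∈ un K '' T ↔ w ∈ T := by
  refine ⟨?_, fun h => ⟨w, h, rfl⟩⟩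
  rintro ⟨w', hw, h⟩
  obtain ⟨g, rfl⟩ := ac_trans h
  exact hT.stab g _ hw

theorem chr_Hn2 (hT : TD_Hn2 K T) (g : (Pr K →₀ ℤ) →+ ZMod 2)
    (hg : ∀ d ∈ pri_Hn2 (un K '' T), g d = 0) :
    Cls2 (fun v => g (Finsupp.single v 1)) ∧
      ∀ w : Pr E, w.asIdeal.inertiaDeg (𝓞 K) = 1 → g (Finsupp.single (un K w) 1) = 0 := by
  obtain ⟨h1, h0⟩ := cls_Hn2 g hg
  refine ⟨h1, fun w hw => ?_⟩
  have h2 := hT.gen (fun w => (w.asIdeal.inertiaDeg (𝓞 K) : ZMod 2) *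
    g (Finsupp.single (un K w) 1)) (fun a ha => by
      have h3 := push_down (un K) over_un (fun v => g (Finsupp.single v 1)) ha
      simp only [zsmul_eq_mul] at h3
      exact h3.trans (h1 _ (Algebra.norm_ne_zero_iff.2 ha)))
    (fun w hw => mul_eq_zero_of_right _ (h0 _ ⟨w, hw, rfl⟩)) w
  simpa only [hw, Nat.cast_one, one_mul] using h2

theorem dep_Hn2 (h : AN2_st) (hd : finrank K E = 2) (hT : TD_Hn2 K T)
    (f g : ((Pr K →₀ ℤ) ⧸ pri_Hn2 (un K '' T)) →+ ZMod 2) :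
    ∃ a b : ZMod 2, (a ≠ 0 ∨ b ≠ 0) ∧ ∀ v, a * f v + b * g v = 0 := by
  have h0 : ∀ f : ((Pr K →₀ ℤ) ⧸ pri_Hn2 (un K '' T)) →+ ZMod 2, ∀ d ∈ pri_Hn2 (un K '' T),
      f.comp (QuotientAddGroup.mk' _) d = 0 := fun f d hd => by
    change f (QuotientAddGroup.mk d) = 0
    rw [(QuotientAddGroup.eq_zero_iff d).2 hd, map_zero]
  obtain ⟨h1, h2⟩ := chr_Hn2 hT _ (h0 f)
  obtain ⟨h3, h4⟩ := chr_Hn2 hT _ (h0 g)
  obtain ⟨a, b, hab, h5⟩ := h K E hd _ _ h1 h3 fun w v hv hw => by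
    obtain rfl := un_eq hv
    exact ⟨h2 w hw, h4 w hw⟩
  refine ⟨a, b, hab, fun v => ?_⟩
  obtain ⟨d, rfl⟩ := QuotientAddGroup.mk_surjective v
  exact (map_eq_finsum ((AddMonoidHom.mulLeft a).comp (f.comp (QuotientAddGroup.mk' _)) +
    (AddMonoidHom.mulLeft b).comp (g.comp (QuotientAddGroup.mk' _))) d).trans
    (finsum_eq_zero_of_forall_eq_zero fun v => mul_eq_zero_of_right _ (h5 v))

variable {s : E ≃ₐ[K] E}

theorem two_Hn2 (hd : finrank K E = 2) (hs : s ≠ 1) (g : E ≃ₐ[K] E) : g = 1 ∨ g = s := by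
  obtain ⟨y, -, hy⟩ := (Nat.card_eq_two_iff' (1 : E ≃ₐ[K] E)).1
    ((IsGalois.card_aut_eq_finrank K E).trans hd)
  by_cases h : g = 1
  · exact Or.inl h
  · exact Or.inr ((hy g h).trans (hy s hs).symm)

theorem sq_Hn2 (hd : finrank K E = 2) (hs : s ≠ 1) : s * s = 1 :=
  (two_Hn2 hd hs _).resolve_right fun h => hs (mul_eq_left.1 h)

theorem gens_Hn2 (hd : finrank K E = 2) (hs : s ≠ 1) (g : E ≃ₐ[K] E) :
    g ∈ Subgroup.zpowers s := by
  rcases two_Hn2 hd hs g with rfl | rfl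
  · exact one_mem _
  · exact Subgroup.mem_zpowers _

theorem nrm_Hn2 (hd : finrank K E = 2) (hs : s ≠ 1) (y : E) :
    algebraMap K E (Algebra.norm K y) = y * s y := by
  classical
  have h : (Finset.univ : Finset (E ≃ₐ[K] E)) = {1, s} := by
    ext g
    simpa using two_Hn2 hd hs g
  rw [Algebra.norm_eq_prod_automorphisms, h, Finset.prod_pair hs.symm]
  rfl

theorem acs_Hn2 (hd : finrank K E = 2) (hs : s ≠ 1) (w : Pr E) : ac s (ac s w) = w := by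
  rw [← ac_mul, sq_Hn2 hd hs, ac_one]

theorem os_Hn2 (hd : finrank K E = 2) (hs : s ≠ 1) (w : Pr E) (x : E) :
    ord w (s x) = ord (ac s w) x := by
  rw [← ord_ac s (ac s w), acs_Hn2 hd hs]

theorem dv_Hn2 (hd : finrank K E = 2) (hs : s ≠ 1)
    (he : ∀ w : Pr E, w.asIdeal.ramificationIdx (𝓞 K) = 1) {x : E} (hx : x ≠ 0)
    (ha : ∀ w, w ∉ T → ord w (s x / x) = 0) :
    ∃ d : Pr K →₀ ℤ, 2 • d ∈ pri_Hn2 (un K '' T) ∧ ∀ w, w ∉ T → d (un K w) = ord w x := by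
  have h0 : ∀ w, w ∉ T → ord w (s x) = ord w x := fun w hw => by
    have h2 := ha w hw
    rwa [ord_div _ ((map_ne_zero s).2 hx) hx, sub_eq_zero] at h2
  have h1 : ∀ (g : E ≃ₐ[K] E) w, w ∉ T → ord (ac g w) x = ord w x := fun g w hw => by
    rcases two_Hn2 hd hs g with rfl | rfl
    · rw [ac_one]
    · rw [← os_Hn2 hd hs, h0 w hw]
  choose c hc using un_surj (K := K) (L := E)
  have hinj : Function.Injective c := fun v v' e => by rw [← hc v, e, hc]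
  let d : Pr K →₀ ℤ := Finsupp.ofSupportFinite (fun v => ord (c v) x)
    ((ord_finite x).preimage hinj.injOn)
  have h2 : ∀ w, w ∉ T → d (un K w) = ord w x := fun w hw => by
    obtain ⟨g, hg⟩ := ac_trans (hc (un K w)).symm
    rw [← h1 g w hw, hg]
    rfl
  refine ⟨d, ⟨Algebra.norm K x, Algebra.norm_ne_zero_iff.2 hx, fun v hv => ?_⟩, h2⟩
  obtain ⟨w, rfl⟩ := un_surj (L := E) v
  have hw : w ∉ T := fun h => hv ⟨w, h, rfl⟩
  have h3 := ord_over (over_un (K := K) w) (Algebra.norm K x)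
  rw [he, Nat.cast_one, one_mul, nrm_Hn2 hd hs, ord_mul _ hx ((map_ne_zero s).2 hx),
    h0 w hw] at h3
  rw [← h3, Finsupp.smul_apply, h2 w hw, two_smul]

theorem core_Hn2 (h : AN2_st) (hd : finrank K E = 2) (hs : s ≠ 1) (hT : TD_Hn2 K T)
    (he : ∀ w : Pr E, w.asIdeal.ramificationIdx (𝓞 K) = 1) {x₁ x₂ : E} (hx₁ : x₁ ≠ 0)
    (hx₂ : x₂ ≠ 0) (ha : ∀ w, w ∉ T → ord w (s x₁ / x₁) = 0)
    (hb : ∀ w, w ∉ T → ord w (s x₂ / x₂) = 0) :
    ∃ (x y : ℤ) (c : E), c ≠ 0 ∧ (∀ w, w ∉ T → ord w c = 0) ∧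
      ¬ (((2 : ℕ) : ℤ) ∣ x ∧ ((2 : ℕ) : ℤ) ∣ y) ∧
      (s x₁ / x₁) ^ x * (s x₂ / x₂) ^ y = s c / c := by
  obtain ⟨d₁, h1, h2⟩ := dv_Hn2 hd hs he hx₁ ha
  obtain ⟨d₂, h3, h4⟩ := dv_Hn2 hd hs he hx₂ hb
  have := pfin_Hn2 (un K '' T)
  obtain ⟨x, y, hxy, h5⟩ := grp_Hn2 (dep_Hn2 h hd hT)
    (q₁ := QuotientAddGroup.mk d₁) (q₂ := QuotientAddGroup.mk d₂)
    ((QuotientAddGroup.eq_zero_iff (2 • d₁)).2 h1) ((QuotientAddGroup.eq_zero_iff (2 • d₂)).2 h3)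
  obtain ⟨z, z0, hz⟩ := (QuotientAddGroup.eq_zero_iff (x • d₁ + y • d₂)).1 h5
  have z1 : algebraMap K E z ≠ 0 := (map_ne_zero _).2 z0
  have c0 : x₁ ^ x * x₂ ^ y ≠ 0 := mul_ne_zero (zpow_ne_zero _ hx₁) (zpow_ne_zero _ hx₂)
  refine ⟨x, y, x₁ ^ x * x₂ ^ y / algebraMap K E z, div_ne_zero c0 z1, fun w hw => ?_, hxy, ?_⟩
  · rw [ord_div _ c0 z1, ord_mul _ (zpow_ne_zero _ hx₁) (zpow_ne_zero _ hx₂), ord_zpow, ord_zpow,
      ord_over (over_un w), he, Nat.cast_one, one_mul,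
      ← hz _ fun h6 => hw ((img_Hn2 hT w).1 h6), Finsupp.add_apply,
      Finsupp.smul_apply, Finsupp.smul_apply, h2 w hw, h4 w hw, smul_eq_mul, smul_eq_mul, sub_self]
  · rw [map_div₀, AlgEquiv.commutes, div_div_div_cancel_right₀ z1, map_mul, map_zpow₀, map_zpow₀,
      div_zpow, div_zpow, div_mul_div_comm]

omit [NumberField K] [IsGalois K E] in
/-- the action on the units away from the chosen primes -/
noncomputable def rep_Hn2 (hT : TD_Hn2 K T) (g : E ≃ₐ[K] E) : UT_Hn2 T →+ UT_Hn2 T :=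
  ((sA g).comp (UT_Hn2 T).subtype).codRestrict _ fun x w hw => by
    have h := x.2 _ (out_Hn2 hT g⁻¹ hw)
    rwa [← ord_ac g, ac_inv] at h

/-- the rank of the invariant units -/
theorem rank_Hn2 [IsTotallyReal E] (hd : finrank K E = 2) (hs : s ≠ 1) (hT : TD_Hn2 K T) :
    2 * (finrank ℤ (rep_Hn2 hT s - AddMonoidHom.id _).ker + 1) ≤ finrank ℤ (UT_Hn2 T) + 1 := by
  classical
  have : IsTotallyReal K := IsTotallyReal.of_algebra K E
  have h1 := lrk_Hn2 hT.fin.toFinset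
  rw [Set.Finite.coe_toFinset] at h1
  obtain ⟨S, hS⟩ : ∃ S, S = hT.fin.toFinset.image (un K) := ⟨_, rfl⟩
  have hm : ∀ w : Pr E, un K w ∈ S ↔ w ∈ T := fun w => by
    rw [← img_Hn2 hT, hS, ← Finset.mem_coe, Finset.coe_image, Set.Finite.coe_toFinset]
  have h2 : 2 * S.card ≤ hT.fin.toFinset.card := by
    rw [hS]
    refine Finset.mul_card_image_le_card _ _ fun v hv => ?_
    obtain ⟨w, hw, rfl⟩ := Finset.mem_image.1 hv
    have hw' := hT.fin.mem_toFinset.1 hw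
    exact Finset.one_lt_card.2 ⟨w, Finset.mem_filter.2 ⟨hw, rfl⟩, ac s w, Finset.mem_filter.2
      ⟨hT.fin.mem_toFinset.2 (hT.stab s w hw'), un_ac s w⟩, fun e => hs (hT.free s w hw' e.symm)⟩
  have := fin_Hn2 S.finite_toSet
  let φ : UT_Hn2 (S : Set (Pr K)) →+ UT_Hn2 T :=
    ((MonoidHom.toAdditive (Units.map (algebraMap K E : K →* E))).comp
      (UT_Hn2 (S : Set (Pr K))).subtype).codRestrict _ fun x w hw => by
        obtain ⟨e, -, he⟩ := ord_un (K := K) w (uv x.1)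
        exact he.trans (by rw [x.2 _ fun h => hw ((hm w).1 h), mul_zero])
  have h3 := rk_Hnt φ (rep_Hn2 hT s - AddMonoidHom.id _).ker fun x hx => by
    have h4 : rep_Hn2 hT s x = x := sub_eq_zero.1 hx
    obtain ⟨a, ha⟩ := of_fixed (gens_Hn2 hd hs) (x := x.1) (congrArg Subtype.val h4)
    have a0 : a ≠ 0 := fun h => uv_ne x.1 (by rw [← ha, h, map_zero])
    refine ⟨⟨mk a a0, fun v hv => ?_⟩, Subtype.ext (uv_inj ha)⟩
    obtain ⟨w, rfl⟩ := un_surj (L := E) v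
    obtain ⟨e, he, h5⟩ := ord_un (K := K) w a
    rw [ha, x.2 w fun h => hv ((hm w).2 h)] at h5
    exact (mul_eq_zero.1 h5.symm).resolve_left he.ne'
  have h4 := urk_Hn2 S
  have h5 := real_Hn2 (E := K)
  have h6 := real_Hn2 (E := E)
  rw [← Module.finrank_mul_finrank ℚ K E, hd, ← h5] at h6
  omega

/-- units away from the chosen primes are norms -/
theorem unit_Hn2 [IsTotallyReal E] (h : AN2_st) (hd : finrank K E = 2) (hs : s ≠ 1)
    (hT : TD_Hn2 K T) (he : ∀ w : Pr E, w.asIdeal.ramificationIdx (𝓞 K) = 1) {u : K} (u0 : u ≠ 0)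
    (hu : ∀ w, w ∉ T → ord w (algebraMap K E u) = 0) : ∃ c : E, Algebra.norm K c = u := by
  have := fin_Hn2 hT.fin
  have ho : orderOf s = 2 := order_eq hd (gens_Hn2 hd hs)
  have h90 : ∀ a : UT_Hn2 T, ∑ i ∈ Finset.range 2, (rep_Hn2 hT s)^[i] a = 0 →
      ∃ x : E, x ≠ 0 ∧ uv a.1 = s x / x := fun a ha => by
    obtain ⟨x, hx⟩ := hilbert ho a.1 (by
      rw [Finset.sum_range_succ, Finset.sum_range_one] at ha ⊢
      exact congrArg Subtype.val ha)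
    exact ⟨uv x, uv_ne x, by rw [hx, uv_sub, uv_sA]⟩
  obtain ⟨b, hb⟩ := abs_Hnt (l := 2) (σ := rep_Hn2 hT s)
    (fun a => Subtype.ext (uv_inj (DFunLike.congr_fun (sq_Hn2 hd hs) (uv a.1))))
    (rank_Hn2 hd hs hT) (fun a b ha hb => by
      obtain ⟨x₁, hx₁, e₁⟩ := h90 a ha
      obtain ⟨x₂, hx₂, e₂⟩ := h90 b hb
      obtain ⟨x, y, c, c0, hc, hxy, h1⟩ := core_Hn2 h hd hs hT he hx₁ hx₂
        (fun w hw => e₁ ▸ a.2 w hw) (fun w hw => e₂ ▸ b.2 w hw)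
      refine ⟨x, y, ⟨mk c c0, hc⟩, hxy, Subtype.ext (uv_inj ?_)⟩
      have h2 : ∀ (n : ℤ) (u : Additive Eˣ), uv (n • u) = uv u ^ n := fun n u => by simp [uv]
      rw [AddSubgroup.coe_add, AddSubgroup.coe_zsmul, AddSubgroup.coe_zsmul, uv_add, h2, h2, e₁,
        e₂, AddSubgroup.coe_sub, uv_sub]
      exact h1)
    ⟨mk _ ((map_ne_zero (algebraMap K E)).2 u0), hu⟩ (Subtype.ext (uv_inj (s.commutes u)))
  refine ⟨uv b.1, (algebraMap K E).injective ?_⟩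
  rw [Finset.sum_range_succ, Finset.sum_range_one] at hb
  rw [nrm_Hn2 hd hs]
  exact (congrArg (fun x : UT_Hn2 T => uv x.1) hb).symm

/-- a divisor with prescribed norm -/
theorem div_Hn2 (hd : finrank K E = 2) (hs : s ≠ 1) {β : K}
    (hβ : ∀ w : Pr E, ac s w = w → Even (ord w (algebraMap K E β))) :
    ∃ d : Pr E →₀ ℤ, ∀ w, d w + d (ac s w) = ord w (algebraMap K E β) := by
  classical
  choose c hc using un_surj (K := K) (L := E)
  let d : Pr E → ℤ := fun w => if ac s w = w then ord w (algebraMap K E β) / 2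
    else if w = c (un K w) then ord w (algebraMap K E β) else 0
  refine ⟨Finsupp.ofSupportFinite d ((ord_finite (algebraMap K E β)).subset fun w hw h => hw
    (by simp only [d, h, Int.zero_ediv, ite_self])), fun w => ?_⟩
  show d w + d (ac s w) = _
  by_cases h : ac s w = w
  · obtain ⟨n, hn⟩ := hβ w h
    simp only [d, h, if_true]
    omega
  · have h1 : ac s (ac s w) ≠ ac s w := fun e => h (ac_inj s e)
    have h2 : ord (ac s w) (algebraMap K E β) = ord w (algebraMap K E β) := by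
      rw [← os_Hn2 hd hs, s.commutes]
    simp only [d, h, h1, if_false, un_ac, h2]
    obtain ⟨g, hg⟩ := ac_trans (hc (un K w)).symm
    rw [← hg]
    rcases two_Hn2 hd hs g with rfl | rfl
    · rw [ac_one, if_pos rfl, if_neg h, add_zero]
    · rw [if_pos rfl, if_neg (Ne.symm h), zero_add]

end

theorem hn2_st (hU : UNR_st) (h1 : AN1_st) (h2 : AN2_st) : HN2_st := by
  intro K E _ _ _ _ _ _ _ s hd hs hu β β0 hβ
  obtain ⟨T, hT⟩ := td_Hn2 (K := K) (E := E) h1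
  obtain ⟨d, hdv⟩ := div_Hn2 (β := β) hd hs fun w hw => hβ w fun x hx => by
    rw [← hw]
    show s⁻¹ • s • x ∈ w.asIdeal
    rwa [inv_smul_smul]
  obtain ⟨h, y, hh, y0, hy⟩ := mul_Hn2 hT.gen d
  have n0 : Algebra.norm K y ≠ 0 := Algebra.norm_ne_zero_iff.2 y0
  obtain ⟨c, hc⟩ := unit_Hn2 h2 hd hs hT (hU.2.1 K E hu).1
    (div_ne_zero (pow_ne_zero h β0) n0) fun w hw => by
    rw [map_div₀, ord_div _ ((map_ne_zero _).2 (pow_ne_zero h β0)) ((map_ne_zero _).2 n0), map_pow,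
      ord_pow, nrm_Hn2 hd hs, ord_mul _ y0 ((map_ne_zero s).2 y0), os_Hn2 hd hs, hy w hw,
      hy _ (out_Hn2 hT s hw), ← hdv, mul_add, sub_self]
  obtain ⟨u, v, huv⟩ := Nat.isCoprime_iff_coprime.2
    ((Nat.Prime.coprime_iff_not_dvd Nat.prime_two).2 hh)
  refine ⟨algebraMap K E β ^ u * (c * y) ^ v, (nrm_Hn2 hd hs _).symm.trans (congrArg _ ?_)⟩
  rw [map_mul, Algebra.norm_zpow, Algebra.norm_zpow, map_mul, hc, div_mul_cancel₀ _ n0,
    Algebra.norm_algebraMap, hd, ← zpow_natCast, ← zpow_natCast, ← zpow_mul, ← zpow_mul,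
    ← zpow_add₀ β0, mul_comm ((2 : ℕ) : ℤ), mul_comm (h : ℤ), huv, zpow_one]

end Pool.Agent.MP_9b2bac_nt.B
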