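import Pool.Agent.MP_9b2bac_nt.B.BasicG
import Pool.Agent.MP_e23604_nt.L.HntA

/-!
Units and divisor classes away from a finite set of primes.
-/

open NumberField Module IsDedekindDomain nonZeroDivisors
open Pool.Agent.MP_14ad9d_nt.Full Pool.Agent.MP_14ad9d_nt.Full.FIAux
open Pool.Agent.MP_e23604_nt.L (rk_Hnt)

namespace Pool.Agent.MP_9b2bac_nt.B

section
variable {E : Type} [Field E] [NumberField E]

open Classical in
theorem gen_Hn2 (w : Pr E) : ∃ y : E, y ≠ 0 ∧ ∀ w' : Pr E,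
    ord w' y = if w = w' then (Fintype.card (ClassGroup (𝓞 E)) : ℤ) else 0 := by
  have h0 : (w.asIdeal : FractionalIdeal (𝓞 E)⁰ E) ≠ 0 :=
    FractionalIdeal.coeIdeal_ne_zero.mpr w.ne_bot
  have h1 : ClassGroup.mk E (Units.mk0 _ h0 ^ Fintype.card (ClassGroup (𝓞 E))) = 1 := by
    rw [map_pow, pow_card_eq_one]
  obtain ⟨y, hy⟩ := (FractionalIdeal.isPrincipal_iff _).1 (ClassGroup.mk_eq_one_iff.1 h1)
  have hy' : (w.asIdeal : FractionalIdeal (𝓞 E)⁰ E) ^ Fintype.card (ClassGroup (𝓞 E)) =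
      FractionalIdeal.spanSingleton (𝓞 E)⁰ y := by
    rw [← hy]; simp
  have y0 : y ≠ 0 := FractionalIdeal.spanSingleton_ne_zero_iff.1 (hy' ▸ pow_ne_zero _ h0)
  refine ⟨y, y0, fun w' => ?_⟩
  rw [← count_span w' y0, ← hy', FractionalIdeal.count_pow, FractionalIdeal.count_maximal,
    mul_ite, mul_one, mul_zero]

/-- units away from a set of primes -/
def UT_Hn2 (T : Set (Pr E)) : AddSubgroup (Additive Eˣ) where
  carrier := {x | ∀ w, w ∉ T → ord w (uv x) = 0}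
  zero_mem' := fun w _ => ord_one w
  add_mem' := fun {x y} hx hy w hw => by
    rw [uv_add, ord_mul w (uv_ne x) (uv_ne y), hx w hw, hy w hw, add_zero]
  neg_mem' := fun {x} hx w hw => by rw [uv_neg, ord_inv, hx w hw, neg_zero]

/-- the order at a prime -/
noncomputable def o_Hn2 (T : Set (Pr E)) (w : Pr E) : UT_Hn2 T →ₗ[ℤ] ℤ :=
  (AddMonoidHom.mk' (fun x : UT_Hn2 T => ord w (uv x.1))
    fun x y => ord_mul w (uv_ne x.1) (uv_ne y.1)).toIntLinearMap

theorem ord_unit_Hn2 (w : Pr E) (u : (𝓞 E)ˣ) : ord w ((u : 𝓞 E) : E) = 0 :=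
  (ord_eq_zero_iff w u.ne_zero).2 fun h =>
    w.isPrime.ne_top (Ideal.eq_top_of_isUnit_mem _ h u.isUnit)

/-- the global units -/
noncomputable def i_Hn2 (T : Set (Pr E)) : Additive (𝓞 E)ˣ →ₗ[ℤ] UT_Hn2 T :=
  ((MonoidHom.toAdditive (Units.map (algebraMap (𝓞 E) E : 𝓞 E →* E))).codRestrict (UT_Hn2 T)
    fun u w _ => ord_unit_Hn2 w (Additive.toMul u)).toIntLinearMap

theorem o_i_Hn2 (T : Set (Pr E)) (w : Pr E) (u : Additive (𝓞 E)ˣ) :
    o_Hn2 T w (i_Hn2 T u) = 0 := ord_unit_Hn2 w (Additive.toMul u)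

theorem i_inj_Hn2 (T : Set (Pr E)) : Function.Injective (i_Hn2 T) := fun _ _ h =>
  Additive.toMul.injective (Units.ext (RingOfIntegers.coe_injective
    (congrArg (fun x : UT_Hn2 T => uv x.1) h)))

theorem i_surj_Hn2 {T : Set (Pr E)} {x : UT_Hn2 T} (h : ∀ w ∈ T, o_Hn2 T w x = 0) :
    ∃ u, i_Hn2 T u = x := by
  obtain ⟨u, hu⟩ := exists_unit (uv_ne x.1) fun w => by
    by_cases hw : w ∈ T
    · exact h w hw
    · exact x.2 w hw
  exact ⟨Additive.ofMul u, Subtype.ext (uv_inj hu)⟩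

theorem fin_Hn2 {T : Set (Pr E)} (hT : T.Finite) : Module.Finite ℤ (UT_Hn2 T) := by
  have := hT.to_subtype
  refine ⟨Submodule.fg_of_fg_map_of_fg_inf_ker (LinearMap.pi fun w : T => o_Hn2 T w)
    (IsNoetherian.noetherian _) ?_⟩
  have h : ⊤ ⊓ LinearMap.ker (LinearMap.pi fun w : T => o_Hn2 T w) = Submodule.map (i_Hn2 T) ⊤ := by
    rw [top_inf_eq, Submodule.map_top]
    ext x
    constructor
    · intro hx
      exact i_surj_Hn2 fun w hw => congrFun hx ⟨w, hw⟩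
    · rintro ⟨u, rfl⟩
      exact funext fun w => o_i_Hn2 T w u
  rw [h]
  exact Module.Finite.fg_top.map _

/-- the lower bound for the rank -/
theorem lrk_Hn2 (S : Finset (Pr E)) :
    Units.rank E + S.card ≤ finrank ℤ (UT_Hn2 (S : Set (Pr E))) := by
  classical
  have := fin_Hn2 S.finite_toSet
  choose y hy0 hy using gen_Hn2 (E := E)
  let a : S → UT_Hn2 (S : Set (Pr E)) := fun w =>
    ⟨mk (y w) (hy0 w), fun w' hw' => (hy w w').trans
      (if_neg fun h : w.1 = w' => hw' (h ▸ w.2))⟩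
  have ha : ∀ w w' : S, o_Hn2 (S : Set (Pr E)) w' (a w) =
      if w = w' then (Fintype.card (ClassGroup (𝓞 E)) : ℤ) else 0 := fun w w' =>
    (hy w w').trans (by simp only [Subtype.val_inj])
  obtain ⟨u, hu⟩ := exists_linearIndependent_of_le_finrank (Units.finrank_eq E).ge
  have h : LinearIndependent ℤ (Sum.elim (fun j => i_Hn2 (S : Set (Pr E)) (u j)) a) := by
    refine Fintype.linearIndependent_iff.2 fun g hg => ?_
    rw [Fintype.sum_sum_type] at hg
    simp only [Sum.elim_inl, Sum.elim_inr] at hg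
    have h1 : ∀ w, g (Sum.inr w) = 0 := fun w => by
      have h2 := congrArg (o_Hn2 (S : Set (Pr E)) w.1) hg
      simp only [map_add, map_sum, map_zsmul, o_i_Hn2, ha, smul_eq_mul, mul_zero, mul_ite,
        Finset.sum_const_zero, zero_add, Finset.sum_ite_eq', Finset.mem_univ, if_true,
        map_zero] at h2
      exact (mul_eq_zero.1 h2).resolve_right (Nat.cast_ne_zero.2 Fintype.card_ne_zero)
    simp only [h1, zero_smul, Finset.sum_const_zero, add_zero] at hg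
    have h2 := Fintype.linearIndependent_iff.1 (hu.map' _ (LinearMap.ker_eq_bot.2 (i_inj_Hn2
      (S : Set (Pr E))))) _ hg
    rintro (j | w)
    · exact h2 j
    · exact h1 w
  simpa using h.fintype_card_le_finrank

/-- the upper bound for the rank -/
theorem urk_Hn2 (S : Finset (Pr E)) :
    finrank ℤ (UT_Hn2 (S : Set (Pr E))) ≤ Units.rank E + S.card := by
  have := fin_Hn2 S.finite_toSet
  let f := LinearMap.pi fun w : S => o_Hn2 (S : Set (Pr E)) w
  have h1 := (LinearMap.ker f).finrank_quotient_add_finrank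
  have h2 : finrank ℤ (_ ⧸ LinearMap.ker f) ≤ finrank ℤ (S → ℤ) := by
    rw [f.quotKerEquivRange.finrank_eq]
    exact Submodule.finrank_le _
  have h3 : finrank ℤ (LinearMap.ker f) ≤ finrank ℤ (Additive (𝓞 E)ˣ) :=
    rk_Hnt (i_Hn2 (S : Set (Pr E))).toAddMonoidHom (LinearMap.ker f).toAddSubgroup
      fun x hx => i_surj_Hn2 fun w hw => congrFun hx ⟨w, hw⟩
  rw [Module.finrank_fintype_fun_eq_card, Fintype.card_coe] at h2
  rw [Units.finrank_eq] at h3
  omega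

theorem real_Hn2 [IsTotallyReal E] : Units.rank E + 1 = finrank ℚ E := by
  have h := InfinitePlace.card_eq_nrRealPlaces_add_nrComplexPlaces E
  have h1 : 0 < Fintype.card (InfinitePlace E) := Fintype.card_pos
  rw [IsTotallyReal.finrank, Units.rank, Nat.sub_add_cancel h1, h,
    IsTotallyReal.nrComplexPlaces_eq_zero, add_zero]

theorem chf_Hn2 : {χ : Pr E → ZMod 2 | Cls2 χ}.Finite := by
  classical
  obtain ⟨cl, hcl⟩ := cls_fin (E := E)
  have key : ∀ χ : Pr E → ZMod 2, Cls2 χ → ∀ v v' : Pr E,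
      cl (Finsupp.single v 1) = cl (Finsupp.single v' 1) → χ v = χ v' := by
    intro χ hχ v v' h
    obtain ⟨y, hy, hw⟩ := hcl _ _ h
    have h1 := hχ y hy
    rw [finsum_eq_sum_of_support_subset (s := {v, v'})] at h1
    · by_cases e : v = v'
      · rw [e]
      · rw [Finset.sum_pair e, ← hw, ← hw] at h1
        simp only [Finsupp.single_eq_same, Finsupp.single_eq_of_ne e,
          Finsupp.single_eq_of_ne (Ne.symm e), sub_zero, zero_sub, Int.cast_one, Int.cast_neg,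
          one_mul, neg_mul] at h1
        linear_combination h1
    · intro w hw1
      by_contra hw2
      simp only [Finset.coe_insert, Finset.coe_singleton, Set.mem_insert_iff,
        Set.mem_singleton_iff, not_or] at hw2
      apply hw1
      beta_reduce
      rw [← hw]
      simp [Ne.symm hw2.1, Ne.symm hw2.2]
  refine (Set.finite_range fun (f : ClassGroup (𝓞 E) → ZMod 2) (v : Pr E) =>
    f (cl (Finsupp.single v 1))).subset fun χ hχ => ?_
  refine ⟨fun c => if h : ∃ v, cl (Finsupp.single v 1) = c then χ h.choose else 0, ?_⟩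
  funext v
  have h : ∃ v', cl (Finsupp.single v' 1) = cl (Finsupp.single v 1) := ⟨v, rfl⟩
  beta_reduce
  rw [dif_pos h]
  exact key χ hχ _ _ h.choose_spec

/-- divisors that are principal away from a set of primes -/
def pri_Hn2 (S : Set (Pr E)) : AddSubgroup (Pr E →₀ ℤ) where
  carrier := {d | ∃ z : E, z ≠ 0 ∧ ∀ v, v ∉ S → d v = ord v z}
  zero_mem' := ⟨1, one_ne_zero, fun w _ => (ord_one _).symm⟩
  add_mem' := by
    rintro d d' ⟨z, z0, hz⟩ ⟨z', z0', hz'⟩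
    exact ⟨z * z', mul_ne_zero z0 z0', fun w hw => by
      rw [Finsupp.add_apply, hz w hw, hz' w hw, ord_mul _ z0 z0']⟩
  neg_mem' := by
    rintro d ⟨z, z0, hz⟩
    exact ⟨z⁻¹, inv_ne_zero z0, fun w hw => by rw [Finsupp.neg_apply, hz w hw, ord_inv]⟩

theorem pfin_Hn2 (S : Set (Pr E)) : Finite ((Pr E →₀ ℤ) ⧸ pri_Hn2 S) := by
  obtain ⟨cl, hcl⟩ := cls_fin (E := E)
  refine fin_of_fun _ cl fun d d' e => ?_
  obtain ⟨y, y0, hy⟩ := hcl d d' e
  exact ⟨y, y0, fun w _ => hy _⟩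

theorem cls_Hn2 {S : Set (Pr E)} (g : (Pr E →₀ ℤ) →+ ZMod 2) (hg : ∀ d ∈ pri_Hn2 S, g d = 0) :
    Cls2 (fun v => g (Finsupp.single v 1)) ∧ ∀ v ∈ S, g (Finsupp.single v 1) = 0 := by
  classical
  refine ⟨fun α α0 => ?_, fun v hv => hg _ ⟨1, one_ne_zero, fun w hw => by
    rw [ord_one, Finsupp.single_apply, if_neg fun e : v = w => hw (e ▸ hv)]⟩⟩
  let dα : Pr E →₀ ℤ := Finsupp.ofSupportFinite (fun v => ord v α) (ord_finite α)
  exact (map_eq_finsum g dα).symm.trans (hg _ ⟨α, α0, fun w _ => rfl⟩)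

theorem pinj_Hn2 {S : Set (Pr E)}
    (hS : ∀ χ : Pr E → ZMod 2, Cls2 χ → (∀ w ∈ S, χ w = 0) → ∀ w, χ w = 0)
    (q : (Pr E →₀ ℤ) ⧸ pri_Hn2 S) (hq : 2 • q = 0) : q = 0 := by
  have := pfin_Hn2 S
  let m : ((Pr E →₀ ℤ) ⧸ pri_Hn2 S) →+ ((Pr E →₀ ℤ) ⧸ pri_Hn2 S) := nsmulAddMonoidHom 2
  have hm : Function.Surjective m := fun x => by
    by_contra hx
    obtain ⟨f, hf, h0⟩ := exists_char 2 m.range (fun y => ⟨y, rfl⟩) x hx
    let g : (Pr E →₀ ℤ) →+ ZMod 2 := f.comp (QuotientAddGroup.mk' _)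
    obtain ⟨h1, h3⟩ := cls_Hn2 (S := S) g fun d hd => by
      change f (QuotientAddGroup.mk d) = 0
      rw [(QuotientAddGroup.eq_zero_iff d).2 hd, map_zero]
    have h2 := hS _ h1 h3
    obtain ⟨d, rfl⟩ := QuotientAddGroup.mk_surjective x
    exact hf ((map_eq_finsum g d).trans
      (finsum_eq_zero_of_forall_eq_zero fun v => mul_eq_zero_of_right _ (h2 v)))
  exact (injective_iff_map_eq_zero m).1 (Finite.injective_iff_surjective.2 hm) q hq

theorem mul_Hn2 {S : Set (Pr E)}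
    (hS : ∀ χ : Pr E → ZMod 2, Cls2 χ → (∀ w ∈ S, χ w = 0) → ∀ w, χ w = 0) (d : Pr E →₀ ℤ) :
    ∃ (h : ℕ) (y : E), ¬ 2 ∣ h ∧ y ≠ 0 ∧ ∀ v, v ∉ S → ord v y = h * d v := by
  have := pfin_Hn2 S
  have h1 : Nat.card ((Pr E →₀ ℤ) ⧸ pri_Hn2 S) • (d : (Pr E →₀ ℤ) ⧸ pri_Hn2 S) = 0 :=
    card_nsmul_eq_zero'
  obtain ⟨y, y0, hy⟩ := (QuotientAddGroup.eq_zero_iff
    (Nat.card ((Pr E →₀ ℤ) ⧸ pri_Hn2 S) • d)).1 h1
  refine ⟨_, y, fun h => ?_, y0, fun v hv => by rw [← hy v hv, Finsupp.smul_apply, nsmul_eq_mul]⟩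
  obtain ⟨q, hq⟩ := exists_prime_addOrderOf_dvd_card' 2 h
  have h2 := pinj_Hn2 hS q (hq ▸ addOrderOf_nsmul_eq_zero q)
  rw [h2, addOrderOf_zero] at hq
  exact absurd hq (by norm_num)

theorem oprod_Hn2 {J : Type} (w : Pr E) (s : Finset J) (f : J → E)
    (hf : ∀ i, f i ≠ 0) : ord w (∏ i ∈ s, f i) = ∑ i ∈ s, ord w (f i) := by
  classical
  induction s using Finset.induction_on with
  | empty => rw [Finset.prod_empty, Finset.sum_empty, ord_one]
  | insert a s ha ih =>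
    rw [Finset.prod_insert ha, Finset.sum_insert ha,
      ord_mul w (hf a) (Finset.prod_ne_zero_iff.2 fun i _ => hf i), ih]

end

theorem cle_Hn2 {p : ℕ} [Fact p.Prime] {V : Type} [AddCommGroup V] [Module (ZMod p) V]
    [Finite V] (h : ∀ f g : V →+ ZMod p, ∃ a b : ZMod p, (a ≠ 0 ∨ b ≠ 0) ∧
      ∀ v, a * f v + b * g v = 0) : Nat.card V ≤ p := by
  have hp : p.Prime := Fact.out
  have h1 : finrank (ZMod p) V ≤ 1 := by
    by_contra hc
    let B := Module.finBasis (ZMod p) V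
    let i : Fin (finrank (ZMod p) V) := ⟨0, by omega⟩
    let j : Fin (finrank (ZMod p) V) := ⟨1, by omega⟩
    have hij : i ≠ j := fun e => zero_ne_one (congrArg Fin.val e)
    obtain ⟨a, b, hab, h2⟩ := h (B.coord i).toAddMonoidHom (B.coord j).toAddMonoidHom
    have h3 := h2 (B i)
    have h4 := h2 (B j)
    simp [hij, hij.symm] at h3 h4
    exact hab.elim (fun h => h h3) fun h => h h4
  rw [Module.natCard_eq_pow_finrank (K := ZMod p), Nat.card_zmod]
  exact (Nat.pow_le_pow_right hp.pos h1).trans_eq (pow_one p)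

theorem grp_Hn2 {p : ℕ} [Fact p.Prime] {Q : Type} [AddCommGroup Q] [Finite Q]
    (h : ∀ f g : Q →+ ZMod p, ∃ a b : ZMod p, (a ≠ 0 ∨ b ≠ 0) ∧ ∀ v, a * f v + b * g v = 0)
    {q₁ q₂ : Q} (h₁ : p • q₁ = 0) (h₂ : p • q₂ = 0) :
    ∃ x y : ℤ, ¬ ((p : ℤ) ∣ x ∧ (p : ℤ) ∣ y) ∧ x • q₁ + y • q₂ = 0 := by
  have hp : p.Prime := Fact.out
  let m : Q →+ Q := nsmulAddMonoidHom p
  have e1 := AddSubgroup.card_eq_card_quotient_mul_card_addSubgroup m.ker
  have e2 := AddSubgroup.card_eq_card_quotient_mul_card_addSubgroup m.range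
  rw [Nat.card_congr (QuotientAddGroup.quotientKerEquivRange m).toEquiv, e2, mul_comm] at e1
  have e3 : Nat.card (Q ⧸ m.range) = Nat.card m.ker :=
    Nat.eq_of_mul_eq_mul_left Nat.card_pos e1
  have e4 : Nat.card (Q ⧸ m.range) ≤ p := by
    refine @cle_Hn2 p _ (Q ⧸ m.range) _
      (QuotientAddGroup.zmodModule fun x => ⟨x, rfl⟩) _ fun f g => ?_
    obtain ⟨a, b, hab, h2⟩ := h (f.comp (QuotientAddGroup.mk' _)) (g.comp (QuotientAddGroup.mk' _))
    refine ⟨a, b, hab, fun v => ?_⟩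
    obtain ⟨v, rfl⟩ := QuotientAddGroup.mk_surjective v
    exact h2 v
  by_contra hc
  let F : ZMod p × ZMod p → m.ker := fun z => ⟨(z.1.val : ℤ) • q₁ + (z.2.val : ℤ) • q₂,
    add_mem (zsmul_mem (show q₁ ∈ m.ker from h₁) _) (zsmul_mem (show q₂ ∈ m.ker from h₂) _)⟩
  have hd : ∀ u v : ZMod p, (p : ℤ) ∣ (u.val : ℤ) - v.val → u = v := fun u v huv => by
    have h3 := (ZMod.intCast_zmod_eq_zero_iff_dvd _ p).2 huv
    rw [Int.cast_sub, Int.cast_natCast, Int.cast_natCast, ZMod.natCast_zmod_val,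
      ZMod.natCast_zmod_val] at h3
    exact sub_eq_zero.1 h3
  have hF : Function.Injective F := fun z z' e => by
    have h3 : (z.1.val : ℤ) • q₁ + (z.2.val : ℤ) • q₂ =
      (z'.1.val : ℤ) • q₁ + (z'.2.val : ℤ) • q₂ := congrArg Subtype.val e
    by_contra hne
    refine hc ⟨(z.1.val : ℤ) - z'.1.val, (z.2.val : ℤ) - z'.2.val,
      fun h4 => hne (Prod.ext (hd _ _ h4.1) (hd _ _ h4.2)), ?_⟩
    rw [sub_smul, sub_smul, sub_add_sub_comm, h3, sub_self]
  have e5 := Nat.card_le_card_of_injective F hF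
  rw [Nat.card_prod, Nat.card_zmod] at e5
  have := hp.one_lt
  nlinarith

end Pool.Agent.MP_9b2bac_nt.B
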