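import Pool.Agent.MP_9b2bac_nt.B.Basic
import Pool.Agent.MP_9b2bac_nt.U.Ideals
import Pool.Agent.MP_9b2bac_nt.U.Mink

/-!
Many units of small joint height.
-/

open NumberField Module Finset NumberField.InfinitePlace

namespace Pool.Agent.MP_9b2bac_nt.B

section
variable {K : Type} [Field K] [NumberField K] [IsTotallyReal K]

theorem sum_emb_Uni (g : InfinitePlace K → ℝ) :
    ∑ σ : K →+* ℂ, g (InfinitePlace.mk σ) = ∑ w, g w := by
  classical
  rw [← sum_fiberwise univ (fun σ : K →+* ℂ => InfinitePlace.mk σ)]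
  refine sum_congr rfl fun w _ => ?_
  rw [sum_congr rfl (g := fun _ => g w) fun σ hσ => by rw [(mem_filter.1 hσ).2], sum_const,
    card_filter_mk_eq, IsTotallyReal.mult_eq, one_smul]

theorem card_places_Uni : Fintype.card (InfinitePlace K) = finrank ℚ K := by
  rw [← sum_mult_eq]
  simp

theorem sum_log_Uni (a : 𝓞 K) (ha : a ≠ 0) :
    ∑ w : InfinitePlace K, Real.log (w a) = Real.log (Ideal.absNorm (Ideal.span {a})) := by
  simpa using MP9b2bac.U.sum_log_eq a ha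

theorem sum_log_nonneg_Uni (a : 𝓞 K) (ha : a ≠ 0) :
    0 ≤ ∑ w : InfinitePlace K, Real.log (w a) := by
  simpa using MP9b2bac.U.sum_log_nonneg a ha

/-- one integer serves few shapes -/
theorem fibre_Uni (B H : ℕ) (a : 𝓞 K) (ha : a ≠ 0)
    (s : Finset (InfinitePlace K →₀ ℕ)) (h1 : ∀ μ ∈ s, ∑ w, μ w = H)
    (h2 : ∀ μ ∈ s, ∀ w : InfinitePlace K,
      Real.log (w a) < Real.log B + ((H : ℝ) / finrank ℚ K - μ w)) :
    (s.card : ℝ) ≤ 4 ^ (finrank ℚ K * B) * 2 ^ finrank ℚ K := by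
  classical
  have hD : (0 : ℝ) < finrank ℚ K := by exact_mod_cast finrank_pos
  set x : InfinitePlace K → ℝ := fun w => Real.log B + (H : ℝ) / finrank ℚ K - Real.log (w a)
    with hx
  have hlt : ∀ μ ∈ s, ∀ w, (μ w : ℝ) < x w := fun μ hμ w => by
    have := h2 μ hμ w
    simp only [hx]
    linarith
  have hle : ∀ μ ∈ s, ∀ w, μ w ≤ ⌊x w⌋₊ := fun μ hμ w => Nat.le_floor (hlt μ hμ w).le
  have hinj : Set.InjOn (fun (μ : InfinitePlace K →₀ ℕ) w => ⌊x w⌋₊ - μ w) s := by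
    intro μ hμ ν hν h
    ext w
    have h3 := congrFun h w
    have h4 := hle μ hμ w
    have h5 := hle ν hν w
    simp only at h3
    omega
  have := MP9b2bac.U.card_simplex (finrank ℚ K * B)
    (s.image fun (μ : InfinitePlace K →₀ ℕ) w => ⌊x w⌋₊ - μ w) ?_
  · rwa [card_image_of_injOn hinj, card_places_Uni] at this
  · intro k hk
    obtain ⟨μ, hμ, rfl⟩ := mem_image.1 hk
    have h3 : ∑ w, ((⌊x w⌋₊ - μ w : ℕ) : ℝ) ≤ ∑ w, (x w - μ w) := by
      refine sum_le_sum fun w _ => ?_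
      rw [Nat.cast_sub (hle μ hμ w)]
      have : (⌊x w⌋₊ : ℝ) ≤ x w := Nat.floor_le ((Nat.cast_nonneg _).trans (hlt μ hμ w).le)
      linarith
    have h4 : ∑ w, (μ w : ℝ) = H := by exact_mod_cast h1 μ hμ
    have h5 : ∑ w, (x w - μ w) = finrank ℚ K * Real.log B - ∑ w : InfinitePlace K,
        Real.log (w a) := by
      simp only [hx, sum_sub_distrib, sum_add_distrib, sum_const, card_univ, card_places_Uni,
        nsmul_eq_mul, h4]
      field_simp
      ring
    have h6 := sum_log_nonneg_Uni a ha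
    have h7 : Real.log B ≤ B := Real.log_le_self (Nat.cast_nonneg _)
    have h8 : ((∑ w, (⌊x w⌋₊ - μ w) : ℕ) : ℝ) ≤ (finrank ℚ K * B : ℕ) := by
      push_cast [-Nat.cast_sub]
      nlinarith
    exact_mod_cast h8

end

theorem uni_st : UNI_st := by
  classical
  intro C
  obtain ⟨B, hB⟩ : ∃ B : ℕ, B = C + 2 := ⟨_, rfl⟩
  obtain ⟨E, hE⟩ : ∃ E : ℕ, E = 4 ^ B := ⟨_, rfl⟩
  have hE0 : 0 < E := hE ▸ pow_pos four_pos B
  have hB0 : 0 < B := by omega
  refine ⟨E * 4 * B ^ 2, Nat.one_le_iff_ne_zero.2 (by positivity), ?_⟩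
  intro K _ _ _ hd H
  have hcp := card_places_Uni (K := K)
  have hfi := fibre_Uni (K := K) B H
  have hci := MP9b2bac.U.card_ideals (K := K)
  have hel := MP9b2bac.U.exists_log_lt (K := K) B
  have hD0 : 0 < finrank ℚ K := finrank_pos
  rw [mul_comm _ B, pow_mul] at hfi
  replace hfi : ∀ (a : 𝓞 K), a ≠ 0 → ∀ s : Finset (InfinitePlace K →₀ ℕ),
      (∀ μ ∈ s, ∑ w, μ w = H) → (∀ μ ∈ s, ∀ w : InfinitePlace K,
        Real.log (w a) < Real.log B + ((H : ℝ) / finrank ℚ K - μ w)) →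
      s.card ≤ E ^ finrank ℚ K * 2 ^ finrank ℚ K := fun a ha s h1 h2 => by
    have := hfi a ha s h1 h2
    rw [hE]
    exact_mod_cast this
  generalize finrank ℚ K = D at *
  have hD : (0 : ℝ) < D := by exact_mod_cast hD0
  have hB1 : 1 ≤ B := by omega
  have hBp : (0 : ℝ) < B := by exact_mod_cast hB1
  have hdisc : |(discr K : ℝ)| < (B : ℝ) ^ (2 * D) := by
    have h1 : (discr K).natAbs < B ^ (2 * D) :=
      hd.trans_lt ((Nat.pow_lt_pow_left (by omega) hD0.ne').trans_le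
        (Nat.pow_le_pow_right hB1 (by omega)))
    rw [← Int.cast_abs, ← Nat.cast_natAbs]
    exact_mod_cast h1
  obtain ⟨G, hG⟩ : ∃ G : Finset (InfinitePlace K →₀ ℕ), G = finsuppAntidiag univ H := ⟨_, rfl⟩
  have hGs : ∀ μ ∈ G, ∑ w, μ w = H := fun μ hμ => (mem_finsuppAntidiag.1 (hG ▸ hμ)).1
  have hGc : G.card = (H + D - 1).choose H := by
    rw [hG, card_finsuppAntidiag_nat_eq_choose, card_univ, hcp, add_comm]
  have hex : ∀ μ : InfinitePlace K →₀ ℕ, ∃ a : 𝓞 K, μ ∈ G → a ≠ 0 ∧ ∀ w : InfinitePlace K,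
      Real.log (w a) < Real.log B + ((H : ℝ) / D - μ w) := by
    intro μ
    by_cases hμ : μ ∈ G
    · obtain ⟨a, ha⟩ := hel hBp hdisc
        (fun w => (H : ℝ) / D - μ w) (by
          have h4 : ∑ w, (μ w : ℝ) = H := by exact_mod_cast hGs μ hμ
          simp only [IsTotallyReal.mult_eq, Nat.cast_one, one_mul, sum_sub_distrib, sum_const,
            card_univ, hcp, nsmul_eq_mul, h4]
          field_simp
          ring)
      exact ⟨a, fun _ => ha⟩
    · exact ⟨0, fun h => (hμ h).elim⟩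
  choose al hal using hex
  obtain ⟨A, hA⟩ : ∃ A, A = G.image al := ⟨_, rfl⟩
  have hA0 : ∀ a ∈ A, a ≠ 0 ∧ (∀ w : InfinitePlace K,
      Real.log (w a) ≤ Real.log B + (H : ℝ) / D) ∧
      (Ideal.absNorm (Ideal.span {a}) : ℝ) ≤ (B : ℝ) ^ D := by
    intro a ha
    obtain ⟨μ, hμ, rfl⟩ := mem_image.1 (hA ▸ ha)
    obtain ⟨h1, h2⟩ := hal μ hμ
    refine ⟨h1, fun w => ?_, ?_⟩
    · have := h2 w
      have h3 : (0 : ℝ) ≤ μ w := Nat.cast_nonneg _
      linarith
    · have h3 : ∑ w : InfinitePlace K, Real.log (w (al μ)) ≤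
          ∑ w : InfinitePlace K, (Real.log B + ((H : ℝ) / D - μ w)) :=
        sum_le_sum fun w _ => (h2 w).le
      have h4 : ∑ w, (μ w : ℝ) = H := by exact_mod_cast hGs μ hμ
      have h5 : ∑ w : InfinitePlace K, (Real.log B + ((H : ℝ) / D - μ w)) =
          Real.log ((B : ℝ) ^ D) := by
        simp only [sum_sub_distrib, sum_add_distrib, sum_const, card_univ, hcp,
          nsmul_eq_mul, h4, Real.log_pow]
        field_simp
        ring
      rw [sum_log_Uni _ h1, h5] at h3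
      refine (Real.log_le_log_iff ?_ (by positivity)).1 h3
      rw [Nat.cast_pos, Nat.pos_iff_ne_zero, Ne, Ideal.absNorm_eq_zero_iff,
        Ideal.span_singleton_eq_bot]
      exact h1
  have hGA : G.card ≤ (E ^ D * 2 ^ D) * A.card := by
    rw [hA]
    refine card_le_mul_card_image G _ fun a ha => ?_
    exact hfi a (hA0 a (hA ▸ ha)).1 (G.filter fun μ => al μ = a)
      (fun μ hμ => hGs μ (mem_filter.1 hμ).1) fun μ hμ w => by
        obtain ⟨h1, h2⟩ := mem_filter.1 hμ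
        rw [← h2]
        exact (hal μ h1).2 w
  have hAne : A.Nonempty := by
    rw [hA]
    refine Nonempty.image (card_pos.1 ?_) _
    rw [hGc]
    exact Nat.choose_pos (by omega)
  obtain ⟨a₀, ha₀, hfib⟩ := MP9b2bac.U.exists_fiber A hAne fun a => Ideal.span {a}
  have himg : (A.image fun a => Ideal.span {a}).card ≤ (B ^ D) ^ 2 * 2 ^ D := by
    have := hci ((B : ℝ) ^ D) (A.image fun a => Ideal.span {a})
      (fun I hI => by
        obtain ⟨a, ha, rfl⟩ := mem_image.1 hI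
        rw [Ne, Ideal.span_singleton_eq_bot]
        exact (hA0 a ha).1)
      (fun I hI => by
        obtain ⟨a, ha, rfl⟩ := mem_image.1 hI
        exact (hA0 a ha).2.2)
    exact_mod_cast this
  obtain ⟨F, hF⟩ : ∃ F, F = A.filter fun a => Ideal.span {a} = Ideal.span {a₀} := ⟨_, rfl⟩
  rw [← hF] at hfib
  have hu : ∀ a : 𝓞 K, ∃ u : (𝓞 K)ˣ, a ∈ F → a₀ * u = a := by
    intro a
    by_cases ha : a ∈ F
    · obtain ⟨u, hu⟩ := Ideal.span_singleton_eq_span_singleton.1 (mem_filter.1 (hF ▸ ha)).2.symm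
      exact ⟨u, fun _ => hu⟩
    · exact ⟨1, fun h => (ha h).elim⟩
  choose u hu using hu
  have hinj : Set.InjOn u F := fun a ha b hb h => by rw [← hu a ha, ← hu b hb, h]
  have hlB : Real.log B ≤ ((E * 4 * B ^ 2 : ℕ) : ℝ) := by
    refine (Real.log_le_self hBp.le).trans ?_
    exact_mod_cast (Nat.le_self_pow two_ne_zero B).trans (Nat.le_mul_of_pos_left _ (by positivity))
  refine ⟨F.image u, ?_, fun σ : K →+* ℂ => Real.log B + (H : ℝ) / D - Real.log (InfinitePlace.mk σ (a₀ : K)),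
    ?_, ?_⟩
  · rw [card_image_of_injOn hinj, ← hGc]
    calc G.card ≤ (E ^ D * 2 ^ D) * (F.card * ((B ^ D) ^ 2 * 2 ^ D)) :=
          hGA.trans (Nat.mul_le_mul_left _ (hfib.trans (Nat.mul_le_mul_left _ himg)))
      _ = (E * (2 * 2) * B ^ 2) ^ D * F.card := by
          rw [mul_pow, mul_pow, mul_pow]
          ring
  · rw [sum_emb_Uni fun w => Real.log B + (H : ℝ) / D - Real.log (w (a₀ : K))]
    have h6 := sum_log_nonneg_Uni a₀ (hA0 a₀ ha₀).1
    simp only [sum_sub_distrib, sum_add_distrib, sum_const, card_univ, hcp,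
      nsmul_eq_mul]
    have h7 : (D : ℝ) * ((H : ℝ) / D) = H := by field_simp
    have h8 := mul_le_mul_of_nonneg_left hlB hD.le
    linarith
  · intro σ y hy
    obtain ⟨a, ha, rfl⟩ := mem_image.1 hy
    have ha' := hA0 a (mem_filter.1 (hF ▸ ha)).1
    have h1 := ha'.2.1 (InfinitePlace.mk σ)
    have hp : 0 < InfinitePlace.mk σ (a₀ : K) :=
      pos_iff.2 (RingOfIntegers.coe_ne_zero_iff.2 (hA0 a₀ ha₀).1)
    have h2 : InfinitePlace.mk σ (a : K) =
        InfinitePlace.mk σ (a₀ : K) * ‖σ ((u a : 𝓞 K) : K)‖ := by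
      conv_lhs => rw [← hu a ha]
      push_cast
      rw [map_mul, InfinitePlace.apply σ ((u a : 𝓞 K) : K)]
    rw [h2, Real.log_mul hp.ne' (emb_unit_pos _ σ).ne'] at h1
    rw [← Real.log_le_iff_le_exp (emb_unit_pos _ σ)]
    linarith

end Pool.Agent.MP_9b2bac_nt.B
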