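import Pool.Agent.MP_9b2bac_nt.B.Tow
import Pool.Agent.MP_9b2bac_nt.B.Der
import Pool.Agent.MP_9b2bac_nt.B.Desc
import Pool.Agent.MP_9b2bac_nt.B.Hlf
import Pool.Agent.MP_9b2bac_nt.B.Kum
import Pool.Agent.MP_9b2bac_nt.B.Par
import Pool.Agent.MP_9b2bac_nt.B.Sch
import Pool.Agent.MP_9b2bac_nt.B.Set
import Pool.Agent.MP_9b2bac_nt.B.Sie
import Pool.Agent.MP_9b2bac_nt.B.Xtr
import Pool.Agent.MP_9b2bac_nt.B.Uni
import Pool.Agent.MP_9b2bac_nt.B.Coo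
import Pool.Agent.MP_9b2bac_nt.Fin.Big

/-! The power saving bounds for the Fermat quotient and for primitive prime factors. -/

namespace Pool.Agent.MP_9b2bac_nt.B

theorem desc : DESC_st := desc_st der_st (xtr_st sch_st der_st) kum_st hlf_st end_st

theorem val : VAL_st := val_st (bak_st (set_st uni_st coo_st) sie_st desc par_st) tow

theorem prim : ∃ c : ℝ, 0 < c ∧ ∃ n₀ : ℕ, ∀ n : ℕ, n₀ ≤ n →
    ∃ q : ℕ, q.Prime ∧ q ∣ 2 ^ n - 1 ∧ (∀ m : ℕ, 0 < m → m < n → ¬ q ∣ 2 ^ m - 1) ∧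
      (n : ℝ) ^ (1 + c) < q := by
  obtain ⟨c, hc, q₀, h⟩ := val
  have h0 : 0 < min c (1 / 2) := lt_min hc (by norm_num)
  have h1 : min c (1 / 2) ≤ 1 / 2 := min_le_right _ _
  obtain ⟨n₀, hn⟩ := Fin.big_prime 2 le_rfl (min c (1 / 2)) h0 (by linarith)
    ⟨q₀, fun p hp hp0 => (h p hp hp0 _ pow_padicValNat_dvd).trans
      (Real.rpow_le_rpow_of_exponent_le (by exact_mod_cast hp.one_le)
        (by linarith [min_le_left c (1 / 2)]))⟩ (1 + min c (1 / 2) / 2) (by nlinarith)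
  refine ⟨min c (1 / 2) / 2, by positivity, n₀, fun n hn0 => ?_⟩
  obtain ⟨q, hq, ho, hl⟩ := hn n hn0
  refine ⟨q, hq, Fin.dvd_of_order 2 n q le_rfl ho, fun m hm hmn hd => ?_, hl⟩
  have := Nat.le_of_dvd hm (orderOf_dvd_of_pow_eq_one ((Fin.dvd_iff_pow 2 m q le_rfl).1 hd))
  omega

end Pool.Agent.MP_9b2bac_nt.B
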