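import Pool.Agent.MP_9b2bac_nt.B.Main
import Pool.Agent.MP_9b2bac_nt.Pw.Final

/-! The smooth part and the number of prime factors of `a ^ n - 1`. -/

open Finset
open Pool.Agent.MP_9b2bac_nt.Pw

namespace Pool.Agent.MP_9b2bac_nt.B

theorem part_Om {a n p0 : ℕ} (ha : 2 ≤ a) (hn : n ≠ 0) {c P : ℝ} (hc : c ≤ 1) (hP : 1 ≤ P)
    (h : ∀ p : ℕ, p.Prime → p0 ≤ p → (padicValNat p (a ^ (p - 1) - 1) : ℝ) ≤ (p : ℝ) ^ (1 - c))
    (S : Finset ℕ) (hS : ∀ p ∈ S, p.Prime ∧ p ∣ a ^ n - 1 ∧ (p : ℝ) ≤ P) :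
    ∑ p ∈ S, (padicValNat p (a ^ n - 1) : ℝ) * Real.log p ≤
      n.divisors.card * (p0 * Real.log a + √(Real.log a * Real.log P) * P ^ (1 - c / 2)) +
        2 * Real.log a + Real.log n := by
  classical
  have hSp : ∀ p ∈ S, p.Prime := fun p hp => (hS p hp).1
  have hSd : ∀ p ∈ S, p ∣ a ^ n - 1 := fun p hp => (hS p hp).2.1
  have h1 : ∑ p ∈ S, (padicValNat p (a ^ n - 1) : ℝ) * Real.log p ≤
      ∑ p ∈ S, ((padicValNat p (a ^ orderOf (a : ZMod p) - 1) : ℝ) * Real.log p +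
      (padicValNat p (a ^ 2 - 1) : ℝ) * Real.log p + (padicValNat p n : ℝ) * Real.log p) := by
    refine sum_le_sum fun p hp => ?_
    rw [← add_mul, ← add_mul]
    refine mul_le_mul_of_nonneg_right ?_ (Real.log_natCast_nonneg p)
    have : padicValNat p (a ^ n - 1) ≤ padicValNat p (a ^ orderOf (a : ZMod p) - 1) +
        padicValNat p (a ^ 2 - 1) + padicValNat p n := by
      by_cases h2 : p = 2
      · subst h2
        have := val_two ha hn (hSd 2 hp)
        omega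
      · have := val_odd ha hn (hSp p hp) h2 (hSd p hp)
        omega
    exact_mod_cast this
  rw [sum_add_distrib, sum_add_distrib] at h1
  have h2 := sum_val_log_le n S hSp
  have h3 : ∑ p ∈ S, (padicValNat p (a ^ 2 - 1) : ℝ) * Real.log p ≤ 2 * Real.log a := by
    refine (sum_val_log_le _ S hSp).trans ?_
    have h0 : 0 < a ^ 2 - 1 := Nat.pos_of_ne_zero (pow_sub_one_ne ha two_ne_zero)
    have e : 2 * Real.log a = Real.log ((a : ℝ) ^ 2) := by rw [Real.log_pow]; norm_num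
    rw [e]
    refine Real.log_le_log (by exact_mod_cast h0) ?_
    exact_mod_cast Nat.sub_le _ _
  have h4 : ∑ p ∈ S, (padicValNat p (a ^ orderOf (a : ZMod p) - 1) : ℝ) * Real.log p ≤
      n.divisors.card * (p0 * Real.log a + √(Real.log a * Real.log P) * P ^ (1 - c / 2)) := by
    rw [← sum_fiberwise_of_maps_to (s := S) (t := n.divisors) (g := fun p => orderOf (a : ZMod p))
      (fun p hp => Nat.mem_divisors.2 ⟨(ord_facts ha hn (hSp p hp) (hSd p hp)).1, hn⟩),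
      ← nsmul_eq_mul]
    refine sum_le_card_nsmul _ _ _ fun l hl => ?_
    have hl0 : l ≠ 0 := (Nat.pos_of_mem_divisors hl).ne'
    refine le_trans (le_of_eq (sum_congr rfl fun p hp => ?_))
      (level_le ha hl0 hc hP h (S.filter fun p => orderOf (a : ZMod p) = l) fun p hp => ?_)
    · rw [(mem_filter.1 hp).2]
    · obtain ⟨hp1, hp2⟩ := mem_filter.1 hp
      exact ⟨hSp p hp1, hp2 ▸ (ord_facts ha hn (hSp p hp1) (hSd p hp1)).2.1, (hS p hp1).2.2⟩
  linarith

/-- the smooth part is small -/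
theorem smooth_Om (a : ℕ) (ha : 2 ≤ a) (c c' : ℝ) (hc1 : c ≤ 1) (hc' : 0 ≤ c')
    (hcc : (1 + c') * (1 - c / 2) < 1) (p0 : ℕ)
    (h : ∀ p : ℕ, p.Prime → p0 ≤ p → (padicValNat p (a ^ (p - 1) - 1) : ℝ) ≤ (p : ℝ) ^ (1 - c)) :
    ∃ e E : ℝ, 0 < e ∧ 0 < E ∧ ∀ n : ℕ, 1 ≤ n → ∀ S : Finset ℕ,
      (∀ p ∈ S, p.Prime ∧ p ∣ a ^ n - 1 ∧ (p : ℝ) ≤ (n : ℝ) ^ (1 + c')) →
      ∑ p ∈ S, (padicValNat p (a ^ n - 1) : ℝ) * Real.log p ≤ E * (n : ℝ) ^ (1 - e) := by
  set e : ℝ := (1 - (1 + c') * (1 - c / 2)) / 4 with he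
  have he0 : 0 < e := by rw [he]; linarith
  have he1 : e ≤ 1 / 4 := by
    have : 0 ≤ (1 + c') * (1 - c / 2) := mul_nonneg (by linarith) (by linarith)
    rw [he]; linarith
  obtain ⟨C, hC1, hC⟩ := Pool.Agent.MP_2a1f0e_nt.divisor_bound he0
  have hL0 : 0 ≤ Real.log a := Real.log_natCast_nonneg a
  set L := Real.log a with hL
  set D : ℝ := √(L * (1 + c') / (2 * e)) with hD
  have hD0 : 0 ≤ D := Real.sqrt_nonneg _
  refine ⟨e, C * (p0 * L + D) + 2 * L + 1 / e, he0, by positivity, fun n hn1 S hS => ?_⟩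
  have hx1 : (1 : ℝ) ≤ n := by exact_mod_cast hn1
  have hx0 : (0 : ℝ) < n := by linarith
  have hP : (1 : ℝ) ≤ (n : ℝ) ^ (1 + c') := Real.one_le_rpow hx1 (by linarith)
  have h1 := part_Om ha (by omega : n ≠ 0) hc1 hP h S hS
  set x : ℝ := (n : ℝ) with hx
  have hmono : ∀ s t : ℝ, s ≤ t → x ^ s ≤ x ^ t := fun s t hst =>
    Real.rpow_le_rpow_of_exponent_le hx1 hst
  have hs : √(L * Real.log (x ^ (1 + c'))) ≤ D * x ^ e := by
    have h2 : Real.log x ≤ x ^ (2 * e) / (2 * e) := Real.log_le_rpow_div hx0.le (by positivity)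
    have h3 : x ^ (2 * e) = (x ^ e) ^ 2 := by
      rw [← Real.rpow_natCast, ← Real.rpow_mul hx0.le]; congr 1; push_cast; ring
    rw [Real.log_rpow hx0]
    refine Real.sqrt_le_iff.2 ⟨by positivity, ?_⟩
    rw [mul_pow, hD, Real.sq_sqrt (by positivity), ← h3]
    calc L * ((1 + c') * Real.log x) ≤ L * ((1 + c') * (x ^ (2 * e) / (2 * e))) := by gcongr
      _ = _ := by ring
  have hpw : (x ^ (1 + c')) ^ (1 - c / 2) = x ^ (1 - 4 * e) := by
    rw [← Real.rpow_mul hx0.le]; congr 1; rw [he]; ring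
  rw [hpw] at h1
  set y := x ^ (1 - e) with hy
  have hy1 : 1 ≤ y := Real.one_le_rpow hx1 (by linarith)
  have hey : x ^ e ≤ y := hmono _ _ (by linarith)
  have h6 : x ^ e * (x ^ e * x ^ (1 - 4 * e)) ≤ y := by
    rw [← Real.rpow_add hx0, ← Real.rpow_add hx0]
    exact hmono _ _ (by linarith)
  have h7 : Real.log x ≤ 1 / e * y := by
    have h2 : Real.log x ≤ x ^ e / e := Real.log_le_rpow_div hx0.le he0
    calc Real.log x ≤ x ^ e / e := h2
      _ ≤ y / e := by gcongr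
      _ = _ := by ring
  have h8 : (n.divisors.card : ℝ) * (p0 * L + √(L * Real.log (x ^ (1 + c'))) * x ^ (1 - 4 * e)) ≤
      C * (p0 * L + D) * y := by
    calc _ ≤ C * x ^ e * (p0 * L + D * x ^ e * x ^ (1 - 4 * e)) := by
          gcongr
          exact hC n
      _ = C * (p0 * L * x ^ e + D * (x ^ e * (x ^ e * x ^ (1 - 4 * e)))) := by ring
      _ ≤ C * (p0 * L * y + D * y) := by gcongr
      _ = _ := by ring
  have h9 : 2 * L ≤ 2 * L * y := by nlinarith
  nlinarith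

/-- the number of prime factors -/
theorem omega_Om (a : ℕ) (ha : 2 ≤ a) (c : ℝ) (hc : 0 < c) (hc1 : c ≤ 1) (p0 : ℕ)
    (h : ∀ p : ℕ, p.Prime → p0 ≤ p → (padicValNat p (a ^ (p - 1) - 1) : ℝ) ≤ (p : ℝ) ^ (1 - c)) :
    ∃ n₀ : ℕ, ∀ n : ℕ, n₀ ≤ n → (ArithmeticFunction.cardFactors (a ^ n - 1) : ℝ) ≤
      (1 - c / 8) * (n * Real.log a / Real.log n) := by
  classical
  obtain ⟨e, E, e0, E0, hE⟩ := smooth_Om a ha c (c / 2) hc1 (by positivity) (by nlinarith) p0 h
  obtain ⟨n₁, h₁⟩ := Filter.eventually_atTop.1 (Fin.ev_log (32 * E / c) (1 - e) (by linarith))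
  refine ⟨max n₁ 3, fun n hn => ?_⟩
  have n3 : 3 ≤ n := (le_max_right _ _).trans hn
  have hb := h₁ n ((le_max_left _ _).trans hn)
  have x3 : (3 : ℝ) ≤ n := by exact_mod_cast n3
  have x0 : (0 : ℝ) < n := by linarith
  have l1 : 1 ≤ Real.log n := by
    rw [Real.le_log_iff_exp_le x0]
    linarith [Real.exp_one_lt_d9]
  have l2 := Real.log_two_gt_d9
  have la : Real.log 2 ≤ Real.log a := Real.log_le_log two_pos (by exact_mod_cast ha)
  have N0 := pow_sub_one_ne ha (by omega : n ≠ 0)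
  set N := a ^ n - 1 with hN
  have e1 : (ArithmeticFunction.cardFactors N : ℝ) =
      ∑ p ∈ N.primeFactors, (padicValNat p N : ℝ) := by
    rw [ArithmeticFunction.cardFactors_eq_sum_factorization, Finsupp.sum,
      Nat.support_factorization, Nat.cast_sum]
    exact sum_congr rfl fun p hp => by
      rw [Nat.factorization_def _ (Nat.prime_of_mem_primeFactors hp)]
  have s1 : ∑ p ∈ N.primeFactors.filter (fun p : ℕ => (p : ℝ) ≤ (n : ℝ) ^ (1 + c / 2)),
      (padicValNat p N : ℝ) ≤ 2 * (E * (n : ℝ) ^ (1 - e)) := by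
    refine le_trans ?_ (mul_le_mul_of_nonneg_left (hE n (by omega)
      (N.primeFactors.filter fun p : ℕ => (p : ℝ) ≤ (n : ℝ) ^ (1 + c / 2)) fun p hp =>
        ⟨Nat.prime_of_mem_primeFactors (mem_filter.1 hp).1,
          Nat.dvd_of_mem_primeFactors (mem_filter.1 hp).1, (mem_filter.1 hp).2⟩) two_pos.le)
    rw [mul_sum]
    refine sum_le_sum fun p hp => ?_
    have h2 : Real.log 2 ≤ Real.log p := Real.log_le_log two_pos (by
      exact_mod_cast (Nat.prime_of_mem_primeFactors (mem_filter.1 hp).1).two_le)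
    have h3 : (0 : ℝ) ≤ padicValNat p N := Nat.cast_nonneg _
    rw [← hN]
    nlinarith
  have s2 : (∑ p ∈ N.primeFactors.filter (fun p : ℕ => ¬ (p : ℝ) ≤ (n : ℝ) ^ (1 + c / 2)),
      (padicValNat p N : ℝ)) * ((1 + c / 2) * Real.log n) ≤ n * Real.log a := by
    have h2 := sum_val_log_le N
      (N.primeFactors.filter fun p : ℕ => ¬ (p : ℝ) ≤ (n : ℝ) ^ (1 + c / 2))
      fun p hp => Nat.prime_of_mem_primeFactors (mem_filter.1 hp).1
    have h3 : Real.log N ≤ n * Real.log a := by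
      rw [← Real.log_pow]
      exact Real.log_le_log (by exact_mod_cast Nat.pos_of_ne_zero N0)
        (by exact_mod_cast Nat.sub_le _ _)
    refine le_trans ?_ (h2.trans h3)
    rw [sum_mul]
    refine sum_le_sum fun p hp => mul_le_mul_of_nonneg_left ?_ (Nat.cast_nonneg _)
    rw [← Real.log_rpow x0]
    exact Real.log_le_log (by positivity) (not_le.1 (mem_filter.1 hp).2).le
  rw [e1, ← sum_filter_add_sum_filter_not _ (fun p : ℕ => (p : ℝ) ≤ (n : ℝ) ^ (1 + c / 2)),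
    ← mul_div_assoc, le_div_iff₀ (by linarith), add_mul]
  set A := ∑ p ∈ N.primeFactors.filter (fun p : ℕ => (p : ℝ) ≤ (n : ℝ) ^ (1 + c / 2)),
      (padicValNat p N : ℝ)
  set B := ∑ p ∈ N.primeFactors.filter (fun p : ℕ => ¬ (p : ℝ) ≤ (n : ℝ) ^ (1 + c / 2)),
      (padicValNat p N : ℝ)
  set y := (n : ℝ) ^ (1 - e)
  set l := Real.log n
  set W := n * Real.log a with hW
  have y0 : 0 < y := by positivity
  have W0 : n / 2 ≤ W := by rw [hW]; nlinarith
  have t1 : A * l ≤ c / 8 * W := by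
    have h2 : A * l ≤ 2 * (E * y) * l ^ 2 :=
      mul_le_mul s1 (by nlinarith) (by linarith) (by positivity)
    have h3 : 2 * (E * y) * l ^ 2 = c / 16 * (32 * E / c * l ^ 2 * y) := by field_simp; ring
    have h4 : c / 16 * (32 * E / c * l ^ 2 * y) ≤ c / 16 * n := by gcongr
    nlinarith
  have t2 : B * l ≤ (1 - c / 4) * W := by
    refine le_of_mul_le_mul_left ?_ (by positivity : 0 < 1 + c / 2)
    have h2 : 1 * W ≤ (1 + c / 2) * (1 - c / 4) * W :=
      mul_le_mul_of_nonneg_right (by nlinarith) (by linarith)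
    nlinarith
  linarith

theorem omega : ∃ c : ℝ, 0 < c ∧ ∃ n₀ : ℕ, ∀ n : ℕ, n₀ ≤ n →
    (ArithmeticFunction.cardFactors (2 ^ n - 1) : ℝ) ≤ (1 - c) * (n * Real.log 2 / Real.log n) := by
  obtain ⟨c, hc, q₀, h⟩ := val
  have h0 : 0 < min c 1 := lt_min hc one_pos
  exact ⟨min c 1 / 8, by positivity, by
    simpa using omega_Om 2 le_rfl (min c 1) h0 (min_le_right _ _) q₀ fun p hp hp0 =>
      (h p hp hp0 _ pow_padicValNat_dvd).trans (Real.rpow_le_rpow_of_exponent_le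
        (by exact_mod_cast hp.one_le) (by linarith [min_le_left c 1]))⟩

end Pool.Agent.MP_9b2bac_nt.B
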