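import Pool.Agent.MP_9b2bac_nt.B.BasicG

/-!
Adjoining a good square root gives the next layer of the tower.
-/

open NumberField Module Polynomial
open Pool.Agent.MP_14ad9d_nt.Full

namespace Pool.Agent.MP_9b2bac_nt.B

section
variable {L E : Type} [Field L] [NumberField L] [Field E] [NumberField E] [Algebra L E]

/-- discriminants of quadratic equations lie in the different -/
theorem disc_Quad (h2 : finrank L E = 2) (θ : E) (s n : 𝓞 L)
    (h : θ ^ 2 - algebraMap L E s * θ - algebraMap L E n = 0) (hθ : ∀ c, algebraMap L E c ≠ θ) :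
    algebraMap (𝓞 L) (𝓞 E) (s ^ 2 + 4 * n) ∈ differentIdeal (𝓞 L) (𝓞 E) := by
  let p : (𝓞 L)[X] := X ^ 2 - C s * X - C n
  have pm : p.Monic := by simp only [p]; monicity!
  have pd : p.natDegree ≤ 2 := by simp only [p]; compute_degree
  have hi : IsIntegral ℤ θ := isIntegral_trans (A := 𝓞 L) θ ⟨p, pm, by
    simpa [p, IsScalarTower.algebraMap_apply (𝓞 L) L E] using h⟩
  let t : 𝓞 E := ⟨θ, hi⟩
  have ht : t ^ 2 - algebraMap (𝓞 L) (𝓞 E) s * t - algebraMap (𝓞 L) (𝓞 E) n = 0 :=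
    RingOfIntegers.ext (by push_cast; exact h)
  have hi' : IsIntegral (𝓞 L) t := Algebra.IsIntegral.isIntegral t
  have hm : minpoly (𝓞 L) t = p := by
    refine (eq_of_monic_of_dvd_of_natDegree_le (minpoly.monic hi') pm
      (minpoly.isIntegrallyClosed_dvd hi' (by simpa [p] using ht)) (pd.trans ?_)).symm
    rw [minpoly.two_le_natDegree_iff hi']
    rintro ⟨c, hc⟩
    exact hθ c (congrArg (fun z : 𝓞 E => (z : E)) hc)
  have ha : Algebra.adjoin L {algebraMap (𝓞 E) E t} = ⊤ := by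
    refine ((Subalgebra.isSimpleOrder_of_finrank h2).eq_bot_or_eq_top _).resolve_left fun e => ?_
    have h1 : θ ∈ (⊥ : Subalgebra L E) := e ▸ Algebra.subset_adjoin (Set.mem_singleton _)
    obtain ⟨c, hc⟩ := Algebra.mem_bot.1 h1
    exact hθ c hc
  have h1 := aeval_derivative_mem_differentIdeal (𝓞 L) L E t ha
  have h3 : aeval t (derivative p) = 2 * t - algebraMap (𝓞 L) (𝓞 E) s := by
    simp [p, map_ofNat, one_add_one_eq_two]
  rw [hm, h3] at h1
  have h4 : algebraMap (𝓞 L) (𝓞 E) (s ^ 2 + 4 * n) =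
      (2 * t - algebraMap (𝓞 L) (𝓞 E) s) * (2 * t - algebraMap (𝓞 L) (𝓞 E) s) := by
    rw [map_add, map_pow, map_mul, map_ofNat]
    linear_combination (-4) * ht
  rw [h4]
  exact Ideal.mul_mem_left _ _ h1

/-- the extension is unramified -/
theorem unr_Quad (h2 : finrank L E = 2) {γ : L} {ρ : E} (hρ : ρ ^ 2 = algebraMap L E γ)
    (h0 : γ ≠ 0) (he : Evn γ) (hs : ¬IsSquare γ) {δ : L} {x a : 𝓞 L} (hδ : δ ≠ 0)
    (hx : γ * δ ^ 2 = x) (hc : IsCoprime x 2) (h4 : 4 ∣ x - a ^ 2) : Unr L E := by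
  have hr : ∀ c, algebraMap L E c ≠ ρ := fun c e => hs ⟨c, (algebraMap L E).injective (by
    rw [← hρ, ← e, map_mul, sq])⟩
  rw [Unr, ← Ideal.comap_eq_top_iff (f := algebraMap (𝓞 L) (𝓞 E))]
  by_contra hne
  obtain ⟨P, hP, hle⟩ := Ideal.exists_le_maximal _ hne
  obtain ⟨b, hb⟩ := h4
  have hb' : (x : L) - (a : L) ^ 2 = 4 * (b : L) := by
    simpa [map_ofNat] using congrArg (algebraMap (𝓞 L) L) hb
  have d0 : algebraMap L E δ ≠ 0 := (_root_.map_ne_zero _).2 hδ
  have h1 := hle (disc_Quad h2 ((algebraMap L E a + algebraMap L E δ * ρ) / 2) a b (by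
    have := congrArg (algebraMap L E) (hx ▸ hb')
    simp only [map_sub, map_mul, map_pow, map_ofNat, ← hρ] at this
    linear_combination (1 / 4) * this) fun c e => hr ((2 * c - a) / δ) (by
      rw [map_div₀, map_sub, map_mul, map_ofNat, e]
      field_simp
      ring))
  rw [show a ^ 2 + 4 * b = x by linear_combination -hb] at h1
  have x0 : x ≠ 0 := by
    rintro rfl
    exact mul_ne_zero h0 (pow_ne_zero 2 hδ) (hx.trans (by simp))
  have h3 : (2 : 𝓞 L) ∉ P := fun h => by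
    obtain ⟨u, v, huv⟩ := hc
    exact hP.ne_top ((Ideal.eq_top_iff_one _).2
      (huv ▸ P.add_mem (P.mul_mem_left _ h1) (P.mul_mem_left _ h)))
  obtain ⟨δ', x', hδ', hx', h5⟩ := ev h0 he {⟨P, hP.isPrime, fun e => x0 (by simpa [e] using h1)⟩}
  have d1 : algebraMap L E δ' ≠ 0 := (_root_.map_ne_zero _).2 hδ'
  have h6 := hle (disc_Quad h2 (algebraMap L E δ' * ρ) 0 x' (by
    have := congrArg (algebraMap L E) hx'
    simp only [map_mul, map_pow, ← hρ] at this
    rw [show ((0 : 𝓞 L) : L) = 0 from rfl, map_zero]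
    linear_combination this) fun c e => hr (c / δ') (by
      rw [map_div₀, e]
      field_simp))
  rw [show (0 : 𝓞 L) ^ 2 + 4 * x' = 2 * (2 * x') by ring] at h6
  exact h5 _ (Finset.mem_singleton_self _) (((hP.isPrime.mem_or_mem
    ((hP.isPrime.mem_or_mem h6).resolve_left h3))).resolve_left h3)

end

theorem quad_st (hU : UNR_st) : QUAD_st := by
  intro q _ k L _ _ _ _ _ a ι γ hT hI he ⟨hpos, ⟨s, hsq⟩, δ, x, b, hδ, hx, hc, h4⟩ hs
  have hirr : Irreducible (X ^ 2 - C γ) :=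
    X_pow_sub_C_irreducible_of_prime Nat.prime_two fun c e => hs ⟨c, by rw [← e, sq]⟩
  have := Fact.mk hirr
  let E := AdjoinRoot (X ^ 2 - C γ)
  let ρ : E := AdjoinRoot.root _
  have fin : Module.Finite L E := (AdjoinRoot.powerBasis hirr.ne_zero).finite
  have h2 : finrank L E = 2 := by
    rw [(AdjoinRoot.powerBasis hirr.ne_zero).finrank, AdjoinRoot.powerBasis_dim,
      natDegree_X_pow_sub_C]
  have nf : NumberField E := NumberField.of_module_finite L E
  have hρ : ρ ^ 2 = algebraMap L E γ := by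
    have h := AdjoinRoot.eval₂_root (X ^ 2 - C γ)
    rw [eval₂_sub, eval₂_X_pow, eval₂_C, sub_eq_zero] at h
    exact h
  have lift : ∀ (F : Type) [Field F] (φ : L →+* F) (t : F), t ^ 2 = φ γ →
      ∃ ψ : E →+* F, (∀ c, ψ (algebraMap L E c) = φ c) ∧ ψ ρ = t := fun F _ φ t ht =>
    ⟨AdjoinRoot.lift φ t (by rw [eval₂_sub, eval₂_X_pow, eval₂_C, ht, sub_self]),
      fun c => AdjoinRoot.lift_of _, AdjoinRoot.lift_root _⟩
  have ρ0 : ρ ≠ 0 := fun e => (_root_.map_ne_zero (algebraMap L E)).2 hI.1 (by rw [← hρ, e]; simp)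
  have hdeg : finrank k E = 2 ^ (a + 1) := by
    rw [← finrank_mul_finrank k L E, hT.deg, h2, pow_succ]
  have gal := hT.gal
  refine ⟨E, inferInstance, nf, inferInstance, ⟨?_, hdeg, ⟨fun v => ?_⟩, ?_⟩, ?_⟩
  · choose d hd using hI.2
    have d0 : ∀ g, algebraMap L E (d g) ≠ 0 := fun g => (_root_.map_ne_zero _).2 fun e =>
      (_root_.map_ne_zero g).2 hI.1 (by rw [hd, e]; simp)
    have ex : ∀ p : (L ≃ₐ[k] L) × ℤˣ, ∃ ψ : E ≃ₐ[k] E,
        (∀ c, ψ (algebraMap L E c) = algebraMap L E (p.1 c)) ∧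
          ψ ρ = ((p.2 : ℤ) : E) * (algebraMap L E (d p.1) * ρ) := by
      rintro ⟨g, ε⟩
      obtain ⟨ψ, h1, h3⟩ := lift E ((algebraMap L E).comp (g : L →+* L))
        (((ε : ℤ) : E) * (algebraMap L E (d g) * ρ)) (by
          have h5 : ((ε : ℤ) : E) ^ 2 = 1 := by
            rcases Int.units_eq_one_or ε with rfl | rfl <;> simp
          change _ = algebraMap L E (g γ)
          rw [mul_pow, h5, mul_pow, hρ, hd, map_mul, map_pow]
          ring)
      let ψ' : E →ₐ[k] E := ⟨ψ, fun c => by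
        change ψ (algebraMap k E c) = _
        rw [IsScalarTower.algebraMap_apply k L E, h1]
        exact congrArg (algebraMap L E) (g.commutes c)⟩
      exact ⟨AlgEquiv.ofBijective ψ' ψ'.bijective, h1, h3⟩
    choose Ψ h1 h3 using ex
    have inj : Function.Injective Ψ := by
      rintro ⟨g, ε⟩ ⟨g', ε'⟩ e
      obtain rfl : g = g' := AlgEquiv.ext fun c => (algebraMap L E).injective
        ((h1 (g, ε) c).symm.trans (e ▸ h1 (g', ε') c))
      have h5 := (h3 (g, ε)).symm.trans (e ▸ h3 (g, ε'))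
      have h6 : ε = ε' := Units.ext (Int.cast_injective
        (mul_right_cancel₀ (mul_ne_zero (d0 g) ρ0) h5))
      rw [h6]
    refine IsGalois.of_card_aut_eq_finrank k E (le_antisymm ?_ ?_)
    · classical
      rw [Nat.card_eq_fintype_card]
      exact AlgEquiv.card_le
    · have h5 := Nat.card_le_card_of_injective Ψ inj
      rwa [Nat.card_prod, IsGalois.card_aut_eq_finrank, hT.deg, Nat.card_eq_fintype_card,
        Fintype.card_units_int, ← pow_succ, ← hdeg] at h5
  · rw [InfinitePlace.isReal_iff, ComplexEmbedding.isReal_iff]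
    generalize v.embedding = φ
    have := hT.real
    have h1 := IsTotallyReal.complexEmbedding_isReal (φ.comp (algebraMap L E))
    refine AdjoinRoot.ringHom_ext (RingHom.ext fun c => ?_) ?_
    · exact congrArg (fun f : L →+* ℂ => f c) (ComplexEmbedding.isReal_iff.1 h1)
    · have h3 := hpos h1.embedding
      have h5 : φ ρ ^ 2 = (√(h1.embedding γ) : ℂ) ^ 2 := by
        rw [← map_pow, hρ, ← Complex.ofReal_pow, Real.sq_sqrt h3.le,
          ComplexEmbedding.IsReal.coe_embedding_apply]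
        rfl
      change (starRingEnd ℂ) (φ ρ) = φ ρ
      rcases sq_eq_sq_iff_eq_or_eq_neg.1 h5 with e | e <;> simp [e]
  · exact (hU.1 k L E).2 ⟨hT.unr, unr_Quad h2 hρ hI.1 he hs hδ hx hc h4⟩
  · obtain ⟨ψ, -⟩ := lift ℚ_[q] ι s (by rw [hsq, sq])
    exact ⟨ψ⟩

end Pool.Agent.MP_9b2bac_nt.B
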