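import Pool.Agent.MP_9b2bac_nt.B.BasicG

/-!
The local invariants at infinity, at `q` and at two.
-/

open NumberField Module

namespace Pool.Agent.MP_9b2bac_nt.B

section
variable {k L : Type} [Field k] [Field L] [Algebra k L]

/-- the signs -/
theorem sgn_Sel [IsGalois k L] : ∃ f : L → (k →+* ℂ) → Prop, ∀ γ γ' : L, Inv k γ → Inv k γ' →
    f γ = f γ' → ∀ σ : L →+* ℝ, 0 < σ (γ * γ') := by
  refine ⟨fun γ τ => ∃ σ : L →+* ℝ, (Complex.ofRealHom.comp σ).comp (algebraMap k L) = τ ∧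
    0 < σ γ, fun γ γ' h h' e σ => ?_⟩
  have key : ∀ x : L, Inv k x → ((∃ σ' : L →+* ℝ, (Complex.ofRealHom.comp σ').comp
      (algebraMap k L) = (Complex.ofRealHom.comp σ).comp (algebraMap k L) ∧ 0 < σ' x) ↔
      0 < σ x) := by
    intro x hx
    refine ⟨?_, fun h0 => ⟨σ, rfl, h0⟩⟩
    rintro ⟨σ', h1, h2⟩
    obtain ⟨g, hg⟩ := NumberField.ComplexEmbedding.exists_comp_symm_eq_of_comp_eq _ _ h1
    obtain ⟨δ, hδ⟩ := hx.2 g.symm
    have h3 : σ' (g.symm x) = σ x := Complex.ofReal_injective (RingHom.congr_fun hg x)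
    have h4 : σ x ≠ 0 := (map_ne_zero σ).2 hx.1
    rw [hδ, map_mul, map_pow] at h3
    exact lt_of_le_of_ne (h3 ▸ mul_nonneg h2.le (sq_nonneg _)) h4.symm
  have h5 : 0 < σ γ ↔ 0 < σ γ' := by
    rw [← key γ h, ← key γ' h']
    exact iff_of_eq (congrFun e _)
  have h6 : σ γ ≠ 0 := (map_ne_zero σ).2 h.1
  have h7 : σ γ' ≠ 0 := (map_ne_zero σ).2 h'.1
  rw [map_mul]
  rcases h6.lt_or_gt with h8 | h8
  · exact mul_pos_of_neg_of_neg h8 (lt_of_le_of_ne (not_lt.1 fun h9 => h8.not_gt (h5.2 h9)) h7)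
  · exact mul_pos h8 (h5.1 h8)

end

/-- the square classes of the `q`-adic numbers -/
theorem pad_Sel {q : ℕ} [Fact q.Prime] (hq : q ≠ 2) : ∃ f : ℚ_[q] → Prop × Prop,
    ∀ x y : ℚ_[q], x ≠ 0 → y ≠ 0 → f x = f y → IsSquare (x * y) := by
  have q0 : (q : ℚ_[q]) ≠ 0 := Nat.cast_ne_zero.2 (Fact.out : q.Prime).ne_zero
  have q1 : (q : ℝ) ≠ 0 := Nat.cast_ne_zero.2 (Fact.out : q.Prime).ne_zero
  have h : ∀ x : ℚ_[q], x ≠ 0 → ∃ (n : ℤ) (u : ℤ_[q]), PadicInt.toZMod u ≠ 0 ∧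
      x = u * (q : ℚ_[q]) ^ n := by
    intro x hx
    have h1 : ‖x * (q : ℚ_[q]) ^ (-x.valuation)‖ = 1 := by
      rw [norm_mul, Padic.norm_p_zpow, Padic.norm_eq_zpow_neg_valuation hx, ← zpow_add₀ q1]
      simp
    obtain ⟨u, hu⟩ : ∃ u : ℤ_[q], (u : ℚ_[q]) = x * (q : ℚ_[q]) ^ (-x.valuation) :=
      ⟨⟨_, h1.le⟩, rfl⟩
    refine ⟨x.valuation, u, ?_, ?_⟩
    · rw [Ne, ← RingHom.mem_ker, PadicInt.ker_toZMod, IsLocalRing.mem_maximalIdeal,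
        PadicInt.mem_nonunits, PadicInt.norm_def, hu]
      exact h1.not_lt
    · rw [hu, mul_assoc, ← zpow_add₀ q0]
      simp
  choose! n u h0 h1 using h
  refine ⟨fun x => (Even (n x), IsSquare (PadicInt.toZMod (u x))), fun x y hx hy e => ?_⟩
  obtain ⟨e1, e2⟩ := Prod.mk.inj e
  obtain ⟨m, hm⟩ : Even (n x + n y) := Int.even_add.2 (iff_of_eq e1)
  have h2 : IsSquare (PadicInt.toZMod (u x * u y)) := by
    rw [map_mul]
    by_cases h3 : IsSquare (PadicInt.toZMod (u x))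
    · exact h3.mul (e2 ▸ h3)
    · have h4 : ¬ IsSquare (PadicInt.toZMod (u y)) := e2 ▸ h3
      rw [← quadraticChar_neg_one_iff_not_isSquare] at h3 h4
      rw [← quadraticChar_one_iff_isSquare (mul_ne_zero (h0 x hx) (h0 y hy)), map_mul, h3, h4]
      norm_num
  have h5 := hen' hq (by rw [map_mul]; exact mul_ne_zero (h0 x hx) (h0 y hy)) h2
  have h6 : x * y = ((u x * u y : ℤ_[q]) : ℚ_[q]) * ((q : ℚ_[q]) ^ m * (q : ℚ_[q]) ^ m) := by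
    rw [← zpow_add₀ q0, ← hm, zpow_add₀ q0, PadicInt.coe_mul]
    conv_lhs => rw [h1 x hx, h1 y hy]
    ring
  rw [h6]
  exact h5.mul ⟨_, rfl⟩

section
variable {R : Type} [CommRing R]

/-- the class modulo four -/
def Kp_Sel (x t : R) : Prop := ∃ a, 4 ∣ x - a ^ 2 * (1 + 2 * t)

theorem Kp_Sel.mul {x x' t t' : R} (h : Kp_Sel x t) (h' : Kp_Sel x' t') :
    Kp_Sel (x * x') (t + t') := by
  obtain ⟨a, c, h⟩ := h
  obtain ⟨a', c', h'⟩ := h'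
  refine ⟨a * a', c * x' + a ^ 2 * (1 + 2 * t) * c' + (a * a') ^ 2 * t * t', ?_⟩
  linear_combination x' * h + a ^ 2 * (1 + 2 * t) * h'

theorem Kp_Sel.congr {x t t' : R} (h : Kp_Sel x t) (e : 2 ∣ t - t') : Kp_Sel x t' := by
  obtain ⟨a, c, h⟩ := h
  obtain ⟨d, e⟩ := e
  exact ⟨a, c + a ^ 2 * d, by linear_combination h + 2 * a ^ 2 * e⟩

theorem Kp_Sel.map {x t : R} (h : Kp_Sel x t) (φ : R →+* R) : Kp_Sel (φ x) (φ t) := by
  obtain ⟨a, c, h⟩ := h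
  refine ⟨φ a, φ c, ?_⟩
  have := congrArg φ h
  simpa [map_ofNat] using this

theorem Kp_Sel.sq [IsDomain R] [CharZero R] (h2 : ∀ x : R, 2 ∣ x ^ 2 → 2 ∣ x) {z t : R}
    (hz : IsCoprime (z ^ 2) 2) (h : Kp_Sel (z ^ 2) t) : 2 ∣ t := by
  obtain ⟨a, c, h⟩ := h
  obtain ⟨d, hd⟩ := h2 (z - a) ⟨2 * c + a ^ 2 * t + a ^ 2 - z * a, by linear_combination h⟩
  have h3 : a = z - 2 * d := by linear_combination -hd
  subst h3
  refine hz.symm.dvd_of_dvd_mul_left ⟨z * d - d ^ 2 + 2 * (z * d - d ^ 2) * t - c, ?_⟩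
  refine mul_left_cancel₀ (two_ne_zero (α := R)) ?_
  linear_combination -h

end

section
variable {L : Type} [Field L] [NumberField L]

theorem ex_Sel (h2 : Red2 L) {x : 𝓞 L} (hx : IsCoprime x 2) : ∃ t, Kp_Sel x t := by
  have : Finite (𝓞 L ⧸ Ideal.span {(2 : 𝓞 L)}) :=
    Ideal.finiteQuotientOfFreeOfNeBot _ (by simp)
  have h1 : Function.Injective fun y : 𝓞 L ⧸ Ideal.span {(2 : 𝓞 L)} => y ^ 2 := by
    intro y y' e
    obtain ⟨a, rfl⟩ := Ideal.Quotient.mk_surjective y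
    obtain ⟨b, rfl⟩ := Ideal.Quotient.mk_surjective y'
    simp only [← map_pow] at e
    rw [Ideal.Quotient.eq, Ideal.mem_span_singleton] at e ⊢
    obtain ⟨c, e⟩ := e
    exact h2 _ ⟨c + b ^ 2 - a * b, by linear_combination e⟩
  obtain ⟨y, hy⟩ := Finite.injective_iff_surjective.1 h1 (Ideal.Quotient.mk _ x)
  obtain ⟨a, rfl⟩ := Ideal.Quotient.mk_surjective y
  simp only [← map_pow] at hy
  rw [Ideal.Quotient.eq, Ideal.mem_span_singleton] at hy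
  obtain ⟨b, hb⟩ := hy
  obtain ⟨u, w, e⟩ := hx
  refine ⟨-b * u, a, b * (b * u - w), ?_⟩
  linear_combination (2 * b * u - 1) * hb + 2 * b * e

/-- the class at two of a field element -/
def Kq_Sel (γ : L) (t : 𝓞 L) : Prop :=
  ∃ (δ : L) (x : 𝓞 L), δ ≠ 0 ∧ γ * δ ^ 2 = x ∧ IsCoprime x 2 ∧ Kp_Sel x t

omit [NumberField L] in
theorem Kq_Sel.mul {γ γ' : L} {t t' : 𝓞 L} (h : Kq_Sel γ t) (h' : Kq_Sel γ' t') :
    Kq_Sel (γ * γ') (t + t') := by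
  obtain ⟨δ, x, h0, h1, h2, h3⟩ := h
  obtain ⟨δ', x', h0', h1', h2', h3'⟩ := h'
  refine ⟨δ * δ', x * x', mul_ne_zero h0 h0', ?_, h2.mul_left h2', h3.mul h3'⟩
  rw [RingOfIntegers.coe_eq_algebraMap, map_mul, ← RingOfIntegers.coe_eq_algebraMap,
    ← RingOfIntegers.coe_eq_algebraMap, ← h1, ← h1']
  ring

theorem Kq_Sel.uniq (h2 : Red2 L) {γ : L} {t t' : 𝓞 L} (h : Kq_Sel γ t) (h' : Kq_Sel γ t') :
    2 ∣ t - t' := by
  obtain ⟨δ, x, -, h1, h3, h4⟩ := h.mul h'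
  have e : (γ * δ) ^ 2 = x := by rw [← h1]; ring
  have h5 : IsIntegral ℤ (γ * δ) := IsIntegral.of_pow two_pos (e ▸ x.isIntegral_coe)
  have h6 : x = (⟨γ * δ, h5⟩ : 𝓞 L) ^ 2 := RingOfIntegers.ext (by rw [← e]; rfl)
  rw [h6] at h3 h4
  obtain ⟨c, hc⟩ := h4.sq h2 h3
  exact ⟨c - t', by linear_combination hc⟩

variable {k : Type} [Field k] [NumberField k] [Algebra k L]

omit [NumberField k] in
theorem Kq_Sel.inv (h2 : Red2 L) {γ : L} {t : 𝓞 L} (hγ : Inv k γ) (h : Kq_Sel γ t)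
    (g : L ≃ₐ[k] L) : 2 ∣ RingOfIntegers.mapRingHom (g : L →+* L) t - t := by
  refine Kq_Sel.uniq h2 ?_ h
  obtain ⟨δ, x, h0, h1, h3, h4⟩ := h
  obtain ⟨ε, hε⟩ := hγ.2 g
  have e0 : ε ≠ 0 := by
    rintro rfl
    exact (map_ne_zero g).2 hγ.1 (hε.trans (by simp))
  refine ⟨ε * g δ, RingOfIntegers.mapRingHom (g : L →+* L) x,
    mul_ne_zero e0 ((map_ne_zero g).2 h0), ?_, ?_, h4.map _⟩
  · change _ = g (x : L)
    rw [← h1, map_mul, map_pow, hε]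
    ring
  · simpa [map_ofNat] using h3.map (RingOfIntegers.mapRingHom (g : L →+* L))

theorem desc_Sel [IsGalois k L] (h2 : Red2 L) {θ : 𝓞 L} (hθ : Algebra.trace k L (θ : L) = 1)
    {γ : L} (hγ : Inv k γ) (he : Evn γ) :
    ∃ s : 𝓞 k, Kq_Sel γ (algebraMap (𝓞 k) (𝓞 L) s) := by
  have : FiniteDimensional k L := Module.Finite.of_restrictScalars_finite ℚ k L
  obtain ⟨δ, x, h0, h1, h3⟩ := ev_two hγ.1 he
  obtain ⟨t, ht⟩ := ex_Sel h2 h3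
  have hK : Kq_Sel γ t := ⟨δ, x, h0, h1, h3, ht⟩
  have tr : ∀ y : 𝓞 L, algebraMap (𝓞 k) (𝓞 L)
      ⟨Algebra.trace k L (y : L), Algebra.isIntegral_trace y.isIntegral_coe⟩ =
      ∑ g : L ≃ₐ[k] L, RingOfIntegers.mapRingHom (g : L →+* L) y := fun y => by
    apply RingOfIntegers.coe_injective
    rw [map_sum]
    exact trace_eq_sum_automorphisms (y : L)
  have h4 : ∑ g : L ≃ₐ[k] L, RingOfIntegers.mapRingHom (g : L →+* L) θ = 1 := by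
    rw [← tr, ← map_one (algebraMap (𝓞 k) (𝓞 L))]
    exact congrArg _ (RingOfIntegers.ext hθ)
  refine ⟨⟨Algebra.trace k L ((θ * t : 𝓞 L) : L),
    Algebra.isIntegral_trace (θ * t).isIntegral_coe⟩, δ, x, h0, h1, h3, ht.congr ?_⟩
  rw [tr, dvd_sub_comm]
  conv => enter [2, 2]; rw [← one_mul t, ← h4, Finset.sum_mul]
  rw [← Finset.sum_sub_distrib]
  refine Finset.dvd_sum fun g _ => ?_
  rw [map_mul, ← mul_sub]
  exact (hK.inv h2 hγ g).mul_left _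

theorem two_Sel [IsGalois k L] (h2 : Red2 L) {θ : 𝓞 L} (hθ : Algebra.trace k L (θ : L) = 1) :
    ∃ f : L → 𝓞 k ⧸ Ideal.span {((2 : ℕ) : 𝓞 k)}, ∀ γ γ' : L, Inv k γ → Evn γ → Inv k γ' →
      Evn γ' → f γ = f γ' → ∃ (δ : L) (x a : 𝓞 L), δ ≠ 0 ∧ γ * γ' * δ ^ 2 = x ∧ IsCoprime x 2 ∧
        4 ∣ x - a ^ 2 := by
  choose! s hs using fun γ : L => desc_Sel (k := k) (γ := γ) h2 hθ
  refine ⟨fun γ => Ideal.Quotient.mk _ (s γ), fun γ γ' h he h' he' e => ?_⟩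
  obtain ⟨δ, x, h0, h1, h3, h4⟩ := (hs γ h he).mul (hs γ' h' he')
  obtain ⟨c, hc⟩ := Ideal.mem_span_singleton.1 (Ideal.Quotient.eq.1 e)
  have h5 := congrArg (algebraMap (𝓞 k) (𝓞 L)) hc
  rw [map_sub, map_mul, map_natCast, Nat.cast_ofNat] at h5
  obtain ⟨a, ha⟩ := h4.congr (t' := 0) ⟨algebraMap (𝓞 k) (𝓞 L) c + algebraMap (𝓞 k) (𝓞 L) (s γ'),
    by linear_combination h5⟩
  exact ⟨δ, x, a, h0, h1, h3, by simpa using ha⟩

end

theorem sel_st (hU : UNR_st) : SEL_st := by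
  intro q _ k L _ _ _ _ _ a ι hq hk hT h2
  have := hT.gal
  obtain ⟨θ, hθ⟩ := (hU.2.1 k L hT.unr).2.2
  obtain ⟨f1, h1⟩ := sgn_Sel (k := k) (L := L)
  obtain ⟨f2, h3⟩ := pad_Sel hq
  obtain ⟨f3, h4⟩ := two_Sel (k := k) h2 hθ
  have c3 : Nat.card (𝓞 k ⧸ Ideal.span {((2 : ℕ) : 𝓞 k)}) = 4 := by
    rw [← Submodule.cardQuot_apply, ← Ideal.absNorm_apply, Ideal.absNorm_span_natCast,
      RingOfIntegers.rank, hk]
    norm_num
  have c : Nat.card (((k →+* ℂ) → Prop) × (Prop × Prop) ×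
      (𝓞 k ⧸ Ideal.span {((2 : ℕ) : 𝓞 k)})) = 64 := by
    rw [Nat.card_prod, Nat.card_prod, Nat.card_prod, Nat.card_fun, c3,
      Nat.card_eq_fintype_card (α := Prop), Fintype.card_prop, Nat.card_eq_fintype_card, card_emb,
      hk]
    norm_num
  let e := Nat.equivFinOfCardPos (c.trans_ne (by norm_num))
  refine ⟨fun γ => Fin.cast c (e (f1 γ, f2 (ι γ), f3 γ)), fun γ γ' h he h' he' e1 => ?_⟩
  have e2 := e.injective (Fin.cast_injective c e1)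
  simp only [Prod.mk.injEq] at e2
  refine ⟨h1 γ γ' h h' e2.1, ?_, h4 γ γ' h he h' he' e2.2.2⟩
  rw [map_mul]
  exact h3 _ _ ((map_ne_zero ι).2 h.1) ((map_ne_zero ι).2 h'.1) e2.2.1

end Pool.Agent.MP_9b2bac_nt.B
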