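import Pool.Agent.MP_9b2bac_nt.B.BasicG

/-!
The tower of unramified quadratic extensions never stops.
-/

open NumberField Module Finset
open Pool.Agent.MP_14ad9d_nt.Full (Pr ord Deg1)

namespace Pool.Agent.MP_9b2bac_nt.B

/-- a multiplicative function with square one is a character -/
theorem sgn_Step {E L : Type} [Group E] [Field L] [CharZero L] (e : E → L)
    (h2 : ∀ x, e x ^ 2 = 1) (hm : ∀ x y, e (x * y) = e x * e y) :
    ∃ ε : E →* ℤˣ, ∀ x, ((ε x : ℤ) : L) = e x := by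
  have h : ∀ x, ∃ u : ℤˣ, ((u : ℤ) : L) = e x := fun x => by
    rcases sq_eq_one_iff.1 (h2 x) with h | h
    · exact ⟨1, by simp [h]⟩
    · exact ⟨-1, by simp [h]⟩
  choose u hu using h
  refine ⟨MonoidHom.mk' u fun x y => ?_, hu⟩
  apply Units.ext
  apply Int.cast_injective (α := L)
  rw [hu, hm, Units.val_mul, Int.cast_mul, hu, hu]

/-- two solutions whose product is a square up to the base give a character -/
theorem chr_Step {k L E : Type} [Field k] [Field L] [CharZero L] [Algebra k L] [Group E]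
    (π : E →* (L ≃ₐ[k] L)) (β β' : E → L) (γ γ' : L) (c : k) (h0 : γ ≠ 0) (h0' : γ' ≠ 0)
    (hc : c ≠ 0) (hb : ∀ x y, β (x * y) = β x * π x (β y))
    (hb' : ∀ x y, β' (x * y) = β' x * π x (β' y)) (hg : ∀ x, π x γ = γ * β x ^ 2)
    (hg' : ∀ x, π x γ' = γ' * β' x ^ 2) (hs : IsSquare (γ * γ' * algebraMap k L c)) :
    ∃ ε : E →* ℤˣ, ∀ x, π x = 1 → ((ε x : ℤ) : L) = β x * β' x := by
  obtain ⟨δ, hδ⟩ := hs
  have d0 : δ ≠ 0 := by
    rintro rfl
    exact mul_ne_zero (mul_ne_zero h0 h0') ((map_ne_zero _).2 hc) (hδ.trans (mul_zero 0))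
  have p0 : ∀ x, π x δ ≠ 0 := fun x => (map_ne_zero _).2 d0
  have h2 : ∀ x, (β x * β' x * δ / π x δ) ^ 2 = 1 := fun x => by
    have e := congrArg (π x) hδ
    rw [map_mul, map_mul, map_mul, hg, hg', AlgEquiv.commutes] at e
    rw [div_pow, div_eq_one_iff_eq (pow_ne_zero 2 (p0 x))]
    linear_combination e - (β x * β' x) ^ 2 * hδ
  obtain ⟨ε, hε⟩ := sgn_Step (fun x => β x * β' x * δ / π x δ) h2 fun x y => by
    have e : π x (β y * β' y * δ / π y δ) = β y * β' y * δ / π y δ := by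
      rcases sq_eq_one_iff.1 (h2 y) with h | h
      · rw [h, map_one]
      · rw [h, map_neg, map_one]
    have p1 : π x (π y δ) ≠ 0 := (map_ne_zero _).2 (p0 y)
    have p2 := p0 x
    rw [← e, hb, hb', map_mul π, AlgEquiv.mul_apply, map_div₀, map_mul, map_mul]
    field_simp
  refine ⟨ε, fun x hx => ?_⟩
  rw [hε, hx, AlgEquiv.one_apply, mul_div_assoc, div_self d0, mul_one]

theorem good_Step {q : ℕ} [Fact q.Prime] {L : Type} [Field L] [NumberField L]
    (ι : L →+* ℚ_[q]) {n : ℕ} (h : n % 4 = 1) (hs : IsSquare (n : ℚ_[q])) : Good ι (n : L) := by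
  obtain ⟨m, rfl⟩ : ∃ m, n = 4 * m + 1 := ⟨n / 4, by omega⟩
  refine ⟨fun σ => ?_, by rwa [map_natCast], 1, ((4 * m + 1 : ℕ) : 𝓞 L), 1, one_ne_zero,
    by rw [one_pow, mul_one]; exact (map_natCast (algebraMap (𝓞 L) L) _).symm,
    ⟨1, -(2 * m), by push_cast; ring⟩, m, by push_cast; ring⟩
  rw [map_natCast]
  positivity

theorem step_st (hU : UNR_st) (hG : GS_st) (hE : EXT_st) (hK : KI_st) (hS : SEL_st)
    (hC : CLS_st) (hQ : QUAD_st) : STEP_st := by
  intro q _ k L _ _ _ _ _ a c hq hB hT ⟨ι⟩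
  by_contra hne
  have hsq : ∀ γ : L, Inv k γ → Evn γ → Good ι γ → IsSquare γ := fun γ h1 h2 h3 => by
    by_contra h4
    exact hne (hQ q k L a ι γ hT h1 h2 h3 h4)
  have hR : Red2 L := hU.2.2.2 L fun h => hB.odd <| by
    have e := (hU.2.1 k L hT.unr).2.1
    have h1 : 2 ∣ (discr L).natAbs := Int.natCast_dvd.1 h
    rw [e] at h1
    exact Int.natCast_dvd.2 (Nat.prime_two.dvd_of_dvd_pow h1)
  obtain ⟨f, hf⟩ := hS q k L a ι hq hB.deg hT hR
  have hgal := hT.gal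
  have hP : IsPGroup 2 (L ≃ₐ[k] L) :=
    IsPGroup.of_card (n := a) (by rw [IsGalois.card_aut_eq_finrank, hT.deg])
  obtain ⟨d, r, hd, hr, E, _, π, χ, hπ, hχ1, hχ2, hχ3⟩ := hG _ hP
  have c0 : ∀ j, (c j : k) ≠ 0 := fun j => Nat.cast_ne_zero.2 fun e => by
    have := hB.md j
    omega
  have h1024 := hK k L (Fin 1024) univ (fun j => (c j : k)) (fun j _ => c0 j)
    (fun j _ j' _ => hsq _ (inv_base (mul_ne_zero (c0 j) (c0 j')))
      ((hB.evn j).mul (hB.evn j') (c0 j) (c0 j')).up (by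
        rw [← Nat.cast_mul, map_natCast]
        refine good_Step ι ?_ ?_
        · rw [Nat.mul_mod, hB.md, hB.md]
        · rw [Nat.cast_mul]
          exact (hB.sq j).mul (hB.sq j')))
    fun j _ j' _ => hB.ind j j'
  rw [hd, card_univ, Fintype.card_fin] at h1024
  have d10 : 10 ≤ d := (Nat.pow_le_pow_iff_right (a := 2) one_lt_two).1 (by simpa using h1024)
  have hrd : d + 12 < r := by
    have := hr (by omega)
    nlinarith
  choose β γ g0 _ b1 b2 b3 using fun i => hE k L a hT E π (χ i) hπ (hχ1 i) (hχ2 i)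
  have hI : ∀ i, Inv k (γ i) := fun i => ⟨g0 i, fun g => by
    obtain ⟨x, rfl⟩ := hπ g
    exact ⟨_, b3 i x⟩⟩
  obtain ⟨g, hg⟩ := hC k L a hT f (fun γ γ' h1 h2 h3 h4 h5 =>
    hsq _ (h1.mul h3) (h2.mul h4 h1.1 h3.1) (hf γ γ' h1 h2 h3 h4 h5)) d hd
  obtain ⟨i, j, hij, e⟩ := Fintype.exists_ne_map_eq_of_card_lt (fun i => g (γ i)) (by
    rw [Fintype.card_fin, Fintype.card_fun, ZMod.card, Fintype.card_fin]
    exact Nat.pow_lt_pow_right one_lt_two hrd)
  obtain ⟨z, z0, hz⟩ := hg _ _ (hI i) (hI j) e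
  obtain ⟨ε, hε⟩ := chr_Step π (β i) (β j) (γ i) (γ j) z (g0 i) (g0 j) z0 (b1 i) (b1 j) (b3 i)
    (b3 j) hz
  refine hij (hχ3 i j ε fun x hx => Units.ext (Int.cast_injective (α := L) ?_))
  rw [hε x hx, b2 i x hx, b2 j x hx, Units.val_mul, Int.cast_mul]

theorem tow_st (hU : UNR_st) (hB : BASE_st) (hS : STEP_st) : TOW_st := by
  obtain ⟨C, q₀, h3, hb⟩ := hB
  refine ⟨C, q₀, fun q _ hq m => ?_⟩
  obtain ⟨k, _, _, c, hc, hd, hι⟩ := hb q hq
  have h : ∃ (L : Type) (_ : Field L) (_ : NumberField L) (_ : Algebra k L),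
      Tw k L m ∧ Nonempty (L →+* ℚ_[q]) := by
    induction m with
    | zero => exact ⟨k, _, ‹_›, Algebra.id k, ⟨inferInstance, by simp, hc.real, hU.2.2.1 k⟩, hι⟩
    | succ m ih =>
      obtain ⟨L, _, _, _, h1, h2⟩ := ih
      exact hS q k L m c (by omega) hc h1 h2
  obtain ⟨L, _, _, _, hT, h2⟩ := h
  have e := (hU.2.1 k L hT.unr).2.1
  have hf : finrank ℚ L = 2 ^ (m + 1) := by
    rw [← finrank_mul_finrank ℚ k L, hc.deg, hT.deg, pow_succ']
  refine ⟨L, _, ‹_›, hT.real, hf, h2, hU.2.2.2 L fun h => hc.odd ?_, ?_⟩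
  · have h1 : 2 ∣ (discr L).natAbs := Int.natCast_dvd.1 h
    rw [e] at h1
    exact Int.natCast_dvd.2 (Nat.prime_two.dvd_of_dvd_pow h1)
  · have C1 : 1 ≤ C := (Int.natAbs_pos.2 (discr_ne_zero k)).trans_le hd
    rw [e, hf, hT.deg]
    exact (Nat.pow_le_pow_left hd _).trans
      (Nat.pow_le_pow_right C1 (Nat.pow_le_pow_right two_pos (Nat.le_succ m)))

end Pool.Agent.MP_9b2bac_nt.B
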