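import Pool.Agent.MP_9b2bac_nt.B.BasicG

/-!
Consequences of being unramified at all finite primes.
-/

open NumberField Module
open Pool.Agent.MP_14ad9d_nt.Full (Pr)
open scoped nonZeroDivisors

namespace Pool.Agent.MP_9b2bac_nt.B

attribute [local instance] FractionRing.liftAlgebra

theorem tower_Unr (k F L : Type) [Field k] [NumberField k] [Field F] [NumberField F] [Field L]
    [NumberField L] [Algebra k F] [Algebra F L] [Algebra k L] [IsScalarTower k F L] :
    Unr k L ↔ Unr k F ∧ Unr F L := by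
  unfold Unr
  rw [differentIdeal_eq_differentIdeal_mul_differentIdeal (𝓞 k) (𝓞 F) (𝓞 L)]
  constructor
  · intro h
    have h1 : differentIdeal (𝓞 F) (𝓞 L) = ⊤ := top_le_iff.mp (h ▸ Ideal.mul_le_left)
    have h2 : (differentIdeal (𝓞 k) (𝓞 F)).map (algebraMap (𝓞 F) (𝓞 L)) = ⊤ :=
      top_le_iff.mp (h ▸ Ideal.mul_le_right)
    refine ⟨?_, h1⟩
    exact (Ideal.map_eq_top_iff _ (FaithfulSMul.algebraMap_injective (𝓞 F) (𝓞 L))
      (algebraMap_isIntegral_iff.mpr inferInstance)).mp h2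
  · rintro ⟨h1, h2⟩
    rw [h1, h2, Ideal.map_top, Ideal.top_mul]

theorem ram_Unr (k L : Type) [Field k] [NumberField k] [Field L] [NumberField L] [Algebra k L]
    (h : Unr k L) (w : Pr L) : w.asIdeal.ramificationIdx (𝓞 k) = 1 := by
  have := w.isPrime
  have hu : Algebra.IsUnramifiedAt (𝓞 k) w.asIdeal := by
    rw [← not_dvd_differentIdeal_iff, show differentIdeal (𝓞 k) (𝓞 L) = ⊤ from h,
      Ideal.dvd_iff_le, top_le_iff]
    exact w.isPrime.ne_top
  exact Ideal.ramificationIdx_eq_one_of_isUnramifiedAt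

theorem disc_Unr (k L : Type) [Field k] [NumberField k] [Field L] [NumberField L] [Algebra k L]
    (h : Unr k L) : (discr L).natAbs = (discr k).natAbs ^ finrank k L := by
  rw [natAbs_discr_eq_absNorm_differentIdeal_mul_natAbs_discr_pow k (𝓞 k) L (𝓞 L),
    show differentIdeal (𝓞 k) (𝓞 L) = ⊤ from h, Ideal.absNorm_top, one_mul]

theorem tr_Unr (k L : Type) [Field k] [NumberField k] [Field L] [NumberField L] [Algebra k L]
    (h : Unr k L) : ∃ θ : 𝓞 L, Algebra.trace k L (θ : L) = 1 := by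
  let t : Ideal (𝓞 k) := LinearMap.range (Algebra.intTrace (𝓞 k) (𝓞 L))
  have htr : ∀ x : 𝓞 L, Algebra.trace k L (x : L) =
      algebraMap (𝓞 k) k (Algebra.intTrace (𝓞 k) (𝓞 L) x) :=
    fun x => (Algebra.algebraMap_intTrace (A := 𝓞 k) (K := k) (L := L) x).symm
  suffices ht : t = ⊤ by
    obtain ⟨θ, hθ⟩ : (1 : 𝓞 k) ∈ t := ht ▸ Submodule.mem_top
    exact ⟨θ, by rw [htr, hθ, map_one]⟩
  by_contra ht
  obtain ⟨p, hp, htp⟩ := Ideal.exists_le_maximal t ht
  have hp0 : p ≠ ⊥ := Ring.ne_bot_of_isMaximal_of_not_isField hp (RingOfIntegers.not_isField k)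
  have hm0 : p.map (algebraMap (𝓞 k) (𝓞 L)) ≠ ⊥ :=
    (Ideal.map_eq_bot_iff_of_injective (FaithfulSMul.algebraMap_injective (𝓞 k) (𝓞 L))).not.mpr hp0
  have hle : differentIdeal (𝓞 k) (𝓞 L) ≤ p.map (algebraMap (𝓞 k) (𝓞 L)) := by
    rw [differentialIdeal_le_iff (K := k) (L := L) hm0, Submodule.map_le_iff_le_comap]
    intro x hx
    rw [Submodule.restrictScalars_mem, FractionalIdeal.mem_coe,
      FractionalIdeal.mem_inv_iff (by simpa using hm0)] at hx
    rw [Submodule.mem_comap, LinearMap.coe_restrictScalars, ← FractionalIdeal.coe_one,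
      ← div_self (G₀ := FractionalIdeal (𝓞 k)⁰ k) (a := p) (by simpa using hp0),
      FractionalIdeal.mem_coe, FractionalIdeal.mem_div_iff_of_ne_zero (by simpa using hp0)]
    intro y hy'
    obtain ⟨y, hy, rfl : algebraMap (𝓞 k) k _ = _⟩ := (FractionalIdeal.mem_coeIdeal _).mp hy'
    obtain ⟨z, hz⟩ := (FractionalIdeal.mem_one_iff _).mp (hx _
      ((FractionalIdeal.mem_coeIdeal _).mpr ⟨_, Ideal.mem_map_of_mem _ hy, rfl⟩))
    have h1 : Algebra.trace k L (algebraMap (𝓞 L) L z) ∈ (p : FractionalIdeal (𝓞 k)⁰ k) :=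
      ⟨Algebra.intTrace (𝓞 k) (𝓞 L) z, htp ⟨z, rfl⟩, (htr z).symm⟩
    rwa [mul_comm, ← smul_eq_mul, ← map_smul, Algebra.smul_def, mul_comm,
      ← IsScalarTower.algebraMap_apply, IsScalarTower.algebraMap_apply (𝓞 k) (𝓞 L) L, ← hz]
  rw [show differentIdeal (𝓞 k) (𝓞 L) = ⊤ from h, top_le_iff] at hle
  exact hp.ne_top ((Ideal.map_eq_top_iff _ (FaithfulSMul.algebraMap_injective (𝓞 k) (𝓞 L))
      (algebraMap_isIntegral_iff.mpr inferInstance)).mp hle)

theorem triv_Unr (k L : Type) [Field k] [NumberField k] [Field L] [NumberField L] [Algebra k L]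
    (hS : ∀ S : Subalgebra k L, S = ⊤) : Unr k L := by
  unfold Unr
  have h := aeval_derivative_mem_differentIdeal (𝓞 k) k L (B := 𝓞 L) 0 (hS _)
  have h0 := minpoly.eq_X_sub_C_of_algebraMap_inj (B := 𝓞 L) (0 : 𝓞 k)
    (FaithfulSMul.algebraMap_injective (𝓞 k) (𝓞 L))
  rw [map_zero] at h0
  rw [h0] at h
  simpa [Ideal.eq_top_iff_one] using h

theorem refl_Unr (k : Type) [Field k] [NumberField k] : Unr k k :=
  triv_Unr k k fun _ => Subsingleton.elim _ _

theorem red_Unr (K : Type) [Field K] [NumberField K] (h : ¬ (2 : ℤ) ∣ discr K) : Red2 K := by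
  intro x hx
  have h' := (not_dvd_discr_iff_forall_liesOver K (𝓞 K) Int.prime_two).mp h
  have h2 : (Ideal.span {(2 : ℤ)}).map (algebraMap ℤ (𝓞 K)) = Ideal.span {(2 : 𝓞 K)} := by
    simp [Ideal.map_span]
  have h0 : (Ideal.span {(2 : 𝓞 K)}) ≠ ⊥ := by simp
  have hsq : Squarefree (Ideal.span {(2 : 𝓞 K)}) := by
    rw [UniqueFactorizationMonoid.squarefree_iff_nodup_normalizedFactors h0,
      Multiset.nodup_iff_count_le_one]
    intro P
    by_cases hP : P ∈ UniqueFactorizationMonoid.normalizedFactors (Ideal.span {(2 : 𝓞 K)})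
    · obtain ⟨hPp, hle⟩ := (Ideal.mem_normalizedFactors_iff h0).mp hP
      have hP0 : P ≠ ⊥ := fun e => h0 (le_bot_iff.mp (e ▸ hle))
      have hm : P.IsMaximal := hPp.isMaximal hP0
      have hl : P.LiesOver (Ideal.span {(2 : ℤ)}) :=
        (Ideal.liesOver_span_iff hPp.ne_top Int.prime_two).mpr
          (by simpa using hle (Ideal.mem_span_singleton_self _))
      have := h' P hm hl
      rw [← h2, ← Ideal.IsDedekindDomain.ramificationIdx_eq_normalizedFactors_count _ _ (h2 ▸ h0),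
        Ideal.ramificationIdx_eq_one_of_isUnramifiedAt]
    · rw [Multiset.count_eq_zero_of_notMem hP]
      exact zero_le_one
  have hr := hsq.isRadical 2 (Ideal.span {x}) (by
    rw [Ideal.span_singleton_pow, Ideal.dvd_iff_le, Ideal.span_singleton_le_span_singleton]
    exact hx)
  rwa [Ideal.dvd_iff_le, Ideal.span_singleton_le_span_singleton] at hr

theorem unr_st : UNR_st :=
  ⟨tower_Unr, fun k L _ _ _ _ _ h => ⟨ram_Unr k L h, disc_Unr k L h, tr_Unr k L h⟩, refl_Unr,
    red_Unr⟩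

end Pool.Agent.MP_9b2bac_nt.B
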