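import Pool.Agent.MP_9b2bac_nt.B.An
import Pool.Agent.MP_9b2bac_nt.B.Base
import Pool.Agent.MP_9b2bac_nt.B.Cls
import Pool.Agent.MP_9b2bac_nt.B.Ext
import Pool.Agent.MP_9b2bac_nt.B.Gs
import Pool.Agent.MP_9b2bac_nt.B.Hn2
import Pool.Agent.MP_9b2bac_nt.B.Quad
import Pool.Agent.MP_9b2bac_nt.B.Sel
import Pool.Agent.MP_9b2bac_nt.B.Step
import Pool.Agent.MP_9b2bac_nt.B.Unr

/-! The tower of totally real fields of bounded root discriminant inside the `q`-adic numbers. -/

namespace Pool.Agent.MP_9b2bac_nt.B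

theorem step : STEP_st :=
  step_st unr_st gs_st (ext_st unr_st (hn2_st unr_st an1_st an2_st)) ki_st (sel_st unr_st)
    (cls_st unr_st ki_st) (quad_st unr_st)

theorem tow : TOW_st := tow_st unr_st base_st step

end Pool.Agent.MP_9b2bac_nt.B
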